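import Mathlib
import Pool.Agent.H32x.PL.Four

set_option autoImplicit false

/-!
# Fourier inversion for random vectors with integer coordinates
-/

namespace Pool.Agent.H32x.AB

open Finset Filter Topology MeasureTheory
open Pool.Agent.H32x.PL (lam1 ee norm_ee continuous_ee ee_ne int_ee' Poi int_poi)

open Classical in
/-- from generating functions on the torus to point masses, in several variables -/
theorem fourier_int {ι Ω : Type*} [Fintype ι] [MeasurableSpace Ω] (μ : Measure Ω) [IsProbabilityMeasure μ]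
    (N : Ω → ι → ℕ) (hN : ∀ j, Measurable fun ω => N ω j) (ε : ℝ) (l : ι → ℝ)
    (h : ∀ s : ι → ℝ, ‖∫ ω, ∏ j, ee (s j) ^ N ω j ∂μ - ∏ j, Complex.exp (-(l j * (1 - ee (s j))))‖ ≤ ε)
    (k : ι → ℕ) :
    |∫ ω, (if ∀ j, N ω j = k j then (1 : ℝ) else 0) ∂μ - ∏ j, Poi (l j) (k j)| ≤ ε := by
  set ν : Measure (ι → ℝ) := Measure.pi (fun _ : ι => lam1) with hν
  have hp : IsProbabilityMeasure ν := by rw [hν]; infer_instance
  have hne : ∀ (s : ℝ) (m k : ℕ), ‖(ee s)⁻¹ ^ k * ee s ^ m‖ = 1 := by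
    intro s m k
    rw [norm_mul, norm_pow, norm_pow, norm_inv, norm_ee]; simp
  -- the point masses
  have hind : ∀ ω, ∫ s, ∏ j, ((ee (s j))⁻¹ ^ k j * ee (s j) ^ N ω j) ∂ν =
      ((if ∀ j, N ω j = k j then (1 : ℝ) else 0 : ℝ) : ℂ) := by
    intro ω
    rw [hν, integral_fintype_prod_eq_prod (f := fun j x => (ee x)⁻¹ ^ k j * ee x ^ N ω j)]
    simp only [int_ee']
    split_ifs with h1
    · rw [Complex.ofReal_one]
      exact Finset.prod_eq_one fun j _ => by rw [if_pos (h1 j)]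
    · rw [not_forall] at h1
      obtain ⟨j, hj⟩ := h1
      rw [Complex.ofReal_zero]
      exact Finset.prod_eq_zero (Finset.mem_univ j) (if_neg hj)
  have hpoi : ∫ s, ∏ j, ((ee (s j))⁻¹ ^ k j * Complex.exp (-(l j * (1 - ee (s j))))) ∂ν =
      ∏ j, (Poi (l j) (k j) : ℂ) := by
    rw [hν, integral_fintype_prod_eq_prod (f := fun j x => (ee x)⁻¹ ^ k j * Complex.exp (-(l j * (1 - ee x))))]
    exact Finset.prod_congr rfl fun j _ => int_poi _ _
  have hpc : ∀ j, Continuous fun x : ℝ => (ee x)⁻¹ ^ k j * Complex.exp (-(l j * (1 - ee x))) := by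
    intro j
    refine ((continuous_ee.inv₀ ee_ne).pow _).mul ?_
    refine Complex.continuous_exp.comp ?_
    exact (continuous_const.mul (continuous_const.sub continuous_ee)).neg
  have hIp : Integrable (fun s : ι → ℝ => ∏ j, ((ee (s j))⁻¹ ^ k j *
      Complex.exp (-(l j * (1 - ee (s j)))))) ν := by
    refine Integrable.of_bound (C := ∏ j, Real.exp (2 * |l j|)) ?_ (Filter.Eventually.of_forall fun s => ?_)
    · refine Continuous.aestronglyMeasurable ?_
      exact continuous_finset_prod _ fun j _ => (hpc j).comp (continuous_apply j)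
    · rw [norm_prod]
      refine Finset.prod_le_prod (fun _ _ => norm_nonneg _) fun j _ => ?_
      rw [norm_mul, norm_pow, norm_inv, norm_ee, inv_one, one_pow, one_mul]
      refine (Complex.norm_exp_le_exp_norm _).trans ?_
      rw [Real.exp_le_exp, norm_neg, norm_mul, Complex.norm_real, Real.norm_eq_abs]
      have h1 : ‖1 - ee (s j)‖ ≤ 2 := by
        refine (norm_sub_le _ _).trans ?_
        rw [norm_ee]; norm_num
      have h2 : 0 ≤ |l j| := abs_nonneg _
      nlinarith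
  -- the joint function
  have hm1 : ∀ j, Measurable fun x : (ι → ℝ) × Ω => ee (x.1 j) := fun j =>
    continuous_ee.measurable.comp ((measurable_pi_apply j).comp measurable_fst)
  have hmeas : Measurable fun x : (ι → ℝ) × Ω => ∏ j, ((ee (x.1 j))⁻¹ ^ k j * ee (x.1 j) ^ N x.2 j) := by
    refine Finset.measurable_fun_prod _ fun j _ => ?_
    refine (((hm1 j).inv).pow_const (k j)).mul ?_
    exact (hm1 j).pow ((hN j).comp measurable_snd)
  have hJ : Integrable (fun x : (ι → ℝ) × Ω => ∏ j, ((ee (x.1 j))⁻¹ ^ k j * ee (x.1 j) ^ N x.2 j))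
      (ν.prod μ) := by
    refine Integrable.of_bound (C := 1) hmeas.aestronglyMeasurable (Filter.Eventually.of_forall fun x => ?_)
    rw [norm_prod]
    exact Finset.prod_le_one (fun _ _ => norm_nonneg _) fun j _ => (hne _ _ _).le
  have hswap := integral_integral_swap (μ := ν) (ν := μ)
    (f := fun s ω => ∏ j, ((ee (s j))⁻¹ ^ k j * ee (s j) ^ N ω j)) hJ
  simp only [hind] at hswap
  rw [integral_complex_ofReal] at hswap
  have hfac : ∀ s : ι → ℝ, ∫ ω, ∏ j, ((ee (s j))⁻¹ ^ k j * ee (s j) ^ N ω j) ∂μ =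
      (∏ j, (ee (s j))⁻¹ ^ k j) * ∫ ω, ∏ j, ee (s j) ^ N ω j ∂μ := by
    intro s
    simp only [Finset.prod_mul_distrib]
    rw [integral_const_mul]
  have hIn : Integrable (fun s : ι → ℝ => ∫ ω, ∏ j, ((ee (s j))⁻¹ ^ k j * ee (s j) ^ N ω j) ∂μ) ν :=
    hJ.integral_prod_left
  have key : ((∫ ω, (if ∀ j, N ω j = k j then (1 : ℝ) else 0) ∂μ - ∏ j, Poi (l j) (k j) : ℝ) : ℂ) =
      ∫ s, (∏ j, (ee (s j))⁻¹ ^ k j) * (∫ ω, ∏ j, ee (s j) ^ N ω j ∂μ -
        ∏ j, Complex.exp (-(l j * (1 - ee (s j))))) ∂ν := by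
    have h1 : ∀ s : ι → ℝ, (∏ j, (ee (s j))⁻¹ ^ k j) * (∫ ω, ∏ j, ee (s j) ^ N ω j ∂μ -
        ∏ j, Complex.exp (-(l j * (1 - ee (s j))))) =
        ∫ ω, ∏ j, ((ee (s j))⁻¹ ^ k j * ee (s j) ^ N ω j) ∂μ -
        ∏ j, ((ee (s j))⁻¹ ^ k j * Complex.exp (-(l j * (1 - ee (s j))))) := by
      intro s
      rw [hfac, mul_sub]
      congr 1
      rw [← Finset.prod_mul_distrib]
    simp only [h1]
    rw [integral_sub hIn hIp, hpoi, hswap]
    push_cast
    rfl
  rw [← Real.norm_eq_abs, ← Complex.norm_real, key]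
  have h2 := norm_integral_le_of_norm_le_const (μ := ν) (C := ε)
    (f := fun s : ι → ℝ => (∏ j, (ee (s j))⁻¹ ^ k j) * (∫ ω, ∏ j, ee (s j) ^ N ω j ∂μ -
        ∏ j, Complex.exp (-(l j * (1 - ee (s j)))))) (Filter.Eventually.of_forall fun s => by
      rw [norm_mul, norm_prod]
      have : ∏ j, ‖(ee (s j))⁻¹ ^ k j‖ = 1 := Finset.prod_eq_one fun j _ => by
        rw [norm_pow, norm_inv, norm_ee]; simp
      rw [this, one_mul]
      exact h s)
  refine h2.trans (le_of_eq ?_)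
  simp [Measure.real]

end Pool.Agent.H32x.AB
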