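import Mathlib
import Pool.Agent.H39x.LP.Pair

/-!
# Near pairs of two sequences with the same random digits
-/

set_option autoImplicit false

namespace Pool.Agent.H32x.AB

open Finset Filter Topology MeasureTheory
open Pool.Agent.H305R2 (roughPart log_nat_tendsto ZZ ZZ_nonneg)
open Pool.Agent.TH888.R (ZZ_rate)
open Pool.Agent.H39x.LP

variable {b : ℕ} {κ a c₁ c₂ : ℝ} {A B : ℕ → ℕ}

open Classical in
theorem ph_mul_le2 (A B : ℕ → ℕ) (S : ℝ) (p q k l : ℕ) : ph A p k * ph B q l ≤
    (if gd A S p k ∧ gd B S q l then (1 : ℝ) else 0) + lph A S p k + lph B S q l := by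
  unfold ph lph gd
  by_cases h1 : (roughPart p (A p + k)).Prime
  · by_cases h2 : (roughPart q (B q + l)).Prime
    · by_cases h3 : (((A p + k) / roughPart p (A p + k) : ℕ) : ℝ) ≤ S
      · by_cases h4 : (((B q + l) / roughPart q (B q + l) : ℕ) : ℝ) ≤ S
        · simp only [h1, h2, h3, h4]; norm_num
        · simp only [h1, h2, h3, h4]; norm_num
      · by_cases h4 : (((B q + l) / roughPart q (B q + l) : ℕ) : ℝ) ≤ S
        · simp only [h1, h2, h3, h4]; norm_num
        · simp only [h1, h2, h3, h4]; norm_num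
    · simp only [h1, h2]
      norm_num
      split_ifs <;> norm_num
  · simp only [h1]
    norm_num
    split_ifs <;> norm_num

open Classical in
/-- the decomposition of the pair sum -/
theorem pair_split2 (A B : ℕ → ℕ) (S : ℝ) (p q m n : ℕ) :
    ∑ k ∈ range m, ph A p k * ∑ i ∈ range n, ph B q (n * k + i) ≤
      ∑ i ∈ range n, (((range m).filter (fun k => gd A S p k ∧ gd B S q (n * k + i))).card : ℝ) +
      n * ∑ k ∈ range m, lph A S p k + ∑ k ∈ range (m * n), lph B S q k := by
  have h1 : ∑ k ∈ range m, ph A p k * ∑ i ∈ range n, ph B q (n * k + i) ≤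
      ∑ k ∈ range m, ∑ i ∈ range n, ((if gd A S p k ∧ gd B S q (n * k + i) then (1 : ℝ) else 0) +
        lph A S p k + lph B S q (n * k + i)) := by
    refine Finset.sum_le_sum fun k _ => ?_
    rw [Finset.mul_sum]
    exact Finset.sum_le_sum fun i _ => ph_mul_le2 A B S p q k (n * k + i)
  refine h1.trans (le_of_eq ?_)
  simp only [Finset.sum_add_distrib]
  rw [double_sum (fun k => lph B S q k) m n]
  congr 1
  congr 1
  · rw [Finset.sum_comm]
    refine Finset.sum_congr rfl fun i _ => ?_
    rw [Finset.sum_ite, Finset.sum_const_zero, add_zero, Finset.sum_const, nsmul_eq_mul, mul_one]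
  · rw [Finset.mul_sum]
    refine Finset.sum_congr rfl fun k _ => ?_
    rw [Finset.sum_const, card_range, nsmul_eq_mul]

/-- **near pairs** of two sequences -/
theorem near2 (h : Fam b κ a c₁ A) (h' : Fam b κ a c₂ B) (D : ℕ) : ∃ K : ℝ, 0 < K ∧ ∀ᶠ p : ℕ in atTop, ∀ q : ℕ,
    p ≤ q → q ≤ D * p →
    (∑ k ∈ range (b ^ ex κ p), ph A p k * ∑ i ∈ range (b ^ (ex κ q - ex κ p)),
      ph B q (b ^ (ex κ q - ex κ p) * k + i)) / ((b ^ ex κ q : ℕ) : ℝ) ≤
      K * ((Real.log p / p) ^ 2 + (((b : ℝ) ^ (ex κ q - ex κ p))⁻¹ * (Real.log p / p))) := by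
  classical
  have ha := h.ha
  have hl := h.l0
  have hκ0 := h.κ0
  obtain ⟨E0, hE0⟩ : ∃ E0 : ℕ, a / Real.log b ≤ E0 := ⟨⌈a / Real.log b⌉₊, Nat.le_ceil _⟩
  rw [div_le_iff₀ hl] at hE0
  obtain ⟨E, hE⟩ : ∃ E : ℕ, E = E0 + 1 := ⟨_, rfl⟩
  have hEa : a ≤ E * Real.log b := by
    rw [hE]
    push_cast
    linarith
  have hE1' : 1 ≤ E := by omega
  obtain ⟨C, hC, hns⟩ := near_sieve h.hb (show (0 : ℝ) < a / 2 by positivity) (D + 4 * E)
  obtain ⟨K1, hK1, hone⟩ := h.one_pt
  obtain ⟨P1, hP1⟩ := eventually_atTop.1 (tail_one (show (0 : ℝ) < a / 8 / (D + 1) by positivity))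
  obtain ⟨P2, hP2⟩ := eventually_atTop.1 h.size
  obtain ⟨P3, hP3⟩ := eventually_atTop.1 h.hA
  obtain ⟨P5, hP5⟩ := eventually_atTop.1 h'.size
  obtain ⟨P6, hP6⟩ := eventually_atTop.1 h'.hA
  have e4 : ∀ᶠ q : ℕ in atTop, (q : ℝ) ≤ Real.exp (a / 8 * q) := by
    have := tendsto_natCast_atTop_atTop.eventually
      (Pool.Agent.Q278.KS.ev_poly 1 1 (show (0 : ℝ) < a / 8 by positivity))
    filter_upwards [this] with q hq
    simpa using hq
  obtain ⟨P4, hP4⟩ := eventually_atTop.1 e4
  obtain ⟨c, hcd⟩ : ∃ c : ℝ, c = Real.exp Real.eulerMascheroniConstant / a := ⟨_, rfl⟩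
  have hc0 : 0 < c := by rw [hcd]; positivity
  refine ⟨C + 4 + (c + K1), by positivity, ?_⟩
  filter_upwards [hns, hone, eventually_ge_atTop (max P1 (max P2 (max P3 P4))), eventually_ge_atTop (max P5 P6), eventually_ge_atTop 12,
    tendsto_natCast_atTop_atTop.eventually_ge_atTop (|c₁| / a),
    tendsto_natCast_atTop_atTop.eventually_ge_atTop (|c₂| / a), log_nat_tendsto.eventually_ge_atTop 1,
    tendsto_natCast_atTop_atTop.eventually_ge_atTop (Real.log b / (0.0834 * a))] with
    p hns hone hpP hpP' hp12 hpc hpc' hl1 hplb q hpq hqD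
  rw [div_le_iff₀ (by positivity)] at hplb
  have q1 : P1 ≤ q := (le_max_left _ _).trans (hpP.trans hpq)
  have p1 : P1 ≤ p := (le_max_left _ _).trans hpP
  have p2 : P2 ≤ p := ((le_max_left _ _).trans (le_max_right _ _)).trans hpP
  have p3 : P3 ≤ p := ((le_max_left _ _).trans ((le_max_right _ _).trans (le_max_right _ _))).trans hpP
  have p4 : P4 ≤ p := ((le_max_right _ _).trans ((le_max_right _ _).trans (le_max_right _ _))).trans hpP
  have p5 : P5 ≤ p := (le_max_left _ _).trans hpP'
  have p6 : P6 ≤ p := (le_max_right _ _).trans hpP'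
  have hp0 : (0 : ℝ) < p := by exact_mod_cast (by omega : 0 < p)
  have hp12' : (12 : ℝ) ≤ p := by exact_mod_cast hp12
  have hpq' : (p : ℝ) ≤ q := by exact_mod_cast hpq
  have hq0 : (0 : ℝ) < q := by linarith
  set m := b ^ ex κ p with hm
  set n := b ^ (ex κ q - ex κ p) with hn
  have hmn : b ^ ex κ q = m * n := by
    rw [hm, hn, ← pow_add]
    congr 1
    have := ex_mono hκ0 hpq
    omega
  have hb0 : 0 < b := by have := h.hb; omega
  have hm0' : 0 < m := by rw [hm]; positivity
  have hn0' : 0 < n := by rw [hn]; positivity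
  have hm0 : (0 : ℝ) < m := by exact_mod_cast hm0'
  have hn0 : (0 : ℝ) < n := by exact_mod_cast hn0'
  have hnr : (n : ℝ) = (b : ℝ) ^ (ex κ q - ex κ p) := by rw [hn]; push_cast; rfl
  have hBq : ((b ^ ex κ q : ℕ) : ℝ) = m * n := by rw [hmn]; push_cast; rfl
  have hBqle := h.B_le q
  have hBple := h.B_le p
  rw [← hm] at hBple
  rw [hBq] at hBqle
  have hm1 : (1 : ℝ) ≤ m := by exact_mod_cast hm0'
  have hn1 : (1 : ℝ) ≤ n := by exact_mod_cast hn0'
  have hnmn : (n : ℝ) ≤ m * n := le_mul_of_one_le_left hn0.le hm1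
  -- the sizes
  obtain ⟨S, hS⟩ : ∃ S : ℝ, S = Real.exp (a / 8 * p) := ⟨_, rfl⟩
  have hS1 : 1 ≤ S := by rw [hS]; exact Real.one_le_exp (by positivity)
  have hS0 : 0 < S := by linarith
  have hhalf : ∀ r : ℕ, p ≤ r → a * ((1 / 2) * r) ≤ Real.log b * ex κ r := by
    intro r hr
    have hpr : (p : ℝ) ≤ r := by exact_mod_cast hr
    have h1 := mul_le_mul_of_nonneg_left (ex_bounds hκ0 r).1.le hl.le
    have e : Real.log b * (κ * r - 1) = (κ * Real.log b) * r - Real.log b := by ring
    rw [e] at h1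
    have h2 : 0.5834 * a * r ≤ (κ * Real.log b) * r := mul_le_mul_of_nonneg_right h.hκ.le (by positivity)
    have h3 : Real.log b ≤ r * (0.0834 * a) := hplb.trans (mul_le_mul_of_nonneg_right hpr (by positivity))
    linarith
  have hexl : ∀ r : ℕ, p ≤ r → Real.exp (a / 8 * r) * r ≤ ((b ^ ex κ r : ℕ) : ℝ) := by
    intro r hr
    have hr0 : (0 : ℝ) < r := lt_of_lt_of_le hp0 (by exact_mod_cast hr)
    calc Real.exp (a / 8 * r) * r ≤ Real.exp (a / 8 * r) * Real.exp (a / 8 * r) := by
          have := hP4 r (by omega)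
          gcongr
      _ = Real.exp (a / 4 * r) := by rw [← Real.exp_add]; congr 1; ring
      _ ≤ Real.exp (a * ((1 / 2) * r)) := by
          rw [Real.exp_le_exp]
          have : 0 ≤ a * r := by positivity
          linarith
      _ ≤ Real.exp (Real.log b * ex κ r) := Real.exp_le_exp.2 (hhalf r hr)
      _ = _ := (pow_exp h.hb _).symm
  have hSp : S * p ≤ m := by rw [hS, hm]; exact hexl p le_rfl
  have hSq : S * q ≤ m * n := by
    rw [← hBq]
    refine le_trans ?_ (hexl q hpq)
    rw [hS]
    gcongr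
  have hAp := hP2 p p2
  have hAq := hP5 q (by omega)
  have hE1 : ∀ r : ℕ, 1 ≤ Real.exp (κ * (Real.log b * r)) := fun r => Real.one_le_exp (by positivity)
  have hbig : ∀ r : ℕ, 1 ≤ r → 4 * Real.exp (κ * (Real.log b * r)) ≤
      4 * (r : ℝ) ^ 2 * Real.exp (κ * (Real.log b * r)) := by
    intro r hr
    have h1 : (1 : ℝ) ≤ r := by exact_mod_cast hr
    have h2 : (1 : ℝ) ≤ (r : ℝ) ^ 2 := one_le_pow₀ h1
    have h3 := hE1 r
    refine mul_le_mul_of_nonneg_right ?_ (by linarith)
    linarith
  have hAp4 : 4 * Real.exp (κ * (Real.log b * p)) ≤ A p := (hbig p (by omega)).trans hAp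
  have hAq4 : 4 * Real.exp (κ * (Real.log b * q)) ≤ B q := (hbig q (by omega)).trans hAq
  have hEp := hE1 p
  have hEq := hE1 q
  have hAp1 : 4 ≤ A p := by
    have : (4 : ℝ) ≤ A p := by linarith
    exact_mod_cast this
  have hAq1 : 4 ≤ B q := by
    have : (4 : ℝ) ≤ B q := by linarith
    exact_mod_cast this
  have hnAq : n ≤ B q := by
    have : (n : ℝ) ≤ B q := by linarith
    exact_mod_cast this
  -- the tails
  have ht1 : ∑ i ∈ range m, lph A S p i ≤ 2 * m * (1 / (p : ℝ) ^ 2) := by
    refine hP1 p p1 A m S (by omega) ?_ hS1 hSp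
    rw [hS, Real.exp_le_exp]
    refine mul_le_mul_of_nonneg_right ?_ hp0.le
    refine div_le_self (by positivity) ?_
    have : (0 : ℝ) ≤ D := Nat.cast_nonneg D
    linarith
  have ht2 : ∑ i ∈ range (m * n), lph B S q i ≤ 2 * (m * n : ℕ) * (1 / (q : ℝ) ^ 2) := by
    refine hP1 q q1 B (m * n) S (by omega) ?_ hS1 (by push_cast; exact hSq)
    rw [hS, Real.exp_le_exp, div_mul_eq_mul_div, div_le_iff₀ (by positivity)]
    have h1 : (q : ℝ) ≤ D * p := by exact_mod_cast hqD
    calc a / 8 * q ≤ a / 8 * (D * p) := by gcongr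
      _ ≤ a / 8 * p * (D + 1) := by
          have : 0 ≤ a / 8 * (p : ℝ) := by positivity
          linarith
  -- the good pairs
  set W := Real.log p / (p : ℝ) with hW
  have hW0 : 0 < W := by rw [hW]; positivity
  have hgood : ∀ i ∈ range n, (((range m).filter (fun k => gd A S p k ∧ gd B S q (n * k + i))).card : ℝ) ≤
      C * W ^ 2 * m + if B q + i = n * A p then ∑ k ∈ range m, ph A p k else 0 := by
    intro i hi
    rw [mem_range] at hi
    by_cases hdeg : B q + i = n * A p
    · rw [if_pos hdeg]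
      have h1 : (((range m).filter (fun k => gd A S p k ∧ gd B S q (n * k + i))).card : ℝ) ≤
          ∑ k ∈ range m, ph A p k := by
        rw [Finset.card_filter, Nat.cast_sum]
        refine Finset.sum_le_sum fun k _ => ?_
        by_cases h2 : gd A S p k ∧ gd B S q (n * k + i)
        · rw [if_pos h2]
          unfold ph
          rw [if_pos h2.1.1]
          norm_num
        · rw [if_neg h2]
          simpa using ph_nonneg A p k
      have : 0 ≤ C * W ^ 2 * m := by positivity
      linarith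
    · rw [if_neg hdeg, add_zero]
      set R := (range m).filter (fun k => gd A S p k ∧ gd B S q (n * k + i)) with hR
      have hcard : R.card = (R.image (fun k => k + 1)).card :=
        (Finset.card_image_of_injective _ (add_left_injective 1)).symm
      rw [hcard]
      have hAqi : n ≤ B q + i := by omega
      have hb1 : ((A p - 1 : ℕ) : ℤ) = A p - 1 := by omega
      have hb2 : ((B q + i - n : ℕ) : ℤ) = B q + i - n := by omega
      have hnz : (n : ℤ) = (b : ℤ) ^ (ex κ q - ex κ p) := by rw [hn]; push_cast; rfl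
      have hrr : ((B q + i - n : ℕ) : ℤ) - (b : ℤ) ^ (ex κ q - ex κ p) * ((A p - 1 : ℕ) : ℤ) =
          ((B q + i : ℕ) : ℤ) - ((n * A p : ℕ) : ℤ) := by
        rw [hb1, hb2, ← hnz]
        push_cast
        ring
      have hb1r : ((A p - 1 : ℕ) : ℝ) = (A p : ℝ) - 1 := by
        rw [Nat.cast_sub (by omega)]; simp
      have hb2r : ((B q + i - n : ℕ) : ℝ) = (B q : ℝ) + i - n := by
        rw [Nat.cast_sub hAqi]; push_cast; ring
      have hE4p : Real.exp (a / 8 * p) * (2 * S) ≤ 2 * Real.exp (κ * (Real.log b * p)) := by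
        rw [hS]
        have h1 : Real.exp (a / 8 * p) * (2 * Real.exp (a / 8 * p)) = 2 * Real.exp (a / 4 * p) := by
          have : Real.exp (a / 4 * p) = Real.exp (a / 8 * p) * Real.exp (a / 8 * p) := by
            rw [← Real.exp_add]; congr 1; ring
          rw [this]; ring
        rw [h1]
        have h2 : Real.exp (a / 4 * p) ≤ Real.exp (κ * (Real.log b * p)) := by
          rw [Real.exp_le_exp]
          have h3 : 0 < a * p := by positivity
          have h4 : 0.5834 * a * p ≤ (κ * Real.log b) * p := mul_le_mul_of_nonneg_right h.hκ.le hp0.le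
          linarith
        linarith
      have hEpq : Real.exp (κ * (Real.log b * p)) ≤ Real.exp (κ * (Real.log b * q)) := by
        rw [Real.exp_le_exp]
        gcongr
      refine hns q (ex κ q - ex κ p) (A p - 1) (B q + i - n) m (Real.exp (a / 8 * p)) (2 * S) hpq
        (hqD.trans (Nat.mul_le_mul_right _ (by omega))) ?_ ?_ ?_ ?_ ?_ ?_ _ ?_ ?_
      · rw [hrr]
        intro h0
        apply hdeg
        have : ((B q + i : ℕ) : ℤ) = ((n * A p : ℕ) : ℤ) := by linarith
        exact_mod_cast this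
      · rw [hrr]
        have h1 : (((B q + i : ℕ) : ℤ) - ((n * A p : ℕ) : ℤ)).natAbs ≤ (B q + i) + n * A p := by omega
        refine h1.trans ?_
        have hexb : ∀ (F : ℕ → ℕ) (cc : ℝ) (r : ℕ), |Real.log (F r) - a * r| ≤ cc → |cc| / a ≤ p → p ≤ r →
            F r ≤ b ^ (2 * E * r) := by
          intro F cc r hFr hpc hpr
          have h2 := (abs_le.1 hFr).2
          have hr0 : (0 : ℝ) < r := lt_of_lt_of_le hp0 (by exact_mod_cast hpr)
          have h3 : (F r : ℝ) ≤ ((b ^ (2 * E * r) : ℕ) : ℝ) := by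
            rw [pow_exp h.hb]
            rcases Nat.eq_zero_or_pos (F r) with h0 | h0
            · rw [h0, Nat.cast_zero]; exact (Real.exp_pos _).le
            have h0' : (0 : ℝ) < F r := by exact_mod_cast h0
            rw [← Real.log_le_iff_le_exp h0']
            push_cast
            have h4 : |cc| ≤ a * r := by
              rw [div_le_iff₀ ha] at hpc
              have h5 : (p : ℝ) ≤ r := by exact_mod_cast hpr
              calc |cc| ≤ p * a := hpc
                _ ≤ r * a := by gcongr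
                _ = a * r := mul_comm _ _
            have := le_abs_self cc
            have h6 : a * r ≤ E * Real.log b * r := mul_le_mul_of_nonneg_right hEa hr0.le
            linarith
          exact_mod_cast h3
        have hA1 := hexb B c₂ q (hP6 q (by omega)) hpc' hpq
        have hA2 := hexb A c₁ p (hP3 p p3) hpc le_rfl
        have hnb : n ≤ b ^ (E * q) := by
          have h5 : (n : ℝ) ≤ ((b ^ (E * q) : ℕ) : ℝ) := by
            rw [pow_exp h.hb (E * q)]
            refine (hnmn.trans hBqle).trans (Real.exp_le_exp.2 ?_)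
            push_cast
            have h6 : κ * Real.log b * q ≤ a * q := mul_le_mul_of_nonneg_right h.hκ1.le hq0.le
            have h7 : a * q ≤ E * Real.log b * q := mul_le_mul_of_nonneg_right hEa hq0.le
            linarith
          exact_mod_cast h5
        have hA2' : A p ≤ b ^ (2 * E * q) := hA2.trans (Nat.pow_le_pow_right hb0 (Nat.mul_le_mul_left _ hpq))
        have hb3 : 3 ≤ b ^ (E * q) := by
          calc 3 ≤ 2 ^ 2 := by norm_num
            _ ≤ b ^ 2 := Nat.pow_le_pow_left h.hb 2
            _ ≤ b ^ (E * q) := Nat.pow_le_pow_right hb0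
                ((by omega : 2 ≤ 1 * q).trans (Nat.mul_le_mul_right q hE1'))
        have hq3 : b ^ (3 * E * q) = b ^ (E * q) * b ^ (2 * E * q) := by rw [← pow_add]; congr 1; ring
        have hq4 : b ^ (4 * E * q) = b ^ (E * q) * b ^ (3 * E * q) := by rw [← pow_add]; congr 1; ring
        have e1 : b ^ (E * q) ≤ b ^ (3 * E * q) :=
          Nat.pow_le_pow_right hb0 (Nat.mul_le_mul_right q (by omega))
        have e2 : b ^ (2 * E * q) ≤ b ^ (3 * E * q) :=
          Nat.pow_le_pow_right hb0 (Nat.mul_le_mul_right q (by omega))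
        have e3 : n * A p ≤ b ^ (3 * E * q) := by rw [hq3]; exact Nat.mul_le_mul hnb hA2'
        calc (B q + i) + n * A p ≤ 3 * b ^ (3 * E * q) := by omega
          _ ≤ b ^ (E * q) * b ^ (3 * E * q) := Nat.mul_le_mul_right _ hb3
          _ = b ^ (4 * E * q) := hq4.symm
          _ ≤ b ^ ((D + 4 * E) * q) := Nat.pow_le_pow_right hb0 (Nat.mul_le_mul_right _ (by omega))
      · rw [hm, pow_exp h.hb, Real.log_exp]
        have := hhalf p le_rfl
        linarith
      · calc (m : ℝ) ^ ((1 : ℝ) / 8) ≤ (Real.exp (κ * (Real.log b * p))) ^ ((1 : ℝ) / 8) :=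
              Real.rpow_le_rpow hm0.le hBple (by norm_num)
          _ = Real.exp (κ * Real.log b * p / 8) := by rw [← Real.exp_mul]; congr 1; ring
          _ ≤ Real.exp (a / 8 * p) := by
              rw [Real.exp_le_exp]
              have h6 : κ * Real.log b * p ≤ a * p := mul_le_mul_of_nonneg_right h.hκ1.le hp0.le
              linarith
      · rw [hb1r]
        linarith
      · rw [hb2r]
        have hi0 : (0 : ℝ) ≤ i := Nat.cast_nonneg i
        linarith
      · intro k hk
        rw [mem_image] at hk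
        obtain ⟨k', hk', rfl⟩ := hk
        rw [hR, mem_filter, mem_range] at hk'
        rw [mem_Icc]
        omega
      · intro k hk
        rw [mem_image] at hk
        obtain ⟨k', hk', rfl⟩ := hk
        rw [hR, mem_filter] at hk'
        obtain ⟨_, hg1, hg2⟩ := hk'
        have e1 : k' + 1 + (A p - 1) = A p + k' := by omega
        have e2 : b ^ (ex κ q - ex κ p) * (k' + 1) + (B q + i - n) = B q + (n * k' + i) := by
          rw [← hn]
          have : n * (k' + 1) = n * k' + n := by ring
          omega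
        rw [e1, e2]
        exact ⟨⟨hg1.1, by linarith [hg1.2]⟩, hg2.1, by linarith [hg2.2]⟩
  -- the assembly
  have hph0 : 0 ≤ ∑ k ∈ range m, ph A p k := Finset.sum_nonneg fun k _ => ph_nonneg A p k
  have hsum : ∑ i ∈ range n, (((range m).filter (fun k => gd A S p k ∧ gd B S q (n * k + i))).card : ℝ) ≤
      n * (C * W ^ 2 * m) + ∑ k ∈ range m, ph A p k := by
    refine (Finset.sum_le_sum hgood).trans ?_
    rw [Finset.sum_add_distrib, Finset.sum_const, card_range, nsmul_eq_mul]
    have := sum_deg (B q) (n * A p) n hph0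
    linarith
  have hsplit := pair_split2 A B S p q m n
  have hpone : (∑ k ∈ range m, ph A p k) ≤ (c + K1) * W * m := by
    have h1 := (abs_le.1 hone).2
    have h2 : (∑ k ∈ range m, ph A p k) / (m : ℝ) ≤ (c + K1) * W := by
      have h3 : cw a p = c * W := by unfold cw; rw [hcd, hW]
      have h4 : K1 / p ≤ K1 * W := by
        rw [hW, mul_div_assoc']
        gcongr
        exact le_mul_of_one_le_right hK1.le hl1
      rw [h3] at h1
      have h5 : (c + K1) * W = c * W + K1 * W := by ring
      linarith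
    rwa [div_le_iff₀ hm0] at h2
  have hpinv : 1 / (p : ℝ) ^ 2 ≤ W ^ 2 := by
    rw [hW, div_pow]
    gcongr
    exact one_le_pow₀ hl1
  have hqinv : 1 / (q : ℝ) ^ 2 ≤ W ^ 2 := by
    refine le_trans ?_ hpinv
    gcongr
  rw [hBq, div_le_iff₀ (by positivity), ← hnr]
  have hfin : ∑ k ∈ range m, ph A p k * ∑ i ∈ range n, ph B q (n * k + i) ≤
      n * (C * W ^ 2 * m) + (c + K1) * W * m + n * (2 * m * W ^ 2) + 2 * (m * n) * W ^ 2 := by
    have h1 : n * ∑ k ∈ range m, lph A S p k ≤ n * (2 * m * W ^ 2) := by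
      refine mul_le_mul_of_nonneg_left (ht1.trans ?_) hn0.le
      gcongr
    have h2 : ∑ k ∈ range (m * n), lph B S q k ≤ 2 * (m * n) * W ^ 2 := by
      refine ht2.trans ?_
      push_cast
      gcongr
    linarith
  refine hfin.trans ?_
  have e1 : (C + 4 + (c + K1)) * (W ^ 2 + (n : ℝ)⁻¹ * W) * (m * n) =
      (n * (C * W ^ 2 * m) + (c + K1) * W * m + n * (2 * m * W ^ 2) + 2 * (m * n) * W ^ 2) +
      ((c + K1) * W ^ 2 * (m * n) + (C + 4) * W * m) := by
    field_simp
    ring
  rw [e1]
  have : 0 ≤ (c + K1) * W ^ 2 * (m * n) + (C + 4) * W * m := by positivity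
  linarith

end Pool.Agent.H32x.AB
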