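import Mathlib
import Pool.Agent.H32x.AB.Pair2

/-!
# Near pairs, for numbers
-/

set_option autoImplicit false

namespace Pool.Agent.H32x.AB

open Finset Filter Topology MeasureTheory
open Pool.Agent.H305R2 (roughPart log_nat_tendsto ZZ ZZ_nonneg)
open Pool.Agent.TH888.R (ZZ_rate)
open Pool.Agent.H39x.LP

theorem near_num {b : ℕ} (hb : 2 ≤ b) {κ a : ℝ} (ha : 0 < a) (hκ : 0.5834 * a < κ * Real.log b)
    (hκ1 : κ * Real.log b < a) (D : ℕ) : ∃ C : ℝ, 0 < C ∧ ∀ᶠ p : ℕ in atTop, ∀ q d α β m : ℕ,
    p ≤ q → q ≤ D * p → Real.exp (a / 4 * p) ≤ m → (m : ℝ) ≤ Real.exp (κ * (Real.log b * p)) →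
    (m : ℝ) * ((b ^ d : ℕ) : ℝ) ≤ Real.exp (κ * (Real.log b * q)) →
    4 * Real.exp (κ * (Real.log b * p)) ≤ α → 4 * Real.exp (κ * (Real.log b * q)) ≤ β →
    (α : ℝ) ≤ Real.exp (2 * a * p) → (β : ℝ) ≤ Real.exp (2 * a * q) →
    ∑ k ∈ range m, ph (fun _ => α) p k * ∑ l ∈ range (b ^ d), ph (fun _ => β) q (b ^ d * k + l) ≤
      C * (Real.log p / p) ^ 2 * (m * ((b ^ d : ℕ) : ℝ)) +
        (open Classical in if ∃ l < b ^ d, β + l = b ^ d * α then ∑ k ∈ range m, ph (fun _ => α) p k else 0) := by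
  classical
  have hl : 0 < Real.log b := Real.log_pos (by exact_mod_cast hb)
  have hκ0 : 0 < κ := by
    by_contra h4
    have : κ * Real.log b ≤ 0 := mul_nonpos_of_nonpos_of_nonneg (not_lt.1 h4) hl.le
    linarith
  obtain ⟨E0, hE0⟩ : ∃ E0 : ℕ, a / Real.log b ≤ E0 := ⟨⌈a / Real.log b⌉₊, Nat.le_ceil _⟩
  rw [div_le_iff₀ hl] at hE0
  obtain ⟨E, hE⟩ : ∃ E : ℕ, E = E0 + 1 := ⟨_, rfl⟩
  have hEa : a ≤ E * Real.log b := by
    rw [hE]
    push_cast
    linarith
  have hE1' : 1 ≤ E := by omega
  obtain ⟨C, hC, hns⟩ := near_sieve hb (show (0 : ℝ) < a / 4 by positivity) (D + 4 * E)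
  obtain ⟨P1, hP1⟩ := eventually_atTop.1 (tail_one (show (0 : ℝ) < a / 16 / (D + 1) by positivity))
  have e4 : ∀ᶠ q : ℕ in atTop, ((D : ℝ) + 1) * (q : ℝ) ≤ Real.exp (a / 16 * q) := by
    have := tendsto_natCast_atTop_atTop.eventually
      (Pool.Agent.Q278.KS.ev_poly ((D : ℝ) + 1) 1 (show (0 : ℝ) < a / 16 by positivity))
    filter_upwards [this] with q hq
    simpa using hq
  refine ⟨C + 4, by positivity, ?_⟩
  filter_upwards [hns, eventually_ge_atTop P1, eventually_ge_atTop 12,
    log_nat_tendsto.eventually_ge_atTop 1, e4] with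
    p hns hpP hp12 hl1 he4 q d α β m hpq hqD hm4 hmκ hmnκ hα4 hβ4 hα2 hβ2
  have q1 : P1 ≤ q := hpP.trans hpq
  have hp0 : (0 : ℝ) < p := by exact_mod_cast (by omega : 0 < p)
  have hpq' : (p : ℝ) ≤ q := by exact_mod_cast hpq
  have hq0 : (0 : ℝ) < q := by linarith
  have hD0 : (0 : ℝ) ≤ D := Nat.cast_nonneg D
  set n := b ^ d with hn
  have hb0 : 0 < b := by omega
  have hn0' : 0 < n := by rw [hn]; positivity
  have hm0 : (0 : ℝ) < m := lt_of_lt_of_le (Real.exp_pos _) hm4
  have hm0' : 0 < m := by exact_mod_cast hm0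
  have hn0 : (0 : ℝ) < n := by exact_mod_cast hn0'
  have hm1 : (1 : ℝ) ≤ m := by exact_mod_cast hm0'
  have hn1 : (1 : ℝ) ≤ n := by exact_mod_cast hn0'
  have hnmn : (n : ℝ) ≤ m * n := le_mul_of_one_le_left hn0.le hm1
  have hmmn : (m : ℝ) ≤ m * n := le_mul_of_one_le_right hm0.le hn1
  -- the sizes
  obtain ⟨S, hS⟩ : ∃ S : ℝ, S = Real.exp (a / 16 * p) := ⟨_, rfl⟩
  have hS1 : 1 ≤ S := by rw [hS]; exact Real.one_le_exp (by positivity)
  have hS0 : 0 < S := by linarith
  have hSD : S * ((D + 1) * p) ≤ m := by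
    rw [hS]
    calc Real.exp (a / 16 * p) * ((D + 1) * p) ≤ Real.exp (a / 16 * p) * Real.exp (a / 16 * p) := by
          gcongr
      _ = Real.exp (a / 8 * p) := by rw [← Real.exp_add]; congr 1; ring
      _ ≤ Real.exp (a / 4 * p) := by
          rw [Real.exp_le_exp]
          have : 0 ≤ a * p := by positivity
          linarith
      _ ≤ m := hm4
  have hSp : S * p ≤ m := by
    refine le_trans ?_ hSD
    refine mul_le_mul_of_nonneg_left ?_ hS0.le
    have : 0 ≤ D * (p : ℝ) := by positivity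
    linarith
  have hSq : S * q ≤ m * n := by
    refine le_trans ?_ (hSD.trans hmmn)
    refine mul_le_mul_of_nonneg_left ?_ hS0.le
    have h1 : (q : ℝ) ≤ D * p := by exact_mod_cast hqD
    linarith
  have hE1 : ∀ r : ℕ, 1 ≤ Real.exp (κ * (Real.log b * r)) := fun r => Real.one_le_exp (by positivity)
  have hEp := hE1 p
  have hEq := hE1 q
  have hα1 : 4 ≤ α := by
    have : (4 : ℝ) ≤ α := by linarith
    exact_mod_cast this
  have hβ1 : 4 ≤ β := by
    have : (4 : ℝ) ≤ β := by linarith
    exact_mod_cast this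
  have hnβ : n ≤ β := by
    have : (n : ℝ) ≤ β := by linarith
    exact_mod_cast this
  -- the tails
  have ht1 : ∑ i ∈ range m, lph (fun _ => α) S p i ≤ 2 * m * (1 / (p : ℝ) ^ 2) := by
    refine hP1 p hpP (fun _ => α) m S (by show 1 ≤ α; omega) ?_ hS1 hSp
    rw [hS, Real.exp_le_exp]
    refine mul_le_mul_of_nonneg_right ?_ hp0.le
    exact div_le_self (by positivity) (by linarith)
  have ht2 : ∑ i ∈ range (m * n), lph (fun _ => β) S q i ≤ 2 * (m * n : ℕ) * (1 / (q : ℝ) ^ 2) := by
    refine hP1 q q1 (fun _ => β) (m * n) S (by show 1 ≤ β; omega) ?_ hS1 (by push_cast; exact hSq)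
    rw [hS, Real.exp_le_exp, div_mul_eq_mul_div, div_le_iff₀ (by positivity)]
    have h1 : (q : ℝ) ≤ D * p := by exact_mod_cast hqD
    calc a / 16 * q ≤ a / 16 * (D * p) := by gcongr
      _ ≤ a / 16 * p * (D + 1) := by
          have : 0 ≤ a / 16 * (p : ℝ) := by positivity
          linarith
  -- the good pairs
  set W := Real.log p / (p : ℝ) with hW
  have hW0 : 0 < W := by rw [hW]; positivity
  have hgood : ∀ i ∈ range n, (((range m).filter (fun k => gd (fun _ => α) S p k ∧
      gd (fun _ => β) S q (n * k + i))).card : ℝ) ≤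
      C * W ^ 2 * m + if β + i = n * α then ∑ k ∈ range m, ph (fun _ => α) p k else 0 := by
    intro i hi
    rw [mem_range] at hi
    by_cases hdeg : β + i = n * α
    · rw [if_pos hdeg]
      have h1 : (((range m).filter (fun k => gd (fun _ => α) S p k ∧
          gd (fun _ => β) S q (n * k + i))).card : ℝ) ≤ ∑ k ∈ range m, ph (fun _ => α) p k := by
        rw [Finset.card_filter, Nat.cast_sum]
        refine Finset.sum_le_sum fun k _ => ?_
        by_cases h2 : gd (fun _ => α) S p k ∧ gd (fun _ => β) S q (n * k + i)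
        · rw [if_pos h2]
          unfold ph
          rw [if_pos h2.1.1]
          norm_num
        · rw [if_neg h2]
          simpa using ph_nonneg (fun _ => α) p k
      have : 0 ≤ C * W ^ 2 * m := by positivity
      linarith
    · rw [if_neg hdeg, add_zero]
      set R := (range m).filter (fun k => gd (fun _ => α) S p k ∧ gd (fun _ => β) S q (n * k + i)) with hR
      have hcard : R.card = (R.image (fun k => k + 1)).card :=
        (Finset.card_image_of_injective _ (add_left_injective 1)).symm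
      rw [hcard]
      have hAqi : n ≤ β + i := by omega
      have hb1 : ((α - 1 : ℕ) : ℤ) = α - 1 := by omega
      have hb2 : ((β + i - n : ℕ) : ℤ) = β + i - n := by omega
      have hnz : (n : ℤ) = (b : ℤ) ^ d := by rw [hn]; push_cast; rfl
      have hrr : ((β + i - n : ℕ) : ℤ) - (b : ℤ) ^ d * ((α - 1 : ℕ) : ℤ) =
          ((β + i : ℕ) : ℤ) - ((n * α : ℕ) : ℤ) := by
        rw [hb1, hb2, ← hnz]
        push_cast
        ring
      have hb1r : ((α - 1 : ℕ) : ℝ) = (α : ℝ) - 1 := by
        rw [Nat.cast_sub (by omega)]; simp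
      have hb2r : ((β + i - n : ℕ) : ℝ) = (β : ℝ) + i - n := by
        rw [Nat.cast_sub hAqi]; push_cast; ring
      have hE4p : Real.exp (a / 8 * p) * (2 * S) ≤ 2 * Real.exp (κ * (Real.log b * p)) := by
        rw [hS]
        have h1 : Real.exp (a / 8 * p) * (2 * Real.exp (a / 16 * p)) = 2 * Real.exp (3 * a / 16 * p) := by
          have : Real.exp (3 * a / 16 * p) = Real.exp (a / 8 * p) * Real.exp (a / 16 * p) := by
            rw [← Real.exp_add]; congr 1; ring
          rw [this]; ring
        rw [h1]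
        have h2 : Real.exp (3 * a / 16 * p) ≤ Real.exp (κ * (Real.log b * p)) := by
          rw [Real.exp_le_exp]
          have h3 : 0 < a * p := by positivity
          have h4 : 0.5834 * a * p ≤ (κ * Real.log b) * p := mul_le_mul_of_nonneg_right hκ.le hp0.le
          linarith
        linarith
      have hEpq : Real.exp (κ * (Real.log b * p)) ≤ Real.exp (κ * (Real.log b * q)) := by
        rw [Real.exp_le_exp]
        gcongr
      refine hns q d (α - 1) (β + i - n) m (Real.exp (a / 8 * p)) (2 * S) hpq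
        (hqD.trans (Nat.mul_le_mul_right _ (by omega))) ?_ ?_ ?_ ?_ ?_ ?_ _ ?_ ?_
      · rw [hrr]
        intro h0
        apply hdeg
        have : ((β + i : ℕ) : ℤ) = ((n * α : ℕ) : ℤ) := by linarith
        exact_mod_cast this
      · rw [hrr]
        have h1 : (((β + i : ℕ) : ℤ) - ((n * α : ℕ) : ℤ)).natAbs ≤ (β + i) + n * α := by omega
        refine h1.trans ?_
        have hexb : ∀ (x r : ℕ), (x : ℝ) ≤ Real.exp (2 * a * r) → x ≤ b ^ (2 * E * r) := by
          intro x r hx
          have h3 : (x : ℝ) ≤ ((b ^ (2 * E * r) : ℕ) : ℝ) := by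
            rw [pow_exp hb]
            refine hx.trans (Real.exp_le_exp.2 ?_)
            push_cast
            have h6 : a * r ≤ E * Real.log b * r := mul_le_mul_of_nonneg_right hEa (Nat.cast_nonneg _)
            linarith
          exact_mod_cast h3
        have hA1 := hexb β q hβ2
        have hA2 := hexb α p hα2
        have hnb : n ≤ b ^ (E * q) := by
          have h5 : (n : ℝ) ≤ ((b ^ (E * q) : ℕ) : ℝ) := by
            rw [pow_exp hb (E * q)]
            refine (hnmn.trans hmnκ).trans (Real.exp_le_exp.2 ?_)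
            push_cast
            have h6 : κ * Real.log b * q ≤ a * q := mul_le_mul_of_nonneg_right hκ1.le hq0.le
            have h7 : a * q ≤ E * Real.log b * q := mul_le_mul_of_nonneg_right hEa hq0.le
            linarith
          exact_mod_cast h5
        have hA2' : α ≤ b ^ (2 * E * q) := hA2.trans (Nat.pow_le_pow_right hb0 (Nat.mul_le_mul_left _ hpq))
        have hb3 : 3 ≤ b ^ (E * q) := by
          calc 3 ≤ 2 ^ 2 := by norm_num
            _ ≤ b ^ 2 := Nat.pow_le_pow_left hb 2
            _ ≤ b ^ (E * q) := Nat.pow_le_pow_right hb0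
                ((by omega : 2 ≤ 1 * q).trans (Nat.mul_le_mul_right q hE1'))
        have hq3 : b ^ (3 * E * q) = b ^ (E * q) * b ^ (2 * E * q) := by rw [← pow_add]; congr 1; ring
        have hq4 : b ^ (4 * E * q) = b ^ (E * q) * b ^ (3 * E * q) := by rw [← pow_add]; congr 1; ring
        have e1 : b ^ (E * q) ≤ b ^ (3 * E * q) :=
          Nat.pow_le_pow_right hb0 (Nat.mul_le_mul_right q (by omega))
        have e2 : b ^ (2 * E * q) ≤ b ^ (3 * E * q) :=
          Nat.pow_le_pow_right hb0 (Nat.mul_le_mul_right q (by omega))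
        have e3 : n * α ≤ b ^ (3 * E * q) := by rw [hq3]; exact Nat.mul_le_mul hnb hA2'
        calc (β + i) + n * α ≤ 3 * b ^ (3 * E * q) := by omega
          _ ≤ b ^ (E * q) * b ^ (3 * E * q) := Nat.mul_le_mul_right _ hb3
          _ = b ^ (4 * E * q) := hq4.symm
          _ ≤ b ^ ((D + 4 * E) * q) := Nat.pow_le_pow_right hb0 (Nat.mul_le_mul_right _ (by omega))
      · rw [Real.le_log_iff_exp_le hm0]
        exact hm4
      · calc (m : ℝ) ^ ((1 : ℝ) / 8) ≤ (Real.exp (κ * (Real.log b * p))) ^ ((1 : ℝ) / 8) :=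
              Real.rpow_le_rpow hm0.le hmκ (by norm_num)
          _ = Real.exp (κ * Real.log b * p / 8) := by rw [← Real.exp_mul]; congr 1; ring
          _ ≤ Real.exp (a / 8 * p) := by
              rw [Real.exp_le_exp]
              have h6 : κ * Real.log b * p ≤ a * p := mul_le_mul_of_nonneg_right hκ1.le hp0.le
              linarith
      · rw [hb1r]
        linarith
      · rw [hb2r]
        have hi0 : (0 : ℝ) ≤ i := Nat.cast_nonneg i
        linarith
      · intro k hk
        rw [mem_image] at hk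
        obtain ⟨k', hk', rfl⟩ := hk
        rw [hR, mem_filter, mem_range] at hk'
        rw [mem_Icc]
        omega
      · intro k hk
        rw [mem_image] at hk
        obtain ⟨k', hk', rfl⟩ := hk
        rw [hR, mem_filter] at hk'
        obtain ⟨_, hg1, hg2⟩ := hk'
        have e1 : k' + 1 + (α - 1) = α + k' := by omega
        have e2 : b ^ d * (k' + 1) + (β + i - n) = β + (n * k' + i) := by
          rw [← hn]
          have : n * (k' + 1) = n * k' + n := by ring
          omega
        rw [e1, e2]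
        exact ⟨⟨hg1.1, by linarith [hg1.2]⟩, hg2.1, by linarith [hg2.2]⟩
  -- the assembly
  have hph0 : 0 ≤ ∑ k ∈ range m, ph (fun _ => α) p k := Finset.sum_nonneg fun k _ => ph_nonneg _ p k
  have hsum : ∑ i ∈ range n, (((range m).filter (fun k => gd (fun _ => α) S p k ∧
      gd (fun _ => β) S q (n * k + i))).card : ℝ) ≤
      n * (C * W ^ 2 * m) + if ∃ l < n, β + l = n * α then ∑ k ∈ range m, ph (fun _ => α) p k else 0 := by
    refine (Finset.sum_le_sum hgood).trans ?_
    rw [Finset.sum_add_distrib, Finset.sum_const, card_range, nsmul_eq_mul]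
    by_cases hex : ∃ l < n, β + l = n * α
    · rw [if_pos hex]
      have := sum_deg β (n * α) n hph0
      linarith
    · rw [if_neg hex]
      have : ∑ i ∈ range n, (if β + i = n * α then ∑ k ∈ range m, ph (fun _ => α) p k else 0) = 0 := by
        refine Finset.sum_eq_zero fun i hi => if_neg fun h => hex ⟨i, mem_range.1 hi, h⟩
      rw [this]
  have hsplit := pair_split2 (fun _ => α) (fun _ => β) S p q m n
  have hpinv : 1 / (p : ℝ) ^ 2 ≤ W ^ 2 := by
    rw [hW, div_pow]
    gcongr
    exact one_le_pow₀ hl1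
  have hqinv : 1 / (q : ℝ) ^ 2 ≤ W ^ 2 := by
    refine le_trans ?_ hpinv
    gcongr
  have h1 : n * ∑ k ∈ range m, lph (fun _ => α) S p k ≤ n * (2 * m * W ^ 2) := by
    refine mul_le_mul_of_nonneg_left (ht1.trans ?_) hn0.le
    gcongr
  have h2 : ∑ k ∈ range (m * n), lph (fun _ => β) S q k ≤ 2 * (m * n) * W ^ 2 := by
    refine ht2.trans ?_
    push_cast
    gcongr
  have e1 : (C + 4) * W ^ 2 * (m * n) = n * (C * W ^ 2 * m) + n * (2 * m * W ^ 2) + 2 * (m * n) * W ^ 2 := by
    ring
  rw [e1]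
  linarith

end Pool.Agent.H32x.AB
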