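import Mathlib

set_option autoImplicit false

/-!
# Integrals of functions of the digits over cells
-/

namespace Pool.Agent.H32x.AB

open Finset Filter Topology MeasureTheory

theorem int_floorC (F : ℕ → ℂ) {B : ℕ} (hB : 0 < B) :
    ∫ t in Set.Ico (0 : ℝ) 1, F ⌊t * B⌋₊ = (∑ k ∈ range B, F k) / B := by
  have hB0 : (0 : ℝ) < B := by exact_mod_cast hB
  have h1 : ∀ t ∈ Set.Ico (0 : ℝ) 1, F ⌊t * B⌋₊ =
      ∑ k ∈ range B, (Set.Ico ((k : ℝ) / B) (((k : ℝ) + 1) / B)).indicator (fun _ => F k) t := by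
    intro t ht
    have h2 : ⌊t * B⌋₊ ∈ range B := by
      rw [mem_range, Nat.floor_lt (by have := ht.1; positivity)]
      have := ht.2
      nlinarith
    rw [Finset.sum_eq_single_of_mem _ h2]
    · rw [Set.indicator_of_mem]
      rw [Set.mem_Ico, div_le_iff₀ hB0, lt_div_iff₀ hB0]
      exact ⟨Nat.floor_le (by have := ht.1; positivity), Nat.lt_floor_add_one _⟩
    · intro k _ hk
      rw [Set.indicator_of_notMem]
      intro h3
      rw [Set.mem_Ico, div_le_iff₀ hB0, lt_div_iff₀ hB0] at h3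
      exact hk ((Nat.floor_eq_iff (by have := ht.1; positivity)).2 h3).symm
  rw [setIntegral_congr_fun measurableSet_Ico h1, integral_finsetSum]
  · rw [Finset.sum_div]
    refine Finset.sum_congr rfl fun k hk => ?_
    rw [mem_range] at hk
    have hk1 : (k : ℝ) + 1 ≤ B := by exact_mod_cast hk
    rw [integral_indicator measurableSet_Ico, Measure.restrict_restrict measurableSet_Ico,
      Set.inter_eq_left.2 (Set.Ico_subset_Ico (by positivity) (by rw [div_le_one hB0]; exact hk1)),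
      setIntegral_const, Real.volume_real_Ico_of_le (by gcongr; linarith), Complex.real_smul]
    have hBc : (B : ℂ) ≠ 0 := by exact_mod_cast hB0.ne'
    push_cast
    field_simp
    ring
  · intro k _
    exact (integrable_const _).indicator measurableSet_Ico

lemma floor_nest (m : ℕ) {n : ℕ} (hn : 0 < n) (t : ℝ) :
    ⌊t * (m : ℝ)⌋₊ = ⌊t * ((m * n : ℕ) : ℝ)⌋₊ / n := by
  have hn0 : (0 : ℝ) < n := by exact_mod_cast hn
  rw [← Nat.floor_div_natCast]
  congr 1
  push_cast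
  field_simp

theorem double_sumC (f : ℕ → ℂ) (m n : ℕ) :
    ∑ k ∈ range (m * n), f k = ∑ k ∈ range m, ∑ i ∈ range n, f (n * k + i) := by
  induction m with
  | zero => simp
  | succ m ih =>
    rw [add_mul, one_mul, Finset.sum_range_add, ih, Finset.sum_range_succ, mul_comm m n]

theorem int_twoC (g h : ℕ → ℂ) {m n : ℕ} (hm : 0 < m) (hn : 0 < n) :
    ∫ t in Set.Ico (0 : ℝ) 1, g ⌊t * (m : ℝ)⌋₊ * h ⌊t * ((m * n : ℕ) : ℝ)⌋₊ =
      (∑ k ∈ range m, g k * ∑ i ∈ range n, h (n * k + i)) / ((m * n : ℕ) : ℂ) := by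
  have e1 : ∀ t : ℝ, g ⌊t * (m : ℝ)⌋₊ * h ⌊t * ((m * n : ℕ) : ℝ)⌋₊ =
      (fun k => g (k / n) * h k) ⌊t * ((m * n : ℕ) : ℝ)⌋₊ := by
    intro t
    simp only
    rw [← floor_nest m hn t]
  simp only [e1]
  rw [int_floorC (fun k => g (k / n) * h k) (Nat.mul_pos hm hn)]
  congr 1
  rw [double_sumC]
  refine Finset.sum_congr rfl fun k _ => ?_
  rw [Finset.mul_sum]
  refine Finset.sum_congr rfl fun i hi => ?_
  rw [mem_range] at hi
  rw [Nat.mul_add_div hn, Nat.div_eq_of_lt hi, add_zero]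

/-- the cell `i` of level `z` -/
def cell (b z i : ℕ) : Set ℝ := Set.Ico ((i : ℝ) / (b : ℝ) ^ z) (((i : ℝ) + 1) / (b : ℝ) ^ z)

lemma measurableSet_cell (b z i : ℕ) : MeasurableSet (cell b z i) := measurableSet_Ico

/-- the uniform distribution on the cell -/
noncomputable def cm (b z i : ℕ) : Measure ℝ := ENNReal.ofReal ((b : ℝ) ^ z) • volume.restrict (cell b z i)

lemma vol_cell {b : ℕ} (hb : 0 < b) (z i : ℕ) : volume (cell b z i) = ENNReal.ofReal ((b : ℝ) ^ z)⁻¹ := by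
  have hb0 : (0 : ℝ) < b := by exact_mod_cast hb
  unfold cell
  rw [Real.volume_Ico]
  congr 1
  field_simp
  ring

lemma cm_prob {b : ℕ} (hb : 0 < b) (z i : ℕ) : IsProbabilityMeasure (cm b z i) := by
  have hb0 : (0 : ℝ) < b := by exact_mod_cast hb
  refine ⟨?_⟩
  unfold cm
  rw [Measure.smul_apply, Measure.restrict_apply MeasurableSet.univ, Set.univ_inter, vol_cell hb, smul_eq_mul,
    ← ENNReal.ofReal_mul (by positivity), mul_inv_cancel₀ (by positivity), ENNReal.ofReal_one]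

lemma int_cm {E : Type*} [NormedAddCommGroup E] [NormedSpace ℝ E] (b z i : ℕ) (f : ℝ → E) :
    ∫ t, f t ∂(cm b z i) = ((b : ℝ) ^ z) • ∫ t in cell b z i, f t := by
  unfold cm
  rw [integral_smul_measure, ENNReal.toReal_ofReal (by positivity)]

lemma cell_sub {b z i : ℕ} (hb : 0 < b) (hi : i < b ^ z) : cell b z i ⊆ Set.Ico 0 1 := by
  have hb0 : (0 : ℝ) < b := by exact_mod_cast hb
  refine Set.Ico_subset_Ico (by positivity) ?_
  rw [div_le_one (by positivity)]
  exact_mod_cast hi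

lemma mem_cell {b : ℕ} (hb : 0 < b) (z i : ℕ) {t : ℝ} (ht : 0 ≤ t) :
    t ∈ cell b z i ↔ ⌊t * ((b ^ z : ℕ) : ℝ)⌋₊ = i := by
  have hb0 : (0 : ℝ) < b := by exact_mod_cast hb
  have hbz : (0 : ℝ) < (b : ℝ) ^ z := by positivity
  unfold cell
  rw [Set.mem_Ico, div_le_iff₀ hbz, lt_div_iff₀ hbz, Nat.floor_eq_iff (by positivity)]
  push_cast
  exact Iff.rfl

lemma int_cm_le {b z i : ℕ} (hb : 0 < b) (hi : i < b ^ z) {f : ℝ → ℝ} (hf : ∀ t, 0 ≤ f t)
    (hint : IntegrableOn f (Set.Ico 0 1)) :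
    ∫ t, f t ∂(cm b z i) ≤ (b : ℝ) ^ z * ∫ t in Set.Ico (0 : ℝ) 1, f t := by
  rw [int_cm, smul_eq_mul]
  refine mul_le_mul_of_nonneg_left ?_ (by positivity)
  exact setIntegral_mono_set hint (ae_of_all _ hf) (cell_sub hb hi).eventuallyLE

lemma card_cell {b z i e : ℕ} (hb : 0 < b) (hi : i < b ^ z) (hze : z ≤ e) :
    ((range (b ^ e)).filter (fun k => k / b ^ (e - z) = i)).card = b ^ (e - z) := by
  have hpos : 0 < b ^ (e - z) := by positivity
  have e1 : b ^ e = b ^ z * b ^ (e - z) := by rw [← pow_add]; congr 1; omega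
  have h : (range (b ^ e)).filter (fun k => k / b ^ (e - z) = i) =
      Ico (i * b ^ (e - z)) ((i + 1) * b ^ (e - z)) := by
    ext k
    rw [mem_filter, mem_range, mem_Ico, Nat.div_eq_iff hpos]
    constructor
    · rintro ⟨_, h1, h2⟩
      have : (i + 1) * b ^ (e - z) = i * b ^ (e - z) + b ^ (e - z) := by ring
      omega
    · rintro ⟨h1, h2⟩
      have h3 : (i + 1) * b ^ (e - z) = i * b ^ (e - z) + b ^ (e - z) := by ring
      refine ⟨?_, h1, by omega⟩
      rw [e1]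
      exact lt_of_lt_of_le h2 (Nat.mul_le_mul_right _ hi)
  rw [h, Nat.card_Ico, ← Nat.sub_mul]
  simp

/-- decoupling on a cell -/
lemma dec_bound {b z i e E : ℕ} (hb : 0 < b) (hi : i < b ^ z) (hze : z ≤ e) (heE : e ≤ E)
    (g : ℕ → ℂ) (hg : ∀ k, ‖g k‖ ≤ 1) (h : ℕ → ℝ) (c R : ℝ)
    (hblk : ∀ k < b ^ e, |∑ l ∈ range (b ^ (E - e)), h (b ^ (E - e) * k + l) - (b ^ (E - e) : ℕ) * c| ≤
      R * ((b ^ (E - e) : ℕ) : ℝ)) :
    ‖∫ t, g ⌊t * ((b ^ e : ℕ) : ℝ)⌋₊ * ((h ⌊t * ((b ^ E : ℕ) : ℝ)⌋₊ - c : ℝ) : ℂ) ∂(cm b z i)‖ ≤ R := by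
  have hb0 : (0 : ℝ) < b := by exact_mod_cast hb
  set m := b ^ e with hm
  set n := b ^ (E - e) with hn
  have hm0 : 0 < m := by rw [hm]; positivity
  have hn0 : 0 < n := by rw [hn]; positivity
  have hmn : b ^ E = m * n := by rw [hm, hn, ← pow_add]; congr 1; omega
  set w := b ^ (e - z) with hw
  have hw0 : 0 < w := by rw [hw]; positivity
  have hmw : m = b ^ z * w := by rw [hm, hw, ← pow_add]; congr 1; omega
  have hmr : (0 : ℝ) < m := by exact_mod_cast hm0
  have hnr : (0 : ℝ) < n := by exact_mod_cast hn0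
  have hwr : (0 : ℝ) < w := by exact_mod_cast hw0
  -- reduction to the unit interval
  have e1 : ∫ t in cell b z i, g ⌊t * (m : ℝ)⌋₊ * ((h ⌊t * ((b ^ E : ℕ) : ℝ)⌋₊ - c : ℝ) : ℂ) =
      ∫ t in Set.Ico (0 : ℝ) 1, (fun k => if k / w = i then g k else 0) ⌊t * (m : ℝ)⌋₊ *
        (fun k => ((h k - c : ℝ) : ℂ)) ⌊t * ((m * n : ℕ) : ℝ)⌋₊ := by
    have e2 : cell b z i = Set.Ico 0 1 ∩ cell b z i := (Set.inter_eq_right.2 (cell_sub hb hi)).symm
    rw [e2, ← setIntegral_indicator (measurableSet_cell b z i)]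
    refine setIntegral_congr_fun measurableSet_Ico fun t ht => ?_
    have e3 : ⌊t * ((b ^ z : ℕ) : ℝ)⌋₊ = ⌊t * (m : ℝ)⌋₊ / w := by
      rw [hmw]; exact floor_nest (b ^ z) hw0 t
    have h4 := mem_cell hb z i ht.1
    rw [e3] at h4
    by_cases h5 : t ∈ cell b z i
    · rw [Set.indicator_of_mem h5]
      simp only
      rw [if_pos (h4.1 h5), hmn]
    · rw [Set.indicator_of_notMem h5]
      simp only
      rw [if_neg fun h6 => h5 (h4.2 h6), zero_mul]
  rw [int_cm, e1, int_twoC (fun k => if k / w = i then g k else 0) (fun k => ((h k - c : ℝ) : ℂ)) hm0 hn0,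
    norm_smul, norm_div, Real.norm_of_nonneg (by positivity)]
  have hsum : ‖∑ k ∈ range m, (if k / w = i then g k else 0) * ∑ l ∈ range n, ((h (n * k + l) - c : ℝ) : ℂ)‖ ≤
      w * (R * n) := by
    have h1 : ∀ k ∈ range m, ‖(if k / w = i then g k else 0) * ∑ l ∈ range n, ((h (n * k + l) - c : ℝ) : ℂ)‖ ≤
        if k / w = i then R * n else 0 := by
      intro k hk
      rw [mem_range] at hk
      have h2 := hblk k hk
      by_cases h3 : k / w = i
      · rw [if_pos h3, if_pos h3, norm_mul, ← Complex.ofReal_sum, Complex.norm_real, Real.norm_eq_abs]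
        have e5 : ∑ l ∈ range n, (h (n * k + l) - c) = ∑ l ∈ range n, h (n * k + l) - n * c := by
          rw [Finset.sum_sub_distrib, Finset.sum_const, card_range, nsmul_eq_mul]
        rw [e5]
        calc ‖g k‖ * |∑ l ∈ range n, h (n * k + l) - n * c| ≤ 1 * (R * n) :=
              mul_le_mul (hg k) h2 (abs_nonneg _) zero_le_one
          _ = _ := one_mul _
      · rw [if_neg h3, if_neg h3, zero_mul, norm_zero]
    refine (norm_sum_le _ _).trans ((Finset.sum_le_sum h1).trans (le_of_eq ?_))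
    rw [← Finset.sum_filter, Finset.sum_const, hm, hw, card_cell hb hi hze, nsmul_eq_mul]
  have hnn : ‖((m * n : ℕ) : ℂ)‖ = m * n := by
    rw [Complex.norm_natCast]; push_cast; rfl
  rw [hnn]
  have hbzm : (b : ℝ) ^ z * w = m := by rw [hmw]; push_cast; rfl
  calc (b : ℝ) ^ z * (‖∑ k ∈ range m, (if k / w = i then g k else 0) *
        ∑ l ∈ range n, ((h (n * k + l) - c : ℝ) : ℂ)‖ / (m * n)) ≤ (b : ℝ) ^ z * (w * (R * n) / (m * n)) := by
        gcongr
    _ = R := by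
        rw [← hbzm]
        field_simp

end Pool.Agent.H32x.AB
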