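import Mathlib
import Pool.Agent.H32x.PL.Gen

set_option autoImplicit false

/-!
# Products over nearly independent events: one step of the recursion (on a probability space)
-/

namespace Pool.Agent.H32x.AB

open Finset Filter Topology MeasureTheory
open Pool.Agent.H32x.PL (prod_one prod_two norm_one_sub w_nonneg)

variable {Ω : Type*} [MeasurableSpace Ω]

/-- the product of `1 - a p f_p` over `p ∈ T` -/
noncomputable def PF (f : ℕ → Ω → ℝ) (a : ℕ → ℂ) (T : Finset ℕ) (ω : Ω) : ℂ :=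
  ∏ p ∈ T, (1 - a p * (f p ω : ℝ))

/-- indicators of events -/
structure Ind (f : ℕ → Ω → ℝ) : Prop where
  m : ∀ p, Measurable (f p)
  or : ∀ p ω, f p ω = 0 ∨ f p ω = 1

variable {f : ℕ → Ω → ℝ} {μ : Measure Ω}

lemma Ind.nonneg (h : Ind f) (p : ℕ) (ω : Ω) : 0 ≤ f p ω := by
  rcases h.or p ω with h | h <;> rw [h]; norm_num

lemma Ind.le_one (h : Ind f) (p : ℕ) (ω : Ω) : f p ω ≤ 1 := by
  rcases h.or p ω with h | h <;> rw [h]; norm_num

lemma Ind.mPF (h : Ind f) (a : ℕ → ℂ) (T : Finset ℕ) : Measurable (PF f a T) := by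
  unfold PF
  refine Finset.measurable_fun_prod T fun p _ => ?_
  exact measurable_const.sub (measurable_const.mul (Complex.measurable_ofReal.comp (h.m p)))

lemma Ind.nPF (h : Ind f) {a : ℕ → ℂ} (ha : ∀ p, ‖1 - a p‖ ≤ 1) (T : Finset ℕ) (ω : Ω) :
    ‖PF f a T ω‖ ≤ 1 := by
  unfold PF
  rw [norm_prod]
  exact Finset.prod_le_one (fun _ _ => norm_nonneg _) fun p _ => norm_one_sub (ha p) (h.or _ _)

omit [MeasurableSpace Ω] in
lemma PF_union {a : ℕ → ℂ} {T U : Finset ℕ} (h : Disjoint T U) (ω : Ω) :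
    PF f a (T ∪ U) ω = PF f a T ω * PF f a U ω := by
  unfold PF
  rw [Finset.prod_union h]

lemma integrable_c [IsFiniteMeasure μ] {g : Ω → ℂ} (hg : Measurable g) {M : ℝ} (h : ∀ ω, ‖g ω‖ ≤ M) :
    Integrable g μ :=
  Integrable.of_bound hg.aestronglyMeasurable M (ae_of_all _ h)

lemma integrable_r [IsFiniteMeasure μ] {g : Ω → ℝ} (hg : Measurable g) {M : ℝ} (h : ∀ ω, |g ω| ≤ M) :
    Integrable g μ :=
  Integrable.of_bound hg.aestronglyMeasurable M (ae_of_all _ h)

/-- one step of the recursion -/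
theorem one_step [IsProbabilityMeasure μ] (hf : Ind f) (a : ℕ → ℂ) (v : ℕ → ℝ) {L I B : Finset ℕ}
    (hLI : Disjoint L I) (hLIB : Disjoint (L ∪ I) B)
    (hIB : ∀ p ∈ I, ∀ q ∈ B, p < q) (ha : ∀ p, ‖1 - a p‖ ≤ 1) (D : ℕ → ℝ)
    (hD : ∀ q ∈ B, ‖∫ ω, PF f a L ω * ((f q ω - v q : ℝ) : ℂ) ∂μ‖ ≤ D q) :
    ‖∫ ω, PF f a (L ∪ I ∪ B) ω ∂μ - (1 - ∑ q ∈ B, a q * (v q : ℝ)) * ∫ ω, PF f a (L ∪ I) ω ∂μ‖ ≤
      ∑ q ∈ B, ∑ p ∈ (I ∪ B).filter (fun p => p < q), ‖a p‖ * ‖a q‖ * (∫ ω, f p ω * f q ω ∂μ) +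
      ∑ q ∈ B, ‖a q‖ * D q +
      ‖∑ q ∈ B, a q * (v q : ℝ)‖ * ∑ p ∈ I, ‖a p‖ * ∫ ω, f p ω ∂μ := by
  classical
  set A : ℂ := ∑ q ∈ B, a q * (v q : ℝ) with hA
  have hx0 : ∀ p ω, 0 ≤ f p ω := hf.nonneg
  have hx1 : ∀ p ω, f p ω ≤ 1 := hf.le_one
  have hxa : ∀ p ω, |f p ω| ≤ 1 := fun p ω => by rw [abs_of_nonneg (hx0 p ω)]; exact hx1 p ω
  set SB : Ω → ℂ := fun ω => ∑ q ∈ B, a q * (f q ω : ℝ) with hSB
  have hmf : ∀ p, Measurable fun ω => ((f p ω : ℝ) : ℂ) := fun p => Complex.measurable_ofReal.comp (hf.m p)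
  have hmSB : Measurable SB := Finset.measurable_fun_sum B fun p _ => measurable_const.mul (hmf p)
  -- pointwise identity
  have hid : ∀ ω, PF f a (L ∪ I ∪ B) ω - (1 - A) * PF f a (L ∪ I) ω =
      PF f a (L ∪ I) ω * (PF f a B ω - 1 + SB ω) -
      PF f a L ω * (PF f a I ω - 1) * SB ω + A * (PF f a L ω * (PF f a I ω - 1)) -
      PF f a L ω * (SB ω - A) := by
    intro ω
    rw [PF_union hLIB, PF_union hLI]
    ring
  have hFn : ∀ (T : Finset ℕ) (ω : Ω), ‖PF f a T ω‖ ≤ 1 := fun T ω => hf.nPF ha T ω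
  have hax : ∀ p ω, ‖1 - a p * (f p ω : ℝ)‖ ≤ 1 := fun p ω => norm_one_sub (ha p) (hf.or _ _)
  have hnx : ∀ p ω, ‖a p * ((f p ω : ℝ) : ℂ)‖ = ‖a p‖ * f p ω := by
    intro p ω
    rw [norm_mul, Complex.norm_real, Real.norm_of_nonneg (hx0 p ω)]
  have hSBn : ∀ ω, ‖SB ω‖ ≤ ∑ q ∈ B, ‖a q‖ * f q ω := by
    intro ω
    refine (norm_sum_le _ _).trans (le_of_eq ?_)
    exact Finset.sum_congr rfl fun p _ => hnx p ω
  have hSBc : ∀ ω, ‖SB ω‖ ≤ ∑ q ∈ B, ‖a q‖ := by
    intro ω
    refine (hSBn ω).trans (Finset.sum_le_sum fun q _ => ?_)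
    exact mul_le_of_le_one_right (norm_nonneg _) (hx1 q ω)
  have hM := fun T => hf.mPF a T
  have m1 : Measurable fun ω => PF f a (L ∪ I) ω * (PF f a B ω - 1 + SB ω) :=
    (hM _).mul (((hM _).sub measurable_const).add hmSB)
  have m2 : Measurable fun ω => PF f a L ω * (PF f a I ω - 1) * SB ω :=
    ((hM _).mul ((hM _).sub measurable_const)).mul hmSB
  have m3 : Measurable fun ω => A * (PF f a L ω * (PF f a I ω - 1)) :=
    measurable_const.mul ((hM _).mul ((hM _).sub measurable_const))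
  have m4 : Measurable fun ω => PF f a L ω * (SB ω - A) := (hM _).mul (hmSB.sub measurable_const)
  have b0 : ∀ (T : Finset ℕ) (ω : Ω), ‖PF f a T ω - 1‖ ≤ 2 := fun T ω => by
    refine (norm_sub_le _ _).trans ?_
    rw [norm_one]
    linarith [hFn T ω]
  set Q := ∑ q ∈ B, ‖a q‖ with hQ
  have hQ0 : 0 ≤ Q := Finset.sum_nonneg fun _ _ => norm_nonneg _
  have i1 : Integrable (fun ω => PF f a (L ∪ I) ω * (PF f a B ω - 1 + SB ω)) μ :=
    integrable_c m1 (M := 1 * (2 + Q)) fun ω => by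
      rw [norm_mul]
      refine mul_le_mul (hFn _ _) ((norm_add_le _ _).trans (add_le_add (b0 _ _) (hSBc _)))
        (norm_nonneg _) zero_le_one
  have i2 : Integrable (fun ω => PF f a L ω * (PF f a I ω - 1) * SB ω) μ :=
    integrable_c m2 (M := 1 * 2 * Q) fun ω => by
      rw [norm_mul, norm_mul]
      refine mul_le_mul (mul_le_mul (hFn _ _) (b0 _ _) (norm_nonneg _) zero_le_one) (hSBc _)
        (norm_nonneg _) (by norm_num)
  have i3 : Integrable (fun ω => A * (PF f a L ω * (PF f a I ω - 1))) μ :=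
    integrable_c m3 (M := ‖A‖ * (1 * 2)) fun ω => by
      rw [norm_mul, norm_mul]
      exact mul_le_mul_of_nonneg_left (mul_le_mul (hFn _ _) (b0 _ _) (norm_nonneg _) zero_le_one)
        (norm_nonneg _)
  have i4 : Integrable (fun ω => PF f a L ω * (SB ω - A)) μ :=
    integrable_c m4 (M := 1 * (Q + ‖A‖)) fun ω => by
      rw [norm_mul]
      exact mul_le_mul (hFn _ _) ((norm_sub_le _ _).trans (by linarith [hSBc ω])) (norm_nonneg _)
        zero_le_one
  have iF : ∀ T, Integrable (PF f a T) μ := fun T => integrable_c (hM T) (M := 1) fun ω => hFn T ω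
  have iff2 : ∀ p q, Integrable (fun ω => f p ω * f q ω) μ := fun p q =>
    integrable_r ((hf.m p).mul (hf.m q)) (M := 1) fun ω => by
      rw [abs_mul]
      exact mul_le_one₀ (hxa p ω) (abs_nonneg _) (hxa q ω)
  have iff1 : ∀ p, Integrable (f p) μ := fun p => integrable_r (hf.m p) (M := 1) fun ω => hxa p ω
  have hint : ∫ ω, PF f a (L ∪ I ∪ B) ω ∂μ - (1 - A) * ∫ ω, PF f a (L ∪ I) ω ∂μ =
      ∫ ω, PF f a (L ∪ I) ω * (PF f a B ω - 1 + SB ω) ∂μ -
      ∫ ω, PF f a L ω * (PF f a I ω - 1) * SB ω ∂μ + ∫ ω, A * (PF f a L ω * (PF f a I ω - 1)) ∂μ -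
      ∫ ω, PF f a L ω * (SB ω - A) ∂μ := by
    have i12 : Integrable (fun ω => PF f a (L ∪ I) ω * (PF f a B ω - 1 + SB ω) -
        PF f a L ω * (PF f a I ω - 1) * SB ω) μ := i1.sub i2
    have i123 : Integrable (fun ω => PF f a (L ∪ I) ω * (PF f a B ω - 1 + SB ω) -
        PF f a L ω * (PF f a I ω - 1) * SB ω + A * (PF f a L ω * (PF f a I ω - 1))) μ := i12.add i3
    calc _ = ∫ ω, (PF f a (L ∪ I ∪ B) ω - (1 - A) * PF f a (L ∪ I) ω) ∂μ := by
          rw [integral_sub (iF _) ((iF _).const_mul _), integral_const_mul]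
      _ = ∫ ω, (PF f a (L ∪ I) ω * (PF f a B ω - 1 + SB ω) -
          PF f a L ω * (PF f a I ω - 1) * SB ω + A * (PF f a L ω * (PF f a I ω - 1)) -
          PF f a L ω * (SB ω - A)) ∂μ := integral_congr_ae (ae_of_all _ hid)
      _ = _ := by rw [integral_sub i123 i4, integral_add i12 i3, integral_sub i1 i2]
  rw [hint]
  -- T1
  have hT1 : ‖∫ ω, PF f a (L ∪ I) ω * (PF f a B ω - 1 + SB ω) ∂μ‖ ≤
      ∑ q ∈ B, ∑ p ∈ B.filter (fun p => p < q), ‖a p‖ * ‖a q‖ * ∫ ω, f p ω * f q ω ∂μ := by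
    calc _ ≤ ∫ ω, (∑ q ∈ B, ∑ p ∈ B.filter (fun p => p < q), ‖a p‖ * ‖a q‖ * (f p ω * f q ω)) ∂μ := by
          refine (norm_integral_le_integral_norm _).trans (integral_mono i1.norm ?_ fun ω => ?_)
          · refine integrable_finsetSum _ fun q _ => integrable_finsetSum _ fun p _ => ?_
            exact (iff2 p q).const_mul _
          · simp only
            rw [norm_mul]
            have h1 := prod_two B (fun p => a p * (f p ω : ℝ)) fun p _ => hax p ω
            calc ‖PF f a (L ∪ I) ω‖ * ‖PF f a B ω - 1 + SB ω‖ ≤ 1 * ‖PF f a B ω - 1 + SB ω‖ :=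
                  mul_le_mul_of_nonneg_right (hFn _ _) (norm_nonneg _)
              _ = ‖PF f a B ω - 1 + SB ω‖ := one_mul _
              _ ≤ _ := h1
              _ = _ := by
                  refine Finset.sum_congr rfl fun q _ => Finset.sum_congr rfl fun p _ => ?_
                  rw [hnx, hnx]; ring
      _ = _ := by
          rw [integral_finsetSum _ fun q _ => integrable_finsetSum _ fun p _ => (iff2 p q).const_mul _]
          refine Finset.sum_congr rfl fun q _ => ?_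
          rw [integral_finsetSum _ fun p _ => (iff2 p q).const_mul _]
          refine Finset.sum_congr rfl fun p _ => ?_
          rw [integral_const_mul]
  -- the difference of the products over `L ∪ I` and `L`
  have hdiff : ∀ ω, ‖PF f a L ω * (PF f a I ω - 1)‖ ≤ ∑ p ∈ I, ‖a p‖ * f p ω := by
    intro ω
    rw [norm_mul]
    have h1 := prod_one I (fun p => a p * (f p ω : ℝ)) fun p _ => hax p ω
    calc ‖PF f a L ω‖ * ‖PF f a I ω - 1‖ ≤ 1 * ‖PF f a I ω - 1‖ :=
          mul_le_mul_of_nonneg_right (hFn _ _) (norm_nonneg _)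
      _ = ‖PF f a I ω - 1‖ := one_mul _
      _ ≤ _ := h1
      _ = _ := Finset.sum_congr rfl fun p _ => hnx p ω
  -- T2
  have hT2 : ‖∫ ω, PF f a L ω * (PF f a I ω - 1) * SB ω ∂μ‖ ≤
      ∑ q ∈ B, ∑ p ∈ I, ‖a p‖ * ‖a q‖ * ∫ ω, f p ω * f q ω ∂μ := by
    calc _ ≤ ∫ ω, (∑ q ∈ B, ∑ p ∈ I, ‖a p‖ * ‖a q‖ * (f p ω * f q ω)) ∂μ := by
          refine (norm_integral_le_integral_norm _).trans (integral_mono i2.norm ?_ fun ω => ?_)
          · refine integrable_finsetSum _ fun q _ => integrable_finsetSum _ fun p _ => ?_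
            exact (iff2 p q).const_mul _
          · simp only
            rw [norm_mul]
            calc _ ≤ (∑ p ∈ I, ‖a p‖ * f p ω) * (∑ q ∈ B, ‖a q‖ * f q ω) :=
                  mul_le_mul (hdiff ω) (hSBn ω) (norm_nonneg _)
                    (Finset.sum_nonneg fun p _ => mul_nonneg (norm_nonneg _) (hx0 p ω))
              _ = _ := by
                  rw [Finset.sum_mul_sum, Finset.sum_comm]
                  refine Finset.sum_congr rfl fun q _ => Finset.sum_congr rfl fun p _ => ?_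
                  ring
      _ = _ := by
          rw [integral_finsetSum _ fun q _ => integrable_finsetSum _ fun p _ => (iff2 p q).const_mul _]
          refine Finset.sum_congr rfl fun q _ => ?_
          rw [integral_finsetSum _ fun p _ => (iff2 p q).const_mul _]
          refine Finset.sum_congr rfl fun p _ => ?_
          rw [integral_const_mul]
  -- T3
  have hT3 : ‖∫ ω, A * (PF f a L ω * (PF f a I ω - 1)) ∂μ‖ ≤
      ‖A‖ * ∑ p ∈ I, ‖a p‖ * ∫ ω, f p ω ∂μ := by
    rw [integral_const_mul, norm_mul]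
    refine mul_le_mul_of_nonneg_left ?_ (norm_nonneg _)
    calc _ ≤ ∫ ω, (∑ p ∈ I, ‖a p‖ * f p ω) ∂μ := by
          refine (norm_integral_le_integral_norm _).trans (integral_mono ?_ ?_ fun ω => hdiff ω)
          · have m5 : Measurable fun ω => PF f a L ω * (PF f a I ω - 1) :=
              (hM _).mul ((hM _).sub measurable_const)
            refine (integrable_c m5 (M := 1 * 2) fun ω => ?_).norm
            rw [norm_mul]
            exact mul_le_mul (hFn _ _) (b0 _ _) (norm_nonneg _) zero_le_one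
          · exact integrable_finsetSum _ fun p _ => (iff1 p).const_mul _
      _ = _ := by
          rw [integral_finsetSum _ fun p _ => (iff1 p).const_mul _]
          refine Finset.sum_congr rfl fun p _ => ?_
          rw [integral_const_mul]
  -- T4
  have hT4 : ‖∫ ω, PF f a L ω * (SB ω - A) ∂μ‖ ≤ ∑ q ∈ B, ‖a q‖ * D q := by
    have e1 : ∀ ω, PF f a L ω * (SB ω - A) =
        ∑ q ∈ B, a q * (PF f a L ω * ((f q ω - v q : ℝ) : ℂ)) := by
      intro ω
      simp only [hSB, hA]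
      rw [← Finset.sum_sub_distrib, Finset.mul_sum]
      refine Finset.sum_congr rfl fun q _ => ?_
      push_cast
      ring
    have iq : ∀ q, Integrable (fun ω => PF f a L ω * ((f q ω - v q : ℝ) : ℂ)) μ := fun q =>
      integrable_c ((hM _).mul (Complex.measurable_ofReal.comp ((hf.m q).sub measurable_const)))
        (M := 1 * (1 + |v q|)) fun ω => by
          rw [norm_mul, Complex.norm_real, Real.norm_eq_abs]
          refine mul_le_mul (hFn _ _) ?_ (abs_nonneg _) zero_le_one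
          exact (abs_sub _ _).trans (add_le_add (hxa q ω) le_rfl)
    simp only [e1]
    rw [integral_finsetSum _ fun q _ => (iq q).const_mul _]
    refine (norm_sum_le _ _).trans (Finset.sum_le_sum fun q hq => ?_)
    rw [integral_const_mul, norm_mul]
    exact mul_le_mul_of_nonneg_left (hD q hq) (norm_nonneg _)
  -- assembly
  have hpairs : ∑ q ∈ B, ∑ p ∈ (I ∪ B).filter (fun p => p < q), ‖a p‖ * ‖a q‖ *
        (∫ ω, f p ω * f q ω ∂μ) =
      ∑ q ∈ B, ∑ p ∈ I, ‖a p‖ * ‖a q‖ * ∫ ω, f p ω * f q ω ∂μ +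
      ∑ q ∈ B, ∑ p ∈ B.filter (fun p => p < q), ‖a p‖ * ‖a q‖ * ∫ ω, f p ω * f q ω ∂μ := by
    rw [← Finset.sum_add_distrib]
    refine Finset.sum_congr rfl fun q hq => ?_
    rw [Finset.filter_union, Finset.sum_union]
    · congr 2
      exact Finset.filter_true_of_mem fun p hp => hIB p hp q hq
    · rw [Finset.disjoint_left]
      intro p h1 h2
      rw [mem_filter] at h1 h2
      exact lt_irrefl p (hIB p h1.1 p h2.1)
  rw [hpairs]
  calc _ ≤ ‖∫ ω, PF f a (L ∪ I) ω * (PF f a B ω - 1 + SB ω) ∂μ‖ +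
        ‖∫ ω, PF f a L ω * (PF f a I ω - 1) * SB ω ∂μ‖ +
        ‖∫ ω, A * (PF f a L ω * (PF f a I ω - 1)) ∂μ‖ +
        ‖∫ ω, PF f a L ω * (SB ω - A) ∂μ‖ := by
        refine (norm_sub_le _ _).trans ?_
        gcongr
        refine (norm_add_le _ _).trans ?_
        gcongr
        exact norm_sub_le _ _
    _ ≤ _ := by
        have := hT1
        have := hT2
        have := hT3
        have := hT4
        linarith

end Pool.Agent.H32x.AB
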