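import Mathlib
import Pool.Agent.H32x.AB.Step

set_option autoImplicit false

/-!
# The generating function of nearly independent events
-/

namespace Pool.Agent.H32x.AB

open Finset Filter Topology MeasureTheory
open Pool.Agent.H32x.PL (re_nonneg_of w_nonneg)

variable {Ω : Type*} [MeasurableSpace Ω]

/-- weight of an index of size `s p` -/
noncomputable def ws (s : ℕ → ℕ) (p : ℕ) : ℝ := Real.log (s p) / (s p)

/-- weight of a set -/
noncomputable def WT (s : ℕ → ℕ) (T : Finset ℕ) : ℝ := ∑ p ∈ T, ws s p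

/-- pairs -/
noncomputable def CQ (cp : ℕ → ℕ → ℝ) (T : Finset ℕ) : ℝ := ∑ q ∈ T, ∑ p ∈ T.filter (fun p => p < q), cp p q

def Ls (s : ℕ → ℕ) (T : Finset ℕ) (i : ℕ) : Finset ℕ := T.filter (fun p => s p ≤ 2 ^ i)

def Bs (s : ℕ → ℕ) (T : Finset ℕ) (i : ℕ) : Finset ℕ := T.filter (fun p => 2 ^ i < s p ∧ s p ≤ 2 ^ (i + 1))

variable {s : ℕ → ℕ}

lemma ws_nonneg (s : ℕ → ℕ) (p : ℕ) : 0 ≤ ws s p := w_nonneg (s p)

lemma WT_nonneg (s : ℕ → ℕ) (T : Finset ℕ) : 0 ≤ WT s T := Finset.sum_nonneg fun p _ => ws_nonneg s p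

lemma Ls_succ {T : Finset ℕ} (i : ℕ) : Ls s T (i + 1) = Ls s T i ∪ Bs s T i := by
  ext p
  unfold Ls Bs
  simp only [mem_filter, mem_union]
  have h1 : 2 ^ i ≤ 2 ^ (i + 1) := Nat.pow_le_pow_right (by norm_num) (by omega)
  constructor
  · rintro ⟨h2, h3⟩
    rcases le_or_gt (s p) (2 ^ i) with h | h
    · exact Or.inl ⟨h2, h⟩
    · exact Or.inr ⟨h2, h, h3⟩
  · rintro (⟨h2, h3⟩ | ⟨h2, h3, h4⟩)
    · exact ⟨h2, by omega⟩
    · exact ⟨h2, h4⟩

lemma Ls_disj {T : Finset ℕ} (i : ℕ) : Disjoint (Ls s T i) (Bs s T i) := by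
  rw [Finset.disjoint_left]
  intro p h1 h2
  unfold Ls at h1
  unfold Bs at h2
  rw [mem_filter] at h1 h2
  omega

lemma sum_blocks {M : Type*} [AddCommMonoid M] (T : Finset ℕ) (i0 : ℕ) (f : ℕ → M)
    (hT : ∀ p ∈ T, 2 ^ i0 < s p) : ∀ J, i0 ≤ J → (∀ p ∈ T, s p ≤ 2 ^ J) →
    ∑ i ∈ Ico i0 J, ∑ q ∈ Bs s T i, f q = ∑ q ∈ T, f q := by
  have h : ∀ J, i0 ≤ J → ∑ i ∈ Ico i0 J, ∑ q ∈ Bs s T i, f q = ∑ q ∈ Ls s T J, f q := by
    intro J hJ
    induction J, hJ using Nat.le_induction with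
    | base =>
      have : Ls s T i0 = ∅ := by
        rw [Finset.eq_empty_iff_forall_notMem]
        intro p hp
        unfold Ls at hp
        rw [mem_filter] at hp
        have := hT p hp.1
        omega
      rw [this]; simp
    | succ J hJ ih =>
      rw [Finset.sum_Ico_succ_top hJ, ih, Ls_succ, Finset.sum_union (Ls_disj J)]
  intro J hJ hT2
  rw [h J hJ]
  congr 1
  unfold Ls
  exact Finset.filter_true_of_mem hT2

theorem master {f : ℕ → Ω → ℝ} {μ : Measure Ω} [IsProbabilityMeasure μ] (hf : Ind f)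
    (hs : Monotone s) {C K κ : ℝ} (hC : 0 ≤ C) (hκ0 : 0 ≤ κ) {k1 : ℕ} (hk1 : 1 ≤ k1)
    {cp : ℕ → ℕ → ℝ} (hcp : ∀ p q, 0 ≤ cp p q) {i0 J : ℕ} (hk1i : k1 ≤ i0 + 1) (hiJ : i0 ≤ J)
    {T : Finset ℕ} (hT : ∀ p ∈ T, 2 ^ i0 < s p ∧ s p ≤ 2 ^ J)
    (hone : ∀ p ∈ T, ∫ ω, f p ω ∂μ ≤ C * ws s p)
    (hpair : ∀ p ∈ T, ∀ q ∈ T, p < q → s q ≤ 2 ^ k1 * s p →
      ∫ ω, f p ω * f q ω ∂μ ≤ C * (ws s p * ws s q + cp p q))
    {a : ℕ → ℂ} (ha : ∀ p, ‖1 - a p‖ ≤ 1)
    (hdec : ∀ q ∈ T, ∀ L ⊆ T, (∀ p ∈ L, 2 ^ (k1 - 1) * s p ≤ s q) →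
      ‖∫ ω, PF f a L ω * ((f q ω - κ * ws s q : ℝ) : ℂ) ∂μ‖ ≤ K * ((s q : ℝ)⁻¹))
    {α δ : ℝ} (hα : 0 ≤ α) (hδ : 0 ≤ δ) (haα : ∀ p, ‖a p‖ ≤ α)
    (hblock : ∀ i, i0 ≤ i → i < J →
      WT s (T.filter (fun p => 2 ^ (i + 1 - k1) < s p ∧ s p ≤ 2 ^ (i + 1))) ≤ δ)
    (hαδ : α * (κ * δ) ≤ 1) :
    ‖∫ ω, PF f a T ω ∂μ - Complex.exp (-∑ p ∈ T, a p * ((κ * ws s p : ℝ) : ℂ))‖ ≤
      (C + κ * C + κ ^ 2) * α ^ 2 * (δ * WT s T + CQ cp T) + α * K * ∑ q ∈ T, (s q : ℝ)⁻¹ := by
  classical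
  set v : ℕ → ℝ := fun q => κ * ws s q with hv
  have hv0 : ∀ q, 0 ≤ v q := fun q => mul_nonneg hκ0 (ws_nonneg s q)
  set G : ℕ → ℂ := fun i => ∫ ω, PF f a (Ls s T i) ω ∂μ with hG
  set A : ℕ → ℂ := fun i => ∑ q ∈ Bs s T i, a q * (v q : ℝ) with hA
  set E : ℕ → ℂ := fun i => Complex.exp (-∑ p ∈ Ls s T i, a p * (v p : ℝ)) with hE
  set CPi : ℕ → ℝ := fun i => ∑ q ∈ Bs s T i, ∑ p ∈ T.filter (fun p => p < q), cp p q with hCPi
  set C' := C + κ * C + κ ^ 2 with hC'
  set err : ℕ → ℝ := fun i => C' * α ^ 2 * (δ * WT s (Bs s T i) + CPi i) +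
    α * K * ∑ q ∈ Bs s T i, (s q : ℝ)⁻¹ with herr
  have hK : ∀ q ∈ T, 0 ≤ K * ((s q : ℝ)⁻¹) := by
    intro q hq
    have := hdec q hq ∅ (Finset.empty_subset _) (by simp)
    exact (norm_nonneg _).trans this
  have hGN : ∀ i, ‖G i‖ ≤ 1 := by
    intro i
    refine (norm_integral_le_of_norm_le_const (μ := μ) (C := 1)
      (ae_of_all _ fun ω => hf.nPF ha _ ω)).trans ?_
    simp
  have hVB : ∀ i, 0 ≤ WT s (Bs s T i) := fun i => WT_nonneg s _
  have hAn : ∀ i, ‖A i‖ ≤ α * (κ * WT s (Bs s T i)) := by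
    intro i
    calc ‖A i‖ ≤ ∑ q ∈ Bs s T i, ‖a q * (v q : ℝ)‖ := norm_sum_le _ _
      _ ≤ ∑ q ∈ Bs s T i, α * v q := by
          refine Finset.sum_le_sum fun q _ => ?_
          rw [norm_mul, Complex.norm_real, Real.norm_of_nonneg (hv0 q)]
          exact mul_le_mul_of_nonneg_right (haα q) (hv0 q)
      _ = _ := by
          unfold WT
          rw [← Finset.mul_sum, hv, ← Finset.mul_sum]
  have hAre : ∀ i, 0 ≤ (A i).re := by
    intro i
    rw [hA]
    simp only [Complex.re_sum]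
    refine Finset.sum_nonneg fun q _ => ?_
    rw [Complex.re_mul_ofReal]
    exact mul_nonneg (re_nonneg_of (ha q)) (hv0 q)
  -- one block
  have hstep : ∀ i, i0 ≤ i → i < J → ‖G (i + 1) - (1 - A i) * G i‖ ≤
      C * α ^ 2 * (δ * WT s (Bs s T i) + CPi i) + α * K * ∑ q ∈ Bs s T i, (s q : ℝ)⁻¹ +
        κ * C * α ^ 2 * (δ * WT s (Bs s T i)) := by
    intro i hi hiJ'
    set z := 2 ^ (i + 1 - k1) with hz
    have hzi : z ≤ 2 ^ i := Nat.pow_le_pow_right (by norm_num) (by omega)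
    have hii : 2 ^ i ≤ 2 ^ (i + 1) := Nat.pow_le_pow_right (by norm_num) (by omega)
    have hzk : 2 ^ k1 * z = 2 ^ (i + 1) := by rw [hz, ← pow_add]; congr 1; omega
    have hzk' : 2 ^ (k1 - 1) * z = 2 ^ i := by rw [hz, ← pow_add]; congr 1; omega
    set L := Ls s T (i + 1 - k1) with hL
    set I := T.filter (fun p => z < s p ∧ s p ≤ 2 ^ i) with hI
    set B := Bs s T i with hB
    have hLI : Ls s T i = L ∪ I := by
      ext p
      rw [hL, hI]
      unfold Ls
      simp only [mem_filter, mem_union]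
      rw [← hz]
      constructor
      · rintro ⟨h1, h2⟩
        rcases le_or_gt (s p) z with h | h
        · exact Or.inl ⟨h1, h⟩
        · exact Or.inr ⟨h1, h, h2⟩
      · rintro (⟨h1, h2⟩ | ⟨h1, h2, h3⟩)
        · exact ⟨h1, by omega⟩
        · exact ⟨h1, h3⟩
    have hLm : ∀ p ∈ L, p ∈ T ∧ s p ≤ z := fun p hp => by
      rw [hL] at hp; unfold Ls at hp; rw [mem_filter] at hp; exact hp
    have hIm : ∀ p ∈ I, p ∈ T ∧ z < s p ∧ s p ≤ 2 ^ i := fun p hp => by rw [hI, mem_filter] at hp; exact hp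
    have hBm : ∀ p ∈ B, p ∈ T ∧ 2 ^ i < s p ∧ s p ≤ 2 ^ (i + 1) := fun p hp => by
      rw [hB] at hp; unfold Bs at hp; rw [mem_filter] at hp; exact hp
    have hos := one_step (μ := μ) hf a v (L := L) (I := I) (B := B)
      (by
        rw [Finset.disjoint_left]; intro p h1 h2
        have := (hLm p h1).2; have := (hIm p h2).2.1; omega)
      (by rw [← hLI]; exact Ls_disj i)
      (fun p hp q hq => by
        by_contra hcon
        have h1 := hs (not_lt.1 hcon)
        have := (hIm p hp).2.2; have := (hBm q hq).2.1; omega) ha (fun q => K * ((s q : ℝ)⁻¹))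
      (fun q hq => hdec q (hBm q hq).1 L (fun p hp => (hLm p hp).1) fun p hp => by
        have h1 := (hLm p hp).2
        have h2 := (hBm q hq).2.1
        have h3 : 2 ^ (k1 - 1) * s p ≤ 2 ^ (k1 - 1) * z := Nat.mul_le_mul_left _ h1
        omega)
    have hGi1 : G (i + 1) = ∫ ω, PF f a (L ∪ I ∪ B) ω ∂μ := by
      rw [hG]
      simp only
      rw [Ls_succ, hLI]
    have hGi : G i = ∫ ω, PF f a (L ∪ I) ω ∂μ := by
      rw [hG]
      simp only
      rw [hLI]
    rw [hGi1, hGi]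
    refine hos.trans ?_
    -- general facts for elements
    have hIB : I ∪ B = T.filter (fun p => 2 ^ (i + 1 - k1) < s p ∧ s p ≤ 2 ^ (i + 1)) := by
      ext p
      rw [hI, hB]
      unfold Bs
      simp only [mem_filter, mem_union]
      rw [← hz]
      constructor
      · rintro (⟨h1, h2, h3⟩ | ⟨h1, h2, h3⟩)
        · exact ⟨h1, h2, by omega⟩
        · exact ⟨h1, by omega, h3⟩
      · rintro ⟨h1, h2, h3⟩
        rcases le_or_gt (s p) (2 ^ i) with h | h
        · exact Or.inl ⟨h1, h2, h⟩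
        · exact Or.inr ⟨h1, h, h3⟩
    have hU : WT s (I ∪ B) ≤ δ := by rw [hIB]; exact hblock i hi hiJ'
    have hUI : WT s I ≤ δ := by
      refine le_trans ?_ hU
      unfold WT
      exact Finset.sum_le_sum_of_subset_of_nonneg Finset.subset_union_left fun p _ _ => ws_nonneg s p
    have hTm : ∀ p ∈ I ∪ B, p ∈ T ∧ z < s p := by
      intro p hp
      rw [mem_union] at hp
      rcases hp with h | h
      · exact ⟨(hIm p h).1, (hIm p h).2.1⟩
      · exact ⟨(hBm p h).1, by have := (hBm p h).2.1; omega⟩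
    -- first term
    have h1 : ∑ q ∈ B, ∑ p ∈ (I ∪ B).filter (fun p => p < q), ‖a p‖ * ‖a q‖ *
        (∫ ω, f p ω * f q ω ∂μ) ≤ C * α ^ 2 * (δ * WT s B + CPi i) := by
      have hpq : ∀ q ∈ B, ∀ p ∈ (I ∪ B).filter (fun p => p < q), ‖a p‖ * ‖a q‖ *
        (∫ ω, f p ω * f q ω ∂μ) ≤ α ^ 2 * (C * (ws s p * ws s q + cp p q)) := by
        intro q hq p hp
        rw [mem_filter] at hp
        obtain ⟨hp1, hp2⟩ := hTm p hp.1
        have h2 := hpair p hp1 q (hBm q hq).1 hp.2 (by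
          have h3 := (hBm q hq).2.2
          have h4 : 2 ^ k1 * z ≤ 2 ^ k1 * s p := Nat.mul_le_mul_left _ hp2.le
          omega)
        have h3 : ‖a p‖ * ‖a q‖ ≤ α ^ 2 := by
          rw [sq]; exact mul_le_mul (haα p) (haα q) (norm_nonneg _) hα
        refine mul_le_mul h3 h2 ?_ (by positivity)
        exact integral_nonneg fun ω => mul_nonneg (hf.nonneg _ _) (hf.nonneg _ _)
      calc _ ≤ ∑ q ∈ B, ∑ p ∈ (I ∪ B).filter (fun p => p < q), α ^ 2 * (C * (ws s p * ws s q + cp p q)) :=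
            Finset.sum_le_sum fun q hq => Finset.sum_le_sum fun p hp => hpq q hq p hp
        _ = C * α ^ 2 * ∑ q ∈ B, (∑ p ∈ (I ∪ B).filter (fun p => p < q),
            ws s p * ws s q + ∑ p ∈ (I ∪ B).filter (fun p => p < q), cp p q) := by
            simp only [Finset.mul_sum, ← Finset.sum_add_distrib]
            refine Finset.sum_congr rfl fun q _ => Finset.sum_congr rfl fun p _ => ?_
            ring
        _ ≤ C * α ^ 2 * ∑ q ∈ B, (δ * ws s q + ∑ p ∈ T.filter (fun p => p < q), cp p q) := by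
            refine mul_le_mul_of_nonneg_left
              (Finset.sum_le_sum fun q hq => add_le_add ?_ ?_) (by positivity)
            · rw [← Finset.sum_mul]
              refine mul_le_mul_of_nonneg_right ?_ (ws_nonneg s q)
              refine le_trans ?_ hU
              unfold WT
              exact Finset.sum_le_sum_of_subset_of_nonneg (filter_subset _ _) fun p _ _ => ws_nonneg s p
            · refine Finset.sum_le_sum_of_subset_of_nonneg ?_ fun p _ _ => hcp p q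
              intro p hp
              rw [mem_filter] at hp ⊢
              exact ⟨(hTm p hp.1).1, hp.2⟩
        _ = _ := by
            rw [Finset.sum_add_distrib, ← Finset.mul_sum]
            rfl
    -- second term
    have h2 : ∑ q ∈ B, ‖a q‖ * (K * ((s q : ℝ)⁻¹)) ≤ α * K * ∑ q ∈ B, (s q : ℝ)⁻¹ := by
      rw [mul_assoc, Finset.mul_sum, Finset.mul_sum]
      refine Finset.sum_le_sum fun q hq => ?_
      exact mul_le_mul_of_nonneg_right (haα q) (hK q (hBm q hq).1)
    -- third term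
    have h3 : ‖∑ q ∈ B, a q * (v q : ℝ)‖ * ∑ p ∈ I, ‖a p‖ * ∫ ω, f p ω ∂μ ≤
        κ * C * α ^ 2 * (δ * WT s (Bs s T i)) := by
      have h4 : ∑ p ∈ I, ‖a p‖ * ∫ ω, f p ω ∂μ ≤ α * (C * δ) := by
        calc _ ≤ ∑ p ∈ I, α * (C * ws s p) := by
              refine Finset.sum_le_sum fun p hp => ?_
              exact mul_le_mul (haα p) (hone p (hIm p hp).1)
                (integral_nonneg fun ω => hf.nonneg _ _) hα
          _ = α * (C * WT s I) := by
              unfold WT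
              simp only [Finset.mul_sum]
          _ ≤ _ := by gcongr
      calc _ ≤ (α * (κ * WT s (Bs s T i))) * (α * (C * δ)) :=
            mul_le_mul (hAn i) h4 (Finset.sum_nonneg fun p _ => mul_nonneg (norm_nonneg _)
              (integral_nonneg fun ω => hf.nonneg _ _)) (by
                have := hVB i
                positivity)
        _ = _ := by ring
    calc _ ≤ C * α ^ 2 * (δ * WT s B + CPi i) + α * K * ∑ q ∈ B, (s q : ℝ)⁻¹ +
          κ * C * α ^ 2 * (δ * WT s (Bs s T i)) := add_le_add (add_le_add h1 h2) h3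
      _ = _ := by rw [hB]
  -- the exponential
  have hexp : ∀ i, i0 ≤ i → i < J → ‖(1 - A i) - Complex.exp (-A i)‖ ≤
      κ ^ 2 * α ^ 2 * (δ * WT s (Bs s T i)) := by
    intro i hi hiJ'
    have hVδ : WT s (Bs s T i) ≤ δ := by
      refine le_trans ?_ (hblock i hi hiJ')
      unfold WT
      refine Finset.sum_le_sum_of_subset_of_nonneg ?_ fun p _ _ => ws_nonneg s p
      intro p hp
      unfold Bs at hp
      rw [mem_filter] at hp ⊢
      have : 2 ^ (i + 1 - k1) ≤ 2 ^ i := Nat.pow_le_pow_right (by norm_num) (by omega)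
      exact ⟨hp.1, by omega, hp.2.2⟩
    have hA1 : ‖-A i‖ ≤ 1 := by
      rw [norm_neg]
      refine (hAn i).trans (le_trans ?_ hαδ)
      gcongr
    have h1 := Complex.norm_exp_sub_one_sub_id_le hA1
    have e : (1 - A i) - Complex.exp (-A i) = -(Complex.exp (-A i) - 1 - -A i) := by ring
    rw [e, norm_neg]
    refine h1.trans ?_
    rw [norm_neg]
    have h2 := hAn i
    have h3 := hVB i
    calc ‖A i‖ ^ 2 ≤ (α * (κ * WT s (Bs s T i))) ^ 2 := pow_le_pow_left₀ (norm_nonneg _) h2 2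
      _ = κ ^ 2 * α ^ 2 * (WT s (Bs s T i) * WT s (Bs s T i)) := by ring
      _ ≤ _ := by gcongr
  -- induction
  have hind : ∀ i, i0 ≤ i → i ≤ J → ‖G i - E i‖ ≤ ∑ l ∈ Ico i0 i, err l := by
    intro i hi
    induction i, hi using Nat.le_induction with
    | base =>
      intro _
      have hemp : Ls s T i0 = ∅ := by
        rw [Finset.eq_empty_iff_forall_notMem]
        intro p hp
        unfold Ls at hp
        rw [mem_filter] at hp
        have := (hT p hp.1).1
        omega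
      have h1 : G i0 = 1 := by
        rw [hG]
        simp only
        rw [hemp]
        unfold PF
        simp
      have h2 : E i0 = 1 := by
        rw [hE]
        simp only
        rw [hemp]
        simp
      rw [h1, h2]
      simp
    | succ i hi ih =>
      intro hiJ'
      have ih' := ih (by omega)
      have hs' := hstep i hi (by omega)
      have he := hexp i hi (by omega)
      have hEs : E (i + 1) = Complex.exp (-A i) * E i := by
        rw [hE]
        simp only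
        rw [Ls_succ, Finset.sum_union (Ls_disj i), neg_add, Complex.exp_add, mul_comm]
      have hEn : ‖Complex.exp (-A i)‖ ≤ 1 := by
        rw [Complex.norm_exp, Complex.neg_re]
        have := hAre i
        exact Real.exp_le_one_iff.2 (by linarith)
      have hdec' : G (i + 1) - E (i + 1) = (G (i + 1) - (1 - A i) * G i) +
          ((1 - A i) - Complex.exp (-A i)) * G i + Complex.exp (-A i) * (G i - E i) := by
        rw [hEs]; ring
      rw [hdec', Finset.sum_Ico_succ_top hi]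
      have h0 : 0 ≤ ‖G i - E i‖ := norm_nonneg _
      calc _ ≤ ‖G (i + 1) - (1 - A i) * G i‖ + ‖((1 - A i) - Complex.exp (-A i)) * G i‖ +
            ‖Complex.exp (-A i) * (G i - E i)‖ :=
            (norm_add_le _ _).trans (add_le_add_left (norm_add_le _ _) _)
        _ ≤ (C * α ^ 2 * (δ * WT s (Bs s T i) + CPi i) + α * K * ∑ q ∈ Bs s T i, (s q : ℝ)⁻¹ +
            κ * C * α ^ 2 * (δ * WT s (Bs s T i))) + (κ ^ 2 * α ^ 2 * (δ * WT s (Bs s T i))) * 1 +
            1 * (∑ l ∈ Ico i0 i, err l) := by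
            rw [norm_mul, norm_mul]
            refine add_le_add (add_le_add hs' ?_) ?_
            · exact mul_le_mul he (hGN i) (norm_nonneg _) ((norm_nonneg _).trans he)
            · exact mul_le_mul hEn ih' (norm_nonneg _) zero_le_one
        _ ≤ _ := by
            have hCP0 : 0 ≤ CPi i := by
              rw [hCPi]
              exact Finset.sum_nonneg fun q _ => Finset.sum_nonneg fun p _ => hcp p q
            have hdv : 0 ≤ δ * WT s (Bs s T i) := mul_nonneg hδ (hVB i)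
            have hkey : C * α ^ 2 * (δ * WT s (Bs s T i) + CPi i) +
                κ * C * α ^ 2 * (δ * WT s (Bs s T i)) + κ ^ 2 * α ^ 2 * (δ * WT s (Bs s T i)) ≤
                C' * α ^ 2 * (δ * WT s (Bs s T i) + CPi i) := by
              rw [hC']
              have h5 : 0 ≤ α ^ 2 * CPi i := by positivity
              have h6 : 0 ≤ κ * C := by positivity
              have h7 : 0 ≤ κ ^ 2 := by positivity
              nlinarith [mul_nonneg h6 h5, mul_nonneg h7 h5]
            rw [herr]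
            simp only
            nlinarith
  have hfin := hind J hiJ le_rfl
  have hTJ : Ls s T J = T := by
    unfold Ls
    exact Finset.filter_true_of_mem fun p hp => (hT p hp).2
  have hG' : G J = ∫ ω, PF f a T ω ∂μ := by
    rw [hG]; simp only; rw [hTJ]
  have hE' : E J = Complex.exp (-∑ p ∈ T, a p * ((κ * ws s p : ℝ) : ℂ)) := by
    rw [hE]; simp only; rw [hTJ]
  rw [hG', hE'] at hfin
  refine hfin.trans (le_of_eq ?_)
  rw [herr]
  simp only
  rw [Finset.sum_add_distrib, ← Finset.mul_sum, ← Finset.mul_sum, Finset.sum_add_distrib, ← Finset.mul_sum]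
  have hT1 : ∀ p ∈ T, 2 ^ i0 < s p := fun p hp => (hT p hp).1
  have hT2 : ∀ p ∈ T, s p ≤ 2 ^ J := fun p hp => (hT p hp).2
  have e1 : ∑ i ∈ Ico i0 J, WT s (Bs s T i) = WT s T := sum_blocks T i0 _ hT1 J hiJ hT2
  have e2 : ∑ i ∈ Ico i0 J, CPi i = CQ cp T := sum_blocks T i0 _ hT1 J hiJ hT2
  have e3 : ∑ i ∈ Ico i0 J, ∑ q ∈ Bs s T i, (s q : ℝ)⁻¹ = ∑ q ∈ T, (s q : ℝ)⁻¹ :=
    sum_blocks T i0 _ hT1 J hiJ hT2
  rw [e1, e2, e3]

end Pool.Agent.H32x.AB
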