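import Mathlib
import Pool.Agent.H32x.AB.Mas

set_option autoImplicit false

/-!
# The joint generating function of the numbers of events in disjoint sets of indices
-/

namespace Pool.Agent.H32x.AB

open Finset Filter Topology MeasureTheory

variable {Ω : Type*} [MeasurableSpace Ω]

open Classical in
/-- the number of the events of `T` that occur -/
noncomputable def hc (f : ℕ → Ω → ℝ) (T : Finset ℕ) (ω : Ω) : ℕ := (T.filter (fun n => f n ω = 1)).card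

lemma prod_hc {f : ℕ → Ω → ℝ} (hf : Ind f) (e : ℂ) (T : Finset ℕ) (ω : Ω) :
    ∏ n ∈ T, (1 - (1 - e) * (f n ω : ℝ)) = e ^ hc f T ω := by
  classical
  unfold hc
  have h : ∀ n ∈ T, (1 - (1 - e) * ((f n ω : ℝ) : ℂ)) = if f n ω = 1 then e else 1 := by
    intro n _
    rcases hf.or n ω with h | h
    · rw [h, if_neg (by norm_num)]; simp
    · rw [h, if_pos rfl]; simp
  rw [Finset.prod_congr rfl h, Finset.prod_ite, Finset.prod_const, Finset.prod_const_one, mul_one]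

lemma measurable_hc {f : ℕ → Ω → ℝ} (hf : Ind f) (T : Finset ℕ) : Measurable (hc f T) := by
  classical
  unfold hc
  simp only [Finset.card_filter]
  refine Finset.measurable_fun_sum _ fun p _ => ?_
  exact Measurable.ite ((hf.m p) (measurableSet_singleton (1 : ℝ))) measurable_const measurable_const

theorem gen {f : ℕ → Ω → ℝ} {μ : Measure Ω} [IsProbabilityMeasure μ] (hf : Ind f) {s : ℕ → ℕ}
    (hs : Monotone s) {C K κ : ℝ} (hC : 0 ≤ C) (hκ0 : 0 ≤ κ) {k1 : ℕ} (hk1 : 1 ≤ k1)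
    {cp : ℕ → ℕ → ℝ} (hcp : ∀ p q, 0 ≤ cp p q) {i0 J : ℕ} (hk1i : k1 ≤ i0 + 1) (hiJ : i0 ≤ J)
    {ι : Type*} [Fintype ι] [DecidableEq ι] (T : ι → Finset ℕ) (hdis : ∀ i j, i ≠ j → Disjoint (T i) (T j))
    (hT : ∀ p ∈ univ.biUnion T, 2 ^ i0 < s p ∧ s p ≤ 2 ^ J)
    (hone : ∀ p ∈ univ.biUnion T, ∫ ω, f p ω ∂μ ≤ C * ws s p)
    (hpair : ∀ p ∈ univ.biUnion T, ∀ q ∈ univ.biUnion T, p < q → s q ≤ 2 ^ k1 * s p →
      ∫ ω, f p ω * f q ω ∂μ ≤ C * (ws s p * ws s q + cp p q))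
    (hdec : ∀ q ∈ univ.biUnion T, ∀ L ⊆ univ.biUnion T, (∀ p ∈ L, 2 ^ (k1 - 1) * s p ≤ s q) →
      ∀ a : ℕ → ℂ, (∀ p, ‖1 - a p‖ ≤ 1) →
      ‖∫ ω, PF f a L ω * ((f q ω - κ * ws s q : ℝ) : ℂ) ∂μ‖ ≤ K * ((s q : ℝ)⁻¹))
    {α δ : ℝ} (hα : 0 ≤ α) (hδ : 0 ≤ δ)
    (hblock : ∀ i, i0 ≤ i → i < J →
      WT s ((univ.biUnion T).filter (fun p => 2 ^ (i + 1 - k1) < s p ∧ s p ≤ 2 ^ (i + 1))) ≤ δ)
    (hαδ : α * (κ * δ) ≤ 1) {e : ι → ℂ} (he : ∀ j, ‖e j‖ = 1) (he2 : ∀ j, ‖1 - e j‖ ≤ α) :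
    ‖∫ ω, ∏ j, e j ^ hc f (T j) ω ∂μ - ∏ j, Complex.exp (-(((κ * WT s (T j) : ℝ) : ℂ) * (1 - e j)))‖ ≤
      (C + κ * C + κ ^ 2) * α ^ 2 * (δ * WT s (univ.biUnion T) + CQ cp (univ.biUnion T)) +
        α * K * ∑ q ∈ univ.biUnion T, (s q : ℝ)⁻¹ := by
  classical
  set U := univ.biUnion T with hU
  set a : ℕ → ℂ := fun p => ∑ j, if p ∈ T j then 1 - e j else 0 with ha
  have ha1 : ∀ j, ∀ p ∈ T j, a p = 1 - e j := by
    intro j p hp
    simp only [ha]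
    rw [Finset.sum_eq_single j]
    · rw [if_pos hp]
    · intro i _ hij
      rw [if_neg]
      intro h
      exact (Finset.disjoint_left.1 (hdis i j hij)) h hp
    · intro h; exact absurd (mem_univ j) h
  have ha2 : ∀ p, p ∉ U → a p = 0 := by
    intro p hp
    simp only [ha]
    refine Finset.sum_eq_zero fun j _ => if_neg fun h => hp ?_
    rw [hU, mem_biUnion]
    exact ⟨j, mem_univ j, h⟩
  have ha3 : ∀ p, (∃ j, a p = 1 - e j) ∨ a p = 0 := by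
    intro p
    by_cases hp : p ∈ U
    · left
      rw [hU, mem_biUnion] at hp
      obtain ⟨j, _, hj⟩ := hp
      exact ⟨j, ha1 j p hj⟩
    · right; exact ha2 p hp
  have hn1 : ∀ p, ‖1 - a p‖ ≤ 1 := by
    intro p
    rcases ha3 p with ⟨j, hj⟩ | hj
    · rw [hj, sub_sub_cancel, he]
    · rw [hj]; simp
  have hn2 : ∀ p, ‖a p‖ ≤ α := by
    intro p
    rcases ha3 p with ⟨j, hj⟩ | hj
    · rw [hj]
      exact he2 j
    · rw [hj]; simpa using hα
  have hm := master (μ := μ) hf hs hC hκ0 hk1 hcp hk1i hiJ hT hone hpair hn1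
    (fun q hq L hL hL2 => hdec q hq L hL hL2 a hn1) hα hδ hn2 hblock hαδ
  have e1 : ∀ ω, PF f a U ω = ∏ j, e j ^ hc f (T j) ω := by
    intro ω
    unfold PF
    rw [hU, Finset.prod_biUnion (fun i _ j _ hij => hdis i j hij)]
    refine Finset.prod_congr rfl fun j _ => ?_
    rw [← prod_hc hf]
    exact Finset.prod_congr rfl fun p hp => by rw [ha1 j p hp]
  have e2 : Complex.exp (-∑ p ∈ U, a p * ((κ * ws s p : ℝ) : ℂ)) =
      ∏ j, Complex.exp (-(((κ * WT s (T j) : ℝ) : ℂ) * (1 - e j))) := by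
    rw [← Complex.exp_sum, hU, Finset.sum_biUnion (fun i _ j _ hij => hdis i j hij),
      ← Finset.sum_neg_distrib]
    congr 1
    refine Finset.sum_congr rfl fun j _ => ?_
    congr 1
    have : ∀ p ∈ T j, a p * ((κ * ws s p : ℝ) : ℂ) = ((κ * ws s p : ℝ) : ℂ) * (1 - e j) := by
      intro p hp
      rw [ha1 j p hp, mul_comm]
    rw [Finset.sum_congr rfl this, ← Finset.sum_mul]
    congr 1
    unfold WT
    rw [Finset.mul_sum]
    push_cast
    rfl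
  simp only [e1] at hm
  rw [e2] at hm
  exact hm

end Pool.Agent.H32x.AB
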