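import Mathlib
import Pool.Agent.H32x.AB.Gen
import Pool.Agent.H32x.PL.GauE

set_option autoImplicit false

/-!
# Two sequences: the indices
-/

namespace Pool.Agent.H32x.AB

open Finset Filter Topology MeasureTheory
open Pool.Agent.N176.OW (VT VT_nonneg)

/-- the level of an index -/
def sz (n : ℕ) : ℕ := n / 2

lemma sz_mono : Monotone sz := fun _ _ h => Nat.div_le_div_right h

/-- the indices of the sequence `j` -/
def dj (j : ℕ) (V : Finset ℕ) : Finset ℕ := V.image (fun q => 2 * q + j)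

lemma mem_dj {j n : ℕ} {V : Finset ℕ} (hj : j < 2) : n ∈ dj j V ↔ sz n ∈ V ∧ n % 2 = j := by
  unfold dj sz
  rw [mem_image]
  constructor
  · rintro ⟨q, hq, rfl⟩
    have e : (2 * q + j) / 2 = q := by omega
    rw [e]
    exact ⟨hq, by omega⟩
  · rintro ⟨h1, h2⟩
    exact ⟨n / 2, h1, by omega⟩

lemma sz_two {q j : ℕ} (hj : j < 2) : sz (2 * q + j) = q := by unfold sz; omega

lemma sum_dj {M : Type*} [AddCommMonoid M] {j : ℕ} (V : Finset ℕ) (F : ℕ → M) :
    ∑ n ∈ dj j V, F n = ∑ q ∈ V, F (2 * q + j) := by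
  unfold dj
  rw [Finset.sum_image]
  intro x _ y _ hxy
  have : 2 * x + j = 2 * y + j := hxy
  omega

lemma WT_dj {j : ℕ} (hj : j < 2) (V : Finset ℕ) : WT sz (dj j V) = VT V := by
  unfold WT VT ws
  rw [sum_dj]
  exact Finset.sum_congr rfl fun q _ => by rw [sz_two hj]

lemma disj_dj {ι : Type*} {T : ι → Finset ℕ} (hdis : ∀ i j, i ≠ j → Disjoint (T i) (T j)) :
    ∀ x y : ι × Fin 2, x ≠ y → Disjoint (dj x.2 (T x.1)) (dj y.2 (T y.1)) := by
  intro x y hxy
  rw [Finset.disjoint_left]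
  intro n h1 h2
  rw [mem_dj x.2.2] at h1
  rw [mem_dj y.2.2] at h2
  apply hxy
  by_cases h : x.1 = y.1
  · refine Prod.ext h (Fin.ext ?_)
    omega
  · exact absurd h2.1 (Finset.disjoint_left.1 (hdis _ _ h) h1.1)

/-- both sequences -/
def db (V : Finset ℕ) : Finset ℕ := dj 0 V ∪ dj 1 V

lemma mem_db {n : ℕ} {V : Finset ℕ} : n ∈ db V ↔ sz n ∈ V := by
  unfold db
  rw [mem_union, mem_dj (by norm_num), mem_dj (by norm_num)]
  have : n % 2 = 0 ∨ n % 2 = 1 := by omega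
  tauto

lemma union_dj {ι : Type*} [Fintype ι] [DecidableEq ι] (T : ι → Finset ℕ) :
    univ.biUnion (fun x : ι × Fin 2 => dj x.2 (T x.1)) = db (univ.biUnion T) := by
  ext n
  rw [mem_db, mem_biUnion, mem_biUnion]
  constructor
  · rintro ⟨x, _, hx⟩
    rw [mem_dj x.2.2] at hx
    exact ⟨x.1, mem_univ _, hx.1⟩
  · rintro ⟨i, _, hi⟩
    have h2 : n % 2 < 2 := Nat.mod_lt _ (by norm_num)
    refine ⟨(i, ⟨n % 2, h2⟩), mem_univ _, ?_⟩
    rw [mem_dj h2]
    exact ⟨hi, rfl⟩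

lemma sum_db {M : Type*} [AddCommMonoid M] (V : Finset ℕ) (F : ℕ → M) :
    ∑ n ∈ db V, F n = ∑ q ∈ V, F (2 * q) + ∑ q ∈ V, F (2 * q + 1) := by
  unfold db
  rw [Finset.sum_union, sum_dj, sum_dj]
  · simp
  · rw [Finset.disjoint_left]
    intro n h1 h2
    rw [mem_dj (by norm_num)] at h1 h2
    omega

lemma WT_db (V : Finset ℕ) : WT sz (db V) = 2 * VT V := by
  unfold WT VT ws
  rw [sum_db]
  have e0 : ∀ q, sz (2 * q) = q := fun q => by unfold sz; omega
  have e1 : ∀ q, sz (2 * q + 1) = q := fun q => by unfold sz; omega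
  simp only [e0, e1]
  ring

lemma filter_db (V : Finset ℕ) (P : ℕ → Prop) [DecidablePred P] :
    (db V).filter (fun n => P (sz n)) = db (V.filter P) := by
  ext n
  rw [mem_filter, mem_db, mem_db, mem_filter]

lemma inv_db (V : Finset ℕ) : ∑ n ∈ db V, ((sz n : ℕ) : ℝ)⁻¹ = 2 * ∑ q ∈ V, (q : ℝ)⁻¹ := by
  rw [sum_db]
  have e0 : ∀ q, sz (2 * q) = q := fun q => by unfold sz; omega
  have e1 : ∀ q, sz (2 * q + 1) = q := fun q => by unfold sz; omega
  simp only [e0, e1]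
  ring

/-- the weight of the pairs at small distances -/
noncomputable def CR (ρ : ℝ) (V : Finset ℕ) : ℝ :=
  ∑ q ∈ V, ∑ p ∈ V.filter (fun p => p < q), Real.log p / p * ρ ^ (q - p)

/-- the pair weights -/
noncomputable def cpr (ρ : ℝ) (p q : ℕ) : ℝ := if sz p < sz q then ws sz p * ρ ^ (sz q - sz p) else 0

lemma cpr_nonneg {ρ : ℝ} (hρ : 0 ≤ ρ) (p q : ℕ) : 0 ≤ cpr ρ p q := by
  unfold cpr
  split_ifs
  · have := ws_nonneg sz p
    positivity
  · exact le_rfl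

lemma CR_nonneg {ρ : ℝ} (hρ : 0 ≤ ρ) (V : Finset ℕ) : 0 ≤ CR ρ V :=
  Finset.sum_nonneg fun q _ => Finset.sum_nonneg fun p _ => by
    have := Pool.Agent.H32x.PL.w_nonneg p
    positivity

lemma CQ_db {ρ : ℝ} (hρ : 0 ≤ ρ) (V : Finset ℕ) : CQ (cpr ρ) (db V) ≤ 4 * CR ρ V := by
  have h1 : CQ (cpr ρ) (db V) ≤ ∑ q ∈ db V, ∑ p ∈ db V, cpr ρ p q := by
    unfold CQ
    refine Finset.sum_le_sum fun q _ => ?_
    exact Finset.sum_le_sum_of_subset_of_nonneg (filter_subset _ _) fun p _ _ => cpr_nonneg hρ p q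
  refine h1.trans (le_of_eq ?_)
  have e0 : ∀ q, sz (2 * q) = q := fun q => by unfold sz; omega
  have e1 : ∀ q, sz (2 * q + 1) = q := fun q => by unfold sz; omega
  have e2 : ∀ q, ∑ p ∈ db V, cpr ρ p q = 2 * ∑ p ∈ V, (if p < sz q then Real.log p / p * ρ ^ (sz q - p) else 0) := by
    intro q
    rw [sum_db]
    unfold cpr ws
    simp only [e0, e1]
    rw [two_mul]
  simp only [e2]
  rw [sum_db]
  simp only [e0, e1]
  unfold CR
  simp only [Finset.sum_filter]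
  rw [← Finset.mul_sum]
  generalize (∑ i ∈ V, ∑ p ∈ V, (if p < i then Real.log p / p * ρ ^ (i - p) else 0) : ℝ) = x
  ring

end Pool.Agent.H32x.AB
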