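import Mathlib
import Pool.Agent.H39x.LP.Joint
import Pool.Agent.H32x.AB.Pair2
import Pool.Agent.H32x.AB.Idx
import Pool.Agent.H32x.AB.Cell

set_option autoImplicit false

/-!
# Two sequences with the same random digits: the inputs of the master inequality
-/

namespace Pool.Agent.H32x.AB

open Finset Filter Topology MeasureTheory
open Pool.Agent.N176.OW (VT VT_nonneg)
open Pool.Agent.H39x.LP

/-- two families with the same random digits -/
structure Two (b : ℕ) (κ a c₁ : ℝ) (AA : ℕ → ℕ → ℕ) : Prop where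
  fam : ∀ j < 2, Fam b κ a c₁ (AA j)
  ne : ∀ᶠ p : ℕ in atTop, AA 0 p ≠ AA 1 p

/-- the events -/
noncomputable def ff (b : ℕ) (κ : ℝ) (AA : ℕ → ℕ → ℕ) (n : ℕ) (t : ℝ) : ℝ := fq b κ (AA (n % 2)) (n / 2) t

/-- the constant of the law -/
noncomputable def kp (a : ℝ) : ℝ := Real.exp Real.eulerMascheroniConstant / a

variable {b : ℕ} {κ a c₁ : ℝ} {AA : ℕ → ℕ → ℕ}

lemma ph_or (A : ℕ → ℕ) (q k : ℕ) : ph A q k = 0 ∨ ph A q k = 1 := by
  unfold ph
  split_ifs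
  · exact Or.inr rfl
  · exact Or.inl rfl

lemma ff_ind (b : ℕ) (κ : ℝ) (AA : ℕ → ℕ → ℕ) : Ind (ff b κ AA) := by
  refine ⟨fun n => measurable_fq _ _ _ _, fun n t => ?_⟩
  unfold ff fq
  exact ph_or _ _ _

lemma Two.hb (h : Two b κ a c₁ AA) : 2 ≤ b := (h.fam 0 (by norm_num)).hb
lemma Two.ha (h : Two b κ a c₁ AA) : 0 < a := (h.fam 0 (by norm_num)).ha
lemma Two.κ0 (h : Two b κ a c₁ AA) : 0 < κ := (h.fam 0 (by norm_num)).κ0
lemma Two.l0 (h : Two b κ a c₁ AA) : 0 < Real.log b := (h.fam 0 (by norm_num)).l0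
lemma Two.kp0 (h : Two b κ a c₁ AA) : 0 < kp a := by
  have := h.ha
  unfold kp
  positivity

/-- the decoupling -/
theorem Two.dec (h : Two b κ a c₁ AA) : ∃ K : ℝ, 0 < K ∧ ∃ k1 : ℕ, 1 ≤ k1 ∧ ∀ z i : ℕ, i < b ^ z →
    ∃ P : ℕ, ∀ q : ℕ, P ≤ sz q → ∀ L : Finset ℕ, (∀ p ∈ L, 2 ^ (k1 - 1) * sz p ≤ sz q) →
    ∀ α : ℕ → ℂ, (∀ p, ‖1 - α p‖ ≤ 1) →
      ‖∫ t, PF (ff b κ AA) α L t * ((ff b κ AA q t - kp a * ws sz q : ℝ) : ℂ) ∂(cm b z i)‖ ≤
        K * ((sz q : ℝ)⁻¹) := by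
  have hb := h.hb
  have hb0 : 0 < b := by omega
  have ha := h.ha
  have hκ0 := h.κ0
  have hl := h.l0
  obtain ⟨κ₁, δ, hκ₁, hκ₁', hδ, hκδ⟩ := (h.fam 0 (by norm_num)).kk
  obtain ⟨K0, hK0, hev0⟩ := (h.fam 0 (by norm_num)).blk hκ₁ hκ₁'
  obtain ⟨K1, hK1, hev1⟩ := (h.fam 1 (by norm_num)).blk hκ₁ hκ₁'
  obtain ⟨P0, hP0⟩ := eventually_atTop.1 hev0
  obtain ⟨P1, hP1⟩ := eventually_atTop.1 hev1
  have hκl : 0 < κ * Real.log b := by positivity
  obtain ⟨k, hk⟩ := pow_unbounded_of_one_lt (2 * (κ * Real.log b) / δ) (one_lt_two (α := ℝ))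
  refine ⟨K0 + K1, by positivity, k + 1, by omega, ?_⟩
  intro z i hi
  obtain ⟨P2, hP2⟩ := exists_nat_ge (2 * ((z + 1) * Real.log b) / δ)
  refine ⟨P0 + P1 + P2 + 1, ?_⟩
  intro q hq L hL α hα
  rw [Nat.add_sub_cancel] at hL
  set Q := sz q with hQ
  have hQ0 : (0 : ℝ) < Q := by exact_mod_cast (by omega : 0 < Q)
  set e := max z (ex κ (Q / 2 ^ k)) with he
  set E := ex κ Q with hE
  have h2k : (0 : ℝ) < 2 ^ k := by positivity
  -- sizes
  have hkδ : κ * Real.log b * (Q / 2 ^ k) ≤ δ / 2 * Q := by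
    rw [div_lt_iff₀ hδ] at hk
    rw [mul_div_assoc', div_le_iff₀ h2k]
    nlinarith
  have hzδ : (z + 1) * Real.log b ≤ δ / 2 * Q := by
    have h1 : (P2 : ℝ) ≤ Q := by exact_mod_cast (by omega : P2 ≤ Q)
    have h2 := hP2.trans h1
    rw [div_le_iff₀ hδ] at h2
    linarith
  have hez : (e : ℝ) ≤ z + κ * (Q / 2 ^ k) := by
    have h1 := (ex_bounds hκ0 (Q / 2 ^ k)).2
    have h2 : ((Q / 2 ^ k : ℕ) : ℝ) ≤ (Q : ℝ) / 2 ^ k := by
      have := Nat.cast_div_le (α := ℝ) (m := Q) (n := 2 ^ k)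
      push_cast at this
      exact this
    have h3 : κ * ((Q / 2 ^ k : ℕ) : ℝ) ≤ κ * (Q / 2 ^ k) := mul_le_mul_of_nonneg_left h2 hκ0.le
    have h4 : (0 : ℝ) ≤ z := Nat.cast_nonneg z
    have h5 : 0 ≤ κ * ((Q : ℝ) / 2 ^ k) := by positivity
    rw [he]
    push_cast
    exact max_le (by linarith) (by linarith)
  have hEb := (ex_bounds hκ0 Q).1
  have hkey : κ₁ * (a * Q) ≤ Real.log b * ((E : ℝ) - e) := by
    have h1 : Real.log b * (κ * Q - 1 - (z + κ * (Q / 2 ^ k))) ≤ Real.log b * ((E : ℝ) - e) := by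
      refine mul_le_mul_of_nonneg_left ?_ hl.le
      linarith
    have e1 : Real.log b * (κ * Q - 1 - (z + κ * (Q / 2 ^ k))) =
        (κ * Real.log b) * Q - (z + 1) * Real.log b - κ * Real.log b * (Q / 2 ^ k) := by ring
    have e2 : (κ * Real.log b) * Q = κ₁ * (a * Q) + δ * Q := by rw [hκδ]; ring
    rw [e1, e2] at h1
    linarith
  have heE : e ≤ E := by
    have h1 : 0 < κ₁ * (a * Q) := by
      have : 0 < κ₁ := by linarith
      positivity
    have h2 : 0 < Real.log b * ((E : ℝ) - e) := lt_of_lt_of_le h1 hkey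
    have h3 : 0 < (E : ℝ) - e := (pos_iff_pos_of_mul_pos h2).1 hl
    have h4 : (e : ℝ) ≤ E := by linarith
    exact_mod_cast h4
  have hcast : ((E - e : ℕ) : ℝ) = E - e := Nat.cast_sub heE
  have hbig : Real.exp (κ₁ * (a * Q)) ≤ ((b ^ (E - e) : ℕ) : ℝ) := by
    rw [pow_exp hb, Real.exp_le_exp, hcast]
    exact hkey
  -- the function of the coarse digits
  set g : ℕ → ℂ := fun m => ∏ n ∈ L, (1 - α n * (ph (AA (n % 2)) (n / 2) (m / b ^ (e - ex κ (n / 2))) : ℝ)) with hg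
  have hg1 : ∀ m, ‖g m‖ ≤ 1 := by
    intro m
    simp only [hg]
    rw [norm_prod]
    exact Finset.prod_le_one (fun _ _ => norm_nonneg _) fun n _ =>
      Pool.Agent.H32x.PL.norm_one_sub (hα n) (ph_or _ _ _)
  have hPF : ∀ t, PF (ff b κ AA) α L t = g ⌊t * ((b ^ e : ℕ) : ℝ)⌋₊ := by
    intro t
    unfold PF
    simp only [hg]
    refine Finset.prod_congr rfl fun n hn => ?_
    have h1 : ex κ (n / 2) ≤ e := by
      refine le_trans (ex_mono hκ0 ?_) (le_max_right _ _)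
      rw [Nat.le_div_iff_mul_le (by positivity), mul_comm]
      exact hL n hn
    have h2 : b ^ e = b ^ ex κ (n / 2) * b ^ (e - ex κ (n / 2)) := by
      rw [← pow_add]; congr 1; omega
    unfold ff fq
    rw [floor_nest (b ^ ex κ (n / 2)) (n := b ^ (e - ex κ (n / 2))) (by positivity) t, ← h2]
  set hh : ℕ → ℝ := fun m => ph (AA (q % 2)) Q m with hhh
  have hint : ∀ t, PF (ff b κ AA) α L t * ((ff b κ AA q t - kp a * ws sz q : ℝ) : ℂ) =
      g ⌊t * ((b ^ e : ℕ) : ℝ)⌋₊ * ((hh ⌊t * ((b ^ E : ℕ) : ℝ)⌋₊ - cw a Q : ℝ) : ℂ) := by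
    intro t
    rw [hPF t]
    rfl
  simp only [hint]
  have hB := (h.fam 0 (by norm_num)).B_le Q
  have hblk : ∀ m < b ^ e, |∑ l ∈ range (b ^ (E - e)), hh (b ^ (E - e) * m + l) -
      ((b ^ (E - e) : ℕ) : ℝ) * cw a Q| ≤ (K0 + K1) * ((Q : ℝ)⁻¹) * ((b ^ (E - e) : ℕ) : ℝ) := by
    intro m hm
    have h1 : ((b ^ (E - e) * m : ℕ) : ℝ) + ((b ^ (E - e) : ℕ) : ℝ) ≤ Real.exp (κ * (Real.log b * Q)) := by
      refine le_trans ?_ hB
      have h2 : b ^ (E - e) * m + b ^ (E - e) ≤ b ^ E := by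
        have h3 : b ^ E = b ^ (E - e) * b ^ e := by rw [← pow_add]; congr 1; omega
        rw [h3]
        calc b ^ (E - e) * m + b ^ (E - e) = b ^ (E - e) * (m + 1) := by ring
          _ ≤ b ^ (E - e) * b ^ e := Nat.mul_le_mul_left _ hm
      exact_mod_cast h2
    have hH : (0 : ℝ) ≤ ((b ^ (E - e) : ℕ) : ℝ) := Nat.cast_nonneg _
    have hj : q % 2 = 0 ∨ q % 2 = 1 := by omega
    rcases hj with hj | hj
    · have h3 := hP0 Q (by omega) (b ^ (E - e) * m) (b ^ (E - e)) hbig h1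
      simp only [hhh, hj]
      refine h3.trans ?_
      rw [div_eq_mul_inv]
      have : 0 ≤ K1 * ((Q : ℝ)⁻¹) * ((b ^ (E - e) : ℕ) : ℝ) := by positivity
      nlinarith
    · have h3 := hP1 Q (by omega) (b ^ (E - e) * m) (b ^ (E - e)) hbig h1
      simp only [hhh, hj]
      refine h3.trans ?_
      rw [div_eq_mul_inv]
      have : 0 ≤ K0 * ((Q : ℝ)⁻¹) * ((b ^ (E - e) : ℕ) : ℝ) := by positivity
      nlinarith
  exact dec_bound hb0 hi (le_max_left _ _) heE g hg1 hh (cw a Q) _ hblk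

/-- the ratio of the geometric decay -/
noncomputable def rh (b : ℕ) (κ : ℝ) : ℝ := Real.exp (-(κ * Real.log b))

lemma pow_rh (hb : 2 ≤ b) (hκ : 0 < κ) {p q : ℕ} (hpq : p ≤ q) :
    ((b : ℝ) ^ (ex κ q - ex κ p))⁻¹ ≤ b * rh b κ ^ (q - p) := by
  have hb0 : (0 : ℝ) < b := by positivity
  have ha : 0 < Real.log b := Real.log_pos (by exact_mod_cast hb)
  have h1 := (ex_bounds hκ q).1
  have h2 := (ex_bounds hκ p).2
  have h3 : ((ex κ q - ex κ p : ℕ) : ℝ) = ex κ q - ex κ p := Nat.cast_sub (ex_mono hκ hpq)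
  have h4 : ((q - p : ℕ) : ℝ) = q - p := Nat.cast_sub hpq
  have h6 : ((b : ℝ) ^ (ex κ q - ex κ p))⁻¹ = Real.exp (-(Real.log b * ((ex κ q : ℝ) - ex κ p))) := by
    rw [Real.exp_neg, ← h3, mul_comm (Real.log b), Real.exp_nat_mul, Real.exp_log hb0]
  have h7 : (b : ℝ) * rh b κ ^ (q - p) = Real.exp (Real.log b - κ * Real.log b * ((q : ℝ) - p)) := by
    unfold rh
    rw [← Real.exp_nat_mul, h4]
    nth_rewrite 1 [(Real.exp_log hb0).symm]
    rw [← Real.exp_add]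
    congr 1
    ring
  rw [h6, h7, Real.exp_le_exp]
  have h8 : κ * (q : ℝ) - κ * p - 1 ≤ (ex κ q : ℝ) - ex κ p := by linarith
  have h9 := mul_le_mul_of_nonneg_left h8 ha.le
  have e1 : Real.log b * (κ * (q : ℝ) - κ * p - 1) = κ * Real.log b * ((q : ℝ) - p) - Real.log b := by ring
  rw [e1] at h9
  linarith

lemma rh_pos (b : ℕ) (κ : ℝ) : 0 < rh b κ := Real.exp_pos _

lemma Two.rh_lt (h : Two b κ a c₁ AA) : rh b κ < 1 := by
  have := h.l0
  have := h.κ0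
  unfold rh
  rw [Real.exp_lt_one_iff]
  have : 0 < κ * Real.log b := by positivity
  linarith

/-- the mean values -/
theorem Two.one (h : Two b κ a c₁ AA) : ∃ C : ℝ, 0 < C ∧ ∃ P : ℕ, ∀ z i : ℕ, i < b ^ z → ∀ q, P ≤ sz q →
    ∫ t, ff b κ AA q t ∂(cm b z i) ≤ (b : ℝ) ^ z * C * ws sz q := by
  have hb := h.hb
  have hb0 : 0 < b := by omega
  obtain ⟨K0, hK0, hev0⟩ := (h.fam 0 (by norm_num)).int_one
  obtain ⟨K1, hK1, hev1⟩ := (h.fam 1 (by norm_num)).int_one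
  obtain ⟨P0, hP0⟩ := eventually_atTop.1 hev0
  obtain ⟨P1, hP1⟩ := eventually_atTop.1 hev1
  refine ⟨K0 + K1, by positivity, P0 + P1, ?_⟩
  intro z i hi q hq
  have hw := ws_nonneg sz q
  have hbz : (0 : ℝ) ≤ (b : ℝ) ^ z := by positivity
  have h1 := int_cm_le (b := b) (z := z) (i := i) hb0 hi (f := ff b κ AA q)
    (fun t => (ff_ind b κ AA).nonneg q t) (integrable_bdd ((ff_ind b κ AA).m q) (M := 1) fun t => by
      rw [abs_of_nonneg ((ff_ind b κ AA).nonneg q t)]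
      exact (ff_ind b κ AA).le_one q t)
  refine h1.trans ?_
  rw [mul_assoc]
  refine mul_le_mul_of_nonneg_left ?_ hbz
  have hj : q % 2 = 0 ∨ q % 2 = 1 := by omega
  rcases hj with hj | hj
  · have h2 := (hP0 (sz q) (by omega)).1
    have e : ∀ t, ff b κ AA q t = fq b κ (AA 0) (sz q) t := fun t => by unfold ff sz; rw [hj]
    simp only [e]
    refine h2.trans ?_
    change K0 * ws sz q ≤ _
    nlinarith
  · have h2 := (hP1 (sz q) (by omega)).1
    have e : ∀ t, ff b κ AA q t = fq b κ (AA 1) (sz q) t := fun t => by unfold ff sz; rw [hj]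
    simp only [e]
    refine h2.trans ?_
    change K1 * ws sz q ≤ _
    nlinarith

/-- the pairs -/
theorem Two.pair (h : Two b κ a c₁ AA) (k1 : ℕ) : ∃ C : ℝ, 0 < C ∧ ∃ P : ℕ, ∀ z i : ℕ, i < b ^ z →
    ∀ p q, P ≤ sz p → p < q → sz q ≤ 2 ^ k1 * sz p →
    ∫ t, ff b κ AA p t * ff b κ AA q t ∂(cm b z i) ≤
      (b : ℝ) ^ z * C * (ws sz p * ws sz q + cpr (rh b κ) p q) := by
  have hb := h.hb
  have hb0 : 0 < b := by omega
  have hκ0 := h.κ0
  have hN : ∀ j j' : ℕ, j < 2 → j' < 2 → ∃ K : ℝ, 0 < K ∧ ∃ P : ℕ, ∀ p : ℕ, P ≤ p → ∀ q : ℕ,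
    p ≤ q → q ≤ 2 ^ k1 * p →
    (∑ k ∈ range (b ^ ex κ p), ph (AA j) p k * ∑ i ∈ range (b ^ (ex κ q - ex κ p)),
      ph (AA j') q (b ^ (ex κ q - ex κ p) * k + i)) / ((b ^ ex κ q : ℕ) : ℝ) ≤
      K * ((Real.log p / p) ^ 2 + (((b : ℝ) ^ (ex κ q - ex κ p))⁻¹ * (Real.log p / p))) := by
    intro j j' hj hj'
    obtain ⟨K, hK, hev⟩ := near2 (h.fam j hj) (h.fam j' hj') (2 ^ k1)
    obtain ⟨P, hP⟩ := eventually_atTop.1 hev
    exact ⟨K, hK, P, fun p hp q hpq hq => hP p hp q hpq hq⟩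
  obtain ⟨K00, hK00, P00, h00⟩ := hN 0 0 (by norm_num) (by norm_num)
  obtain ⟨K01, hK01, P01, h01⟩ := hN 0 1 (by norm_num) (by norm_num)
  obtain ⟨K10, hK10, P10, h10⟩ := hN 1 0 (by norm_num) (by norm_num)
  obtain ⟨K11, hK11, P11, h11⟩ := hN 1 1 (by norm_num) (by norm_num)
  obtain ⟨Ks, hKs, hevs⟩ := (h.fam 0 (by norm_num)).same (h.fam 1 (by norm_num)) h.ne
  obtain ⟨Ps, hPs⟩ := eventually_atTop.1 hevs
  have hb1 : (1 : ℝ) ≤ b := by exact_mod_cast (by omega : 1 ≤ b)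
  set C := (K00 + K01 + K10 + K11 + Ks) with hC
  have hC0 : 0 < C := by positivity
  refine ⟨C * (2 ^ k1 * b), by positivity, P00 + P01 + P10 + P11 + Ps + 1, ?_⟩
  intro z i hi p q hp hpq hqp
  have hwp := ws_nonneg sz p
  have hwq := ws_nonneg sz q
  have hbz : (0 : ℝ) ≤ (b : ℝ) ^ z := by positivity
  have hsz : sz p ≤ sz q := sz_mono hpq.le
  have h1 := int_cm_le (b := b) (z := z) (i := i) hb0 hi (f := fun t => ff b κ AA p t * ff b κ AA q t)
    (fun t => mul_nonneg ((ff_ind b κ AA).nonneg p t) ((ff_ind b κ AA).nonneg q t))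
    (integrable_bdd (((ff_ind b κ AA).m p).mul ((ff_ind b κ AA).m q)) (M := 1) fun t => by
      rw [abs_of_nonneg (mul_nonneg ((ff_ind b κ AA).nonneg p t) ((ff_ind b κ AA).nonneg q t))]
      exact mul_le_one₀ ((ff_ind b κ AA).le_one p t) ((ff_ind b κ AA).nonneg q t)
        ((ff_ind b κ AA).le_one q t))
  refine h1.trans ?_
  rw [mul_assoc]
  refine mul_le_mul_of_nonneg_left ?_ hbz
  have hp0 : (0 : ℝ) < sz p := by exact_mod_cast (by omega : 0 < sz p)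
  have hq0 : (0 : ℝ) < sz q := lt_of_lt_of_le hp0 (by exact_mod_cast hsz)
  have hwpq : ws sz p ≤ 2 ^ k1 * ws sz q := by
    unfold ws
    have g1 : Real.log (sz p) ≤ Real.log (sz q) := Real.log_le_log hp0 (by exact_mod_cast hsz)
    have g2 : 0 ≤ Real.log (sz q) := Real.log_natCast_nonneg _
    have g3 : (sz q : ℝ) ≤ 2 ^ k1 * sz p := by exact_mod_cast hqp
    calc Real.log (sz p) / sz p ≤ Real.log (sz q) / sz p := by gcongr
      _ = 2 ^ k1 * (Real.log (sz q) / (2 ^ k1 * sz p)) := by field_simp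
      _ ≤ 2 ^ k1 * (Real.log (sz q) / sz q) := by gcongr
  rcases Nat.lt_or_ge (sz p) (sz q) with hlt | hge
  · -- different levels
    have key : ∀ (j j' : ℕ) (K : ℝ), 0 < K → K ≤ C → p % 2 = j → q % 2 = j' →
        (∑ k ∈ range (b ^ ex κ (sz p)), ph (AA j) (sz p) k * ∑ i ∈ range (b ^ (ex κ (sz q) - ex κ (sz p))),
          ph (AA j') (sz q) (b ^ (ex κ (sz q) - ex κ (sz p)) * k + i)) / ((b ^ ex κ (sz q) : ℕ) : ℝ) ≤
        K * ((Real.log (sz p) / sz p) ^ 2 + (((b : ℝ) ^ (ex κ (sz q) - ex κ (sz p)))⁻¹ *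
          (Real.log (sz p) / sz p))) →
        ∫ t in Set.Ico (0 : ℝ) 1, ff b κ AA p t * ff b κ AA q t ≤
          C * (2 ^ k1 * b) * (ws sz p * ws sz q + cpr (rh b κ) p q) := by
      intro j j' K hK hKC hj hj' hle
      have e : ∀ t, ff b κ AA p t * ff b κ AA q t =
          (fun k => ph (AA j) (sz p) k) ⌊t * ((b ^ ex κ (sz p) : ℕ) : ℝ)⌋₊ *
          (fun k => ph (AA j') (sz q) k) ⌊t * ((b ^ ex κ (sz q) : ℕ) : ℝ)⌋₊ := fun t => by
        unfold ff fq sz; rw [hj, hj']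
      simp only [e]
      have h2 := int_pair hb0 hκ0 (fun k => ph (AA j) (sz p) k) (fun k => ph (AA j') (sz q) k) hlt.le
      refine (le_of_eq h2).trans (hle.trans ?_)
      change K * (ws sz p ^ 2 + ((b : ℝ) ^ (ex κ (sz q) - ex κ (sz p)))⁻¹ * ws sz p) ≤ _
      have h3 := pow_rh hb hκ0 hlt.le
      have hρ := rh_pos b κ
      unfold cpr
      rw [if_pos hlt]
      have h4 : ws sz p ^ 2 ≤ 2 ^ k1 * b * (ws sz p * ws sz q) := by
        calc ws sz p ^ 2 = ws sz p * ws sz p := sq _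
          _ ≤ ws sz p * (2 ^ k1 * ws sz q) := by gcongr
          _ = 2 ^ k1 * 1 * (ws sz p * ws sz q) := by ring
          _ ≤ 2 ^ k1 * b * (ws sz p * ws sz q) := by gcongr
      have h5 : ((b : ℝ) ^ (ex κ (sz q) - ex κ (sz p)))⁻¹ * ws sz p ≤
          2 ^ k1 * b * (ws sz p * rh b κ ^ (sz q - sz p)) := by
        have h6 : (1 : ℝ) ≤ 2 ^ k1 := one_le_pow₀ (by norm_num)
        calc ((b : ℝ) ^ (ex κ (sz q) - ex κ (sz p)))⁻¹ * ws sz p ≤ (b * rh b κ ^ (sz q - sz p)) * ws sz p := by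
              gcongr
          _ = 1 * b * (ws sz p * rh b κ ^ (sz q - sz p)) := by ring
          _ ≤ 2 ^ k1 * b * (ws sz p * rh b κ ^ (sz q - sz p)) := by gcongr
      calc K * (ws sz p ^ 2 + ((b : ℝ) ^ (ex κ (sz q) - ex κ (sz p)))⁻¹ * ws sz p) ≤
            C * (2 ^ k1 * b * (ws sz p * ws sz q) + 2 ^ k1 * b * (ws sz p * rh b κ ^ (sz q - sz p))) := by
            gcongr
        _ = _ := by ring
    have hjp : p % 2 = 0 ∨ p % 2 = 1 := by omega
    have hjq : q % 2 = 0 ∨ q % 2 = 1 := by omega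
    rcases hjp with hjp | hjp
    · rcases hjq with hjq | hjq
      · exact key 0 0 K00 hK00 (by rw [hC]; linarith) hjp hjq (h00 _ (by omega) _ hsz hqp)
      · exact key 0 1 K01 hK01 (by rw [hC]; linarith) hjp hjq (h01 _ (by omega) _ hsz hqp)
    · rcases hjq with hjq | hjq
      · exact key 1 0 K10 hK10 (by rw [hC]; linarith) hjp hjq (h10 _ (by omega) _ hsz hqp)
      · exact key 1 1 K11 hK11 (by rw [hC]; linarith) hjp hjq (h11 _ (by omega) _ hsz hqp)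
  · -- the same level
    have hs : sz q = sz p := le_antisymm hge hsz
    have hp2 : p % 2 = 0 := by unfold sz at hs; omega
    have hq2 : q % 2 = 1 := by unfold sz at hs; omega
    have e : ∀ t, ff b κ AA p t * ff b κ AA q t =
        (fun k => ph (AA 0) (sz p) k * ph (AA 1) (sz p) k) ⌊t * ((b ^ ex κ (sz p) : ℕ) : ℝ)⌋₊ := fun t => by
      unfold ff fq
      rw [hp2, hq2]
      change ph (AA 0) (sz p) ⌊t * ((b ^ ex κ (sz p) : ℕ) : ℝ)⌋₊ * ph (AA 1) (sz q) ⌊t * ((b ^ ex κ (sz q) : ℕ) : ℝ)⌋₊ = _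
      rw [hs]
    simp only [e]
    rw [int_floor (fun k => ph (AA 0) (sz p) k * ph (AA 1) (sz p) k) (by positivity)]
    refine (hPs (sz p) (by omega)).trans ?_
    have hw : ws sz q = ws sz p := by unfold ws; rw [hs]
    unfold cpr
    rw [if_neg (by omega), hw, add_zero]
    change Ks * ws sz p ^ 2 ≤ _
    have h6 : (1 : ℝ) ≤ 2 ^ k1 := one_le_pow₀ (by norm_num)
    calc Ks * ws sz p ^ 2 ≤ C * ws sz p ^ 2 := by
          refine mul_le_mul_of_nonneg_right ?_ (sq_nonneg _)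
          rw [hC]; linarith
      _ = C * (1 * 1) * (ws sz p * ws sz p) := by ring
      _ ≤ _ := by gcongr

end Pool.Agent.H32x.AB
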