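import Mathlib
import Pool.Agent.H32x.AB.Two

set_option autoImplicit false

/-!
# Two sequences with the same random digits: the joint generating function
-/

namespace Pool.Agent.H32x.AB

open Finset Filter Topology MeasureTheory
open Pool.Agent.N176.OW (VT VT_nonneg)
open Pool.Agent.H39x.LP

variable {b : ℕ} {κ a c₁ : ℝ} {AA : ℕ → ℕ → ℕ}

open Classical in
/-- the number of good exponents of `T` -/
noncomputable def hq (b : ℕ) (κ : ℝ) (A : ℕ → ℕ) (T : Finset ℕ) (t : ℝ) : ℕ :=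
  (T.filter (fun q => fq b κ A q t = 1)).card

lemma hc_dj (b : ℕ) (κ : ℝ) (AA : ℕ → ℕ → ℕ) {j : ℕ} (hj : j < 2) (T : Finset ℕ) (t : ℝ) :
    hc (ff b κ AA) (dj j T) t = hq b κ (AA j) T t := by
  classical
  unfold hc hq
  have e : (dj j T).filter (fun n => ff b κ AA n t = 1) = dj j (T.filter (fun q => fq b κ (AA j) q t = 1)) := by
    ext n
    rw [mem_filter, mem_dj hj, mem_dj hj, mem_filter]
    unfold ff sz
    constructor
    · rintro ⟨⟨h1, h2⟩, h3⟩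
      rw [h2] at h3
      exact ⟨⟨h1, h3⟩, h2⟩
    · rintro ⟨⟨h1, h3⟩, h2⟩
      rw [h2]
      exact ⟨⟨h1, rfl⟩, h3⟩
  rw [e]
  unfold dj
  rw [Finset.card_image_of_injective]
  intro x y hxy
  have : 2 * x + j = 2 * y + j := hxy
  omega

lemma measurable_hq (b : ℕ) (κ : ℝ) (A : ℕ → ℕ) (T : Finset ℕ) : Measurable (hq b κ A T) := by
  classical
  unfold hq
  simp only [Finset.card_filter]
  refine Finset.measurable_fun_sum _ fun p _ => ?_
  exact Measurable.ite ((measurable_fq b κ A p) (measurableSet_singleton (1 : ℝ))) measurable_const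
    measurable_const

theorem Two.gen (h : Two b κ a c₁ AA) : ∃ K : ℝ, 0 < K ∧ ∃ k1 : ℕ, 1 ≤ k1 ∧ ∀ z i : ℕ, i < b ^ z →
    ∃ C : ℝ, 0 < C ∧ ∃ P : ℕ, ∀ i0 J : ℕ, P ≤ 2 ^ i0 → k1 ≤ i0 + 1 → i0 ≤ J →
    ∀ (ι : Type) [Fintype ι] [DecidableEq ι] (T : ι → Finset ℕ),
    (∀ i j, i ≠ j → Disjoint (T i) (T j)) →
    (∀ p ∈ univ.biUnion T, 2 ^ i0 < p ∧ p ≤ 2 ^ J) → ∀ δ : ℝ, 0 ≤ δ →
    (∀ i, i0 ≤ i → i < J →
      VT ((univ.biUnion T).filter (fun p => 2 ^ (i + 1 - k1) < p ∧ p ≤ 2 ^ (i + 1))) ≤ δ) →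
    ∀ α : ℝ, 0 ≤ α → α * (kp a * (2 * δ)) ≤ 1 → ∀ e : ι × Fin 2 → ℂ, (∀ x, ‖e x‖ = 1) →
    (∀ x, ‖1 - e x‖ ≤ α) →
    ‖∫ t, ∏ x : ι × Fin 2, e x ^ hq b κ (AA x.2) (T x.1) t ∂(cm b z i) -
      ∏ x : ι × Fin 2, Complex.exp (-(((kp a * VT (T x.1) : ℝ) : ℂ) * (1 - e x)))‖ ≤
      C * α ^ 2 * (δ * VT (univ.biUnion T) + CR (rh b κ) (univ.biUnion T)) +
        α * K * ∑ q ∈ univ.biUnion T, (q : ℝ)⁻¹ := by
  classical
  have hb0 : 0 < b := by have := h.hb; omega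
  obtain ⟨K, hK, k1, hk1, hdec⟩ := h.dec
  obtain ⟨C1, hC1, P1, hone⟩ := h.one
  obtain ⟨C2, hC2, P2, hpair⟩ := h.pair k1
  refine ⟨2 * K, by positivity, k1, hk1, ?_⟩
  intro z i hi
  obtain ⟨P3, hP3⟩ := hdec z i hi
  have hbz : (0 : ℝ) < (b : ℝ) ^ z := by
    have : (0 : ℝ) < b := by exact_mod_cast hb0
    positivity
  have hkp := h.kp0
  set C := (b : ℝ) ^ z * (C1 + C2) with hC
  have hC0 : 0 < C := by positivity
  refine ⟨4 * (C + kp a * C + kp a ^ 2), by positivity, P1 + P2 + P3, ?_⟩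
  intro i0 J hP hk1i hiJ ι _ _ T hdis hT δ hδ hblock α hα hα2 e he he2
  haveI := cm_prob hb0 z i
  have hρ := (rh_pos b κ).le
  have hUd := union_dj T
  have hmem : ∀ n, n ∈ univ.biUnion (fun x : ι × Fin 2 => dj x.2 (T x.1)) → sz n ∈ univ.biUnion T := by
    intro n hn
    rw [hUd, mem_db] at hn
    exact hn
  have hg := AB.gen (μ := cm b z i) (ff_ind b κ AA) sz_mono (C := C) (K := K) (κ := kp a) hC0.le hkp.le hk1
    (cp := cpr (rh b κ)) (fun p q => cpr_nonneg hρ p q) (i0 := i0) (J := J) hk1i hiJ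
    (fun x : ι × Fin 2 => dj x.2 (T x.1)) (disj_dj hdis)
    (fun n hn => hT _ (hmem n hn))
    (fun n hn => by
      have h1 := hT _ (hmem n hn)
      refine (hone z i hi n (by omega)).trans ?_
      refine mul_le_mul_of_nonneg_right ?_ (ws_nonneg sz n)
      rw [hC]
      nlinarith)
    (fun p hp q _ hpq hqp => by
      have h1 := hT _ (hmem p hp)
      refine (hpair z i hi p q (by omega) hpq hqp).trans ?_
      refine mul_le_mul_of_nonneg_right ?_ (add_nonneg (mul_nonneg (ws_nonneg sz p) (ws_nonneg sz q))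
        (cpr_nonneg hρ p q))
      rw [hC]
      nlinarith)
    (fun q hq L _ hL2 a' ha' => by
      have h1 := hT _ (hmem q hq)
      exact hP3 q (by omega) L hL2 a' ha')
    (α := α) (δ := 2 * δ) hα (by positivity)
    (fun i' h1 h2 => by
      rw [hUd]
      have h3 : (db (univ.biUnion T)).filter (fun p => 2 ^ (i' + 1 - k1) < sz p ∧ sz p ≤ 2 ^ (i' + 1)) =
          db ((univ.biUnion T).filter (fun p => 2 ^ (i' + 1 - k1) < p ∧ p ≤ 2 ^ (i' + 1))) :=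
        filter_db (univ.biUnion T) (fun p => 2 ^ (i' + 1 - k1) < p ∧ p ≤ 2 ^ (i' + 1))
      rw [h3, WT_db]
      have := hblock i' h1 h2
      linarith)
    hα2 (e := e) he he2
  rw [hUd, WT_db, inv_db] at hg
  have e1 : ∀ t, ∏ x : ι × Fin 2, e x ^ hc (ff b κ AA) (dj x.2 (T x.1)) t =
      ∏ x : ι × Fin 2, e x ^ hq b κ (AA x.2) (T x.1) t := fun t =>
    Finset.prod_congr rfl fun x _ => by rw [hc_dj b κ AA x.2.2]
  have e2 : ∀ x : ι × Fin 2, WT sz (dj x.2 (T x.1)) = VT (T x.1) := fun x => WT_dj x.2.2 _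
  simp only [e1, e2] at hg
  refine hg.trans ?_
  have hCQ := CQ_db hρ (univ.biUnion T)
  have hVT := VT_nonneg (univ.biUnion T)
  have hCR := CR_nonneg hρ (univ.biUnion T)
  have hCC : 0 ≤ (C + kp a * C + kp a ^ 2) * α ^ 2 := by positivity
  have h5 : 2 * δ * (2 * VT (univ.biUnion T)) + CQ (cpr (rh b κ)) (db (univ.biUnion T)) ≤
      4 * (δ * VT (univ.biUnion T) + CR (rh b κ) (univ.biUnion T)) := by
    nlinarith
  have h6 := mul_le_mul_of_nonneg_left h5 hCC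
  have e3 : 4 * (C + kp a * C + kp a ^ 2) * α ^ 2 * (δ * VT (univ.biUnion T) + CR (rh b κ) (univ.biUnion T)) =
      (C + kp a * C + kp a ^ 2) * α ^ 2 * (4 * (δ * VT (univ.biUnion T) + CR (rh b κ) (univ.biUnion T))) := by
    ring
  have e4 : α * (2 * K) * ∑ q ∈ univ.biUnion T, (q : ℝ)⁻¹ = α * K * (2 * ∑ q ∈ univ.biUnion T, (q : ℝ)⁻¹) := by
    ring
  rw [e3, e4]
  linarith

end Pool.Agent.H32x.AB
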