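import Mathlib
import Pool.Agent.H32x.AB.NearNum
import Pool.Agent.H32x.AB.TwoGen

set_option autoImplicit false

/-!
# Two sequences with the same random digits: estimates uniform in the cells
-/

namespace Pool.Agent.H32x.AB

open Finset Filter Topology MeasureTheory
open Pool.Agent.N176.OW (VT VT_nonneg)
open Pool.Agent.H305R2 (roughPart log_nat_tendsto)
open Pool.Agent.H39x.LP

variable {b : ℕ} {κ a c₁ : ℝ} {AA : ℕ → ℕ → ℕ}

lemma int_twoR (g h : ℕ → ℝ) {m n : ℕ} (hm : 0 < m) (hn : 0 < n) :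
    ∫ t in Set.Ico (0 : ℝ) 1, g ⌊t * (m : ℝ)⌋₊ * h ⌊t * ((m * n : ℕ) : ℝ)⌋₊ =
      (∑ k ∈ range m, g k * ∑ i ∈ range n, h (n * k + i)) / ((m * n : ℕ) : ℝ) := by
  have e1 : ∀ t : ℝ, g ⌊t * (m : ℝ)⌋₊ * h ⌊t * ((m * n : ℕ) : ℝ)⌋₊ =
      (fun k => g (k / n) * h k) ⌊t * ((m * n : ℕ) : ℝ)⌋₊ := by
    intro t
    simp only
    rw [← floor_nest m hn t]
  simp only [e1]
  rw [int_floor (fun k => g (k / n) * h k) (Nat.mul_pos hm hn)]
  congr 1
  rw [double_sum]
  refine Finset.sum_congr rfl fun k _ => ?_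
  rw [Finset.mul_sum]
  refine Finset.sum_congr rfl fun i hi => ?_
  rw [mem_range] at hi
  rw [Nat.mul_add_div hn, Nat.div_eq_of_lt hi, add_zero]

/-- two point integrals over cells -/
lemma int_cm_two {z i e E : ℕ} (hb : 0 < b) (hi : i < b ^ z) (hze : z ≤ e) (heE : e ≤ E) (g h : ℕ → ℝ) :
    ∫ t, g ⌊t * ((b ^ e : ℕ) : ℝ)⌋₊ * h ⌊t * ((b ^ E : ℕ) : ℝ)⌋₊ ∂(cm b z i) =
      (∑ k ∈ range (b ^ (e - z)), g (b ^ (e - z) * i + k) *
        ∑ l ∈ range (b ^ (E - e)), h (b ^ (E - e) * (b ^ (e - z) * i + k) + l)) /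
        (((b ^ (e - z) : ℕ) : ℝ) * ((b ^ (E - e) : ℕ) : ℝ)) := by
  have hb0 : (0 : ℝ) < b := by exact_mod_cast hb
  set m := b ^ e with hm
  set n := b ^ (E - e) with hn
  have hm0 : 0 < m := by rw [hm]; positivity
  have hn0 : 0 < n := by rw [hn]; positivity
  have hmn : b ^ E = m * n := by rw [hm, hn, ← pow_add]; congr 1; omega
  set w := b ^ (e - z) with hw
  have hw0 : 0 < w := by rw [hw]; positivity
  have hmw : m = b ^ z * w := by rw [hm, hw, ← pow_add]; congr 1; omega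
  have hmr : (0 : ℝ) < m := by exact_mod_cast hm0
  have hnr : (0 : ℝ) < n := by exact_mod_cast hn0
  have hwr : (0 : ℝ) < w := by exact_mod_cast hw0
  -- reduction to the unit interval
  have e1 : ∫ t in cell b z i, g ⌊t * (m : ℝ)⌋₊ * h ⌊t * ((b ^ E : ℕ) : ℝ)⌋₊ =
      ∫ t in Set.Ico (0 : ℝ) 1, (fun k => if k / w = i then g k else 0) ⌊t * (m : ℝ)⌋₊ *
        h ⌊t * ((m * n : ℕ) : ℝ)⌋₊ := by
    have e2 : cell b z i = Set.Ico 0 1 ∩ cell b z i := (Set.inter_eq_right.2 (cell_sub hb hi)).symm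
    rw [e2, ← setIntegral_indicator (measurableSet_cell b z i)]
    refine setIntegral_congr_fun measurableSet_Ico fun t ht => ?_
    have e3 : ⌊t * ((b ^ z : ℕ) : ℝ)⌋₊ = ⌊t * (m : ℝ)⌋₊ / w := by
      rw [hmw]; exact floor_nest (b ^ z) hw0 t
    have h4 := mem_cell hb z i ht.1
    rw [e3] at h4
    by_cases h5 : t ∈ cell b z i
    · rw [Set.indicator_of_mem h5]
      simp only
      rw [if_pos (h4.1 h5), hmn]
    · rw [Set.indicator_of_notMem h5]
      simp only
      rw [if_neg fun h6 => h5 (h4.2 h6), zero_mul]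
  rw [int_cm, e1, int_twoR (fun k => if k / w = i then g k else 0) h hm0 hn0, smul_eq_mul]
  have e4 : ∑ k ∈ range m, (fun k => if k / w = i then g k else 0) k * ∑ l ∈ range n, h (n * k + l) =
      ∑ k ∈ range w, g (w * i + k) * ∑ l ∈ range n, h (n * (w * i + k) + l) := by
    rw [hmw, double_sum (fun k => (if k / w = i then g k else 0) * ∑ l ∈ range n, h (n * k + l))]
    rw [Finset.sum_eq_single i]
    · refine Finset.sum_congr rfl fun k hk => ?_
      rw [mem_range] at hk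
      rw [Nat.mul_add_div hw0, Nat.div_eq_of_lt hk, add_zero, if_pos rfl]
    · intro c _ hci
      refine Finset.sum_eq_zero fun k hk => ?_
      rw [mem_range] at hk
      rw [Nat.mul_add_div hw0, Nat.div_eq_of_lt hk, add_zero, if_neg hci, zero_mul]
    · intro h6
      exact absurd (mem_range.2 hi) h6
  rw [e4]
  have hbzm : (b : ℝ) ^ z * w = m := by rw [hmw]; push_cast; rfl
  have hbz : (b : ℝ) ^ z ≠ 0 := by positivity
  have e5 : ((m * n : ℕ) : ℝ) = (b : ℝ) ^ z * (w * n) := by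
    push_cast
    rw [← hbzm]
    ring
  rw [e5, mul_div_assoc', mul_div_mul_left _ _ hbz]

/-- the estimates, uniform in the cells -/
theorem Two.unif (h : Two b κ a c₁ AA) : ∃ K C : ℝ, 0 < K ∧ 0 < C ∧ ∃ k1 : ℕ, 1 ≤ k1 ∧ ∃ P : ℕ,
    ∀ z i : ℕ, i < b ^ z →
    (∀ q : ℕ, P ≤ sz q → (z : ℝ) * 2 ^ (k1 - 1) ≤ κ * sz q →
      ∫ t, ff b κ AA q t ∂(cm b z i) ≤ C * ws sz q) ∧
    (∀ p q : ℕ, P ≤ sz p → (z : ℝ) * 2 ^ (k1 - 1) ≤ κ * sz p → p < q → sz q ≤ 2 ^ k1 * sz p →
      ∫ t, ff b κ AA p t * ff b κ AA q t ∂(cm b z i) ≤ C * (ws sz p * ws sz q + cpr (rh b κ) p q)) ∧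
    (∀ q : ℕ, P ≤ sz q → (z : ℝ) * 2 ^ (k1 - 1) ≤ κ * sz q → ∀ L : Finset ℕ,
      (∀ p ∈ L, 2 ^ (k1 - 1) * sz p ≤ sz q) → ∀ α : ℕ → ℂ, (∀ p, ‖1 - α p‖ ≤ 1) →
      ‖∫ t, PF (ff b κ AA) α L t * ((ff b κ AA q t - kp a * ws sz q : ℝ) : ℂ) ∂(cm b z i)‖ ≤
        K * ((sz q : ℝ)⁻¹)) := by
  have hb := h.hb
  have hb0 : 0 < b := by omega
  have ha := h.ha
  have hκ0 := h.κ0
  have hl := h.l0
  have hkp := h.kp0
  obtain ⟨κ₁, δ, hκ₁, hκ₁', hδ, hκδ⟩ := (h.fam 0 (by norm_num)).kk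
  have hblkj : ∀ j < 2, ∃ K : ℝ, 0 < K ∧ ∃ P : ℕ, ∀ q, P ≤ q → ∀ u H : ℕ, Real.exp (κ₁ * (a * q)) ≤ H →
      (u : ℝ) + H ≤ Real.exp (κ * (Real.log b * q)) →
      |∑ i ∈ range H, ph (AA j) q (u + i) -
        H * (Real.exp Real.eulerMascheroniConstant / a * (Real.log q / q))| ≤ K * (H / q) := by
    intro j hj
    obtain ⟨K, hK, hev⟩ := (h.fam j hj).blk hκ₁ hκ₁'
    obtain ⟨P, hP⟩ := eventually_atTop.1 hev
    exact ⟨K, hK, P, hP⟩
  obtain ⟨K0, hK0, P0, hP0⟩ := hblkj 0 (by norm_num)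
  obtain ⟨K1, hK1, P1, hP1⟩ := hblkj 1 (by norm_num)
  -- block averages
  set K := K0 + K1 with hKd
  have hKpos : 0 < K := by positivity
  have hblk : ∀ q, P0 + P1 ≤ q → ∀ j < 2, ∀ u H : ℕ, Real.exp (κ₁ * (a * q)) ≤ H →
      (u : ℝ) + H ≤ Real.exp (κ * (Real.log b * q)) →
      |∑ i ∈ range H, ph (AA j) q (u + i) - H * cw a q| ≤ K * ((q : ℝ)⁻¹) * H := by
    intro q hq j hj u H h1 h2
    have hH : (0 : ℝ) ≤ (H : ℝ) := Nat.cast_nonneg _
    have hj' : j = 0 ∨ j = 1 := by omega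
    rcases hj' with rfl | rfl
    · refine (hP0 q (by omega) u H h1 h2).trans ?_
      rw [div_eq_mul_inv]
      have : 0 ≤ K1 * ((q : ℝ)⁻¹) * (H : ℝ) := by positivity
      nlinarith
    · refine (hP1 q (by omega) u H h1 h2).trans ?_
      rw [div_eq_mul_inv]
      have : 0 ≤ K0 * ((q : ℝ)⁻¹) * (H : ℝ) := by positivity
      nlinarith
  have hκl : 0 < κ * Real.log b := by positivity
  obtain ⟨k, hk⟩ := pow_unbounded_of_one_lt (2 * (κ * Real.log b) / δ) (one_lt_two (α := ℝ))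
  have h2k : (0 : ℝ) < 2 ^ k := by positivity
  have hkδ : ∀ x : ℝ, 0 ≤ x → κ * Real.log b * (x / 2 ^ k) ≤ δ / 2 * x := by
    intro x hx
    rw [div_lt_iff₀ hδ] at hk
    rw [mul_div_assoc', div_le_iff₀ h2k]
    nlinarith
  obtain ⟨C1, hC1, hnn⟩ := near_num hb ha (h.fam 0 (by norm_num)).hκ (h.fam 0 (by norm_num)).hκ1 (2 ^ (k + 1))
  obtain ⟨P3, hP3⟩ := eventually_atTop.1 hnn
  have hsz : ∀ j < 2, ∃ P : ℕ, ∀ q, P ≤ q → 4 * Real.exp (κ * (Real.log b * q)) ≤ AA j q ∧
      (AA j q : ℝ) + Real.exp (κ * (Real.log b * q)) ≤ Real.exp (2 * a * q) := by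
    intro j hj
    have e1 := (h.fam j hj).size
    have e2 := (h.fam j hj).hA
    have e3 := tendsto_natCast_atTop_atTop.eventually
      (Pool.Agent.Q278.KS.ev_poly (Real.exp c₁ + 1) 0 (show (0 : ℝ) < a by positivity))
    refine eventually_atTop.1 ?_
    filter_upwards [e1, e2, e3, eventually_ge_atTop 1] with q h1 h2 h3 h4
    have hq1 : (1 : ℝ) ≤ q := by exact_mod_cast h4
    have hE : 1 ≤ Real.exp (κ * (Real.log b * q)) := Real.one_le_exp (by positivity)
    have hA4 : 4 * Real.exp (κ * (Real.log b * q)) ≤ AA j q := by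
      refine le_trans ?_ h1
      refine mul_le_mul_of_nonneg_right ?_ (by linarith)
      have : (1 : ℝ) ≤ (q : ℝ) ^ 2 := one_le_pow₀ hq1
      linarith
    refine ⟨hA4, ?_⟩
    have hA0 : (0 : ℝ) < AA j q := by linarith
    have h5 : (AA j q : ℝ) ≤ Real.exp (a * q) * Real.exp c₁ := by
      rw [← Real.exp_add, ← Real.log_le_iff_le_exp hA0]
      linarith [(abs_le.1 h2).2]
    have h6 : Real.exp (κ * (Real.log b * q)) ≤ Real.exp (a * q) := by
      rw [Real.exp_le_exp]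
      have := mul_le_mul_of_nonneg_right (h.fam j hj).hκ1.le (by linarith : (0 : ℝ) ≤ q)
      linarith
    rw [pow_zero, mul_one] at h3
    have e4 : Real.exp (2 * a * q) = Real.exp (a * q) * Real.exp (a * q) := by
      rw [← Real.exp_add]; congr 1; ring
    rw [e4]
    have h7 : 0 < Real.exp (a * q) := Real.exp_pos _
    nlinarith
  obtain ⟨P4, hP4⟩ := hsz 0 (by norm_num)
  obtain ⟨P5, hP5⟩ := hsz 1 (by norm_num)
  have hsize : ∀ j < 2, ∀ q, P4 + P5 ≤ q → 4 * Real.exp (κ * (Real.log b * q)) ≤ AA j q ∧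
      (AA j q : ℝ) + Real.exp (κ * (Real.log b * q)) ≤ Real.exp (2 * a * q) := by
    intro j hj q hq
    have hj' : j = 0 ∨ j = 1 := by omega
    rcases hj' with rfl | rfl
    · exact hP4 q (by omega)
    · exact hP5 q (by omega)
  obtain ⟨P6, hP6⟩ := exists_nat_ge (2 * Real.log b / δ)
  obtain ⟨P7, hP7⟩ := eventually_atTop.1 (log_nat_tendsto.eventually_ge_atTop 1)
  obtain ⟨P8, hP8⟩ := eventually_atTop.1 h.ne
  have hB := (h.fam 0 (by norm_num)).B_le
  -- sizes of the blocks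
  have hlev : ∀ (e Q : ℕ), P6 ≤ Q → (e : ℝ) ≤ κ * (Q / 2 ^ k) →
      e ≤ ex κ Q ∧ Real.exp (κ₁ * (a * Q)) ≤ ((b ^ (ex κ Q - e) : ℕ) : ℝ) := by
    intro e Q hQ he
    have hQ0 : (0 : ℝ) ≤ Q := Nat.cast_nonneg Q
    have hEb := (ex_bounds hκ0 Q).1
    have hzδ : Real.log b ≤ δ / 2 * Q := by
      have h1 : (P6 : ℝ) ≤ Q := by exact_mod_cast hQ
      have h2 := hP6.trans h1
      rw [div_le_iff₀ hδ] at h2
      linarith
    have hkey : κ₁ * (a * Q) ≤ Real.log b * ((ex κ Q : ℝ) - e) := by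
      have h1 : Real.log b * (κ * Q - 1 - κ * (Q / 2 ^ k)) ≤ Real.log b * ((ex κ Q : ℝ) - e) := by
        refine mul_le_mul_of_nonneg_left ?_ hl.le
        linarith
      have e1 : Real.log b * (κ * Q - 1 - κ * (Q / 2 ^ k)) =
          (κ * Real.log b) * Q - Real.log b - κ * Real.log b * (Q / 2 ^ k) := by ring
      have e2 : (κ * Real.log b) * Q = κ₁ * (a * Q) + δ * Q := by rw [hκδ]; ring
      rw [e1, e2] at h1
      linarith [hkδ Q hQ0]
    have heE : e ≤ ex κ Q := by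
      have h1 : 0 ≤ κ₁ * (a * Q) := by
        have : 0 < κ₁ := by linarith
        positivity
      have h2 : 0 ≤ Real.log b * ((ex κ Q : ℝ) - e) := h1.trans hkey
      have h3 : 0 ≤ (ex κ Q : ℝ) - e := nonneg_of_mul_nonneg_right h2 hl
      have h4 : (e : ℝ) ≤ ex κ Q := by linarith
      exact_mod_cast h4
    refine ⟨heE, ?_⟩
    have hcast : ((ex κ Q - e : ℕ) : ℝ) = ex κ Q - e := Nat.cast_sub heE
    rw [pow_exp hb, Real.exp_le_exp, hcast]
    exact hkey
  have hin : ∀ (e Q m : ℕ), e ≤ ex κ Q → m < b ^ e →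
      ((b ^ (ex κ Q - e) * m : ℕ) : ℝ) + ((b ^ (ex κ Q - e) : ℕ) : ℝ) ≤ Real.exp (κ * (Real.log b * Q)) := by
    intro e Q m heE hm
    refine le_trans ?_ (hB Q)
    have h2 : b ^ (ex κ Q - e) * m + b ^ (ex κ Q - e) ≤ b ^ ex κ Q := by
      have h3 : b ^ ex κ Q = b ^ (ex κ Q - e) * b ^ e := by rw [← pow_add]; congr 1; omega
      rw [h3]
      calc b ^ (ex κ Q - e) * m + b ^ (ex κ Q - e) = b ^ (ex κ Q - e) * (m + 1) := by ring
        _ ≤ b ^ (ex κ Q - e) * b ^ e := Nat.mul_le_mul_left _ hm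
    exact_mod_cast h2
  have hb1 : (1 : ℝ) ≤ b := by exact_mod_cast (by omega : 1 ≤ b)
  -- the decoupling
  have hdec : ∀ z i : ℕ, i < b ^ z → ∀ q : ℕ, P0 + P1 + P6 + 1 ≤ sz q → (z : ℝ) * 2 ^ k ≤ κ * sz q →
      ∀ L : Finset ℕ, (∀ p ∈ L, 2 ^ k * sz p ≤ sz q) → ∀ α : ℕ → ℂ, (∀ p, ‖1 - α p‖ ≤ 1) →
      ‖∫ t, PF (ff b κ AA) α L t * ((ff b κ AA q t - kp a * ws sz q : ℝ) : ℂ) ∂(cm b z i)‖ ≤
        K * ((sz q : ℝ)⁻¹) := by
    intro z i hi q hq hz L hL α hα
    set Q := sz q with hQ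
    have hQ0 : (0 : ℝ) ≤ Q := Nat.cast_nonneg Q
    set e := max z (ex κ (Q / 2 ^ k)) with he
    have hez : (e : ℝ) ≤ κ * (Q / 2 ^ k) := by
      have h1 := (ex_bounds hκ0 (Q / 2 ^ k)).2
      have h2 : ((Q / 2 ^ k : ℕ) : ℝ) ≤ (Q : ℝ) / 2 ^ k := by
        have := Nat.cast_div_le (α := ℝ) (m := Q) (n := 2 ^ k)
        push_cast at this
        exact this
      have h3 : κ * ((Q / 2 ^ k : ℕ) : ℝ) ≤ κ * (Q / 2 ^ k) := mul_le_mul_of_nonneg_left h2 hκ0.le
      rw [he]
      push_cast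
      refine max_le ?_ (by linarith)
      rw [mul_div_assoc', le_div_iff₀ h2k]
      exact hz
    obtain ⟨heE, hbig⟩ := hlev e Q (by omega) hez
    set E := ex κ Q with hE
    set g : ℕ → ℂ := fun m => ∏ n ∈ L, (1 - α n * (ph (AA (n % 2)) (n / 2) (m / b ^ (e - ex κ (n / 2))) : ℝ)) with hg
    have hg1 : ∀ m, ‖g m‖ ≤ 1 := by
      intro m
      simp only [hg]
      rw [norm_prod]
      exact Finset.prod_le_one (fun _ _ => norm_nonneg _) fun n _ =>
        Pool.Agent.H32x.PL.norm_one_sub (hα n) (ph_or _ _ _)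
    have hPF : ∀ t, PF (ff b κ AA) α L t = g ⌊t * ((b ^ e : ℕ) : ℝ)⌋₊ := by
      intro t
      unfold PF
      simp only [hg]
      refine Finset.prod_congr rfl fun n hn => ?_
      have h1 : ex κ (n / 2) ≤ e := by
        refine le_trans (ex_mono hκ0 ?_) (le_max_right _ _)
        rw [Nat.le_div_iff_mul_le (by positivity), mul_comm]
        exact hL n hn
      have h2 : b ^ e = b ^ ex κ (n / 2) * b ^ (e - ex κ (n / 2)) := by
        rw [← pow_add]; congr 1; omega
      unfold ff fq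
      rw [floor_nest (b ^ ex κ (n / 2)) (n := b ^ (e - ex κ (n / 2))) (by positivity) t, ← h2]
    have hint : ∀ t, PF (ff b κ AA) α L t * ((ff b κ AA q t - kp a * ws sz q : ℝ) : ℂ) =
        g ⌊t * ((b ^ e : ℕ) : ℝ)⌋₊ * ((ph (AA (q % 2)) Q ⌊t * ((b ^ E : ℕ) : ℝ)⌋₊ - cw a Q : ℝ) : ℂ) := by
      intro t
      rw [hPF t]
      rfl
    simp only [hint]
    exact dec_bound hb0 hi (le_max_left _ _) heE g hg1 (ph (AA (q % 2)) Q) (cw a Q) _ fun m hm =>
      hblk Q (by omega) (q % 2) (Nat.mod_lt _ (by norm_num)) (b ^ (E - e) * m) (b ^ (E - e)) hbig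
        (hin e Q m heE hm)
  -- the mean values
  have hone : ∀ z i : ℕ, i < b ^ z → ∀ q : ℕ, P0 + P1 + P6 + P7 + 1 ≤ sz q → (z : ℝ) * 2 ^ k ≤ κ * sz q →
      ∫ t, ff b κ AA q t ∂(cm b z i) ≤ (kp a + K) * ws sz q := by
    intro z i hi q hq hz
    have hprob := cm_prob hb0 z i
    have h1 := hdec z i hi q (by omega) hz ∅ (by simp) (fun _ => 0) (by simp)
    have hPF : ∀ t, PF (ff b κ AA) (fun _ => 0) ∅ t = 1 := fun t => by unfold PF; simp
    simp only [hPF, one_mul] at h1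
    rw [integral_complex_ofReal, Complex.norm_real, Real.norm_eq_abs] at h1
    have hint : Integrable (ff b κ AA q) (cm b z i) := integrable_r ((ff_ind b κ AA).m q) (M := 1) fun t => by
      rw [abs_of_nonneg ((ff_ind b κ AA).nonneg q t)]
      exact (ff_ind b κ AA).le_one q t
    rw [integral_sub hint (integrable_const _), integral_const, probReal_univ, one_smul] at h1
    have h2 := (abs_le.1 h1).2
    have hQ0 : (0 : ℝ) < sz q := by exact_mod_cast (by omega : 0 < sz q)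
    have h3 : (sz q : ℝ)⁻¹ ≤ ws sz q := by
      unfold ws
      rw [inv_eq_one_div]
      exact div_le_div_of_nonneg_right (hP7 _ (by omega)) hQ0.le
    have h4 := mul_le_mul_of_nonneg_left h3 hKpos.le
    linarith
  -- the pairs
  have hpair : ∃ C : ℝ, 0 < C ∧ ∀ z i : ℕ, i < b ^ z → ∀ p q : ℕ,
      P0 + P1 + P3 + P4 + P5 + P6 + P7 + P8 + 1 ≤ sz p → (z : ℝ) * 2 ^ k ≤ κ * sz p → p < q →
      sz q ≤ 2 ^ (k + 1) * sz p →
      ∫ t, ff b κ AA p t * ff b κ AA q t ∂(cm b z i) ≤ C * (ws sz p * ws sz q + cpr (rh b κ) p q) := by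
    refine ⟨(C1 + (kp a + K)) * (2 ^ (k + 1) * b), by positivity, ?_⟩
    intro z i hi p q hp hz hpq hqp
    set p' := sz p with hp'
    set q' := sz q with hq'
    have hsz' : p' ≤ q' := sz_mono hpq.le
    have hp0 : (0 : ℝ) < p' := by exact_mod_cast (by omega : 0 < p')
    have hpq0 : (p' : ℝ) ≤ q' := by exact_mod_cast hsz'
    have hq0 : (0 : ℝ) < q' := by linarith
    have hwp := ws_nonneg sz p
    have hwq := ws_nonneg sz q
    have hzle : (z : ℝ) ≤ κ * (p' / 2 ^ k) := by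
      rw [mul_div_assoc', le_div_iff₀ h2k]
      exact hz
    obtain ⟨hze, hmbig⟩ := hlev z p' (by omega) hzle
    have hE : ex κ p' ≤ ex κ q' := ex_mono hκ0 hsz'
    set j := p % 2 with hj
    set j' := q % 2 with hj'
    have hj2 : j < 2 := Nat.mod_lt _ (by norm_num)
    have hj2' : j' < 2 := Nat.mod_lt _ (by norm_num)
    set w := b ^ (ex κ p' - z) with hw
    set n := b ^ (ex κ q' - ex κ p') with hn
    have hw0' : 0 < w := by rw [hw]; positivity
    have hn0' : 0 < n := by rw [hn]; positivity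
    have hw0 : (0 : ℝ) < w := by exact_mod_cast hw0'
    have hn0 : (0 : ℝ) < n := by exact_mod_cast hn0'
    have e1 : ∫ t, ff b κ AA p t * ff b κ AA q t ∂(cm b z i) =
        (∑ k ∈ range w, ph (AA j) p' (w * i + k) *
        ∑ l ∈ range n, ph (AA j') q' (n * (w * i + k) + l)) / ((w : ℝ) * n) :=
      int_cm_two hb0 hi hze hE (ph (AA j) p') (ph (AA j') q')
    rw [e1]
    -- the numbers
    set α := AA j p' + w * i with hα
    set β := AA j' q' + n * (w * i) with hβ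
    have hwi : w * i + w ≤ b ^ ex κ p' := by
      have h3 : b ^ ex κ p' = w * b ^ z := by rw [hw, ← pow_add]; congr 1; omega
      rw [h3]
      calc w * i + w = w * (i + 1) := by ring
        _ ≤ w * b ^ z := Nat.mul_le_mul_left _ hi
    have hnwi : n * (w * i) + n * w ≤ b ^ ex κ q' := by
      have h3 : b ^ ex κ q' = n * b ^ ex κ p' := by rw [hn, ← pow_add]; congr 1; omega
      rw [h3]
      calc n * (w * i) + n * w = n * (w * i + w) := by ring
        _ ≤ n * b ^ ex κ p' := Nat.mul_le_mul_left _ hwi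
    have eα : ∀ k, ph (AA j) p' (w * i + k) = ph (fun _ => α) p' k := by
      intro k
      unfold ph
      rw [hα, ← add_assoc]
    have eβ : ∀ k l, ph (AA j') q' (n * (w * i + k) + l) = ph (fun _ => β) q' (n * k + l) := by
      intro k l
      unfold ph
      rw [hβ]
      have : AA j' q' + (n * (w * i + k) + l) = AA j' q' + n * (w * i) + (n * k + l) := by ring
      rw [this]
    simp only [eα, eβ]
    have hBp := hB p'
    have hBq := hB q'
    have hwir : ((w * i : ℕ) : ℝ) + w ≤ ((b ^ ex κ p' : ℕ) : ℝ) := by exact_mod_cast hwi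
    have hnwir : ((n * (w * i) : ℕ) : ℝ) + n * w ≤ ((b ^ ex κ q' : ℕ) : ℝ) := by exact_mod_cast hnwi
    have hwi0 : (0 : ℝ) ≤ ((w * i : ℕ) : ℝ) := Nat.cast_nonneg _
    have hnwi0 : (0 : ℝ) ≤ ((n * (w * i) : ℕ) : ℝ) := Nat.cast_nonneg _
    obtain ⟨hs1, hs2⟩ := hsize j hj2 p' (by omega)
    obtain ⟨hs3, hs4⟩ := hsize j' hj2' q' (by omega)
    have hαr : (α : ℝ) = AA j p' + ((w * i : ℕ) : ℝ) := by rw [hα]; push_cast; ring
    have hβr : (β : ℝ) = AA j' q' + ((n * (w * i) : ℕ) : ℝ) := by rw [hβ]; push_cast; ring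
    have hnw0 : (0 : ℝ) < n * w := by positivity
    have hnum := hP3 p' (by omega) q' (ex κ q' - ex κ p') α β w hsz' hqp
      (by
        refine le_trans ?_ hmbig
        rw [Real.exp_le_exp]
        have : 0 ≤ a * (p' : ℝ) := by positivity
        nlinarith)
      (by linarith)
      (by
        rw [← hn]
        have e2 : (w : ℝ) * n = n * w := mul_comm _ _
        rw [e2]
        linarith)
      (by rw [hαr]; linarith) (by rw [hβr]; linarith) (by rw [hαr]; linarith) (by rw [hβr]; linarith)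
    rw [← hn] at hnum
    -- the first moment
    have hfirst : ∑ k ∈ range w, ph (fun _ => α) p' k ≤ (kp a + K) * ws sz p * w := by
      have h1 := hblk p' (by omega) j hj2 (w * i) w hmbig (by linarith)
      have h2 : ∑ k ∈ range w, ph (AA j) p' (w * i + k) = ∑ k ∈ range w, ph (fun _ => α) p' k :=
        Finset.sum_congr rfl fun k _ => eα k
      rw [h2] at h1
      have h3 := (abs_le.1 h1).2
      have h4 : (p' : ℝ)⁻¹ ≤ ws sz p := by
        unfold ws
        rw [inv_eq_one_div]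
        exact div_le_div_of_nonneg_right (hP7 _ (by omega)) hp0.le
      have h5 : K * ((p' : ℝ)⁻¹) * w ≤ K * ws sz p * w := by gcongr
      have h6 : (w : ℝ) * cw a p' = kp a * ws sz p * w := by
        unfold cw kp ws
        ring
      rw [h6] at h3
      linarith
    have hwpq : ws sz p ≤ 2 ^ (k + 1) * ws sz q := by
      unfold ws
      have g1 : Real.log p' ≤ Real.log q' := Real.log_le_log hp0 hpq0
      have g2 : 0 ≤ Real.log q' := Real.log_natCast_nonneg _
      have g3 : (q' : ℝ) ≤ 2 ^ (k + 1) * p' := by exact_mod_cast hqp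
      calc Real.log p' / p' ≤ Real.log q' / p' := by gcongr
        _ = 2 ^ (k + 1) * (Real.log q' / (2 ^ (k + 1) * p')) := by field_simp
        _ ≤ 2 ^ (k + 1) * (Real.log q' / q') := by gcongr
    have hfirst0 : 0 ≤ ∑ k ∈ range w, ph (fun _ => α) p' k := Finset.sum_nonneg fun k _ => ph_nonneg _ _ _
    rw [div_le_iff₀ (by positivity)]
    refine hnum.trans ?_
    have hpp : Real.log (p' : ℝ) / p' = ws sz p := rfl
    rw [hpp]
    have h6 : (1 : ℝ) ≤ 2 ^ (k + 1) := one_le_pow₀ (by norm_num)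
    have hCC : 0 < C1 + (kp a + K) := by positivity
    have hmainT : C1 * ws sz p ^ 2 * (w * n) ≤
        (C1 + (kp a + K)) * (2 ^ (k + 1) * b) * (ws sz p * ws sz q) * (w * n) := by
      refine mul_le_mul_of_nonneg_right ?_ (by positivity)
      calc C1 * ws sz p ^ 2 = C1 * (ws sz p * ws sz p) := by ring
        _ ≤ (C1 + (kp a + K)) * (ws sz p * (2 ^ (k + 1) * ws sz q)) := by
            have : 0 ≤ kp a + K := by positivity
            gcongr
            linarith
        _ = (C1 + (kp a + K)) * (2 ^ (k + 1) * 1) * (ws sz p * ws sz q) := by ring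
        _ ≤ _ := by gcongr
    rcases Nat.lt_or_ge p' q' with hlt | hge
    · -- different levels
      have h3 := pow_rh hb hκ0 hlt.le
      have hρ := rh_pos b κ
      have hcpr : cpr (rh b κ) p q = ws sz p * rh b κ ^ (q' - p') := by
        unfold cpr
        rw [if_pos hlt]
      have hnr : (n : ℝ) = (b : ℝ) ^ (ex κ q' - ex κ p') := by rw [hn]; push_cast; rfl
      rw [← hnr] at h3
      have hdeg : (open Classical in if ∃ l < n, β + l = n * α then ∑ k ∈ range w, ph (fun _ => α) p' k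
          else 0) ≤ (C1 + (kp a + K)) * (2 ^ (k + 1) * b) * cpr (rh b κ) p q * (w * n) := by
        have h7 : (open Classical in if ∃ l < n, β + l = n * α then ∑ k ∈ range w, ph (fun _ => α) p' k
          else 0) ≤ (kp a + K) * ws sz p * w := by
          split_ifs
          · exact hfirst
          · positivity
        refine h7.trans ?_
        rw [hcpr]
        have h8 : 1 ≤ (b : ℝ) * rh b κ ^ (q' - p') * n := by
          have h9 := mul_le_mul_of_nonneg_right h3 hn0.le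
          rwa [inv_mul_cancel₀ hn0.ne'] at h9
        have hk1 : 0 < kp a + K := by positivity
        have h10 : (kp a + K) * 1 ≤ (C1 + (kp a + K)) * 2 ^ (k + 1) :=
          mul_le_mul (by linarith) h6 (by norm_num) hCC.le
        have h11 : 0 ≤ ws sz p * w := by positivity
        have h12 := mul_le_mul h10 h8 (by norm_num) (by positivity)
        have h13 := mul_le_mul_of_nonneg_right h12 h11
        calc (kp a + K) * ws sz p * w = ((kp a + K) * 1) * 1 * (ws sz p * w) := by ring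
          _ ≤ ((C1 + (kp a + K)) * 2 ^ (k + 1)) * ((b : ℝ) * rh b κ ^ (q' - p') * n) * (ws sz p * w) := h13
          _ = _ := by ring
      calc _ ≤ (C1 + (kp a + K)) * (2 ^ (k + 1) * b) * (ws sz p * ws sz q) * (w * n) +
            (C1 + (kp a + K)) * (2 ^ (k + 1) * b) * cpr (rh b κ) p q * (w * n) := add_le_add hmainT hdeg
        _ = _ := by ring
    · -- the same level
      have hs : q' = p' := le_antisymm hge hsz'
      have hp2 : j = 0 := by rw [hj]; unfold sz at hp' hq'; omega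
      have hq2 : j' = 1 := by rw [hj']; unfold sz at hp' hq'; omega
      have hn1 : n = 1 := by rw [hn, hs, Nat.sub_self, pow_zero]
      have hne := hP8 p' (by omega)
      have hno : ¬ ∃ l < n, β + l = n * α := by
        rintro ⟨l, hl1, hl2⟩
        rw [hn1] at hl1 hl2
        have hl0 : l = 0 := by omega
        rw [hl0, hα, hβ, hn1, hp2, hq2, hs] at hl2
        apply hne
        omega
      rw [if_neg hno, add_zero]
      refine hmainT.trans ?_
      have hcpr : cpr (rh b κ) p q = 0 := by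
        unfold cpr
        rw [if_neg (by omega)]
      rw [hcpr, add_zero]
  obtain ⟨C, hC, hpair'⟩ := hpair
  refine ⟨K, (kp a + K) + C, hKpos, by positivity, k + 1, by omega,
    P0 + P1 + P3 + P4 + P5 + P6 + P7 + P8 + 1, fun z i hi => ⟨?_, ?_, ?_⟩⟩
  · intro q hq hz
    rw [Nat.add_sub_cancel] at hz
    refine (hone z i hi q (by omega) hz).trans ?_
    have := ws_nonneg sz q
    refine mul_le_mul_of_nonneg_right ?_ this
    linarith
  · intro p q hp hz hpq hqp
    rw [Nat.add_sub_cancel] at hz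
    refine (hpair' z i hi p q hp hz hpq hqp).trans ?_
    refine mul_le_mul_of_nonneg_right ?_ (add_nonneg (mul_nonneg (ws_nonneg sz p) (ws_nonneg sz q))
      (cpr_nonneg (rh_pos b κ).le p q))
    have : 0 < kp a + K := by positivity
    linarith
  · intro q hq hz L hL α hα
    rw [Nat.add_sub_cancel] at hz hL
    exact hdec z i hi q (by omega) hz L hL α hα

end Pool.Agent.H32x.AB
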