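import Mathlib
import Pool.Agent.H32x.AB.Unif
import Pool.Agent.H32x.AB.FourI

set_option autoImplicit false

/-!
# Two sequences with the same random digits: Poisson laws, uniformly in the cells
-/

namespace Pool.Agent.H32x.AB

open Finset Filter Topology MeasureTheory
open Pool.Agent.N176.OW (VT VT_nonneg)
open Pool.Agent.H32x.PL (ee norm_ee Poi)
open Pool.Agent.H39x.LP

variable {b : ℕ} {κ a c₁ : ℝ} {AA : ℕ → ℕ → ℕ}

theorem Two.genU (h : Two b κ a c₁ AA) : ∃ K : ℝ, 0 < K ∧ ∃ C : ℝ, 0 < C ∧ ∃ k1 : ℕ, 1 ≤ k1 ∧ ∃ P : ℕ,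
    ∀ z i : ℕ, i < b ^ z →
    ∀ i0 J : ℕ, P ≤ 2 ^ i0 → (z : ℝ) * 2 ^ (k1 - 1) ≤ κ * 2 ^ i0 → k1 ≤ i0 + 1 → i0 ≤ J →
    ∀ (ι : Type) [Fintype ι] [DecidableEq ι] (T : ι → Finset ℕ),
    (∀ i j, i ≠ j → Disjoint (T i) (T j)) →
    (∀ p ∈ univ.biUnion T, 2 ^ i0 < p ∧ p ≤ 2 ^ J) → ∀ δ : ℝ, 0 ≤ δ →
    (∀ i, i0 ≤ i → i < J →
      VT ((univ.biUnion T).filter (fun p => 2 ^ (i + 1 - k1) < p ∧ p ≤ 2 ^ (i + 1))) ≤ δ) →
    ∀ α : ℝ, 0 ≤ α → α * (kp a * (2 * δ)) ≤ 1 → ∀ e : ι × Fin 2 → ℂ, (∀ x, ‖e x‖ = 1) →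
    (∀ x, ‖1 - e x‖ ≤ α) →
    ‖∫ t, ∏ x : ι × Fin 2, e x ^ hq b κ (AA x.2) (T x.1) t ∂(cm b z i) -
      ∏ x : ι × Fin 2, Complex.exp (-(((kp a * VT (T x.1) : ℝ) : ℂ) * (1 - e x)))‖ ≤
      C * α ^ 2 * (δ * VT (univ.biUnion T) + CR (rh b κ) (univ.biUnion T)) +
        α * K * ∑ q ∈ univ.biUnion T, (q : ℝ)⁻¹ := by
  classical
  have hb0 : 0 < b := by have := h.hb; omega
  have hκ0 := h.κ0
  obtain ⟨K, C, hK, hC0, k1, hk1, P, hall⟩ := h.unif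
  have hkp := h.kp0
  refine ⟨2 * K, by positivity, 4 * (C + kp a * C + kp a ^ 2), by positivity, k1, hk1, P, ?_⟩
  intro z i hi i0 J hP hz hk1i hiJ ι _ _ T hdis hT δ hδ hblock α hα hα2 e he he2
  obtain ⟨hone, hpair, hdec⟩ := hall z i hi
  haveI := cm_prob hb0 z i
  have hρ := (rh_pos b κ).le
  have hUd := union_dj T
  have hmem : ∀ n, n ∈ univ.biUnion (fun x : ι × Fin 2 => dj x.2 (T x.1)) → sz n ∈ univ.biUnion T := by
    intro n hn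
    rw [hUd, mem_db] at hn
    exact hn
  have hzz : ∀ Q : ℕ, 2 ^ i0 < Q → (z : ℝ) * 2 ^ (k1 - 1) ≤ κ * Q := by
    intro Q hQ
    refine hz.trans (mul_le_mul_of_nonneg_left ?_ hκ0.le)
    exact_mod_cast hQ.le
  have hg := AB.gen (μ := cm b z i) (ff_ind b κ AA) sz_mono (C := C) (K := K) (κ := kp a) hC0.le hkp.le hk1
    (cp := cpr (rh b κ)) (fun p q => cpr_nonneg hρ p q) (i0 := i0) (J := J) hk1i hiJ
    (fun x : ι × Fin 2 => dj x.2 (T x.1)) (disj_dj hdis)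
    (fun n hn => hT _ (hmem n hn))
    (fun n hn => by
      have h1 := hT _ (hmem n hn)
      exact hone n (by omega) (hzz _ h1.1))
    (fun p hp q _ hpq hqp => by
      have h1 := hT _ (hmem p hp)
      exact hpair p q (by omega) (hzz _ h1.1) hpq hqp)
    (fun q hq L _ hL2 a' ha' => by
      have h1 := hT _ (hmem q hq)
      exact hdec q (by omega) (hzz _ h1.1) L hL2 a' ha')
    (α := α) (δ := 2 * δ) hα (by positivity)
    (fun i' h1 h2 => by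
      rw [hUd]
      have h3 : (db (univ.biUnion T)).filter (fun p => 2 ^ (i' + 1 - k1) < sz p ∧ sz p ≤ 2 ^ (i' + 1)) =
          db ((univ.biUnion T).filter (fun p => 2 ^ (i' + 1 - k1) < p ∧ p ≤ 2 ^ (i' + 1))) :=
        filter_db (univ.biUnion T) (fun p => 2 ^ (i' + 1 - k1) < p ∧ p ≤ 2 ^ (i' + 1))
      rw [h3, WT_db]
      have := hblock i' h1 h2
      linarith)
    hα2 (e := e) he he2
  rw [hUd, WT_db, inv_db] at hg
  have e1 : ∀ t, ∏ x : ι × Fin 2, e x ^ hc (ff b κ AA) (dj x.2 (T x.1)) t =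
      ∏ x : ι × Fin 2, e x ^ hq b κ (AA x.2) (T x.1) t := fun t =>
    Finset.prod_congr rfl fun x _ => by rw [hc_dj b κ AA x.2.2]
  have e2 : ∀ x : ι × Fin 2, WT sz (dj x.2 (T x.1)) = VT (T x.1) := fun x => WT_dj x.2.2 _
  simp only [e1, e2] at hg
  refine hg.trans ?_
  have hCQ := CQ_db hρ (univ.biUnion T)
  have hVT := VT_nonneg (univ.biUnion T)
  have hCR := CR_nonneg hρ (univ.biUnion T)
  have hCC : 0 ≤ (C + kp a * C + kp a ^ 2) * α ^ 2 := by positivity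
  have h5 : 2 * δ * (2 * VT (univ.biUnion T)) + CQ (cpr (rh b κ)) (db (univ.biUnion T)) ≤
      4 * (δ * VT (univ.biUnion T) + CR (rh b κ) (univ.biUnion T)) := by
    nlinarith
  have h6 := mul_le_mul_of_nonneg_left h5 hCC
  have e3 : 4 * (C + kp a * C + kp a ^ 2) * α ^ 2 * (δ * VT (univ.biUnion T) + CR (rh b κ) (univ.biUnion T)) =
      (C + kp a * C + kp a ^ 2) * α ^ 2 * (4 * (δ * VT (univ.biUnion T) + CR (rh b κ) (univ.biUnion T))) := by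
    ring
  have e4 : α * (2 * K) * ∑ q ∈ univ.biUnion T, (q : ℝ)⁻¹ = α * K * (2 * ∑ q ∈ univ.biUnion T, (q : ℝ)⁻¹) := by
    ring
  rw [e3, e4]
  linarith

open Classical in
/-- the indicator of the pattern `k` for the sets `T` -/
noncomputable def pt (b : ℕ) (κ : ℝ) (AA : ℕ → ℕ → ℕ) {ι : Type} (T : ι → Finset ℕ) (k : ι × Fin 2 → ℕ)
    (t : ℝ) : ℝ := if ∀ x : ι × Fin 2, hq b κ (AA x.2) (T x.1) t = k x then 1 else 0

/-- Poisson laws on the cells, uniformly in the cells -/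
theorem Two.cellP (h : Two b κ a c₁ AA) : ∃ K : ℝ, 0 < K ∧ ∃ C : ℝ, 0 < C ∧ ∃ k1 : ℕ, 1 ≤ k1 ∧ ∃ P : ℕ,
    ∀ z i : ℕ, i < b ^ z →
    ∀ i0 J : ℕ, P ≤ 2 ^ i0 → (z : ℝ) * 2 ^ (k1 - 1) ≤ κ * 2 ^ i0 → k1 ≤ i0 + 1 → i0 ≤ J →
    ∀ (ι : Type) [Fintype ι] [DecidableEq ι] (T : ι → Finset ℕ),
    (∀ i j, i ≠ j → Disjoint (T i) (T j)) →
    (∀ p ∈ univ.biUnion T, 2 ^ i0 < p ∧ p ≤ 2 ^ J) → ∀ δ : ℝ, 0 ≤ δ →
    (∀ i, i0 ≤ i → i < J →
      VT ((univ.biUnion T).filter (fun p => 2 ^ (i + 1 - k1) < p ∧ p ≤ 2 ^ (i + 1))) ≤ δ) →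
    4 * (kp a * δ) ≤ 1 → ∀ k : ι × Fin 2 → ℕ,
    |∫ t, pt b κ AA T k t ∂(cm b z i) - ∏ x : ι × Fin 2, Poi (kp a * VT (T x.1)) (k x)| ≤
      C * (δ * VT (univ.biUnion T) + CR (rh b κ) (univ.biUnion T)) + K * ∑ q ∈ univ.biUnion T, (q : ℝ)⁻¹ := by
  classical
  have hb0 : 0 < b := by have := h.hb; omega
  obtain ⟨K, hK, C, hC, k1, hk1, P, hg⟩ := h.genU
  refine ⟨2 * K, by positivity, 4 * C, by positivity, k1, hk1, P, ?_⟩
  intro z i hi i0 J hP hz hk1i hiJ ι _ _ T hdis hT δ hδ hblock h4 k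
  haveI := cm_prob hb0 z i
  have hmain := fourier_int (cm b z i) (fun t (x : ι × Fin 2) => hq b κ (AA x.2) (T x.1) t)
    (fun x => measurable_hq b κ _ _) (4 * C * (δ * VT (univ.biUnion T) + CR (rh b κ) (univ.biUnion T)) +
      2 * K * ∑ q ∈ univ.biUnion T, (q : ℝ)⁻¹) (fun x => kp a * VT (T x.1)) (fun s => by
    have h1 := hg z i hi i0 J hP hz hk1i hiJ ι T hdis hT δ hδ hblock 2 (by norm_num) (by linarith)
      (fun x => ee (s x)) (fun x => norm_ee _) (fun x => by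
        refine (norm_sub_le _ _).trans ?_
        rw [norm_ee]; norm_num)
    refine (le_of_eq ?_).trans (h1.trans (le_of_eq ?_))
    · rfl
    · ring) k
  refine le_trans (le_of_eq ?_) hmain
  congr 2
  refine integral_congr_ae (Filter.Eventually.of_forall fun t => ?_)
  unfold pt
  simp only
  by_cases h5 : ∀ x : ι × Fin 2, hq b κ (AA x.2) (T x.1) t = k x
  · rw [if_pos h5, if_pos h5]
  · rw [if_neg h5, if_neg h5]

end Pool.Agent.H32x.AB
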