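import Mathlib
import Pool.Agent.H32x.AB.GenU
import Pool.Agent.H32x.PL.Arr

set_option autoImplicit false

/-!
# Two sequences with the same random digits: Poisson statistics along arrays of sets of exponents
-/

namespace Pool.Agent.H32x.AB

open Finset Filter Topology MeasureTheory
open Pool.Agent.N176.OW (VT VT_nonneg)
open Pool.Agent.H32x.PL (Poi continuous_Poi slln)
open Pool.Agent.H39x.LP

variable {b : ℕ} {κ a c₁ : ℝ} {AA : ℕ → ℕ → ℕ}

open Classical in
/-- the number of good exponents of `T` in terms of the digits up to the level `e` -/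
noncomputable def hqd (b : ℕ) (κ : ℝ) (A : ℕ → ℕ) (T : Finset ℕ) (e n : ℕ) : ℕ :=
  (T.filter (fun q => ph A q (n / b ^ (e - ex κ q)) = 1)).card

lemma hq_digits (hb : 0 < b) (A : ℕ → ℕ) {T : Finset ℕ} {e : ℕ} (hT : ∀ q ∈ T, ex κ q ≤ e) (t : ℝ) :
    hq b κ A T t = hqd b κ A T e ⌊t * ((b ^ e : ℕ) : ℝ)⌋₊ := by
  classical
  unfold hq hqd
  congr 1
  refine Finset.filter_congr fun q hq => ?_
  unfold fq
  have h2 : b ^ e = b ^ ex κ q * b ^ (e - ex κ q) := by
    rw [← pow_add]; congr 1; have := hT q hq; omega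
  rw [floor_nest (b ^ ex κ q) (n := b ^ (e - ex κ q)) (by positivity) t, ← h2]

lemma int_cm_one {z i E : ℕ} (hb : 0 < b) (hi : i < b ^ z) (hzE : z ≤ E) (h : ℕ → ℝ) :
    ∫ t, h ⌊t * ((b ^ E : ℕ) : ℝ)⌋₊ ∂(cm b z i) =
      (∑ l ∈ range (b ^ (E - z)), h (b ^ (E - z) * i + l)) / ((b ^ (E - z) : ℕ) : ℝ) := by
  have h1 := int_cm_two hb hi le_rfl hzE (fun _ => 1) h
  simp only [one_mul, Nat.sub_self, pow_zero, Finset.range_one, Finset.sum_singleton, add_zero,
    Nat.cast_one] at h1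
  exact h1

theorem Two.arr (h : Two b κ a c₁ AA) : ∃ k1 : ℕ, 1 ≤ k1 ∧ ∀ (ι : Type) [Fintype ι] [DecidableEq ι]
    (T : ℕ → ι → Finset ℕ) (I J : ℕ → ℕ) (R : ℕ) (δ : ℕ → ℝ) (lam : ι → ℝ),
    (∀ l i j, i ≠ j → Disjoint (T l i) (T l j)) →
    (∀ l, ∀ p ∈ univ.biUnion (T l), 2 ^ I l < p ∧ p ≤ 2 ^ J l) → (∀ l, I l ≤ J l) →
    Tendsto I atTop atTop →
    (∀ l l', l + R ≤ l' → J l + k1 ≤ I l' + 1) →
    (∀ l, 0 ≤ δ l) → Tendsto δ atTop (𝓝 0) →
    (∀ l i, I l ≤ i → i < J l →
      VT ((univ.biUnion (T l)).filter (fun p => 2 ^ (i + 1 - k1) < p ∧ p ≤ 2 ^ (i + 1))) ≤ δ l) →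
    (∀ j, Tendsto (fun l => kp a * VT (T l j)) atTop (𝓝 (lam j))) →
    Tendsto (fun L : ℕ => (∑ l ∈ range L, CR (rh b κ) (univ.biUnion (T l))) / L) atTop (𝓝 0) →
    ∀ (k : ι × Fin 2 → ℕ), ∀ᵐ t ∂(volume.restrict (Set.Ico (0 : ℝ) 1)),
      Tendsto (fun L : ℕ => (∑ l ∈ range L, pt b κ AA (T l) k t) / L) atTop
        (𝓝 (∏ x : ι × Fin 2, Poi (lam x.1) (k x))) := by
  classical
  obtain ⟨K, hK, C, hC, k1, hk1, P1, hcp⟩ := h.cellP
  refine ⟨k1, hk1, ?_⟩
  intro ι _ _ T I J R δ lam hdis hT hIJ hI hgap hδ0 hδ hblock hlam hCR k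
  have hb := h.hb
  have hb0 : 0 < b := by omega
  have hbr : (0 : ℝ) < b := by exact_mod_cast hb0
  have hκ0 := h.κ0
  have hkp := h.kp0
  have hρ := (rh_pos b κ).le
  haveI : IsFiniteMeasure (volume.restrict (Set.Ico (0 : ℝ) 1)) := ⟨by simp⟩
  obtain ⟨l0, hl0⟩ : ∃ l0, ∀ l ≥ l0, P1 ≤ 2 ^ I l ∧ k1 ≤ I l + 1 ∧ 4 * (kp a * δ l) ≤ 1 ∧ 1 ≤ I l := by
    have h1 := hI.eventually_ge_atTop (P1 + k1 + 1)
    have h2 := (hδ.const_mul (kp a)).const_mul 4
    rw [mul_zero, mul_zero] at h2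
    have h3 := h2.eventually_le_const (show (0 : ℝ) < 1 by norm_num)
    obtain ⟨l0, hl0⟩ := eventually_atTop.1 (h1.and h3)
    refine ⟨l0, fun l hl => ?_⟩
    obtain ⟨h4, h5⟩ := hl0 l hl
    have h6 : I l < 2 ^ I l := Nat.lt_two_pow_self
    exact ⟨by omega, by omega, h5, by omega⟩
  set z : ℕ → ℕ := fun l => ex κ (2 ^ (I l + 1 - k1)) with hz
  set tt : ℕ → ℕ := fun l => ex κ (2 ^ J l) with htt
  set U : ℕ → Finset ℕ := fun l => univ.biUnion (T l) with hU
  have hTU : ∀ l j, ∀ p ∈ T l j, p ∈ U l := fun l j p hp => by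
    simp only [hU]; rw [mem_biUnion]; exact ⟨j, mem_univ j, hp⟩
  have hzt : ∀ l, z l ≤ tt l := fun l => by
    have := hIJ l
    exact ex_mono hκ0 (Nat.pow_le_pow_right (by norm_num) (by omega))
  have htz : ∀ l l', l + R ≤ l' → tt l ≤ z l' := fun l l' h => by
    have := hgap l l' h
    exact ex_mono hκ0 (Nat.pow_le_pow_right (by norm_num) (by omega))
  have hzκ : ∀ l, l0 ≤ l → (z l : ℝ) * 2 ^ (k1 - 1) ≤ κ * 2 ^ I l := by
    intro l hl
    obtain ⟨_, h2, _, _⟩ := hl0 l hl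
    have h3 := (ex_bounds hκ0 (2 ^ (I l + 1 - k1))).2
    have h4 : ((2 ^ (I l + 1 - k1) : ℕ) : ℝ) * 2 ^ (k1 - 1) = 2 ^ I l := by
      push_cast
      rw [← pow_add]
      congr 1
      omega
    calc (z l : ℝ) * 2 ^ (k1 - 1) ≤ (κ * ((2 ^ (I l + 1 - k1) : ℕ) : ℝ)) * 2 ^ (k1 - 1) :=
          mul_le_mul_of_nonneg_right h3 (by positivity)
      _ = κ * 2 ^ I l := by rw [mul_assoc, h4]
  set ind : ℕ → ℕ → ℝ := fun l n =>
    if ∀ x : ι × Fin 2, hqd b κ (AA x.2) (T l x.1) (tt l) n = k x then 1 else 0 with hind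
  set av : ℕ → ℕ → ℝ := fun l c =>
    (∑ i ∈ range (b ^ (tt l - z l)), ind l (b ^ (tt l - z l) * c + i)) / ((b ^ (tt l - z l) : ℕ) : ℝ) with hav
  set d : ℕ → ℕ → ℝ := fun l n => ind l n - av l (n / b ^ (tt l - z l)) with hd
  set D : ℕ → ℝ → ℝ := fun l t => if l0 ≤ l then d l ⌊t * ((b ^ tt l : ℕ) : ℝ)⌋₊ else 0 with hD
  have hind0 : ∀ l n, 0 ≤ ind l n := fun l n => by simp only [hind]; split_ifs <;> norm_num
  have hind1 : ∀ l n, ind l n ≤ 1 := fun l n => by simp only [hind]; split_ifs <;> norm_num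
  have hpos : ∀ l, (0 : ℝ) < ((b ^ (tt l - z l) : ℕ) : ℝ) := fun l => by positivity
  have hav0 : ∀ l c, 0 ≤ av l c := fun l c =>
    div_nonneg (Finset.sum_nonneg fun n _ => hind0 l _) (hpos l).le
  have hav1 : ∀ l c, av l c ≤ 1 := fun l c => by
    simp only [hav]
    rw [div_le_one (hpos l)]
    calc ∑ i ∈ range (b ^ (tt l - z l)), ind l (b ^ (tt l - z l) * c + i) ≤
          ∑ i ∈ range (b ^ (tt l - z l)), (1 : ℝ) := Finset.sum_le_sum fun n _ => hind1 l _
      _ = _ := by rw [Finset.sum_const, card_range, nsmul_eq_mul, mul_one]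
  have hd1 : ∀ l n, |d l n| ≤ 1 := fun l n => by
    simp only [hd]
    rw [abs_le]
    have h1 := hind0 l n
    have h2 := hind1 l n
    have h3 := hav0 l (n / b ^ (tt l - z l))
    have h4 := hav1 l (n / b ^ (tt l - z l))
    constructor <;> linarith
  have hpt : ∀ l t, pt b κ AA (T l) k t = ind l ⌊t * ((b ^ tt l : ℕ) : ℝ)⌋₊ := by
    intro l t
    unfold pt
    simp only [hind]
    have : ∀ x : ι × Fin 2, hq b κ (AA x.2) (T l x.1) t =
        hqd b κ (AA x.2) (T l x.1) (tt l) ⌊t * ((b ^ tt l : ℕ) : ℝ)⌋₊ := by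
      intro x
      refine hq_digits hb0 _ (fun q hq => ?_) t
      exact ex_mono hκ0 (hT l q (hTU l _ q hq)).2
    simp only [this]
  -- digits
  have hdig : ∀ {e E : ℕ}, e ≤ E → ∀ t : ℝ, ⌊t * ((b ^ e : ℕ) : ℝ)⌋₊ = ⌊t * ((b ^ E : ℕ) : ℝ)⌋₊ / b ^ (E - e) := by
    intro e E heE t
    have h2 : b ^ E = b ^ e * b ^ (E - e) := by rw [← pow_add]; congr 1; omega
    rw [floor_nest (b ^ e) (n := b ^ (E - e)) (by positivity) t, ← h2]
  -- orthogonality
  have horth : ∀ l l', l + R ≤ l' → ∫ t, D l t * D l' t ∂(volume.restrict (Set.Ico (0 : ℝ) 1)) = 0 := by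
    intro l l' hll
    by_cases h : l0 ≤ l
    · have h' : l0 ≤ l' := by omega
      have h1 := htz l l' hll
      have h2 := hzt l'
      set n := b ^ (tt l' - z l') with hn
      have hn0 : 0 < n := by rw [hn]; positivity
      have hbE : b ^ tt l' = b ^ z l' * n := by rw [hn, ← pow_add]; congr 1; omega
      have hcongr : ∀ t : ℝ, D l t * D l' t =
          (fun m => d l (m / b ^ (z l' - tt l))) ⌊t * ((b ^ z l' : ℕ) : ℝ)⌋₊ *
            d l' ⌊t * ((b ^ z l' * n : ℕ) : ℝ)⌋₊ := by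
        intro t
        simp only [hD, if_pos h, if_pos h']
        rw [← hbE, hdig h1 t]
      simp only [hcongr]
      rw [int_twoR (fun m => d l (m / b ^ (z l' - tt l))) (d l') (m := b ^ z l') (n := n) (by positivity) hn0,
        Finset.sum_eq_zero, zero_div]
      intro c _
      have h6 : ∑ i ∈ range n, d l' (n * c + i) = 0 := by
        have h7 : ∀ i ∈ range n, d l' (n * c + i) = ind l' (n * c + i) - av l' c := by
          intro i hi
          rw [mem_range] at hi
          simp only [hd]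
          rw [← hn, Nat.mul_add_div hn0, Nat.div_eq_of_lt hi, add_zero]
        rw [Finset.sum_congr rfl h7, Finset.sum_sub_distrib, Finset.sum_const, card_range, nsmul_eq_mul]
        simp only [hav]
        rw [← hn]
        have : (n : ℝ) ≠ 0 := by exact_mod_cast hn0.ne'
        field_simp
        ring
      rw [h6, mul_zero]
    · have : ∀ t, D l t = 0 := fun t => by simp only [hD, if_neg h]
      simp only [this, zero_mul, integral_zero]
  have hDm : ∀ l, Measurable (D l) := by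
    intro l
    by_cases h : l0 ≤ l
    · have : D l = fun t => d l ⌊t * ((b ^ tt l : ℕ) : ℝ)⌋₊ := by
        funext t; simp only [hD, if_pos h]
      rw [this]
      exact (measurable_from_top (f := d l)).comp (Nat.measurable_floor.comp (measurable_id.mul_const _))
    · have : D l = fun _ => 0 := by
        funext β; simp only [hD, if_neg h]
      rw [this]
      exact measurable_const
  have hDb : ∀ l t, |D l t| ≤ 1 := by
    intro l t
    simp only [hD]
    split_ifs
    · exact hd1 _ _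
    · simp
  have hA := slln (volume.restrict (Set.Ico (0 : ℝ) 1)) D hDm hDb R horth
  have hW : ∀ᵐ t ∂(volume.restrict (Set.Ico (0 : ℝ) 1)), t ∈ Set.Ico (0 : ℝ) 1 :=
    ae_restrict_mem measurableSet_Ico
  -- the limits of the error terms
  have hVU : ∀ l, VT (U l) = ∑ j, VT (T l j) := by
    intro l
    simp only [hU]
    unfold VT
    rw [Finset.sum_biUnion (fun i _ j _ hij => hdis l i j hij)]
  have hVT : ∀ j, Tendsto (fun l => VT (T l j)) atTop (𝓝 (lam j / kp a)) := by
    intro j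
    have h1 := (hlam j).div_const (kp a)
    refine h1.congr fun l => ?_
    field_simp
  have hVUt : Tendsto (fun l => VT (U l)) atTop (𝓝 (∑ j, lam j / kp a)) := by
    simp only [hVU]
    exact tendsto_finsetSum _ fun j _ => hVT j
  have hE1 : Tendsto (fun l => C * (δ l * VT (U l))) atTop (𝓝 0) := by
    have := (hδ.mul hVUt).const_mul C
    simpa using this
  have hE2 : Tendsto (fun l => K * ∑ q ∈ U l, (q : ℝ)⁻¹) atTop (𝓝 0) := by
    have hlim : Tendsto (fun l => K * (VT (U l) * ((I l : ℝ) * Real.log 2)⁻¹)) atTop (𝓝 0) := by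
      have hl2 : 0 < Real.log 2 := Real.log_pos (by norm_num)
      have h1 : Tendsto (fun l => ((I l : ℝ) * Real.log 2)⁻¹) atTop (𝓝 0) :=
        tendsto_inv_atTop_zero.comp ((tendsto_natCast_atTop_atTop.comp hI).atTop_mul_const hl2)
      have := (hVUt.mul h1).const_mul K
      simpa using this
    refine squeeze_zero' (Filter.Eventually.of_forall fun l => ?_) ?_ hlim
    · exact mul_nonneg hK.le (Finset.sum_nonneg fun q _ => by positivity)
    · filter_upwards [eventually_ge_atTop l0] with l hl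
      obtain ⟨_, _, _, hI1⟩ := hl0 l hl
      refine mul_le_mul_of_nonneg_left ?_ hK.le
      unfold VT
      rw [Finset.sum_mul]
      refine Finset.sum_le_sum fun q hq => ?_
      have h1 : (2 : ℝ) ^ I l ≤ q := by exact_mod_cast (hT l q hq).1.le
      have hx0 : (0 : ℝ) < (2 : ℝ) ^ I l := by positivity
      have hq0 : (0 : ℝ) < q := lt_of_lt_of_le hx0 h1
      have h2 : (I l : ℝ) * Real.log 2 ≤ Real.log q := by
        rw [← Real.log_pow]
        exact Real.log_le_log hx0 h1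
      have hI0 : (0 : ℝ) < (I l : ℝ) * Real.log 2 := by
        have : (0 : ℝ) < I l := by exact_mod_cast hI1
        have : 0 < Real.log 2 := Real.log_pos (by norm_num)
        positivity
      rw [div_mul_eq_mul_div, inv_eq_one_div]
      gcongr
      rw [← div_eq_mul_inv, le_div_iff₀ hI0, one_mul]
      exact h2
  have hPl : Tendsto (fun l => ∏ x : ι × Fin 2, Poi (kp a * VT (T l x.1)) (k x)) atTop
      (𝓝 (∏ x : ι × Fin 2, Poi (lam x.1) (k x))) :=
    tendsto_finsetProd _ fun x _ => ((continuous_Poi (k x)).tendsto _).comp (hlam x.1)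
  set Q0 := ∏ x : ι × Fin 2, Poi (lam x.1) (k x) with hQ0
  have hE3 : Tendsto (fun l => |∏ x : ι × Fin 2, Poi (kp a * VT (T l x.1)) (k x) - Q0|) atTop (𝓝 0) := by
    have := (hPl.sub_const Q0).abs
    simpa using this
  -- conclusion
  filter_upwards [hA, hW] with t htA htW
  set w : ℕ → ℝ := fun l => pt b κ AA (T l) k t - D l t - Q0 with hw
  set x : ℕ → ℝ := fun l => if l0 ≤ l then C * (δ l * VT (U l)) + K * ∑ q ∈ U l, (q : ℝ)⁻¹ +
    |∏ x : ι × Fin 2, Poi (kp a * VT (T l x.1)) (k x) - Q0| else |w l| with hx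
  have hxt : Tendsto x atTop (𝓝 0) := by
    have h1 := (hE1.add hE2).add hE3
    simp only [add_zero] at h1
    refine h1.congr' ?_
    filter_upwards [eventually_ge_atTop l0] with l hl
    simp only [hx, if_pos hl]
  have hwx : ∀ l, |w l| ≤ x l + C * CR (rh b κ) (U l) := by
    intro l
    by_cases h : l0 ≤ l
    · obtain ⟨h1, h3, h5, h6⟩ := hl0 l h
      set c := ⌊t * ((b ^ z l : ℕ) : ℝ)⌋₊ with hc
      have hbz : (0 : ℝ) < ((b ^ z l : ℕ) : ℝ) := by positivity
      have hclt : c < b ^ z l := by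
        rw [hc, Nat.floor_lt (mul_nonneg htW.1 hbz.le)]
        have := htW.2
        nlinarith
      have hmain := hcp (z l) c hclt (I l) (J l) h1 (hzκ l h) h3 (hIJ l) ι (T l) (hdis l) (hT l) (δ l) (hδ0 l)
        (hblock l) h5 k
      simp only [hpt] at hmain
      rw [int_cm_one hb0 hclt (hzt l) (ind l)] at hmain
      have hwl : w l = (av l c - ∏ x : ι × Fin 2, Poi (kp a * VT (T l x.1)) (k x)) +
          (∏ x : ι × Fin 2, Poi (kp a * VT (T l x.1)) (k x) - Q0) := by
        simp only [hw, hD, if_pos h, hd]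
        rw [hpt l t, hc, hdig (hzt l) t]
        ring
      rw [hwl]
      refine (abs_add_le _ _).trans ?_
      simp only [hx, if_pos h]
      have hmain' : |av l c - ∏ x : ι × Fin 2, Poi (kp a * VT (T l x.1)) (k x)| ≤
        C * (δ l * VT (U l) + CR (rh b κ) (U l)) + K * ∑ q ∈ U l, (q : ℝ)⁻¹ := hmain
      linarith
    · simp only [hx, if_neg h]
      have := mul_nonneg hC.le (CR_nonneg hρ (U l))
      linarith
  have hwt : Tendsto (fun L : ℕ => (∑ l ∈ range L, w l) / L) atTop (𝓝 0) := by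
    have h1 := hxt.cesaro
    have h2 := (hCR.const_mul C)
    rw [mul_zero] at h2
    have h3 := h1.add h2
    rw [add_zero] at h3
    refine squeeze_zero_norm (fun L => ?_) h3
    rw [norm_div, Real.norm_eq_abs, Real.norm_of_nonneg (Nat.cast_nonneg L)]
    calc |∑ l ∈ range L, w l| / L ≤ (∑ l ∈ range L, (x l + C * CR (rh b κ) (U l))) / L := by
          gcongr
          exact (Finset.abs_sum_le_sum_abs _ _).trans (Finset.sum_le_sum fun l _ => hwx l)
      _ = _ := by
          rw [Finset.sum_add_distrib, ← Finset.mul_sum]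
          rw [add_div, inv_mul_eq_div, mul_div_assoc]
  have hfin := (htA.add hwt).add_const Q0
  rw [add_zero, zero_add] at hfin
  refine hfin.congr' ?_
  filter_upwards [eventually_ge_atTop 1] with L hL
  have hL0 : (L : ℝ) ≠ 0 := by
    have : (0 : ℝ) < L := by exact_mod_cast hL
    exact this.ne'
  have e : ∑ l ∈ range L, pt b κ AA (T l) k t = ∑ l ∈ range L, D l t + ∑ l ∈ range L, w l + L * Q0 := by
    rw [← Finset.sum_add_distrib]
    have : (L : ℝ) * Q0 = ∑ l ∈ range L, Q0 := by rw [Finset.sum_const, card_range, nsmul_eq_mul]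
    rw [this, ← Finset.sum_add_distrib]
    refine Finset.sum_congr rfl fun l _ => ?_
    simp only [hw]
    ring
  rw [e]
  field_simp

end Pool.Agent.H32x.AB
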