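import Mathlib
import Pool.Agent.H32x.AB.Idx
import Pool.Agent.H32x.PL.Win

set_option autoImplicit false

/-!
# The pairs at small distances
-/

namespace Pool.Agent.H32x.AB

open Finset Filter Topology MeasureTheory
open Pool.Agent.N176.OW (VT VS)
open Pool.Agent.H32x.PL (Sh w_nonneg)

lemma CR_bound {ρ : ℝ} (hρ : 0 < ρ) (hρ1 : ρ < 1) {S : Set ℕ} {V : Finset ℕ} {n : ℕ}
    (hV : ∀ p ∈ V, p.Prime ∧ p ∈ S ∧ p ≤ n) (H : ℕ) :
    CR ρ V ≤ ∑ h ∈ Icc 1 H, VS (Sh S h) n + ρ ^ (H + 1) * (1 - ρ)⁻¹ * VS S n := by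
  classical
  have h1ρ : 0 < 1 - ρ := by linarith
  -- swap
  have h1 : CR ρ V = ∑ p ∈ V, Real.log p / p * ∑ q ∈ V.filter (fun q => p < q), ρ ^ (q - p) := by
    unfold CR
    have e1 : ∀ q ∈ V, ∑ p ∈ V.filter (fun p => p < q), Real.log p / p * ρ ^ (q - p) =
        ∑ p ∈ V, if p < q then Real.log p / p * ρ ^ (q - p) else 0 := fun q _ => by
      rw [Finset.sum_filter]
    rw [Finset.sum_congr rfl e1, Finset.sum_comm]
    refine Finset.sum_congr rfl fun p _ => ?_
    rw [Finset.sum_filter, Finset.mul_sum]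
    refine Finset.sum_congr rfl fun q _ => ?_
    split_ifs
    · ring
    · ring
  have h2 : ∀ p ∈ V, ∑ q ∈ V.filter (fun q => p < q), ρ ^ (q - p) ≤
      ∑ h ∈ Icc 1 H, (if p + h ∈ V then (1 : ℝ) else 0) + ρ ^ (H + 1) * (1 - ρ)⁻¹ := by
    intro p _
    rw [← Finset.sum_filter_add_sum_filter_not (V.filter (fun q => p < q)) (fun q => q ≤ p + H)]
    refine add_le_add ?_ ?_
    · have e : (V.filter (fun q => p < q)).filter (fun q => q ≤ p + H) =
          ((Icc 1 H).filter (fun h => p + h ∈ V)).image (fun h => p + h) := by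
        ext q
        simp only [mem_filter, mem_image, mem_Icc]
        constructor
        · rintro ⟨⟨h3, h4⟩, h5⟩
          refine ⟨q - p, ⟨⟨by omega, by omega⟩, ?_⟩, by omega⟩
          have : p + (q - p) = q := by omega
          rw [this]; exact h3
        · rintro ⟨h, ⟨⟨h3, h4⟩, h5⟩, rfl⟩
          exact ⟨⟨h5, by omega⟩, by omega⟩
      rw [e, Finset.sum_image (fun x _ y _ h => by simpa using h), Finset.sum_filter]
      refine Finset.sum_le_sum fun h _ => ?_
      split_ifs
      · exact pow_le_one₀ hρ.le hρ1.le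
      · exact le_rfl
    · have hinj : Set.InjOn (fun q => q - p - H - 1)
          ((V.filter (fun q => p < q)).filter (fun q => ¬ q ≤ p + H) : Set ℕ) := by
        intro x hx y hy hxy
        rw [Finset.mem_coe, mem_filter] at hx hy
        have : x - p - H - 1 = y - p - H - 1 := hxy
        omega
      calc ∑ q ∈ (V.filter (fun q => p < q)).filter (fun q => ¬ q ≤ p + H), ρ ^ (q - p) ≤
            ∑ q ∈ (V.filter (fun q => p < q)).filter (fun q => ¬ q ≤ p + H),
              ρ ^ (H + 1) * ρ ^ (q - p - H - 1) := by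
            refine Finset.sum_le_sum fun q hq => ?_
            rw [mem_filter] at hq
            rw [← pow_add]
            refine le_of_eq ?_
            congr 1
            omega
        _ = ρ ^ (H + 1) * ∑ u ∈ ((V.filter (fun q => p < q)).filter
              (fun q => ¬ q ≤ p + H)).image (fun q => q - p - H - 1), ρ ^ u := by
            rw [Finset.sum_image hinj, Finset.mul_sum]
        _ ≤ ρ ^ (H + 1) * (1 - ρ)⁻¹ := by
            refine mul_le_mul_of_nonneg_left ?_ (by positivity)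
            calc _ ≤ ∑' u : ℕ, ρ ^ u :=
                  (summable_geometric_of_lt_one hρ.le hρ1).sum_le_tsum _ (fun _ _ => by positivity)
              _ = (1 - ρ)⁻¹ := tsum_geometric_of_lt_one hρ.le hρ1
  rw [h1]
  calc _ ≤ ∑ p ∈ V, Real.log p / p * (∑ h ∈ Icc 1 H, (if p + h ∈ V then (1 : ℝ) else 0) +
        ρ ^ (H + 1) * (1 - ρ)⁻¹) :=
        Finset.sum_le_sum fun p hp => mul_le_mul_of_nonneg_left (h2 p hp) (w_nonneg p)
    _ = ∑ h ∈ Icc 1 H, ∑ p ∈ V.filter (fun p => p + h ∈ V), Real.log p / p +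
        ρ ^ (H + 1) * (1 - ρ)⁻¹ * VT V := by
        unfold VT
        simp only [mul_add, Finset.mul_sum, Finset.sum_add_distrib, Finset.sum_filter]
        congr 1
        · rw [Finset.sum_comm]
          refine Finset.sum_congr rfl fun h _ => Finset.sum_congr rfl fun p _ => ?_
          split_ifs <;> simp
        · exact Finset.sum_congr rfl fun p _ => mul_comm _ _
    _ ≤ _ := by
        refine add_le_add (Finset.sum_le_sum fun h _ => ?_) (mul_le_mul_of_nonneg_left ?_ (by positivity))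
        · unfold VS
          refine Finset.sum_le_sum_of_subset_of_nonneg ?_ fun p _ _ => w_nonneg p
          intro p hp
          rw [mem_filter] at hp
          rw [mem_filter, mem_range]
          obtain ⟨h3, h4, h5⟩ := hV p hp.1
          obtain ⟨h6, h7, h8⟩ := hV _ hp.2
          exact ⟨by omega, h3, h4, h7, h6⟩
        · unfold VT VS
          refine Finset.sum_le_sum_of_subset_of_nonneg ?_ fun p _ _ => w_nonneg p
          intro p hp
          rw [mem_filter, mem_range]
          obtain ⟨h3, h4, h5⟩ := hV p hp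
          exact ⟨by omega, h3, h4⟩

lemma CR_small {ρ : ℝ} (hρ : 0 < ρ) (hρ1 : ρ < 1) {S : Set ℕ} (hS : Tendsto (fun n => VS S n) atTop atTop)
    (hP : ∀ h ≥ 1, Tendsto (fun n => VS (Sh S h) n / VS S n) atTop (𝓝 0)) {ε : ℝ} (hε : 0 < ε) :
    ∀ᶠ n in atTop, ∀ V : Finset ℕ, (∀ p ∈ V, p.Prime ∧ p ∈ S ∧ p ≤ n) → CR ρ V ≤ ε * VS S n := by
  have h1ρ : 0 < 1 - ρ := by linarith
  obtain ⟨H, hH⟩ := exists_pow_lt_of_lt_one (show 0 < ε / 2 * (1 - ρ) by positivity) hρ1
  have hH2 : ρ ^ (H + 1) * (1 - ρ)⁻¹ ≤ ε / 2 := by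
    rw [← div_eq_mul_inv, div_le_iff₀ h1ρ]
    refine le_trans ?_ hH.le
    rw [pow_succ]
    exact mul_le_of_le_one_right (by positivity) hρ1.le
  have h1 : Tendsto (fun n => ∑ h ∈ Icc 1 H, VS (Sh S h) n / VS S n) atTop (𝓝 0) := by
    have := tendsto_finsetSum (Icc 1 H) fun h hh => hP h (mem_Icc.1 hh).1
    simpa using this
  filter_upwards [h1.eventually_le_const (show 0 < ε / 2 by positivity), hS.eventually_gt_atTop 0] with
    n hn hn0 V hV
  refine (CR_bound hρ hρ1 hV H).trans ?_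
  rw [← Finset.sum_div, div_le_iff₀ hn0] at hn
  have := mul_le_mul_of_nonneg_right hH2 hn0.le
  nlinarith

end Pool.Agent.H32x.AB
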