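import Mathlib
import Pool.Agent.H32x.AB.TwoGen
import Pool.Agent.H32x.AB.CRb
import Pool.Agent.H32x.PL.GauE

set_option autoImplicit false

/-!
# Two sequences with the same random digits: convergence of the characteristic functions
-/

namespace Pool.Agent.H32x.AB

open Finset Filter Topology MeasureTheory
open Pool.Agent.N176.OW (VT VT_nonneg VS VS_mono VS_nonneg kap TB)
open Pool.Agent.H32x.PL (vv vv_tendsto NN SW TW TW_mass exp_gauss mono_t Sh kap_nonneg kap_pos mem_SW lt_NN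
  NN_tendsto VT_le VS_zero recip_bound vv_NN dyadic w_nonneg norm_prod_sub norm_pow_sub_pow integrand_eq)
open Pool.Agent.H39x.LP

variable {b : ℕ} {κ a c₁ : ℝ} {AA : ℕ → ℕ → ℕ}

/-- the limit of the main terms -/
lemma main_lim2 {S : Set ℕ} (hv : Tendsto (vv 2 S) atTop atTop) (i0 : ℕ) {r : ℕ}
    {t : ℕ → ℝ} (ht0 : 0 ≤ t 0) (ht : ∀ i < r, t i < t (i + 1)) (τ : Fin r × Fin 2 → ℝ) {c : ℝ} (hc : 0 < c) :
    Tendsto (fun x : ℝ => ∏ y : Fin r × Fin 2,
      (Complex.exp (-(((c * VT (TW 2 S i0 (t y.1 * x) (t (y.1 + 1) * x)) : ℝ) : ℂ) *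
        (1 - Complex.exp ((τ y / √((t (y.1 + 1) - t y.1) * (c / kap 2 * x)) : ℝ) * Complex.I)))) *
      Complex.exp (-((τ y / √((t (y.1 + 1) - t y.1) * (c / kap 2 * x)) : ℝ) *
        ((t (y.1 + 1) - t y.1) * (c / kap 2 * x) : ℝ) * Complex.I))))
      atTop (𝓝 (Complex.exp (-((∑ y, τ y ^ 2) / 2 : ℝ)))) := by
  have hk2 := kap_pos (b := 2) le_rfl
  have e : Complex.exp (-((∑ y, τ y ^ 2) / 2 : ℝ)) = ∏ y, Complex.exp (-((τ y) ^ 2 / 2 : ℝ)) := by
    rw [← Complex.exp_sum]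
    congr 1
    rw [Finset.sum_div]
    push_cast
    rw [Finset.sum_neg_distrib]
  rw [e]
  refine tendsto_finsetProd _ fun y _ => ?_
  have hΔ : 0 < t (y.1 + 1) - t y.1 := by have := ht y.1 y.1.2; linarith
  have htj : 0 ≤ t y.1 := ht0.trans (mono_t ht 0 y.1 (Nat.zero_le _) y.1.2.le)
  set Δ := t (y.1 + 1) - t y.1 with hΔd
  set m := c / kap 2 with hm
  have hm0 : 0 < m := by positivity
  have hmx : Tendsto (fun x : ℝ => Δ * (m * x)) atTop atTop :=
    (tendsto_id.const_mul_atTop hm0).const_mul_atTop hΔ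
  have hθ : Tendsto (fun x : ℝ => τ y / √(Δ * (m * x))) atTop (𝓝 0) :=
    tendsto_const_nhds.div_atTop (Real.tendsto_sqrt_atTop.comp hmx)
  have hB := TW_mass (b := 2) le_rfl hv i0 htj (ht y.1 y.1.2)
  set B := kap 2 * VS S (2 ^ i0) + 1 + kap 2 with hBd
  have h3 : Tendsto (fun x : ℝ => (c * VT (TW 2 S i0 (t y.1 * x) (t (y.1 + 1) * x)) - Δ * (m * x)) *
      (τ y / √(Δ * (m * x)))) atTop (𝓝 0) := by
    refine squeeze_zero_norm' (a := fun x : ℝ => (m * B) * |τ y / √(Δ * (m * x))|) ?_ ?_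
    · filter_upwards [hB] with x hx
      rw [norm_mul, Real.norm_eq_abs, Real.norm_eq_abs]
      refine mul_le_mul_of_nonneg_right ?_ (abs_nonneg _)
      have e1 : c * VT (TW 2 S i0 (t y.1 * x) (t (y.1 + 1) * x)) - Δ * (m * x) =
          m * (kap 2 * VT (TW 2 S i0 (t y.1 * x) (t (y.1 + 1) * x)) - Δ * x) := by
        have : c = m * kap 2 := by rw [hm]; field_simp
        nth_rewrite 1 [this]
        ring
      rw [e1, abs_mul, abs_of_pos hm0]
      exact mul_le_mul_of_nonneg_left hx hm0.le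
    · have := (hθ.abs).const_mul (m * B)
      rw [abs_zero, mul_zero] at this
      exact this
  refine exp_gauss hθ ?_ h3 ?_
  · have h4 : Tendsto (fun x : ℝ => (c * VT (TW 2 S i0 (t y.1 * x) (t (y.1 + 1) * x)) - Δ * (m * x)) *
        (τ y / √(Δ * (m * x))) * (τ y / √(Δ * (m * x))) + (τ y) ^ 2) atTop (𝓝 ((τ y) ^ 2)) := by
      have := (h3.mul hθ).add_const ((τ y) ^ 2)
      rw [mul_zero, zero_add] at this
      exact this
    refine h4.congr' ?_
    filter_upwards [eventually_gt_atTop 0] with x hx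
    have hx2 : 0 < Δ * (m * x) := by positivity
    have h5 : √(Δ * (m * x)) ^ 2 = Δ * (m * x) := Real.sq_sqrt hx2.le
    have h6 : √(Δ * (m * x)) ≠ 0 := (Real.sqrt_pos.2 hx2).ne'
    have h7 : Δ * (m * x) * (τ y / √(Δ * (m * x))) * (τ y / √(Δ * (m * x))) = (τ y) ^ 2 := by
      have h8 : Δ * (m * x) * (τ y / √(Δ * (m * x))) * (τ y / √(Δ * (m * x))) =
          (Δ * (m * x)) * (τ y) ^ 2 / √(Δ * (m * x)) ^ 2 := by ring
      rw [h8, h5]
      field_simp
    linear_combination -h7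
  · exact Filter.Eventually.of_forall fun x => mul_nonneg hc.le (VT_nonneg _)

lemma hq_trim (b : ℕ) (κ : ℝ) (A : ℕ → ℕ) (S : Set ℕ) (i0 : ℕ) (u w : ℝ) (θ : ℝ) : ∃ k ≤ 2 ^ i0 + 1,
    hq b κ A (SW 2 S u w) θ = hq b κ A (TW 2 S i0 u w) θ + k := by
  classical
  set F := (SW 2 S u w).filter (fun q => fq b κ A q θ = 1) with hF
  refine ⟨(F.filter (fun p => ¬ 2 ^ i0 < p)).card, ?_, ?_⟩
  · have h : F.filter (fun p => ¬ 2 ^ i0 < p) ⊆ range (2 ^ i0 + 1) := by
      intro p hp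
      rw [mem_filter] at hp
      rw [mem_range]
      omega
    have := Finset.card_le_card h
    rwa [card_range] at this
  · have h : (TW 2 S i0 u w).filter (fun q => fq b κ A q θ = 1) = F.filter (fun p => 2 ^ i0 < p) := by
      rw [hF]
      unfold TW
      rw [Finset.filter_filter, Finset.filter_filter]
      exact Finset.filter_congr fun p _ => and_comm
    unfold hq
    rw [h, Finset.card_filter_add_card_filter_not]

lemma measurable_prod_hq {ι : Type*} [Fintype ι] (b : ℕ) (κ : ℝ) (A : ι → ℕ → ℕ) (T : ι → Finset ℕ)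
    (e : ι → ℂ) : Measurable fun θ : ℝ => ∏ y, e y ^ hq b κ (A y) (T y) θ := by
  refine Finset.measurable_fun_prod _ fun y _ => ?_
  exact (measurable_from_top (f := fun n : ℕ => e y ^ n)).comp (measurable_hq b κ (A y) (T y))

lemma trim_int (b : ℕ) (κ : ℝ) (μ : Measure ℝ) [IsProbabilityMeasure μ] {ι : Type*} [Fintype ι]
    (A : ι → ℕ → ℕ) (S : Set ℕ) (u w : ι → ℝ) (i0 : ℕ) (e : ι → ℂ) (he : ∀ y, ‖e y‖ = 1) {α : ℝ}
    (hα : ∀ y, ‖1 - e y‖ ≤ α) :
    ‖∫ θ, ∏ y, e y ^ hq b κ (A y) (SW 2 S (u y) (w y)) θ ∂μ -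
      ∫ θ, ∏ y, e y ^ hq b κ (A y) (TW 2 S i0 (u y) (w y)) θ ∂μ‖ ≤
    Fintype.card ι * ((2 ^ i0 + 1) * α) := by
  have hn : ∀ (T : ι → Finset ℕ) (θ : ℝ), ‖∏ y, e y ^ hq b κ (A y) (T y) θ‖ ≤ 1 := by
    intro T θ
    rw [norm_prod]
    refine Finset.prod_le_one (fun _ _ => norm_nonneg _) fun y _ => ?_
    rw [norm_pow, he, one_pow]
  rw [← integral_sub (integrable_c (measurable_prod_hq b κ A _ e) (hn _))
    (integrable_c (measurable_prod_hq b κ A _ e) (hn _))]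
  have h : ∀ θ, ‖∏ y, e y ^ hq b κ (A y) (SW 2 S (u y) (w y)) θ -
      ∏ y, e y ^ hq b κ (A y) (TW 2 S i0 (u y) (w y)) θ‖ ≤ Fintype.card ι * ((2 ^ i0 + 1) * α) := by
    intro θ
    refine (norm_prod_sub univ _ _ (fun j _ => ?_) fun j _ => ?_).trans ?_
    · rw [norm_pow, he, one_pow]
    · rw [norm_pow, he, one_pow]
    · have h1 : ∀ j ∈ (univ : Finset ι), ‖e j ^ hq b κ (A j) (SW 2 S (u j) (w j)) θ -
          e j ^ hq b κ (A j) (TW 2 S i0 (u j) (w j)) θ‖ ≤ (2 ^ i0 + 1) * α := by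
        intro j _
        obtain ⟨k, hk, e1⟩ := hq_trim b κ (A j) S i0 (u j) (w j) θ
        rw [e1]
        refine (norm_pow_sub_pow (he j) _ k).trans ?_
        have hk' : (k : ℝ) ≤ 2 ^ i0 + 1 := by exact_mod_cast hk
        exact mul_le_mul hk' (hα j) (norm_nonneg _) (by positivity)
      refine (Finset.sum_le_sum h1).trans ?_
      rw [Finset.sum_const, card_univ, nsmul_eq_mul]
  refine (norm_integral_le_of_norm_le_const (μ := μ) (ae_of_all _ h)).trans ?_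
  simp

theorem Two.char (h : Two b κ a c₁ AA) {S : Set ℕ} (hS : Tendsto (fun n => VS S n) atTop atTop)
    (hD : Tendsto (fun n : ℕ => VS S (2 * n) - VS S n) atTop (𝓝 0))
    (hP : ∀ h ≥ 1, Tendsto (fun n => VS (Sh S h) n / VS S n) atTop (𝓝 0))
    {z i : ℕ} (hi : i < b ^ z) {r : ℕ} (hr : 0 < r) {t : ℕ → ℝ} (ht0 : 0 ≤ t 0)
    (ht : ∀ i < r, t i < t (i + 1)) (τ : Fin r × Fin 2 → ℝ) :
    Tendsto (fun x : ℝ => ∫ θ, Complex.exp (((∑ y : Fin r × Fin 2, τ y *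
      (((hq b κ (AA y.2) (SW 2 S (t y.1 * x) (t (y.1 + 1) * x)) θ : ℝ) -
        (t (y.1 + 1) - t y.1) * (kp a / kap 2 * x)) /
        √((t (y.1 + 1) - t y.1) * (kp a / kap 2 * x))) : ℝ) : ℂ) * Complex.I) ∂(cm b z i)) atTop
      (𝓝 (Complex.exp (-((∑ y, τ y ^ 2) / 2 : ℝ)))) := by
  classical
  have hb0' : 0 < b := by have := h.hb; omega
  have hv := vv_tendsto (b := 2) le_rfl hS
  have hk2 := kap_pos (b := 2) le_rfl
  have hkp := h.kp0
  have hρ0 := rh_pos b κ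
  have hρ1 := h.rh_lt
  have hprob := cm_prob hb0' z i
  obtain ⟨K, hK, k1, hk1, hgen0⟩ := h.gen
  obtain ⟨C, hC, P, hgen⟩ := hgen0 z i hi
  obtain ⟨Cr, hCr, hrec⟩ := recip_bound
  set m := kp a / kap 2 with hm
  have hm0 : 0 < m := by positivity
  set κ2 := kap 2 with hκ2
  set W := t r with hWd
  have hΔ : ∀ y : Fin r × Fin 2, 0 < t (y.1 + 1) - t y.1 := fun y => by have := ht y.1 y.1.2; linarith
  have hW0 : 0 < W := by
    have h1 := ht 0 hr
    have h2 := mono_t ht 1 r hr le_rfl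
    simp only [zero_add] at h1
    linarith
  set A := ∑ y : Fin r × Fin 2, |τ y| / √((t (y.1 + 1) - t y.1) * m) with hA
  have hA0 : 0 ≤ A := Finset.sum_nonneg fun j _ => by positivity
  have hδlim : Tendsto (fun δ : ℝ => C * A ^ 2 * (δ * (W / κ2) + δ * (W / κ2)) +
      A * K * (Cr * √(δ * (W / κ2)))) (𝓝[>] 0) (𝓝 0) := by
    have hc : Continuous (fun δ : ℝ => C * A ^ 2 * (δ * (W / κ2) + δ * (W / κ2)) +
      A * K * (Cr * √(δ * (W / κ2)))) := by fun_prop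
    exact (hc.tendsto' 0 0 (by simp)).mono_left nhdsWithin_le_nhds
  rw [Metric.tendsto_nhds]
  intro ε hε
  obtain ⟨δ, hδ1, hδ0⟩ := ((hδlim.eventually_lt_const (show 0 < ε / 4 by positivity)).and
    self_mem_nhdsWithin).exists
  have hδ0' : 0 < δ := hδ0
  obtain ⟨n0, hn0⟩ := ((dyadic hD k1).eventually_le_const hδ0').exists_forall_of_atTop
  set i0 := k1 + n0 + P + 1 with hi0
  have hi1 : i0 + 1 - k1 = n0 + P + 2 := by omega
  have h2pow : ∀ m : ℕ, m ≤ 2 ^ m := fun m => (Nat.lt_two_pow_self (n := m)).le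
  have hPi : P ≤ 2 ^ i0 := by have := h2pow i0; omega
  have hWx : Tendsto (fun x : ℝ => W * x) atTop atTop := tendsto_id.const_mul_atTop hW0
  have hCPx : ∀ᶠ x : ℝ in atTop, ∀ V : Finset ℕ, (∀ p ∈ V, p.Prime ∧ p ∈ S ∧ p ≤ NN 2 S (W * x) - 1) →
      CR (rh b κ) V ≤ δ * VS S (NN 2 S (W * x) - 1) :=
    ((tendsto_sub_atTop_nat 1).comp ((NN_tendsto hv).comp hWx)).eventually (CR_small hρ0 hρ1 hS hP hδ0')
  have hα0 : Tendsto (fun x : ℝ => A / √x) atTop (𝓝 0) :=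
    tendsto_const_nhds.div_atTop Real.tendsto_sqrt_atTop
  have hα1 : ∀ᶠ x : ℝ in atTop, A / √x * (kp a * (2 * δ)) ≤ 1 := by
    have := hα0.mul_const (kp a * (2 * δ))
    rw [zero_mul] at this
    exact this.eventually_le_const one_pos
  have hα3 : ∀ᶠ x : ℝ in atTop, Fintype.card (Fin r × Fin 2) * ((2 ^ i0 + 1) * (A / √x)) < ε / 4 := by
    have := (hα0.const_mul ((2 : ℝ) ^ i0 + 1)).const_mul (Fintype.card (Fin r × Fin 2) : ℝ)
    rw [mul_zero, mul_zero] at this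
    exact this.eventually_lt_const (by positivity)
  have hml := (main_lim2 hv i0 ht0 ht τ hkp).eventually (Metric.ball_mem_nhds _ (show 0 < ε / 4 by positivity))
  filter_upwards [hCPx, hα1, hα3, hml, eventually_gt_atTop 0] with x hxC hx1 hx3 hx4 hx0
  rw [← hm] at hx4
  rw [dist_eq_norm] at hx4
  rw [dist_eq_norm]
  set α := A / √x with hα
  have hsx : 0 < √x := Real.sqrt_pos.2 hx0
  have hα00 : 0 ≤ α := by positivity
  set e : Fin r × Fin 2 → ℂ := fun y =>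
    Complex.exp ((τ y / √((t (y.1 + 1) - t y.1) * (m * x)) : ℝ) * Complex.I) with he
  have he1 : ∀ y, ‖e y‖ = 1 := fun y => by simp only [he]; exact Complex.norm_exp_ofReal_mul_I _
  have he2 : ∀ y, ‖1 - e y‖ ≤ α := by
    intro y
    rw [norm_sub_rev]
    have h1 := Real.norm_exp_I_mul_ofReal_sub_one_le (x := τ y / √((t (y.1 + 1) - t y.1) * (m * x)))
    rw [mul_comm] at h1
    refine h1.trans ?_
    have e5 : (t (y.1 + 1) - t y.1) * (m * x) = ((t (y.1 + 1) - t y.1) * m) * x := by ring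
    have hΔy := hΔ y
    rw [Real.norm_eq_abs, abs_div, abs_of_nonneg (Real.sqrt_nonneg _), e5,
      Real.sqrt_mul (by positivity : (0 : ℝ) ≤ (t (y.1 + 1) - t y.1) * m), ← div_div, hα]
    refine div_le_div_of_nonneg_right ?_ hsx.le
    exact Finset.single_le_sum (f := fun y : Fin r × Fin 2 => |τ y| / √((t (y.1 + 1) - t y.1) * m))
      (fun j _ => by positivity) (mem_univ y)
  set T : Fin r → Finset ℕ := fun j => TW 2 S i0 (t j * x) (t (j + 1) * x) with hT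
  set U := univ.biUnion T with hU
  set J := i0 + NN 2 S (W * x) with hJ
  have hUm : ∀ p ∈ U, (p.Prime ∧ p ∈ S) ∧ 2 ^ i0 < p ∧ p < NN 2 S (W * x) := by
    intro p hp
    rw [hU, mem_biUnion] at hp
    obtain ⟨j, _, hj⟩ := hp
    simp only [hT, TW] at hj
    rw [mem_filter, mem_SW hv] at hj
    refine ⟨hj.1.1, hj.2, (lt_NN hv).2 (hj.1.2.2.trans ?_)⟩
    exact mul_le_mul_of_nonneg_right (mono_t ht _ _ j.2 le_rfl) hx0.le
  have hU2 : ∀ p ∈ U, 2 ^ i0 < p ∧ p ≤ 2 ^ J := by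
    intro p hp
    obtain ⟨_, h1, h2⟩ := hUm p hp
    refine ⟨h1, ?_⟩
    have := h2pow J
    omega
  have hdis : ∀ i j, i ≠ j → Disjoint (T i) (T j) := by
    have key : ∀ i j : Fin r, i < j → Disjoint (T i) (T j) := by
      intro i j hij
      rw [Finset.disjoint_left]
      intro p h1 h2
      simp only [hT, TW] at h1 h2
      rw [mem_filter, mem_SW hv] at h1 h2
      have h3 : t (i + 1) * x ≤ t j * x :=
        mul_le_mul_of_nonneg_right (mono_t ht _ _ hij j.2.le) hx0.le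
      linarith [h1.1.2.2, h2.1.2.1]
    intro i j hij
    rcases lt_or_gt_of_ne hij with h | h
    · exact key i j h
    · exact (key j i h).symm
  have hblock : ∀ i, i0 ≤ i → i < J →
      VT (U.filter (fun p => 2 ^ (i + 1 - k1) < p ∧ p ≤ 2 ^ (i + 1))) ≤ δ := by
    intro i hi _
    have h1 := VT_le (S := S) (T := U.filter (fun p => 2 ^ (i + 1 - k1) < p ∧ p ≤ 2 ^ (i + 1)))
      (m := 2 ^ (i + 1 - k1)) (n := 2 ^ (i + 1)) (Nat.pow_le_pow_right (by norm_num) (by omega)) (by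
        intro p hp
        rw [mem_filter] at hp
        exact ⟨(hUm p hp.1).1.1, (hUm p hp.1).1.2, hp.2.1, hp.2.2⟩)
    have h2 : 2 ^ (i + 1) = 2 ^ k1 * 2 ^ (i + 1 - k1) := by
      rw [← pow_add]; congr 1; omega
    refine h1.trans ?_
    rw [h2]
    refine hn0 _ ?_
    have := h2pow (i + 1 - k1)
    omega
  have hTB : ∀ i, i0 ≤ i → i < J → VT (TB U i) ≤ δ := by
    intro i hi hiJ
    refine le_trans ?_ (hblock i hi hiJ)
    unfold VT TB
    refine Finset.sum_le_sum_of_subset_of_nonneg ?_ fun p _ _ => w_nonneg p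
    intro p hp
    rw [mem_filter] at hp ⊢
    refine ⟨hp.1, lt_of_le_of_lt ?_ hp.2.1, hp.2.2⟩
    exact Nat.pow_le_pow_right (by norm_num) (by omega)
  -- the mass
  have hWx0 : 0 ≤ W * x := by positivity
  have hVSn : VS S (NN 2 S (W * x) - 1) ≤ x * (W / κ2) := by
    have h1 := (vv_NN hv hWx0).1
    unfold vv at h1
    rw [← mul_div_assoc, le_div_iff₀ hk2]
    linarith
  have hVU : VT U ≤ x * (W / κ2) := by
    refine le_trans ?_ hVSn
    have h1 := VT_le (S := S) (T := U) (m := 0) (n := NN 2 S (W * x) - 1) (Nat.zero_le _) (by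
      intro p hp
      obtain ⟨h1, h2, h3⟩ := hUm p hp
      exact ⟨h1.1, h1.2, h1.1.pos, by omega⟩)
    rw [VS_zero, sub_zero] at h1
    exact h1
  have hCPU : CR (rh b κ) U ≤ δ * (x * (W / κ2)) := by
    refine (hxC U fun p hp => ?_).trans (mul_le_mul_of_nonneg_left hVSn hδ0'.le)
    obtain ⟨h1, h2, h3⟩ := hUm p hp
    exact ⟨h1.1, h1.2, by omega⟩
  have hrecU : ∑ q ∈ U, (q : ℝ)⁻¹ ≤ Cr * √(δ * (x * (W / κ2))) := by
    refine (hrec U i0 J (by omega) (by omega) hU2 δ hδ0'.le hTB).trans ?_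
    refine mul_le_mul_of_nonneg_left (Real.sqrt_le_sqrt ?_) hCr.le
    exact mul_le_mul_of_nonneg_left hVU hδ0'.le
  have hmm := hgen i0 J hPi (by omega) (by omega) (Fin r) T hdis hU2 δ hδ0'.le hblock α hα00 hx1 e he1 he2
  have htr := trim_int b κ (cm b z i) (fun y : Fin r × Fin 2 => AA y.2) S
    (fun y : Fin r × Fin 2 => t y.1 * x) (fun y : Fin r × Fin 2 => t (y.1 + 1) * x) i0 e he1 he2
  -- the integral
  set Dd : ℂ := ∏ y : Fin r × Fin 2, Complex.exp (-((τ y / √((t (y.1 + 1) - t y.1) * (m * x)) : ℝ) *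
    ((t (y.1 + 1) - t y.1) * (m * x) : ℝ) * Complex.I)) with hDd
  have hDd1 : ‖Dd‖ = 1 := by
    simp only [hDd]
    rw [norm_prod]
    refine Finset.prod_eq_one fun j _ => ?_
    have : (-((τ j / √((t (j.1 + 1) - t j.1) * (m * x)) : ℝ) * ((t (j.1 + 1) - t j.1) * (m * x) : ℝ) *
        Complex.I) : ℂ) =
      ((-(τ j / √((t (j.1 + 1) - t j.1) * (m * x)) * ((t (j.1 + 1) - t j.1) * (m * x))) : ℝ) : ℂ) *
        Complex.I := by
      push_cast; ring
    rw [this, Complex.norm_exp_ofReal_mul_I]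
  have hint : ∫ θ, Complex.exp (((∑ y : Fin r × Fin 2, τ y *
      (((hq b κ (AA y.2) (SW 2 S (t y.1 * x) (t (y.1 + 1) * x)) θ : ℝ) -
        (t (y.1 + 1) - t y.1) * (m * x)) /
        √((t (y.1 + 1) - t y.1) * (m * x))) : ℝ) : ℂ) * Complex.I) ∂(cm b z i) =
      (∫ θ, ∏ y : Fin r × Fin 2, e y ^ hq b κ (AA y.2) (SW 2 S (t y.1 * x) (t (y.1 + 1) * x)) θ ∂(cm b z i)) *
        Dd := by
    rw [← MeasureTheory.integral_mul_const]
    refine integral_congr_ae (ae_of_all _ fun θ => ?_)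
    simp only
    have hexp : Complex.exp (((∑ y : Fin r × Fin 2, τ y *
        (((hq b κ (AA y.2) (SW 2 S (t y.1 * x) (t (y.1 + 1) * x)) θ : ℝ) -
        (t (y.1 + 1) - t y.1) * (m * x)) /
        √((t (y.1 + 1) - t y.1) * (m * x))) : ℝ) : ℂ) * Complex.I) =
        ∏ y : Fin r × Fin 2, Complex.exp (((τ y * (((hq b κ (AA y.2)
          (SW 2 S (t y.1 * x) (t (y.1 + 1) * x)) θ : ℝ) - (t (y.1 + 1) - t y.1) * (m * x)) /
        √((t (y.1 + 1) - t y.1) * (m * x))) : ℝ) : ℂ) * Complex.I) := by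
      rw [← Complex.exp_sum, Complex.ofReal_sum, Finset.sum_mul]
    rw [hexp, hDd, ← Finset.prod_mul_distrib]
    refine Finset.prod_congr rfl fun y _ => ?_
    simp only [he]
    rw [← Complex.exp_nat_mul, ← Complex.exp_add]
    congr 1
    push_cast
    ring
  rw [hint]
  set R1 := ∫ θ, ∏ y : Fin r × Fin 2, e y ^ hq b κ (AA y.2) (SW 2 S (t y.1 * x) (t (y.1 + 1) * x)) θ ∂(cm b z i)
    with hR1
  set R2 := ∫ θ, ∏ y : Fin r × Fin 2, e y ^ hq b κ (AA y.2) (T y.1) θ ∂(cm b z i) with hR2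
  set M := ∏ y : Fin r × Fin 2, Complex.exp (-(((kp a * VT (T y.1) : ℝ) : ℂ) * (1 - e y))) with hM
  set G := Complex.exp (-((∑ y, τ y ^ 2) / 2 : ℝ)) with hG
  have hMD : ‖M * Dd - G‖ < ε / 4 := by
    refine lt_of_eq_of_lt ?_ hx4
    congr 2
    rw [hM, hDd, ← Finset.prod_mul_distrib]
  have e1 : R1 * Dd - G = (R1 - R2) * Dd + (R2 - M) * Dd + (M * Dd - G) := by ring
  rw [e1]
  have hn0 : ∀ z : ℂ, ‖z * Dd‖ = ‖z‖ := by
    intro z
    rw [norm_mul, hDd1, mul_one]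
  have t1 : ‖(R1 - R2) * Dd‖ < ε / 4 := by
    rw [hn0]
    exact lt_of_le_of_lt htr hx3
  have hCP0 : 0 ≤ CR (rh b κ) U := CR_nonneg hρ0.le U
  have hα2' : α ^ 2 * x = A ^ 2 := by
    rw [hα, div_pow, Real.sq_sqrt hx0.le]
    field_simp
  have hWκ : 0 ≤ W / κ2 := by positivity
  have t2 : ‖(R2 - M) * Dd‖ < ε / 4 := by
    rw [hn0]
    refine lt_of_le_of_lt (hmm.trans ?_) hδ1
    have h1 : C * α ^ 2 * (δ * VT U + CR (rh b κ) U) ≤ C * A ^ 2 * (δ * (W / κ2) + δ * (W / κ2)) := by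
      calc C * α ^ 2 * (δ * VT U + CR (rh b κ) U) ≤ C * α ^ 2 * (δ * (x * (W / κ2)) + δ * (x * (W / κ2))) := by
            gcongr
        _ = C * (α ^ 2 * x) * (δ * (W / κ2) + δ * (W / κ2)) := by ring
        _ = _ := by rw [hα2']
    have h2 : α * K * ∑ q ∈ U, (q : ℝ)⁻¹ ≤ A * K * (Cr * √(δ * (W / κ2))) := by
      calc α * K * ∑ q ∈ U, (q : ℝ)⁻¹ ≤ α * K * (Cr * √(δ * (x * (W / κ2)))) := by gcongr
        _ = (α * √x) * K * (Cr * √(δ * (W / κ2))) := by
            have : δ * (x * (W / κ2)) = x * (δ * (W / κ2)) := by ring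
            rw [this, Real.sqrt_mul hx0.le]
            ring
        _ = _ := by
            rw [hα, div_mul_cancel₀ _ hsx.ne']
    linarith
  calc ‖(R1 - R2) * Dd + (R2 - M) * Dd + (M * Dd - G)‖ ≤ _ := norm_add₃_le
    _ < ε / 4 + ε / 4 + ε / 4 := by linarith
    _ < ε := by linarith

end Pool.Agent.H32x.AB
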