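import Mathlib

set_option autoImplicit false

/-!
# Consecutive elements of a set, and counts in windows
-/

namespace Pool.Agent.H32x.AB

open Finset Filter Topology

/-- the next element of `U` after `p` -/
noncomputable def nx (U : Set ℕ) (p : ℕ) : ℕ := sInf {q | q ∈ U ∧ p < q}

lemma nx_spec {U : Set ℕ} (hU : U.Infinite) (p : ℕ) : nx U p ∈ U ∧ p < nx U p := by
  have hne : {q | q ∈ U ∧ p < q}.Nonempty := by
    obtain ⟨q, hq, hpq⟩ := hU.exists_gt p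
    exact ⟨q, hq, hpq⟩
  exact Nat.sInf_mem hne

lemma nx_le {U : Set ℕ} {p q : ℕ} (hq : q ∈ U) (h : p < q) : nx U p ≤ q := Nat.sInf_le ⟨hq, h⟩

lemma nx_eq {U : Set ℕ} {p q : ℕ} (hq : q ∈ U) (hpq : p < q) (hno : ∀ q' ∈ U, p < q' → q' < q → False) :
    nx U p = q := by
  have hne : {q | q ∈ U ∧ p < q}.Nonempty := ⟨q, hq, hpq⟩
  have h1 : nx U p ∈ U ∧ p < nx U p := Nat.sInf_mem hne
  have h2 := nx_le hq hpq
  rcases Nat.lt_or_ge (nx U p) q with h3 | h3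
  · exact absurd h3 fun h => hno _ h1.1 h1.2 h
  · exact le_antisymm h2 h3

lemma iter_nx_mem {U : Set ℕ} (hU : U.Infinite) {p : ℕ} (hp : p ∈ U) (j : ℕ) : (nx U)^[j] p ∈ U := by
  cases j with
  | zero => exact hp
  | succ j => rw [Function.iterate_succ_apply']; exact (nx_spec hU _).1

/-- partial sums -/
def ps (i : ℕ → ℕ) (j : ℕ) : ℕ := ∑ c ∈ range j, (i c + 1)

lemma ps_succ (i : ℕ → ℕ) (j : ℕ) : ps i (j + 1) = ps i j + i j + 1 := by
  unfold ps; rw [Finset.sum_range_succ]; ring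

/-- the windows -/
noncomputable def xx (δ : ℝ) (i : ℕ → ℕ) (c : ℕ) : ℝ :=
  ((ps i (c / 2) : ℝ) + if c % 2 = 1 then (i (c / 2) : ℝ) else 0) * δ

lemma xx_even (δ : ℝ) (i : ℕ → ℕ) (j : ℕ) : xx δ i (2 * j) = ps i j * δ := by
  unfold xx
  have e1 : 2 * j / 2 = j := by omega
  have e2 : ¬ (2 * j) % 2 = 1 := by omega
  rw [e1, if_neg e2, add_zero]

lemma xx_odd (δ : ℝ) (i : ℕ → ℕ) (j : ℕ) : xx δ i (2 * j + 1) = (ps i j + i j) * δ := by
  unfold xx
  have e1 : (2 * j + 1) / 2 = j := by omega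
  have e2 : (2 * j + 1) % 2 = 1 := by omega
  rw [e1, if_pos e2]

lemma xx_zero (δ : ℝ) (i : ℕ → ℕ) : xx δ i 0 = 0 := by
  have := xx_even δ i 0
  rw [mul_zero] at this
  rw [this]
  simp [ps]

lemma xx_lt {δ : ℝ} (hδ : 0 < δ) {i : ℕ → ℕ} {m : ℕ} (hi : ∀ j < m, 1 ≤ i j) (c : ℕ) (hc : c < 2 * m) :
    xx δ i c < xx δ i (c + 1) := by
  rcases Nat.even_or_odd' c with ⟨j, rfl | rfl⟩
  · rw [xx_even, xx_odd]
    have : (1 : ℝ) ≤ i j := by exact_mod_cast hi j (by omega)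
    nlinarith
  · have e : 2 * j + 1 + 1 = 2 * (j + 1) := by ring
    rw [e, xx_even, xx_odd, ps_succ]
    push_cast
    nlinarith

/-- the counts -/
def kk (w : ℕ → Fin 2) (m : ℕ) (y : Fin (2 * m) × Fin 2) : ℕ :=
  if (y.1 : ℕ) % 2 = 1 ∧ w (y.1 / 2) = y.2 then 1 else 0

/-- the union -/
def UU (E : Fin 2 → Set ℕ) : Set ℕ := {q | ∃ j, q ∈ E j}

/-- the pattern at `p` -/
def QE (E : Fin 2 → Set ℕ) (f : ℕ → ℝ) (r : ℕ) (x : ℕ → ℝ) (k : Fin r × Fin 2 → ℕ) (p : ℕ) : Prop :=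
  ∀ y : Fin r × Fin 2, Set.encard {q | q ∈ E y.2 ∧ x y.1 < f q - f p ∧ f q - f p ≤ x (y.1 + 1)} = k y

lemma step_nx {E : Fin 2 → Set ℕ} {f : ℕ → ℝ} (hf : ∀ p ∈ UU E, ∀ q ∈ UU E, (f p < f q ↔ p < q))
    {δ : ℝ} (hδ : 0 < δ) {i : ℕ → ℕ} {w : ℕ → Fin 2} {m p : ℕ}
    (hp : p ∈ UU E) (hQ : QE E f (2 * m) (xx δ i) (kk w m) p) : ∀ j ≤ m,
    ((nx (UU E))^[j] p ∈ UU E ∧ (ps i j : ℝ) * δ - δ < f ((nx (UU E))^[j] p) - f p ∧
      f ((nx (UU E))^[j] p) - f p ≤ ps i j * δ ∧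
      ∀ q ∈ UU E, f q - f p ≤ ps i j * δ → q ≤ (nx (UU E))^[j] p) ∧
    (j < m → (nx (UU E))^[j + 1] p ∈ E (w j) ∧ (∀ t, t ≠ w j → (nx (UU E))^[j + 1] p ∉ E t) ∧
      ((ps i j : ℝ) + i j) * δ < f ((nx (UU E))^[j + 1] p) - f p ∧
      f ((nx (UU E))^[j + 1] p) - f p ≤ ((ps i j : ℝ) + i j + 1) * δ) := by
  have hle : ∀ p ∈ UU E, ∀ q ∈ UU E, (f p ≤ f q ↔ p ≤ q) := by
    intro p hp q hq
    rw [← not_lt, hf q hq p hp, not_lt]
  -- the step
  have step : ∀ j < m, ((nx (UU E))^[j] p ∈ UU E ∧ (ps i j : ℝ) * δ - δ < f ((nx (UU E))^[j] p) - f p ∧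
      f ((nx (UU E))^[j] p) - f p ≤ ps i j * δ ∧
      ∀ q ∈ UU E, f q - f p ≤ ps i j * δ → q ≤ (nx (UU E))^[j] p) →
      ((nx (UU E))^[j + 1] p ∈ E (w j) ∧ (∀ t, t ≠ w j → (nx (UU E))^[j + 1] p ∉ E t) ∧
      ((ps i j : ℝ) + i j) * δ < f ((nx (UU E))^[j + 1] p) - f p ∧
      f ((nx (UU E))^[j + 1] p) - f p ≤ ((ps i j : ℝ) + i j + 1) * δ) ∧
      ∀ q ∈ UU E, f q - f p ≤ ((ps i j : ℝ) + i j + 1) * δ → q ≤ (nx (UU E))^[j + 1] p := by
    intro j hj hind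
    set q0 := (nx (UU E))^[j] p with hq0
    obtain ⟨h1, h2, h3, h4⟩ := hind
    have hi0 : (0 : ℝ) ≤ i j := Nat.cast_nonneg _
    -- window 2 j
    have hwin0 : ∀ q ∈ UU E, ps i j * δ < f q - f p → f q - f p ≤ ((ps i j : ℝ) + i j) * δ → False := by
      rintro q ⟨t, ht⟩ h5 h6
      have h7 := hQ (⟨2 * j, by omega⟩, t)
      have e1 : kk w m (⟨2 * j, by omega⟩, t) = 0 := by
        unfold kk
        rw [if_neg]
        rintro ⟨h8, _⟩
        simp only at h8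
        omega
      rw [e1] at h7
      simp only [Nat.cast_zero, Set.encard_eq_zero] at h7
      have h8 : q ∈ {q | q ∈ E t ∧ xx δ i (2 * j) < f q - f p ∧ f q - f p ≤ xx δ i (2 * j + 1)} := by
        rw [xx_even, xx_odd]
        exact ⟨ht, h5, h6⟩
      rw [h7] at h8
      exact h8
    -- window 2 j + 1
    have h9 := hQ (⟨2 * j + 1, by omega⟩, w j)
    have e1 : kk w m (⟨2 * j + 1, by omega⟩, w j) = 1 := by
      unfold kk
      rw [if_pos]
      have e2 : (2 * j + 1) / 2 = j := by omega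
      refine ⟨by simp only; omega, ?_⟩
      simp only
      rw [e2]
    rw [e1] at h9
    simp only [Nat.cast_one, Set.encard_eq_one] at h9
    obtain ⟨q', hq'⟩ := h9
    have e3 : 2 * j + 1 + 1 = 2 * (j + 1) := by ring
    rw [e3, xx_even, xx_odd, ps_succ] at hq'
    push_cast at hq'
    have hmem : q' ∈ {q | q ∈ E (w j) ∧ ((ps i j : ℝ) + i j) * δ < f q - f p ∧
        f q - f p ≤ ((ps i j : ℝ) + i j + 1) * δ} := by
      rw [hq']; exact Set.mem_singleton _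
    obtain ⟨h10, h11, h12⟩ := hmem
    have hother : ∀ t, t ≠ w j → ∀ q ∈ E t, ((ps i j : ℝ) + i j) * δ < f q - f p →
        f q - f p ≤ ((ps i j : ℝ) + i j + 1) * δ → False := by
      intro t ht q hq h5 h6
      have h7 := hQ (⟨2 * j + 1, by omega⟩, t)
      have e1 : kk w m (⟨2 * j + 1, by omega⟩, t) = 0 := by
        unfold kk
        rw [if_neg]
        rintro ⟨_, h8⟩
        have e2 : (2 * j + 1) / 2 = j := by omega
        simp only at h8
        rw [e2] at h8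
        exact ht h8.symm
      rw [e1] at h7
      simp only [Nat.cast_zero, Set.encard_eq_zero] at h7
      have h8 : q ∈ {q | q ∈ E t ∧ xx δ i (2 * j + 1) < f q - f p ∧ f q - f p ≤ xx δ i (2 * j + 1 + 1)} := by
        rw [e3, xx_even, xx_odd, ps_succ]
        push_cast
        exact ⟨hq, h5, h6⟩
      rw [h7] at h8
      exact h8
    have hwin1 : ∀ q ∈ UU E, ((ps i j : ℝ) + i j) * δ < f q - f p →
        f q - f p ≤ ((ps i j : ℝ) + i j + 1) * δ → q = q' := by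
      rintro q ⟨t, ht⟩ h5 h6
      by_cases h : t = w j
      · subst h
        have : q ∈ ({q'} : Set ℕ) := by
          rw [← hq']; exact ⟨ht, h5, h6⟩
        exact this
      · exact absurd (hother t h q ht h5 h6) id
    have hq'U : q' ∈ UU E := ⟨_, h10⟩
    have hlt : q0 < q' := by
      rw [← hf q0 h1 q' hq'U]
      nlinarith
    have hnx : nx (UU E) q0 = q' := by
      refine nx_eq hq'U hlt fun q hq h5 h6 => ?_
      have h7 : ¬ f q - f p ≤ ps i j * δ := fun h => absurd (h4 q hq h) (by omega)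
      have h8 : ((ps i j : ℝ) + i j) * δ < f q - f p := by
        by_contra hcon
        exact hwin0 q hq (not_le.1 h7) (not_lt.1 hcon)
      have h9 := (hf q hq q' hq'U).2 h6
      have := hwin1 q hq h8 (by linarith)
      omega
    have hit : (nx (UU E))^[j + 1] p = q' := by
      rw [Function.iterate_succ_apply', ← hq0, hnx]
    rw [hit]
    refine ⟨⟨h10, fun t ht h => hother t ht q' h h11 h12, h11, h12⟩, fun q hq h5 => ?_⟩
    by_cases h6 : f q - f p ≤ ps i j * δ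
    · exact (h4 q hq h6).trans hlt.le
    · by_cases h7 : f q - f p ≤ ((ps i j : ℝ) + i j) * δ
      · exact absurd (hwin0 q hq (not_le.1 h6) h7) id
      · exact (hwin1 q hq (not_le.1 h7) h5).le
  have main : ∀ j ≤ m, ((nx (UU E))^[j] p ∈ UU E ∧ (ps i j : ℝ) * δ - δ < f ((nx (UU E))^[j] p) - f p ∧
      f ((nx (UU E))^[j] p) - f p ≤ ps i j * δ ∧
      ∀ q ∈ UU E, f q - f p ≤ ps i j * δ → q ≤ (nx (UU E))^[j] p) := by
    intro j
    induction j with
    | zero =>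
      intro _
      simp only [Function.iterate_zero, id_eq]
      have e : ps i 0 = 0 := by unfold ps; simp
      rw [e]
      push_cast
      refine ⟨hp, by linarith, by linarith, fun q hq h => ?_⟩
      rw [← hle q hq p hp]
      linarith
    | succ j ih =>
      intro hj
      obtain ⟨⟨h1, h2, h3, h4⟩, h5⟩ := step j (by omega) (ih (by omega))
      rw [ps_succ]
      push_cast
      refine ⟨⟨_, h1⟩, by linarith, h4, h5⟩
  intro j hj
  exact ⟨main j hj, fun hjm => (step j hjm (main j hj)).1⟩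

/-- the pattern determines the types and the gaps -/
lemma gaps_of_QE {E : Fin 2 → Set ℕ} {f : ℕ → ℝ} (hf : ∀ p ∈ UU E, ∀ q ∈ UU E, (f p < f q ↔ p < q))
    {δ : ℝ} (hδ : 0 < δ) {i : ℕ → ℕ} {w : ℕ → Fin 2} {m p : ℕ}
    (hp : p ∈ UU E) (hQ : QE E f (2 * m) (xx δ i) (kk w m) p) {j : ℕ} (hj : j < m) :
    (nx (UU E))^[j + 1] p ∈ E (w j) ∧ (∀ t, t ≠ w j → (nx (UU E))^[j + 1] p ∉ E t) ∧
    i j * δ < f ((nx (UU E))^[j + 1] p) - f ((nx (UU E))^[j] p) ∧
    f ((nx (UU E))^[j + 1] p) - f ((nx (UU E))^[j] p) ≤ (i j + 2) * δ := by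
  obtain ⟨⟨h1, h2, h3, h4⟩, h5⟩ := step_nx hf hδ hp hQ j hj.le
  obtain ⟨h6, h7, h8, h9⟩ := h5 hj
  refine ⟨h6, h7, ?_, ?_⟩ <;> nlinarith

/-- disjointness -/
lemma QE_inj {E : Fin 2 → Set ℕ} {f : ℕ → ℝ} (hf : ∀ p ∈ UU E, ∀ q ∈ UU E, (f p < f q ↔ p < q))
    {δ : ℝ} (hδ : 0 < δ) {i i' : ℕ → ℕ} {w : ℕ → Fin 2} {m p : ℕ}
    (hp : p ∈ UU E) (hQ : QE E f (2 * m) (xx δ i) (kk w m) p) (hQ' : QE E f (2 * m) (xx δ i') (kk w m) p) :
    ∀ j < m, i j = i' j := by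
  have h1 : ∀ j ≤ m, ps i j = ps i' j := by
    intro j
    induction j with
    | zero => intro _; simp [ps]
    | succ j ih =>
      intro hj
      have h2 := ih (by omega)
      obtain ⟨_, _, h5, h6⟩ := (step_nx hf hδ hp hQ j (by omega)).2 (by omega)
      obtain ⟨_, _, h7, h8⟩ := (step_nx hf hδ hp hQ' j (by omega)).2 (by omega)
      have h9 : ((ps i j : ℝ) + i j) < ((ps i' j : ℝ) + i' j + 1) := by
        have := lt_of_lt_of_le h5 h8
        exact lt_of_mul_lt_mul_right this hδ.le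
      have h10 : ((ps i' j : ℝ) + i' j) < ((ps i j : ℝ) + i j + 1) := by
        have := lt_of_lt_of_le h7 h6
        exact lt_of_mul_lt_mul_right this hδ.le
      have h11 : ps i j + i j < ps i' j + i' j + 1 := by exact_mod_cast h9
      have h12 : ps i' j + i' j < ps i j + i j + 1 := by exact_mod_cast h10
      rw [ps_succ, ps_succ]
      omega
  intro j hj
  have h2 := h1 j hj.le
  have h3 := h1 (j + 1) hj
  rw [ps_succ, ps_succ] at h3
  omega

end Pool.Agent.H32x.AB
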