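import Mathlib
import Pool.Agent.H32x.AB.Nx
import Pool.Agent.H32x.PL.Palm

set_option autoImplicit false

/-!
# From Poisson statistics to the gaps and the types of consecutive elements
-/

namespace Pool.Agent.H32x.AB

open Finset Filter Topology
open Pool.Agent.H32x.PL (Poi mass)

/-- extension of a function on `Fin m` -/
def exF {α : Type} {m : ℕ} (d : α) (i : Fin m → α) (j : ℕ) : α := if h : j < m then i ⟨j, h⟩ else d

lemma exF_apply {α : Type} {m : ℕ} (d : α) (i : Fin m → α) (j : Fin m) : exF d i j = i j := by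
  unfold exF
  rw [dif_pos j.2]

/-- the types and the gaps of the following elements -/
def ev (E : Fin 2 → Set ℕ) (f : ℕ → ℝ) (m : ℕ) (w : ℕ → Fin 2) (u v : ℕ → ℝ) (p : ℕ) : Prop :=
  ∀ j < m, (nx (UU E))^[j + 1] p ∈ E (w j) ∧ (∀ t, t ≠ w j → (nx (UU E))^[j + 1] p ∉ E t) ∧
    u j < f ((nx (UU E))^[j + 1] p) - f ((nx (UU E))^[j] p) ∧
    f ((nx (UU E))^[j + 1] p) - f ((nx (UU E))^[j] p) ≤ v j

/-- the product of the Poisson probabilities -/
lemma prod_kk (δ m0 : ℝ) (i : ℕ → ℕ) (w : ℕ → Fin 2) (m : ℕ) :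
    ∏ y : Fin (2 * m) × Fin 2, Poi ((xx δ i (y.1 + 1) - xx δ i y.1) * m0) (kk w m y) =
      ∏ j ∈ range m, (m0 * δ * Real.exp (-(2 * m0 * δ * (i j + 1)))) := by
  set G : ℕ → ℝ := fun c => ∏ t : Fin 2, Poi ((xx δ i (c + 1) - xx δ i c) * m0)
    (if c % 2 = 1 ∧ w (c / 2) = t then 1 else 0) with hG
  have h1 : ∏ y : Fin (2 * m) × Fin 2, Poi ((xx δ i (y.1 + 1) - xx δ i y.1) * m0) (kk w m y) =
      ∏ c : Fin (2 * m), G c := by
    rw [Fintype.prod_prod_type]
    rfl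
  rw [h1, Fin.prod_univ_eq_prod_range G (2 * m)]
  have h2 : ∀ j, G (2 * j) * G (2 * j + 1) = m0 * δ * Real.exp (-(2 * m0 * δ * (i j + 1))) := by
    intro j
    have e0 : G (2 * j) = Real.exp (-(i j * δ * m0)) * Real.exp (-(i j * δ * m0)) := by
      simp only [hG]
      rw [xx_even, xx_odd]
      have e1 : ∀ t : Fin 2, (if (2 * j) % 2 = 1 ∧ w (2 * j / 2) = t then 1 else 0) = 0 := by
        intro t
        rw [if_neg]
        rintro ⟨h, _⟩
        omega
      simp only [e1]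
      rw [Finset.prod_const]
      simp only [Finset.card_univ, Fintype.card_fin]
      rw [sq]
      have e2 : Poi ((((ps i j : ℝ) + i j) * δ - ps i j * δ) * m0) 0 = Real.exp (-(i j * δ * m0)) := by
        have e3 : (((ps i j : ℝ) + i j) * δ - ps i j * δ) * m0 = i j * δ * m0 := by ring
        rw [e3]
        unfold Poi
        simp
      rw [e2]
    have e1 : G (2 * j + 1) = (Real.exp (-(δ * m0)) * (δ * m0)) * Real.exp (-(δ * m0)) := by
      simp only [hG]
      have e3 : 2 * j + 1 + 1 = 2 * (j + 1) := by ring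
      rw [e3, xx_even, xx_odd, ps_succ]
      have e4 : ((((ps i j + i j + 1 : ℕ) : ℝ) * δ - ((ps i j : ℝ) + i j) * δ) * m0) = δ * m0 := by
        push_cast; ring
      rw [e4]
      have e5 : (2 * j + 1) / 2 = j := by omega
      have e6 : (2 * j + 1) % 2 = 1 := by omega
      rw [e5, e6]
      simp only [true_and]
      have e7 : ∀ t : Fin 2, Poi (δ * m0) (if w j = t then 1 else 0) =
          if w j = t then Real.exp (-(δ * m0)) * (δ * m0) else Real.exp (-(δ * m0)) := by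
        intro t
        split_ifs
        · unfold Poi; simp
        · unfold Poi; simp
      simp only [e7]
      rw [Fin.prod_univ_two]
      generalize w j = t
      fin_cases t
      · simp
      · simp; ring
    rw [e0, e1]
    have e8 : Real.exp (-(2 * m0 * δ * (i j + 1))) = (Real.exp (-(i j * δ * m0)) * Real.exp (-(i j * δ * m0))) *
        (Real.exp (-(δ * m0)) * Real.exp (-(δ * m0))) := by
      rw [← Real.exp_add, ← Real.exp_add, ← Real.exp_add]
      congr 1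
      ring
    rw [e8]
    ring
  have h3 : ∀ m, ∏ c ∈ range (2 * m), G c = ∏ j ∈ range m, (G (2 * j) * G (2 * j + 1)) := by
    intro m
    induction m with
    | zero => simp
    | succ m ih =>
      have e : 2 * (m + 1) = 2 * m + 1 + 1 := by ring
      rw [e, Finset.prod_range_succ, Finset.prod_range_succ, ih, Finset.prod_range_succ]
      ring
  rw [h3]
  exact Finset.prod_congr rfl fun j _ => h2 j

/-- the hypotheses: strictly increasing scale, law of large numbers, Poisson statistics -/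
structure PD (E : Fin 2 → Set ℕ) (f : ℕ → ℝ) (m0 : ℝ) : Prop where
  m00 : 0 < m0
  mono : ∀ p ∈ UU E, ∀ q ∈ UU E, (f p < f q ↔ p < q)
  top : Tendsto f atTop atTop
  lln : ∀ w, Tendsto (fun n => (({p ∈ E w | p ≤ n}.ncard : ℕ) : ℝ) / f n) atTop (𝓝 m0)
  fin : (E 0 ∩ E 1).Finite
  palm : ∀ (w : Fin 2) (r : ℕ) (x : ℕ → ℝ) (k : Fin r × Fin 2 → ℕ), x 0 = 0 → (∀ i < r, x i < x (i + 1)) →
    Tendsto (fun n => (({p ∈ E w | p ≤ n ∧ QE E f r x k p}.ncard : ℕ) : ℝ) / {p ∈ E w | p ≤ n}.ncard) atTop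
      (𝓝 (∏ i : Fin r × Fin 2, Poi ((x (i.1 + 1) - x i.1) * m0) (k i)))

variable {E : Fin 2 → Set ℕ} {f : ℕ → ℝ} {m0 : ℝ}

lemma fin_le (T : Set ℕ) (P : ℕ → Prop) (n : ℕ) : {p ∈ T | p ≤ n ∧ P p}.Finite :=
  (Set.finite_le_nat n).subset fun _ hp => hp.2.1

lemma fin_le' (T : Set ℕ) (n : ℕ) : {p ∈ T | p ≤ n}.Finite :=
  (Set.finite_le_nat n).subset fun _ hp => hp.2

/-- the lower bound at a fixed mesh -/
lemma PD.lower1 (h : PD E f m0) {δ : ℝ} (hδ : 0 < δ) (m : ℕ) (w0 : Fin 2) (w : ℕ → Fin 2) {u v : ℕ → ℝ}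
    {a b : ℕ → ℕ} (ha : ∀ j < m, 1 ≤ a j) (hu : ∀ j < m, u j ≤ a j * δ) (hv : ∀ j < m, ((b j : ℝ) + 1) * δ ≤ v j)
    {ε : ℝ} (hε : 0 < ε) : ∀ᶠ n in atTop,
      ∏ j ∈ range m, ∑ i ∈ Ico (a j) (b j), (m0 * δ * Real.exp (-(2 * m0 * δ * (i + 1)))) - ε ≤
      (({p ∈ E w0 | p ≤ n ∧ ev E f m w u v p}.ncard : ℕ) : ℝ) / {p ∈ E w0 | p ≤ n}.ncard := by
  classical
  set Fm : Finset (Fin m → ℕ) := Fintype.piFinset fun j : Fin m => Ico (a j) (b j) with hFm
  have hFi : ∀ i ∈ Fm, ∀ j < m, a j ≤ exF 1 i j ∧ exF 1 i j < b j := by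
    intro i hi j hj
    have h1 := Fintype.mem_piFinset.1 hi ⟨j, hj⟩
    rw [mem_Ico] at h1
    have h2 := exF_apply 1 i ⟨j, hj⟩
    simp only at h1 h2
    rw [h2]
    exact h1
  have hlim : Tendsto (fun n => ∑ i ∈ Fm, (({p ∈ E w0 | p ≤ n ∧ QE E f (2 * m) (xx δ (exF 1 i)) (kk w m) p}.ncard : ℕ) : ℝ) /
      {p ∈ E w0 | p ≤ n}.ncard) atTop (𝓝 (∑ i ∈ Fm, ∏ j ∈ range m,
        (m0 * δ * Real.exp (-(2 * m0 * δ * ((exF 1 i j : ℕ) + 1)))))) := by
    refine tendsto_finsetSum _ fun i hi => ?_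
    have h1 := h.palm w0 (2 * m) (xx δ (exF 1 i)) (kk w m) (xx_zero _ _)
      (fun c hc => xx_lt hδ (fun j hj => (ha j hj).trans (hFi i hi j hj).1) c hc)
    rwa [prod_kk] at h1
  have e1 : ∑ i ∈ Fm, ∏ j ∈ range m, (m0 * δ * Real.exp (-(2 * m0 * δ * ((exF 1 i j : ℕ) + 1)))) =
      ∏ j ∈ range m, ∑ i ∈ Ico (a j) (b j), (m0 * δ * Real.exp (-(2 * m0 * δ * (i + 1)))) := by
    rw [← Fin.prod_univ_eq_prod_range (fun j => ∑ i ∈ Ico (a j) (b j), (m0 * δ * Real.exp (-(2 * m0 * δ * (i + 1))))),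
      Finset.prod_univ_sum]
    refine Finset.sum_congr rfl fun i _ => ?_
    rw [← Fin.prod_univ_eq_prod_range (fun j => m0 * δ * Real.exp (-(2 * m0 * δ * ((exF 1 i j : ℕ) + 1))))]
    exact Finset.prod_congr rfl fun j _ => by rw [exF_apply]
  rw [e1] at hlim
  filter_upwards [hlim.eventually_const_le (show _ - ε < _ by linarith)] with n hn
  refine hn.trans ?_
  rw [← Finset.sum_div]
  refine div_le_div_of_nonneg_right ?_ (Nat.cast_nonneg _)
  have hcard : ∑ i ∈ Fm, {p ∈ E w0 | p ≤ n ∧ QE E f (2 * m) (xx δ (exF 1 i)) (kk w m) p}.ncard ≤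
      {p ∈ E w0 | p ≤ n ∧ ev E f m w u v p}.ncard := by
    have e2 : ∀ P : ℕ → Prop, {p ∈ E w0 | p ≤ n ∧ P p}.ncard =
        ((range (n + 1)).filter (fun p => p ∈ E w0 ∧ P p)).card := by
      intro P
      rw [← Set.ncard_coe_finset]
      congr 1
      ext p
      simp only [Set.mem_ofPred_eq, Finset.coe_filter, mem_range]
      constructor
      · rintro ⟨h1, h2, h3⟩
        exact ⟨by omega, h1, h3⟩
      · rintro ⟨h1, h2, h3⟩
        exact ⟨h2, by omega, h3⟩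
    simp only [e2]
    rw [← Finset.card_biUnion]
    · refine Finset.card_le_card ?_
      intro p hp
      rw [mem_biUnion] at hp
      obtain ⟨i, hi, hk⟩ := hp
      rw [mem_filter] at hk ⊢
      obtain ⟨hk1, hk2, hk3⟩ := hk
      refine ⟨hk1, hk2, fun j hj => ?_⟩
      obtain ⟨h1, h2, h3, h4⟩ := gaps_of_QE h.mono hδ ⟨w0, hk2⟩ hk3 hj
      obtain ⟨h5, h6⟩ := hFi i hi j hj
      have h5' : (a j : ℝ) ≤ (exF 1 i j : ℕ) := by exact_mod_cast h5
      have h6' : ((exF 1 i j : ℕ) : ℝ) + 1 ≤ b j := by exact_mod_cast h6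
      refine ⟨h1, h2, ?_, ?_⟩
      · refine lt_of_le_of_lt (hu j hj) (lt_of_le_of_lt ?_ h3)
        exact mul_le_mul_of_nonneg_right h5' hδ.le
      · refine h4.trans (le_trans ?_ (hv j hj))
        exact mul_le_mul_of_nonneg_right (by linarith) hδ.le
    · intro i hi i' hi' hii
      rw [Function.onFun, Finset.disjoint_left]
      intro p h1 h2
      rw [mem_filter] at h1 h2
      refine hii (funext fun j => ?_)
      have h3 := QE_inj h.mono hδ ⟨w0, h1.2.1⟩ h1.2.2 h2.2.2 j j.2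
      rwa [exF_apply, exF_apply] at h3
  exact_mod_cast hcard

/-- the geometric sums -/
lemma geo_sum {m0 : ℝ} (hm0 : 0 < m0) {δ : ℝ} (hδ : 0 < δ) {a b : ℕ} (hab : a ≤ b) :
    ∑ i ∈ Ico a b, (m0 * δ * Real.exp (-(2 * m0 * δ * (i + 1)))) =
      (2 * m0 * δ) / (Real.exp (2 * m0 * δ) - 1) *
        (Real.exp (-(2 * m0 * (a * δ))) - Real.exp (-(2 * m0 * (b * δ)))) / 2 := by
  set y := 2 * m0 * δ with hy
  have hy0 : 0 < y := by positivity
  have hE : 0 < Real.exp y - 1 := by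
    have := Real.add_one_lt_exp hy0.ne'
    linarith
  induction b, hab using Nat.le_induction with
  | base => simp
  | succ b hb ih =>
    rw [Finset.sum_Ico_succ_top hb, ih]
    have e1 : Real.exp (-(2 * m0 * (((b + 1 : ℕ) : ℝ) * δ))) = Real.exp (-(2 * m0 * (b * δ))) * Real.exp (-y) := by
      rw [← Real.exp_add]
      congr 1
      push_cast
      rw [hy]; ring
    have e2 : Real.exp (-(y * (b + 1))) = Real.exp (-(2 * m0 * (b * δ))) * Real.exp (-y) := by
      rw [← Real.exp_add]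
      congr 1
      rw [hy]; ring
    rw [e1, e2]
    have e3 : m0 * δ = y / 2 := by rw [hy]; ring
    rw [e3]
    have e4 : Real.exp (-y) = (Real.exp y)⁻¹ := Real.exp_neg y
    rw [e4]
    have hE1 := Real.exp_pos y
    field_simp
    ring

/-- the limit of the geometric sums -/
lemma geo_lim {m0 : ℝ} (hm0 : 0 < m0) {u v : ℝ} (hu : 0 ≤ u) (huv : u ≤ v) {δ : ℕ → ℝ} (hδ0 : ∀ s, 0 < δ s)
    (hδ : Tendsto δ atTop (𝓝 0)) :
    Tendsto (fun s => ∑ i ∈ Ico (⌊u / δ s⌋₊ + 1) (⌊v / δ s⌋₊ - 1),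
      (m0 * δ s * Real.exp (-(2 * m0 * δ s * (i + 1))))) atTop
      (𝓝 ((Real.exp (-(2 * m0 * u)) - Real.exp (-(2 * m0 * v))) / 2)) := by
  rcases huv.eq_or_lt with h | h
  · subst h
    rw [sub_self, zero_div]
    refine tendsto_const_nhds.congr fun s => ?_
    rw [Finset.Ico_eq_empty_of_le (by omega), Finset.sum_empty]
  · have hv : 0 ≤ v := hu.trans huv
    have h1 := Pool.Agent.H32x.PL.floor_lim hu hδ0 hδ
    have h2 := Pool.Agent.H32x.PL.floor_lim hv hδ0 hδ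
    have h3 : Tendsto (fun s => ((⌊u / δ s⌋₊ + 1 : ℕ) : ℝ) * δ s) atTop (𝓝 u) := by
      have := h1.add hδ
      rw [add_zero] at this
      refine this.congr fun s => ?_
      push_cast; ring
    have hvbig : ∀ᶠ s in atTop, ⌊u / δ s⌋₊ + 1 ≤ ⌊v / δ s⌋₊ - 1 := by
      have h4 := hδ.const_mul 4
      rw [mul_zero] at h4
      filter_upwards [h4.eventually_lt_const (show 0 < v - u by linarith)] with s hs
      have h5 : u / δ s + 4 ≤ v / δ s := by
        rw [div_add' _ _ _ (hδ0 s).ne']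
        have := hδ0 s
        gcongr
        linarith
      have h6 : (⌊u / δ s⌋₊ : ℝ) ≤ u / δ s := Nat.floor_le (div_nonneg hu (hδ0 s).le)
      have h7 : v / δ s < ⌊v / δ s⌋₊ + 1 := Nat.lt_floor_add_one _
      have h8 : (⌊u / δ s⌋₊ : ℝ) + 4 < ⌊v / δ s⌋₊ + 1 := by linarith
      have h9 : ⌊u / δ s⌋₊ + 4 < ⌊v / δ s⌋₊ + 1 := by exact_mod_cast h8
      omega
    have h4 : Tendsto (fun s => ((⌊v / δ s⌋₊ - 1 : ℕ) : ℝ) * δ s) atTop (𝓝 v) := by
      have := h2.sub hδ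
      rw [sub_zero] at this
      refine this.congr' ?_
      filter_upwards [hvbig] with s hs
      rw [Nat.cast_sub (by omega)]
      push_cast; ring
    have hy : Tendsto (fun s => 2 * m0 * δ s) atTop (𝓝 0) := by
      have := hδ.const_mul (2 * m0)
      rwa [mul_zero] at this
    have hr : Tendsto (fun s => (2 * m0 * δ s) / (Real.exp (2 * m0 * δ s) - 1)) atTop (𝓝 1) := by
      have hd : HasDerivAt Real.exp 1 0 := by
        have := Real.hasDerivAt_exp 0
        rwa [Real.exp_zero] at this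
      have h5 := hd.tendsto_slope_zero
      have h6 : Tendsto (fun s => 2 * m0 * δ s) atTop (𝓝[≠] 0) := by
        rw [tendsto_nhdsWithin_iff]
        refine ⟨hy, Filter.Eventually.of_forall fun s => ?_⟩
        have := hδ0 s
        have : 0 < 2 * m0 * δ s := by positivity
        exact this.ne'
      have h7 := (h5.comp h6).inv₀ one_ne_zero
      rw [inv_one] at h7
      refine h7.congr fun s => ?_
      simp only [Function.comp, zero_add, Real.exp_zero, smul_eq_mul]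
      rw [mul_inv, inv_inv, div_eq_mul_inv]
    have h5 := (hr.mul (((Real.continuous_exp.tendsto _).comp (h3.const_mul (2 * m0)).neg).sub
      ((Real.continuous_exp.tendsto _).comp (h4.const_mul (2 * m0)).neg))).div_const 2
    rw [one_mul] at h5
    refine h5.congr' ?_
    filter_upwards [hvbig] with s hs
    rw [geo_sum hm0 (hδ0 s) hs]
    rfl

/-- the lower bound -/
lemma PD.lower2 (h : PD E f m0) (m : ℕ) (w0 : Fin 2) (w : ℕ → Fin 2) {u v : ℕ → ℝ}
    (hu : ∀ j < m, 0 ≤ u j) (huv : ∀ j < m, u j ≤ v j) {ε : ℝ} (hε : 0 < ε) : ∀ᶠ n in atTop,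
      ∏ j ∈ range m, ((Real.exp (-(2 * m0 * u j)) - Real.exp (-(2 * m0 * v j))) / 2) - ε ≤
      (({p ∈ E w0 | p ≤ n ∧ ev E f m w u v p}.ncard : ℕ) : ℝ) / {p ∈ E w0 | p ≤ n}.ncard := by
  classical
  set δ : ℕ → ℝ := fun s => (1 / 2) ^ s with hδ
  have hδ0 : ∀ s, 0 < δ s := fun s => by simp only [hδ]; positivity
  have hδt : Tendsto δ atTop (𝓝 0) := tendsto_pow_atTop_nhds_zero_of_lt_one (by norm_num) (by norm_num)
  have hlim : Tendsto (fun s => ∏ j ∈ range m, ∑ i ∈ Ico (⌊u j / δ s⌋₊ + 1) (⌊v j / δ s⌋₊ - 1),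
      (m0 * δ s * Real.exp (-(2 * m0 * δ s * (i + 1))))) atTop
      (𝓝 (∏ j ∈ range m, ((Real.exp (-(2 * m0 * u j)) - Real.exp (-(2 * m0 * v j))) / 2))) := by
    refine tendsto_finsetProd _ fun j hj => ?_
    rw [mem_range] at hj
    exact geo_lim h.m00 (hu j hj) (huv j hj) hδ0 hδt
  set Q := ∏ j ∈ range m, ((Real.exp (-(2 * m0 * u j)) - Real.exp (-(2 * m0 * v j))) / 2) with hQ
  obtain ⟨s, hs⟩ := (hlim.eventually_const_le (show Q - ε / 2 < Q by linarith)).exists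
  -- discard the empty ranges
  by_cases hne : ∀ j < m, ⌊u j / δ s⌋₊ + 1 < ⌊v j / δ s⌋₊ - 1
  · have h1 := h.lower1 (hδ0 s) m w0 w (u := u) (v := v) (a := fun j => ⌊u j / δ s⌋₊ + 1)
      (b := fun j => ⌊v j / δ s⌋₊ - 1) (fun j _ => by simp) (fun j _ => by
        have := Nat.lt_floor_add_one (u j / δ s)
        rw [div_lt_iff₀ (hδ0 s)] at this
        push_cast
        exact this.le) (fun j hj => by
        have h2 := hne j hj
        have h3 : (⌊v j / δ s⌋₊ : ℝ) ≤ v j / δ s :=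
          Nat.floor_le (div_nonneg ((hu j hj).trans (huv j hj)) (hδ0 s).le)
        rw [le_div_iff₀ (hδ0 s)] at h3
        have h4 : ((⌊v j / δ s⌋₊ - 1 : ℕ) : ℝ) + 1 = ⌊v j / δ s⌋₊ := by
          rw [Nat.cast_sub (by omega)]
          push_cast; ring
        rw [h4]
        exact h3) (half_pos hε)
    filter_upwards [h1] with n hn
    linarith
  · push Not at hne
    obtain ⟨j, hj, hj2⟩ := hne
    have h0 : ∏ j ∈ range m, ∑ i ∈ Ico (⌊u j / δ s⌋₊ + 1) (⌊v j / δ s⌋₊ - 1),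
      (m0 * δ s * Real.exp (-(2 * m0 * δ s * (i + 1)))) = 0 := by
      refine Finset.prod_eq_zero (mem_range.2 hj) ?_
      rw [Finset.Ico_eq_empty_of_le hj2, Finset.sum_empty]
    rw [h0] at hs
    filter_upwards with n
    have : (0 : ℝ) ≤ (({p ∈ E w0 | p ≤ n ∧ ev E f m w u v p}.ncard : ℕ) : ℝ) / {p ∈ E w0 | p ≤ n}.ncard := by
      positivity
    linarith

end Pool.Agent.H32x.AB
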