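import Mathlib
import Pool.Agent.H32x.AB.Mark

set_option autoImplicit false

/-!
# The joint law of the gaps and the types of consecutive elements
-/

namespace Pool.Agent.H32x.AB

open Finset Filter Topology
open Pool.Agent.H32x.PL (Poi mass)

variable {E : Fin 2 → Set ℕ} {f : ℕ → ℝ} {m0 : ℝ}

/-- the types and the gaps, beginning at `p` -/
def EV (E : Fin 2 → Set ℕ) (f : ℕ → ℝ) (m : ℕ) (w : ℕ → Fin 2) (u v : ℕ → ℝ) (p : ℕ) : Prop :=
  p ∈ E (w 0) ∧ (∀ t, t ≠ w 0 → p ∉ E t) ∧ ev E f m (fun j => w (j + 1)) u v p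

/-- the types, beginning at `p` -/
def EW (E : Fin 2 → Set ℕ) (m : ℕ) (w : ℕ → Fin 2) (p : ℕ) : Prop :=
  ∀ j ≤ m, (nx (UU E))^[j] p ∈ E (w j) ∧ ∀ t, t ≠ w j → (nx (UU E))^[j] p ∉ E t

lemma EW_of_EV {m : ℕ} {w : ℕ → Fin 2} {u v : ℕ → ℝ} {p : ℕ} (h : EV E f m w u v p) : EW E m w p := by
  intro j hj
  cases j with
  | zero => exact ⟨h.1, h.2.1⟩
  | succ j =>
    obtain ⟨h1, h2, _⟩ := h.2.2 j (by omega)
    exact ⟨h1, h2⟩

lemma EW_inj {m : ℕ} {w w' : ℕ → Fin 2} {p : ℕ} (h : EW E m w p) (h' : EW E m w' p) : ∀ j ≤ m, w j = w' j := by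
  intro j hj
  by_contra hne
  exact (h' j hj).2 _ hne (h j hj).1

lemma PD.infinite (h : PD E f m0) (w : Fin 2) : (E w).Infinite := by
  intro hfin
  have h1 := h.lln w
  have h2 : Tendsto (fun n => (((E w).ncard : ℕ) : ℝ) / f n) atTop (𝓝 0) := tendsto_const_nhds.div_atTop h.top
  have h3 : ∀ᶠ n in atTop, (({p ∈ E w | p ≤ n}.ncard : ℕ) : ℝ) / f n ≤ (((E w).ncard : ℕ) : ℝ) / f n := by
    filter_upwards [h.top.eventually_gt_atTop 0] with n hn
    refine div_le_div_of_nonneg_right ?_ hn.le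
    exact_mod_cast Set.ncard_le_ncard (Set.sep_subset _ _) hfin
  have := le_of_tendsto_of_tendsto h1 h2 h3
  linarith [h.m00]

lemma PD.UUinf (h : PD E f m0) : (UU E).Infinite := (h.infinite 0).mono fun _ hp => ⟨0, hp⟩

lemma PD.Mtop (h : PD E f m0) (w : Fin 2) :
    Tendsto (fun n => (({p ∈ E w | p ≤ n}.ncard : ℕ) : ℝ)) atTop atTop := by
  have h1 := (h.lln w).pos_mul_atTop h.m00 h.top
  refine h1.congr' ?_
  filter_upwards [h.top.eventually_gt_atTop 0] with n hn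
  field_simp

lemma PD.half (h : PD E f m0) (w : Fin 2) :
    Tendsto (fun n => (({p ∈ E w | p ≤ n}.ncard : ℕ) : ℝ) / (({p ∈ E 0 | p ≤ n}.ncard : ℕ) + {p ∈ E 1 | p ≤ n}.ncard))
      atTop (𝓝 (1 / 2)) := by
  have h1 := (h.lln w).div ((h.lln 0).add (h.lln 1)) (by have := h.m00; positivity)
  have e : m0 / (m0 + m0) = 1 / 2 := by
    have := h.m00
    field_simp
    norm_num
  rw [e] at h1
  refine h1.congr' ?_
  filter_upwards [h.top.eventually_gt_atTop 0] with n hn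
  simp only [Pi.div_apply]
  rw [← add_div, div_div_div_cancel_right₀ hn.ne']

lemma UU_le (E : Fin 2 → Set ℕ) (n : ℕ) :
    {p ∈ UU E | p ≤ n}.ncard ≤ {p ∈ E 0 | p ≤ n}.ncard + {p ∈ E 1 | p ≤ n}.ncard := by
  have h1 : {p ∈ UU E | p ≤ n} ⊆ {p ∈ E 0 | p ≤ n} ∪ {p ∈ E 1 | p ≤ n} := by
    rintro p ⟨⟨t, ht⟩, hp⟩
    fin_cases t
    · exact Or.inl ⟨ht, hp⟩
    · exact Or.inr ⟨ht, hp⟩
  exact (Set.ncard_le_ncard h1 ((fin_le' _ n).union (fin_le' _ n))).trans (Set.ncard_union_le _ _)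

/-- the lower bound -/
lemma PD.lower3 (h : PD E f m0) (m : ℕ) (w : ℕ → Fin 2) {u v : ℕ → ℝ}
    (hu : ∀ j < m, 0 ≤ u j) (huv : ∀ j < m, u j ≤ v j) {ε : ℝ} (hε : 0 < ε) : ∀ᶠ n in atTop,
      (1 / 2) ^ (m + 1) * ∏ j ∈ range m, (Real.exp (-(2 * m0 * u j)) - Real.exp (-(2 * m0 * v j))) - ε ≤
      (({p ∈ UU E | p ≤ n ∧ EV E f m w u v p}.ncard : ℕ) : ℝ) / {p ∈ UU E | p ≤ n}.ncard := by
  set c' := ∏ j ∈ range m, ((Real.exp (-(2 * m0 * u j)) - Real.exp (-(2 * m0 * v j))) / 2) with hc'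
  have hcc : (1 / 2) ^ (m + 1) * ∏ j ∈ range m, (Real.exp (-(2 * m0 * u j)) - Real.exp (-(2 * m0 * v j))) =
      c' * (1 / 2) := by
    rw [hc']
    simp only [div_eq_mul_inv]
    rw [Finset.prod_mul_distrib, Finset.prod_const, card_range, pow_succ]
    norm_num
    ring
  rw [hcc]
  have h1 := h.lower2 m (w 0) (fun j => w (j + 1)) hu huv hε
  have h2 := h.half (w 0)
  have htop : Tendsto (fun n => ((({p ∈ E 0 | p ≤ n}.ncard : ℕ) : ℝ) + {p ∈ E 1 | p ≤ n}.ncard)) atTop atTop :=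
    (h.Mtop 0).atTop_add_atTop (h.Mtop 1)
  have h3 : Tendsto (fun n => (((E 0 ∩ E 1).ncard : ℕ) : ℝ) /
      (({p ∈ E 0 | p ≤ n}.ncard : ℕ) + {p ∈ E 1 | p ≤ n}.ncard)) atTop (𝓝 0) :=
    tendsto_const_nhds.div_atTop htop
  have h4 := (h2.const_mul (c' - ε)).sub h3
  rw [sub_zero] at h4
  filter_upwards [h1, h4.eventually_const_le (show c' * (1 / 2) - ε < (c' - ε) * (1 / 2) by linarith),
    (h.Mtop (w 0)).eventually_gt_atTop 0, htop.eventually_gt_atTop 0] with n hn1 hn2 hn3 hn4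
  refine hn2.trans ?_
  set M := (({p ∈ E (w 0) | p ≤ n}.ncard : ℕ) : ℝ) with hM
  set M' := ((({p ∈ E 0 | p ≤ n}.ncard : ℕ) : ℝ) + {p ∈ E 1 | p ≤ n}.ncard) with hM'
  set N0 := (((E 0 ∩ E 1).ncard : ℕ) : ℝ) with hN0
  rw [le_div_iff₀ hn3] at hn1
  have hcard : {p ∈ E (w 0) | p ≤ n ∧ ev E f m (fun j => w (j + 1)) u v p}.ncard ≤
      {p ∈ UU E | p ≤ n ∧ EV E f m w u v p}.ncard + (E 0 ∩ E 1).ncard := by
    refine (Set.ncard_le_ncard (t := {p ∈ UU E | p ≤ n ∧ EV E f m w u v p} ∪ (E 0 ∩ E 1)) ?_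
      ((fin_le _ _ n).union h.fin)).trans (Set.ncard_union_le _ _)
    rintro p ⟨hp1, hp2, hp3⟩
    by_cases hp : p ∈ E 0 ∩ E 1
    · exact Or.inr hp
    · refine Or.inl ⟨⟨_, hp1⟩, hp2, hp1, fun t ht htE => hp ?_, hp3⟩
      generalize w 0 = w0 at hp1 ht
      fin_cases w0 <;> fin_cases t
      · exact absurd rfl ht
      · exact ⟨hp1, htE⟩
      · exact ⟨htE, hp1⟩
      · exact absurd rfl ht
  have hcard' : (({p ∈ E (w 0) | p ≤ n ∧ ev E f m (fun j => w (j + 1)) u v p}.ncard : ℕ) : ℝ) ≤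
      (({p ∈ UU E | p ≤ n ∧ EV E f m w u v p}.ncard : ℕ) : ℝ) + N0 := by
    rw [hN0]; exact_mod_cast hcard
  set X := (({p ∈ UU E | p ≤ n ∧ EV E f m w u v p}.ncard : ℕ) : ℝ) with hX
  have hX0 : 0 ≤ X := Nat.cast_nonneg _
  have h5 : (c' - ε) * (M / M') - N0 / M' ≤ X / M' := by
    rw [← mul_div_assoc, ← sub_div]
    refine div_le_div_of_nonneg_right ?_ hn4.le
    linarith
  refine h5.trans ?_
  have hU : (({p ∈ UU E | p ≤ n}.ncard : ℕ) : ℝ) ≤ M' := by
    rw [hM']; exact_mod_cast UU_le E n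
  have hU0 : 0 < (({p ∈ UU E | p ≤ n}.ncard : ℕ) : ℝ) := by
    have h6 : {p ∈ E (w 0) | p ≤ n}.ncard ≤ {p ∈ UU E | p ≤ n}.ncard :=
      Set.ncard_le_ncard (fun p hp => ⟨⟨_, hp.1⟩, hp.2⟩) (fin_le' _ n)
    have h7 : M ≤ (({p ∈ UU E | p ≤ n}.ncard : ℕ) : ℝ) := by rw [hM]; exact_mod_cast h6
    linarith
  exact div_le_div_of_nonneg_left hX0 hU0 hU

/-- the break points -/
noncomputable def yb (u v : ℝ) : ℕ → ℝ
  | 0 => 0
  | 1 => u
  | (i + 2) => v + i

lemma yb_mono {u v : ℝ} (hu : 0 ≤ u) (huv : u ≤ v) : Monotone (yb u v) := by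
  refine monotone_nat_of_le_succ fun n => ?_
  match n with
  | 0 => exact hu
  | 1 =>
    show u ≤ v + ((0 : ℕ) : ℝ)
    simpa using huv
  | (i + 2) =>
    show v + (i : ℝ) ≤ v + ((i + 1 : ℕ) : ℝ)
    push_cast
    linarith

lemma yb_top (u v : ℝ) : Tendsto (yb u v) atTop atTop := by
  rw [← tendsto_add_atTop_iff_nat 2]
  exact tendsto_atTop_add_const_left _ _ tendsto_natCast_atTop_atTop

lemma ev_congr {m : ℕ} {w w' : ℕ → Fin 2} {u v u' v' : ℕ → ℝ} {p : ℕ} (hw : ∀ j < m, w j = w' j)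
    (hu : ∀ j < m, u j = u' j) (hv : ∀ j < m, v j = v' j) : ev E f m w u v p ↔ ev E f m w' u' v' p := by
  unfold ev
  refine forall_congr' fun j => forall_congr' fun hj => ?_
  rw [hw j hj, hu j hj, hv j hj]

lemma sum_le_one {κ : Type} (U : Set ℕ) (n : ℕ) (P : κ → ℕ → Prop) (hP : ∀ k k' p, p ∈ U → P k p → P k' p → k = k')
    (F : Finset κ) : ∑ k ∈ F, (({p ∈ U | p ≤ n ∧ P k p}.ncard : ℕ) : ℝ) / {p ∈ U | p ≤ n}.ncard ≤ 1 := by
  classical
  rw [← Finset.sum_div]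
  refine div_le_one_of_le₀ ?_ (Nat.cast_nonneg _)
  have e2 : ∀ Q : ℕ → Prop, {p ∈ U | p ≤ n ∧ Q p}.ncard = ((range (n + 1)).filter (fun p => p ∈ U ∧ Q p)).card := by
    intro Q
    rw [← Set.ncard_coe_finset]
    congr 1
    ext p
    simp only [Set.mem_ofPred_eq, Finset.coe_filter, mem_range]
    constructor
    · rintro ⟨h1, h2, h3⟩
      exact ⟨by omega, h1, h3⟩
    · rintro ⟨h1, h2, h3⟩
      exact ⟨h2, by omega, h3⟩
  have e3 : {p ∈ U | p ≤ n}.ncard = ((range (n + 1)).filter (fun p => p ∈ U)).card := by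
    rw [← Set.ncard_coe_finset]
    congr 1
    ext p
    simp only [Set.mem_ofPred_eq, Finset.coe_filter, mem_range]
    constructor
    · rintro ⟨h1, h2⟩
      exact ⟨by omega, h1⟩
    · rintro ⟨h1, h2⟩
      exact ⟨h2, by omega⟩
  simp only [e2, e3]
  have h : ∑ k ∈ F, ((range (n + 1)).filter (fun p => p ∈ U ∧ P k p)).card ≤
      ((range (n + 1)).filter (fun p => p ∈ U)).card := by
    rw [← Finset.card_biUnion]
    · refine Finset.card_le_card ?_
      intro p hp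
      rw [mem_biUnion] at hp
      obtain ⟨k, _, hk⟩ := hp
      rw [mem_filter] at hk ⊢
      exact ⟨hk.1, hk.2.1⟩
    · intro k _ k' _ hkk
      rw [Function.onFun, Finset.disjoint_left]
      intro p h1 h2
      rw [mem_filter] at h1 h2
      exact hkk (hP k k' p h1.2.1 h1.2.2 h2.2.2)
  exact_mod_cast h

/-- the joint law of the types and the gaps -/
theorem PD.law (h : PD E f m0) (m : ℕ) (w : ℕ → Fin 2) {u v : ℕ → ℝ}
    (hu : ∀ j, 0 ≤ u j) (huv : ∀ j, u j ≤ v j) :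
    Tendsto (fun n => (({p ∈ UU E | p ≤ n ∧ EV E f m w u v p}.ncard : ℕ) : ℝ) / {p ∈ UU E | p ≤ n}.ncard) atTop
      (𝓝 ((1 / 2) ^ (m + 1) * ∏ j ∈ range m, (Real.exp (-(2 * m0 * u j)) - Real.exp (-(2 * m0 * v j))))) := by
  classical
  set cc : (Fin (m + 1) → Fin 2) × (Fin m → ℕ) → ℝ := fun k => (1 / 2) ^ (m + 1) * ∏ j ∈ range m,
    (Real.exp (-(2 * m0 * yb (u j) (v j) (exF 0 k.2 j))) -
      Real.exp (-(2 * m0 * yb (u j) (v j) (exF 0 k.2 j + 1)))) with hcc
  set P : (Fin (m + 1) → Fin 2) × (Fin m → ℕ) → ℕ → Prop := fun k p => EV E f m (exF 0 k.1)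
    (fun j => yb (u j) (v j) (exF 0 k.2 j)) (fun j => yb (u j) (v j) (exF 0 k.2 j + 1)) p with hPd
  have hmono : ∀ j, Monotone (yb (u j) (v j)) := fun j => yb_mono (hu j) (huv j)
  have hy0 : ∀ j i, 0 ≤ yb (u j) (v j) i := fun j i => hmono j (Nat.zero_le i)
  have hmain := mass (fun k n => (({p ∈ UU E | p ≤ n ∧ P k p}.ncard : ℕ) : ℝ) / {p ∈ UU E | p ≤ n}.ncard) cc
    (fun k => by
      simp only [hcc]
      refine mul_nonneg (by positivity) (Finset.prod_nonneg fun j _ => ?_)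
      rw [sub_nonneg, Real.exp_le_exp, neg_le_neg_iff]
      exact mul_le_mul_of_nonneg_left (hmono j (Nat.le_succ _)) (by have := h.m00; positivity))
    (fun F n => sum_le_one (UU E) n P (fun k k' p _ h1 h2 => by
      simp only [hPd] at h1 h2
      refine Prod.ext (funext fun j => ?_) (funext fun j => ?_)
      · have h3 := EW_inj (EW_of_EV h1) (EW_of_EV h2) j (by have := j.2; omega)
        rwa [exF_apply, exF_apply] at h3
      · obtain ⟨_, _, h3, h4⟩ := h1.2.2 j j.2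
        obtain ⟨_, _, h5, h6⟩ := h2.2.2 j j.2
        simp only [exF_apply] at h3 h4 h5 h6
        rcases Nat.lt_trichotomy (k.2 j) (k'.2 j) with h7 | h7 | h7
        · have := hmono j (show k.2 j + 1 ≤ k'.2 j from h7)
          linarith
        · exact h7
        · have := hmono j (show k'.2 j + 1 ≤ k.2 j from h7)
          linarith) F)
    (fun k ε hε => h.lower3 m (exF 0 k.1) (fun j _ => hy0 j _) (fun j _ => hmono j (Nat.le_succ _)) hε)
    (fun ε hε => by
      have h1 : Tendsto (fun K : ℕ => ∏ j : Fin m, (1 - Real.exp (-(2 * m0 * yb (u j) (v j) K)))) atTop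
          (𝓝 (∏ _j : Fin m, (1 - (0 : ℝ)))) := by
        refine tendsto_finsetProd _ fun j _ => tendsto_const_nhds.sub ?_
        refine Real.tendsto_exp_atBot.comp (tendsto_neg_atTop_atBot.comp ?_)
        exact (yb_top _ _).const_mul_atTop (by have := h.m00; positivity)
      simp only [sub_zero, Finset.prod_const_one] at h1
      obtain ⟨K, hK⟩ := (h1.eventually_const_le (show 1 - ε < 1 by linarith)).exists
      refine ⟨Finset.univ ×ˢ Fintype.piFinset fun _ => range K, hK.trans (le_of_eq ?_)⟩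
      rw [Finset.sum_product]
      simp only [hcc]
      rw [Finset.sum_const, ← Finset.mul_sum]
      have e1 : ∑ k ∈ Fintype.piFinset fun _ : Fin m => range K, ∏ j ∈ range m,
          (Real.exp (-(2 * m0 * yb (u j) (v j) (exF 0 k j))) - Real.exp (-(2 * m0 * yb (u j) (v j) (exF 0 k j + 1)))) =
          ∏ j : Fin m, (1 - Real.exp (-(2 * m0 * yb (u j) (v j) K))) := by
        have e2 : ∀ j : Fin m, 1 - Real.exp (-(2 * m0 * yb (u j) (v j) K)) = ∑ i ∈ range K,
            (Real.exp (-(2 * m0 * yb (u j) (v j) i)) - Real.exp (-(2 * m0 * yb (u j) (v j) (i + 1)))) := by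
          intro j
          rw [Finset.sum_range_sub' (fun i => Real.exp (-(2 * m0 * yb (u j) (v j) i)))]
          have : yb (u j) (v j) 0 = 0 := rfl
          rw [this]
          simp
        rw [Finset.prod_congr rfl fun j _ => e2 j, Finset.prod_univ_sum]
        refine Finset.sum_congr rfl fun k _ => ?_
        rw [← Fin.prod_univ_eq_prod_range (fun j => (Real.exp (-(2 * m0 * yb (u j) (v j) (exF 0 k j))) -
          Real.exp (-(2 * m0 * yb (u j) (v j) (exF 0 k j + 1)))))]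
        exact Finset.prod_congr rfl fun j _ => by rw [exF_apply]
      rw [e1, Finset.card_univ, Fintype.card_fun, Fintype.card_fin, Fintype.card_fin, nsmul_eq_mul]
      push_cast
      rw [← mul_assoc, ← mul_pow]
      norm_num)
    ((fun j => w j, fun _ => 1))
  have e1 : cc ((fun j => w j, fun _ => 1)) = (1 / 2) ^ (m + 1) * ∏ j ∈ range m,
      (Real.exp (-(2 * m0 * u j)) - Real.exp (-(2 * m0 * v j))) := by
    simp only [hcc]
    congr 1
    refine Finset.prod_congr rfl fun j hj => ?_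
    rw [mem_range] at hj
    have e2 : exF 0 (fun _ : Fin m => 1) j = 1 := by unfold exF; rw [dif_pos hj]
    rw [e2]
    have e3 : yb (u j) (v j) 1 = u j := rfl
    have e4 : yb (u j) (v j) (1 + 1) = v j := by
      show v j + ((0 : ℕ) : ℝ) = v j
      simp
    rw [e3, e4]
  rw [e1] at hmain
  refine hmain.congr fun n => ?_
  congr 2
  have e5 : ∀ p, P ((fun j => w j, fun _ => 1)) p ↔ EV E f m w u v p := by
    intro p
    simp only [hPd]
    unfold EV
    have e6 : ∀ j < m + 1, exF (0 : Fin 2) (fun j : Fin (m + 1) => w j) j = w j := by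
      intro j hj
      unfold exF; rw [dif_pos hj]
    rw [e6 0 (by omega)]
    refine and_congr_right fun _ => and_congr_right fun _ => ?_
    refine ev_congr (fun j hj => e6 _ (by omega)) (fun j hj => ?_) (fun j hj => ?_)
    · have e2 : exF 0 (fun _ : Fin m => 1) j = 1 := by unfold exF; rw [dif_pos hj]
      rw [e2]
      rfl
    · have e2 : exF 0 (fun _ : Fin m => 1) j = 1 := by unfold exF; rw [dif_pos hj]
      rw [e2]
      show v j + ((0 : ℕ) : ℝ) = v j
      simp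
  simp only [e5]

/-- the types form a normal sequence -/
theorem PD.normal (h : PD E f m0) (m : ℕ) (w : ℕ → Fin 2) :
    Tendsto (fun n => (({p ∈ UU E | p ≤ n ∧ EW E m w p}.ncard : ℕ) : ℝ) / {p ∈ UU E | p ≤ n}.ncard) atTop
      (𝓝 ((1 / 2) ^ (m + 1))) := by
  classical
  have hmain := mass (fun (k : Fin (m + 1) → Fin 2) n =>
    (({p ∈ UU E | p ≤ n ∧ EW E m (exF 0 k) p}.ncard : ℕ) : ℝ) / {p ∈ UU E | p ≤ n}.ncard)
    (fun _ => (1 / 2) ^ (m + 1)) (fun _ => by positivity)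
    (fun F n => sum_le_one (UU E) n (fun (k : Fin (m + 1) → Fin 2) p => EW E m (exF 0 k) p)
      (fun k k' p _ h1 h2 => funext fun j => by
        have h3 := EW_inj h1 h2 j (by have := j.2; omega)
        rwa [exF_apply, exF_apply] at h3) F)
    (fun k ε hε => by
      have h1 : Tendsto (fun K : ℕ => (1 / 2 : ℝ) ^ (m + 1) * ∏ j ∈ range m,
          (Real.exp (-(2 * m0 * 0)) - Real.exp (-(2 * m0 * (K : ℝ))))) atTop
          (𝓝 ((1 / 2 : ℝ) ^ (m + 1) * ∏ _j ∈ range m, (1 - (0 : ℝ)))) := by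
        refine Tendsto.const_mul _ (tendsto_finsetProd _ fun j _ => ?_)
        refine Tendsto.sub ?_ ?_
        · simp
        · refine Real.tendsto_exp_atBot.comp (tendsto_neg_atTop_atBot.comp ?_)
          exact tendsto_natCast_atTop_atTop.const_mul_atTop (by have := h.m00; positivity)
      simp only [sub_zero, Finset.prod_const_one, mul_one] at h1
      obtain ⟨K, hK⟩ := (h1.eventually_const_le (show (1 / 2 : ℝ) ^ (m + 1) - ε / 2 < (1 / 2) ^ (m + 1) by linarith)).exists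
      have h2 := h.lower3 m (exF 0 k) (u := fun _ => 0) (v := fun _ => (K : ℝ)) (fun _ _ => le_rfl)
        (fun _ _ => Nat.cast_nonneg K) (half_pos hε)
      filter_upwards [h2] with n hn
      have h3 : (({p ∈ UU E | p ≤ n ∧ EV E f m (exF 0 k) (fun _ => 0) (fun _ => (K : ℝ)) p}.ncard : ℕ) : ℝ) /
          {p ∈ UU E | p ≤ n}.ncard ≤ (({p ∈ UU E | p ≤ n ∧ EW E m (exF 0 k) p}.ncard : ℕ) : ℝ) /
          {p ∈ UU E | p ≤ n}.ncard := by
        refine div_le_div_of_nonneg_right ?_ (Nat.cast_nonneg _)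
        have h4 : {p ∈ UU E | p ≤ n ∧ EV E f m (exF 0 k) (fun _ => 0) (fun _ => (K : ℝ)) p}.ncard ≤
            {p ∈ UU E | p ≤ n ∧ EW E m (exF 0 k) p}.ncard :=
          Set.ncard_le_ncard (fun p hp => ⟨hp.1, hp.2.1, EW_of_EV hp.2.2⟩) (fin_le _ _ n)
        exact_mod_cast h4
      simp only [mul_zero] at hK
      simp only [mul_zero] at hn
      linarith)
    (fun ε hε => by
      refine ⟨Finset.univ, ?_⟩
      rw [Finset.sum_const, Finset.card_univ, Fintype.card_fun, Fintype.card_fin, Fintype.card_fin, nsmul_eq_mul]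
      push_cast
      rw [← mul_pow]
      norm_num
      exact hε.le)
    (fun j => w j)
  refine hmain.congr fun n => ?_
  congr 2
  have e5 : ∀ p, EW E m (exF 0 (fun j : Fin (m + 1) => w j)) p ↔ EW E m w p := by
    intro p
    unfold EW
    refine forall_congr' fun j => forall_congr' fun hj => ?_
    have e6 : exF (0 : Fin 2) (fun j : Fin (m + 1) => w j) j = w j := by
      unfold exF; rw [dif_pos (by omega)]
    rw [e6]
  simp only [e5]

end Pool.Agent.H32x.AB
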