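import Mathlib
import Pool.Agent.H32x.AB.Mark2

set_option autoImplicit false

/-!
# The sequence of the elements: gaps and types
-/

namespace Pool.Agent.H32x.AB

open Finset Filter Topology

variable {E : Fin 2 → Set ℕ} {f : ℕ → ℝ} {m0 : ℝ}

/-- the elements of `U` in increasing order -/
noncomputable def el (U : Set ℕ) (i : ℕ) : ℕ := Nat.nth (fun p => p ∈ U) i

lemma el_mem {U : Set ℕ} (hU : U.Infinite) (i : ℕ) : el U i ∈ U := Nat.nth_mem_of_infinite hU i

lemma el_strictMono {U : Set ℕ} (hU : U.Infinite) : StrictMono (el U) := Nat.nth_strictMono hU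

lemma el_surj {U : Set ℕ} {q : ℕ} (hq : q ∈ U) : ∃ j, el U j = q := by
  classical
  exact ⟨Nat.count (fun p => p ∈ U) q, Nat.nth_count hq⟩

lemma nx_el {U : Set ℕ} (hU : U.Infinite) (i : ℕ) : nx U (el U i) = el U (i + 1) := by
  refine nx_eq (el_mem hU _) (el_strictMono hU (Nat.lt_succ_self i)) fun q hq h1 h2 => ?_
  obtain ⟨j, rfl⟩ := el_surj hq
  have h3 := (el_strictMono hU).lt_iff_lt.1 h1
  have h4 := (el_strictMono hU).lt_iff_lt.1 h2
  omega

lemma iter_nx_el {U : Set ℕ} (hU : U.Infinite) (i j : ℕ) : (nx U)^[j] (el U i) = el U (i + j) := by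
  induction j with
  | zero => rfl
  | succ j ih => rw [Function.iterate_succ_apply', ih, nx_el hU]; rfl

/-- from the elements up to `n` to the first `N` elements -/
lemma nth_lim {U : Set ℕ} (hU : U.Infinite) (P : ℕ → Prop) {c : ℝ}
    (h : Tendsto (fun n => (({p ∈ U | p ≤ n ∧ P p}.ncard : ℕ) : ℝ) / {p ∈ U | p ≤ n}.ncard) atTop (𝓝 c)) :
    Tendsto (fun N : ℕ => (({i : ℕ | i < N ∧ P (el U i)}.ncard : ℕ) : ℝ) / N) atTop (𝓝 c) := by
  have hs := el_strictMono hU
  have htop : Tendsto (fun N => el U N - 1) atTop atTop := by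
    refine tendsto_atTop.2 fun m => ?_
    filter_upwards [hs.tendsto_atTop.eventually_ge_atTop (m + 1)] with N hN
    omega
  refine (h.comp htop).congr' ?_
  filter_upwards [eventually_ge_atTop 1] with N hN
  have hpos : 1 ≤ el U N := by
    have := hs (show 0 < N by omega)
    omega
  simp only [Function.comp]
  have e1 : ∀ Q : ℕ → Prop, {p ∈ U | p ≤ el U N - 1 ∧ Q p} = el U '' {i : ℕ | i < N ∧ Q (el U i)} := by
    intro Q
    ext p
    simp only [Set.mem_ofPred_eq, Set.mem_image]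
    constructor
    · rintro ⟨h1, h2, h3⟩
      obtain ⟨j, rfl⟩ := el_surj h1
      have h4 := hs.lt_iff_lt.1 (show el U j < el U N by omega)
      exact ⟨j, ⟨h4, h3⟩, rfl⟩
    · rintro ⟨j, ⟨h1, h2⟩, rfl⟩
      have h4 := hs h1
      exact ⟨el_mem hU j, by omega, h2⟩
  have e2 : {p ∈ U | p ≤ el U N - 1} = {p ∈ U | p ≤ el U N - 1 ∧ True} := by simp
  have e3 : {i : ℕ | i < N ∧ True}.ncard = N := by
    have : {i : ℕ | i < N ∧ True} = ((range N : Finset ℕ) : Set ℕ) := by ext; simp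
    rw [this, Set.ncard_coe_finset, card_range]
  rw [e2, e1 P, e1 (fun _ => True), Set.ncard_image_of_injective _ hs.injective,
    Set.ncard_image_of_injective _ hs.injective, e3]

/-- changing the event for finitely many indices -/
lemma lim_congr {P Q : ℕ → Prop} (h : ∀ᶠ i in atTop, P i ↔ Q i) {c : ℝ}
    (hP : Tendsto (fun N : ℕ => (({i : ℕ | i < N ∧ P i}.ncard : ℕ) : ℝ) / N) atTop (𝓝 c)) :
    Tendsto (fun N : ℕ => (({i : ℕ | i < N ∧ Q i}.ncard : ℕ) : ℝ) / N) atTop (𝓝 c) := by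
  obtain ⟨i0, hi0⟩ := eventually_atTop.1 h
  have hle : ∀ {P Q : ℕ → Prop} (_ : ∀ i ≥ i0, P i ↔ Q i) (N : ℕ),
      (({i : ℕ | i < N ∧ Q i}.ncard : ℕ) : ℝ) ≤ ({i : ℕ | i < N ∧ P i}.ncard : ℕ) + i0 := by
    intro P Q h N
    have h1 : {i : ℕ | i < N ∧ Q i} ⊆ {i : ℕ | i < N ∧ P i} ∪ {i : ℕ | i < i0} := by
      rintro i ⟨hi1, hi2⟩
      rcases Nat.lt_or_ge i i0 with h2 | h2
      · exact Or.inr h2
      · exact Or.inl ⟨hi1, (h i h2).2 hi2⟩
    have hf : ({i : ℕ | i < N ∧ P i} ∪ {i : ℕ | i < i0}).Finite :=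
      ((Set.finite_lt_nat N).subset fun i hi => hi.1).union (Set.finite_lt_nat i0)
    have h2 := (Set.ncard_le_ncard h1 hf).trans (Set.ncard_union_le _ _)
    have e3 : {i : ℕ | i < i0}.ncard = i0 := by
      have : {i : ℕ | i < i0} = ((range i0 : Finset ℕ) : Set ℕ) := by ext; simp
      rw [this, Set.ncard_coe_finset, card_range]
    rw [e3] at h2
    exact_mod_cast h2
  have hd : Tendsto (fun N : ℕ => (({i : ℕ | i < N ∧ Q i}.ncard : ℕ) : ℝ) / N -
      (({i : ℕ | i < N ∧ P i}.ncard : ℕ) : ℝ) / N) atTop (𝓝 0) := by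
    refine squeeze_zero_norm (fun N => ?_) (tendsto_const_div_atTop_nhds_zero_nat (i0 : ℝ))
    rw [← sub_div, norm_div, Real.norm_eq_abs, Real.norm_of_nonneg (Nat.cast_nonneg N)]
    refine div_le_div_of_nonneg_right ?_ (Nat.cast_nonneg N)
    rw [abs_le]
    have h1 := hle hi0 N
    have h2 := hle (fun i hi => (hi0 i hi).symm) N
    constructor <;> linarith
  have := hd.add hP
  rw [zero_add] at this
  refine this.congr fun N => ?_
  ring

lemma PD.excl (h : PD E f m0) : ∀ᶠ i in atTop, ∀ j, ∀ t t', t ≠ t' → el (UU E) (i + j) ∈ E t →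
    el (UU E) (i + j) ∉ E t' := by
  obtain ⟨B, hB⟩ := h.fin.bddAbove
  have hs := el_strictMono h.UUinf
  filter_upwards [hs.tendsto_atTop.eventually_gt_atTop B] with i hi j t t' htt h1 h2
  have h3 : el (UU E) (i + j) ∈ E 0 ∩ E 1 := by
    fin_cases t <;> fin_cases t'
    · exact absurd rfl htt
    · exact ⟨h1, h2⟩
    · exact ⟨h2, h1⟩
    · exact absurd rfl htt
  have h4 := hB h3
  have h5 := hs.monotone (show i ≤ i + j by omega)
  omega

/-- the joint law of the gaps and the types of consecutive elements -/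
theorem PD.nth_law (h : PD E f m0) (m : ℕ) (w : ℕ → Fin 2) {u v : ℕ → ℝ}
    (hu : ∀ j, 0 ≤ u j) (huv : ∀ j, u j ≤ v j) :
    Tendsto (fun N : ℕ => (({i : ℕ | i < N ∧ (∀ j ≤ m, el (UU E) (i + j) ∈ E (w j)) ∧
      ∀ j < m, u j < f (el (UU E) (i + j + 1)) - f (el (UU E) (i + j)) ∧
        f (el (UU E) (i + j + 1)) - f (el (UU E) (i + j)) ≤ v j}.ncard : ℕ) : ℝ) / N) atTop
      (𝓝 ((1 / 2) ^ (m + 1) * ∏ j ∈ range m, (Real.exp (-(2 * m0 * u j)) - Real.exp (-(2 * m0 * v j))))) := by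
  refine lim_congr ?_ (nth_lim h.UUinf _ (h.law m w hu huv))
  filter_upwards [h.excl] with i hi
  have hU := h.UUinf
  unfold EV ev
  simp only [iter_nx_el hU]
  constructor
  · rintro ⟨h1, h2, h3⟩
    refine ⟨fun j hj => ?_, fun j hj => ?_⟩
    · cases j with
      | zero => exact h1
      | succ j => exact (h3 j (by omega)).1
    · obtain ⟨_, _, h4, h5⟩ := h3 j hj
      exact ⟨h4, h5⟩
  · rintro ⟨h1, h2⟩
    refine ⟨h1 0 (Nat.zero_le _), fun t ht => ?_, fun j hj => ⟨h1 (j + 1) hj, fun t ht => ?_, h2 j hj⟩⟩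
    · exact hi 0 _ _ (Ne.symm ht) (h1 0 (Nat.zero_le _))
    · exact hi (j + 1) _ _ (Ne.symm ht) (h1 (j + 1) hj)

/-- the types of consecutive elements -/
theorem PD.nth_normal (h : PD E f m0) (m : ℕ) (w : ℕ → Fin 2) :
    Tendsto (fun N : ℕ => (({i : ℕ | i < N ∧ ∀ j ≤ m, el (UU E) (i + j) ∈ E (w j)}.ncard : ℕ) : ℝ) / N) atTop
      (𝓝 ((1 / 2) ^ (m + 1))) := by
  refine lim_congr ?_ (nth_lim h.UUinf _ (h.normal m w))
  filter_upwards [h.excl] with i hi
  have hU := h.UUinf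
  unfold EW
  simp only [iter_nx_el hU]
  constructor
  · intro h1 j hj
    exact (h1 j hj).1
  · intro h1 j hj
    exact ⟨h1 j hj, fun t ht => hi j _ _ (Ne.symm ht) (h1 j hj)⟩

end Pool.Agent.H32x.AB
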