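import Mathlib
import Pool.Agent.H32x.PL.GauG

set_option autoImplicit false

/-!
# From cells to measurable sets of real numbers
-/

namespace Pool.Agent.H32x.AB

open Finset Filter Topology MeasureTheory
open Pool.Agent.H32x.PL (QQ QQ_empty split_real QQ_approx QQ_union)

variable {F : ℕ → Set ℝ} {c : ℝ}

/-- the limit on all the cells of all levels -/
def CellLimR (b : ℕ) (F : ℕ → Set ℝ) (c : ℝ) : Prop :=
  ∀ (z : ℕ) (k : ℤ), QQ F c (Set.Ico ((k : ℝ) / (b : ℝ) ^ z) (((k : ℝ) + 1) / (b : ℝ) ^ z))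

lemma QQR_range {b : ℕ} (hb : 2 ≤ b) (hF : ∀ n, MeasurableSet (F n)) (h : CellLimR b F c) (z : ℕ) (J1 J2 : ℤ)
    (h12 : J1 ≤ J2) :
    QQ F c (Set.Ico ((J1 : ℝ) / (b : ℝ) ^ z) ((J2 : ℝ) / (b : ℝ) ^ z)) := by
  have hb0 : (0 : ℝ) < b := by positivity
  have hbz : (0 : ℝ) < (b : ℝ) ^ z := by positivity
  induction J2, h12 using Int.le_induction with
  | base => rw [Set.Ico_self]; exact QQ_empty
  | succ J hJ ih =>
    have h4 := h z J
    have e : Set.Ico ((J1 : ℝ) / (b : ℝ) ^ z) (((J + 1 : ℤ) : ℝ) / (b : ℝ) ^ z) =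
        Set.Ico ((J1 : ℝ) / (b : ℝ) ^ z) ((J : ℝ) / (b : ℝ) ^ z) ∪
          Set.Ico ((J : ℝ) / (b : ℝ) ^ z) (((J : ℝ) + 1) / (b : ℝ) ^ z) := by
      push_cast
      rw [Set.Ico_union_Ico_eq_Ico]
      · have : (J1 : ℝ) ≤ J := by exact_mod_cast hJ
        gcongr
      · gcongr
        linarith
    rw [e]
    refine QQ_union hF ?_ measurableSet_Ico ?_ ?_ ih h4
    · rw [Set.disjoint_left]
      intro x hx hx2
      exact absurd hx2.1 (not_le.2 hx.2)
    · rw [Real.volume_Ico]; exact ENNReal.ofReal_ne_top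
    · rw [Real.volume_Ico]; exact ENNReal.ofReal_ne_top

lemma QQR_Ico {b : ℕ} (hb : 2 ≤ b) (hF : ∀ n, MeasurableSet (F n)) (h : CellLimR b F c) {u a : ℝ} :
    QQ F c (Set.Ico u a) := by
  have hb0 : (0 : ℝ) < b := by positivity
  have hb1 : (1 : ℝ) < b := by exact_mod_cast (by omega : 1 < b)
  rcases le_or_gt a u with hau | hau
  · rw [Set.Ico_eq_empty (not_lt.2 hau)]; exact QQ_empty
  refine QQ_approx hF (by rw [Real.volume_Ico]; exact ENNReal.ofReal_ne_top) fun ε hε => ?_
  have hlim : Tendsto (fun z : ℕ => (b : ℝ) ^ z) atTop atTop := tendsto_pow_atTop_atTop_of_one_lt hb1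
  obtain ⟨z, hz1⟩ := (hlim.eventually_ge_atTop (2 / ε)).exists
  have hbz : (0 : ℝ) < (b : ℝ) ^ z := by positivity
  have h2ε : 2 / (b : ℝ) ^ z ≤ ε := by
    rw [div_le_iff₀ hbz]
    rw [div_le_iff₀ hε] at hz1
    linarith
  set J1 := ⌈u * (b : ℝ) ^ z⌉ with hJ1
  set J2 := ⌊a * (b : ℝ) ^ z⌋ with hJ2
  have hJ1a : u * (b : ℝ) ^ z ≤ J1 := Int.le_ceil _
  have hJ1b : (J1 : ℝ) < u * (b : ℝ) ^ z + 1 := Int.ceil_lt_add_one _
  have hJ2a : (J2 : ℝ) ≤ a * (b : ℝ) ^ z := Int.floor_le _
  have hJ2b : a * (b : ℝ) ^ z < J2 + 1 := Int.lt_floor_add_one _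
  rcases le_or_gt J1 J2 with hJ | hJ
  · have hsub : Set.Ico ((J1 : ℝ) / (b : ℝ) ^ z) ((J2 : ℝ) / (b : ℝ) ^ z) ⊆ Set.Ico u a := by
      refine Set.Ico_subset_Ico ?_ ?_
      · rw [le_div_iff₀ hbz]; exact hJ1a
      · rw [div_le_iff₀ hbz]; exact hJ2a
    refine ⟨Set.Ico ((J1 : ℝ) / (b : ℝ) ^ z) ((J2 : ℝ) / (b : ℝ) ^ z), hsub, measurableSet_Ico,
      QQR_range hb hF h z J1 J2 hJ, ?_⟩
    rw [measureReal_sdiff hsub measurableSet_Ico (by rw [Real.volume_Ico]; exact ENNReal.ofReal_ne_top)]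
    unfold Measure.real
    rw [Real.volume_Ico, Real.volume_Ico, ENNReal.toReal_ofReal (by linarith), ENNReal.toReal_ofReal]
    · refine le_trans ?_ h2ε
      rw [← sub_div, ← sub_nonneg]
      have : 2 / (b : ℝ) ^ z - (a - u - ((J2 : ℝ) - J1) / (b : ℝ) ^ z) =
        ((J2 + 1 - a * (b : ℝ) ^ z) + (u * (b : ℝ) ^ z + 1 - J1)) / (b : ℝ) ^ z := by
        field_simp
        ring
      rw [this]
      exact div_nonneg (by linarith) hbz.le
    · rw [← sub_div]
      have : (J1 : ℝ) ≤ J2 := by exact_mod_cast hJ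
      exact div_nonneg (by linarith) hbz.le
  · refine ⟨∅, Set.empty_subset _, MeasurableSet.empty, QQ_empty, ?_⟩
    rw [Set.sdiff_empty]
    unfold Measure.real
    rw [Real.volume_Ico, ENNReal.toReal_ofReal (by linarith)]
    refine le_trans ?_ h2ε
    have h3 : (J2 : ℝ) + 1 ≤ J1 := by exact_mod_cast hJ
    rw [le_div_iff₀ hbz]
    nlinarith

/-- the windows -/
def WR (m : ℕ) : Set ℝ := Set.Ico (-(m : ℝ)) m

/-- on measurable subsets of the window -/
lemma QQR_win {b : ℕ} (hb : 2 ≤ b) (hF : ∀ n, MeasurableSet (F n)) (h : CellLimR b F c) (m0 : ℕ)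
    (A : Set ℝ) (hA : MeasurableSet A) : QQ F c (A ∩ WR m0) := by
  have hWf : volume (WR m0) ≠ ⊤ := by unfold WR; rw [Real.volume_Ico]; exact ENNReal.ofReal_ne_top
  have hWm : MeasurableSet (WR m0) := measurableSet_Ico
  have hWQ : QQ F c (WR m0) := QQR_Ico hb hF h
  induction A, hA using MeasurableSpace.induction_on_inter (borel_eq_generateFrom_Iio ℝ)
    isPiSystem_Iio with
  | empty => rw [Set.empty_inter]; exact QQ_empty
  | basic A hA =>
    obtain ⟨a, rfl⟩ := hA
    have e : Set.Iio a ∩ WR m0 = Set.Ico (-(m0 : ℝ)) (min a m0) := by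
      ext x
      unfold WR
      simp only [Set.mem_inter_iff, Set.mem_Iio, Set.mem_Ico, lt_min_iff]
      tauto
    rw [e]
    exact QQR_Ico hb hF h
  | compl A hA ih =>
    have e : Aᶜ ∩ WR m0 = WR m0 \ (A ∩ WR m0) := by
      ext x; simp; tauto
    have hAm : MeasurableSet (A ∩ WR m0) := MeasurableSet.inter (by exact hA) hWm
    have h1 := hWQ.sub ih
    rw [e]
    unfold QQ
    have e2 : c * volume.real (WR m0 \ (A ∩ WR m0)) =
        c * volume.real (WR m0) - c * volume.real (A ∩ WR m0) := by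
      rw [measureReal_sdiff Set.inter_subset_right hAm hWf]; ring
    rw [e2]
    refine h1.congr fun n => ?_
    have h2 := split_real hF hAm Set.inter_subset_right hWf n
    rw [h2]; ring
  | iUnion f hd hfm ih =>
    have hfm' : ∀ i, MeasurableSet (f i ∩ WR m0) := fun i => MeasurableSet.inter (by exact hfm i) hWm
    have hd' : Pairwise (Function.onFun Disjoint fun i => f i ∩ WR m0) := fun i j hij =>
      (hd hij).mono Set.inter_subset_left Set.inter_subset_left
    have hfin : ∀ i, volume (f i ∩ WR m0) ≠ ⊤ := fun i =>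
      measure_ne_top_of_subset Set.inter_subset_right hWf
    have hUfin : volume (⋃ i, f i ∩ WR m0) ≠ ⊤ :=
      measure_ne_top_of_subset (Set.iUnion_subset fun i => Set.inter_subset_right) hWf
    have hsum : HasSum (fun i => volume.real (f i ∩ WR m0)) (volume.real (⋃ i, f i ∩ WR m0)) := by
      have h1 := measure_iUnion (μ := volume) hd' hfm'
      unfold Measure.real
      rw [h1, ENNReal.tsum_toReal_eq hfin]
      exact (ENNReal.hasSum_toReal (by rw [← h1]; exact hUfin))
    have hsumn : ∀ n, volume.real ((⋃ i, f i ∩ WR m0) ∩ F n) = ∑' i, volume.real ((f i ∩ WR m0) ∩ F n) := by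
      intro n
      have hd2 : Pairwise (Function.onFun Disjoint fun i => (f i ∩ WR m0) ∩ F n) := fun i j hij =>
        (hd' hij).mono Set.inter_subset_left Set.inter_subset_left
      have h1 := measure_iUnion (μ := volume) hd2 fun i => (hfm' i).inter (hF n)
      rw [Set.iUnion_inter]
      unfold Measure.real
      rw [h1, ENNReal.tsum_toReal_eq fun i => measure_ne_top_of_subset Set.inter_subset_left (hfin i)]
    rw [Set.iUnion_inter]
    unfold QQ
    simp only [hsumn]
    rw [← (hsum.mul_left c).tsum_eq]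
    refine tendsto_tsum_of_dominated_convergence (bound := fun i => volume.real (f i ∩ WR m0))
      hsum.summable (fun i => ih i) (Filter.Eventually.of_forall fun n i => ?_)
    rw [Real.norm_eq_abs, abs_of_nonneg measureReal_nonneg]
    exact measureReal_mono Set.inter_subset_left (hfin i)

/-- on all measurable sets of finite measure -/
theorem QQR_all {b : ℕ} (hb : 2 ≤ b) (hF : ∀ n, MeasurableSet (F n)) (h : CellLimR b F c)
    (A : Set ℝ) (hA : MeasurableSet A) (hfin : volume A ≠ ⊤) : QQ F c A := by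
  refine QQ_approx hF hfin fun ε hε => ?_
  have hWm : ∀ m, MeasurableSet (WR m) := fun m => measurableSet_Ico
  have hanti : Antitone fun m : ℕ => A \ WR m := by
    intro m m' hmm
    refine Set.sdiff_subset_sdiff_right ?_
    unfold WR
    have h1 : (m : ℝ) ≤ m' := by exact_mod_cast hmm
    exact Set.Ico_subset_Ico (by linarith) h1
  have hinter : ⋂ m : ℕ, A \ WR m = ∅ := by
    rw [Set.eq_empty_iff_forall_notMem]
    intro x hx
    rw [Set.mem_iInter] at hx
    obtain ⟨m, hm⟩ := exists_nat_gt |x|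
    rw [abs_lt] at hm
    exact (hx m).2 ⟨hm.1.le, hm.2⟩
  have hlim := tendsto_measure_iInter_atTop (μ := volume) (s := fun m : ℕ => A \ WR m)
    (fun m => (hA.diff (hWm m)).nullMeasurableSet) hanti
    ⟨0, measure_ne_top_of_subset Set.sdiff_subset hfin⟩
  rw [hinter, measure_empty] at hlim
  have hlim2 := (ENNReal.tendsto_toReal ENNReal.zero_ne_top).comp hlim
  simp only [ENNReal.toReal_zero] at hlim2
  obtain ⟨m, hm⟩ := (hlim2.eventually_le_const hε).exists
  refine ⟨A ∩ WR m, Set.inter_subset_left, hA.inter (hWm m), QQR_win hb hF h m A hA, ?_⟩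
  rw [Set.sdiff_self_inter]
  exact hm

end Pool.Agent.H32x.AB
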