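import Mathlib

set_option autoImplicit false

/-!
# From characteristic functions to distribution functions
-/

namespace Pool.Agent.H32x.AB

open Finset Filter Topology MeasureTheory ProbabilityTheory

variable {ι : Type} [Fintype ι]

lemma frontier_orthant (y : ι → ℝ) :
    frontier {v : EuclideanSpace ℝ (ι) | ∀ j, v j ≤ y j} ⊆
      ⋃ j, {v : EuclideanSpace ℝ (ι) | v j = y j} := by
  have hc : ∀ j : ι, Continuous fun v : EuclideanSpace ℝ (ι) => v j := fun j => by fun_prop
  have h1 : IsClosed {v : EuclideanSpace ℝ (ι) | ∀ j, v j ≤ y j} := by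
    have : {v : EuclideanSpace ℝ (ι) | ∀ j, v j ≤ y j} =
        ⋂ j, {v : EuclideanSpace ℝ (ι) | v j ≤ y j} := by ext v; simp
    rw [this]
    exact isClosed_iInter fun j => isClosed_le (hc j) continuous_const
  have h2 : IsOpen {v : EuclideanSpace ℝ (ι) | ∀ j, v j < y j} := by
    have : {v : EuclideanSpace ℝ (ι) | ∀ j, v j < y j} =
        ⋂ j, {v : EuclideanSpace ℝ (ι) | v j < y j} := by ext v; simp
    rw [this]
    exact isOpen_iInter_of_finite fun j => isOpen_lt (hc j) continuous_const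
  have h3 : {v : EuclideanSpace ℝ (ι) | ∀ j, v j < y j} ⊆
      interior {v : EuclideanSpace ℝ (ι) | ∀ j, v j ≤ y j} :=
    interior_maximal (fun v hv j => (hv j).le) h2
  intro v hv
  rw [h1.frontier_eq] at hv
  by_contra hcon
  refine hv.2 (h3 fun j => lt_of_le_of_ne (hv.1 j) fun h => hcon ?_)
  exact Set.mem_iUnion.2 ⟨j, h⟩

lemma std_hyperplane (j : ι) (y : ℝ) :
    stdGaussian (EuclideanSpace ℝ (ι)) {v | v j = y} = 0 := by
  have := nullSingletonClass_gaussianReal (μ := 0) (v := 1) one_ne_zero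
  rw [← map_pi_eq_stdGaussian, Measure.map_apply (by fun_prop)]
  · exact Measure.pi_hyperplane (μ := fun _ : ι => gaussianReal 0 1) j y
  · exact (measurableSet_singleton y).preimage (by fun_prop : Measurable fun v : EuclideanSpace ℝ (ι) => v j)

lemma std_orthant (y : ι → ℝ) :
    stdGaussian (EuclideanSpace ℝ (ι)) {v | ∀ j, v j ≤ y j} =
      ∏ j, gaussianReal 0 1 (Set.Iic (y j)) := by
  have hm : MeasurableSet {v : EuclideanSpace ℝ (ι) | ∀ j, v j ≤ y j} := by
    have : {v : EuclideanSpace ℝ (ι) | ∀ j, v j ≤ y j} =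
        ⋂ j, {v : EuclideanSpace ℝ (ι) | v j ≤ y j} := by ext v; simp
    rw [this]
    refine MeasurableSet.iInter fun j => ?_
    exact measurableSet_Iic.preimage (by fun_prop : Measurable fun v : EuclideanSpace ℝ (ι) => v j)
  rw [← map_pi_eq_stdGaussian, Measure.map_apply (by fun_prop) hm]
  have : (WithLp.toLp 2) ⁻¹' {v : EuclideanSpace ℝ (ι) | ∀ j, v j ≤ y j} =
      Set.univ.pi fun j => Set.Iic (y j) := by
    ext v; simp [Pi.le_def]
  rw [this, Measure.pi_pi]

/-- convergence of the characteristic functions implies that of the distribution functions -/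
theorem orthant_lim {Ω : Type*} [MeasurableSpace Ω] (P : Measure Ω) [IsProbabilityMeasure P] 
    (Z : ℕ → Ω → ι → ℝ) (hZ : ∀ n, Measurable (Z n))
    (h : ∀ τ : ι → ℝ, Tendsto (fun n => ∫ ω, Complex.exp (((∑ j, τ j * Z n ω j : ℝ) : ℂ) * Complex.I) ∂P)
      atTop (𝓝 (Complex.exp (-((∑ j, τ j ^ 2) / 2 : ℝ))))) (y : ι → ℝ) :
    Tendsto (fun n => P {ω | ∀ j, Z n ω j ≤ y j}) atTop (𝓝 (∏ j, gaussianReal 0 1 (Set.Iic (y j)))) := by
  have hm : ∀ n, Measurable fun ω => (WithLp.toLp 2 (Z n ω) : EuclideanSpace ℝ (ι)) := by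
    intro n
    exact (by fun_prop : Measurable fun v : ι → ℝ => (WithLp.toLp 2 v : EuclideanSpace ℝ (ι))).comp
      (hZ n)
  set μ : ℕ → ProbabilityMeasure (EuclideanSpace ℝ (ι)) := fun n =>
    ⟨P.map (fun ω => (WithLp.toLp 2 (Z n ω) : EuclideanSpace ℝ (ι))),
      Measure.isProbabilityMeasure_map (hm n).aemeasurable⟩ with hμ
  set μ0 : ProbabilityMeasure (EuclideanSpace ℝ (ι)) := ⟨stdGaussian _, inferInstance⟩ with hμ0
  have hlim : Tendsto μ atTop (𝓝 μ0) := by
    refine ProbabilityMeasure.tendsto_of_tendsto_charFun fun s => ?_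
    have e0 : charFun (μ0 : Measure (EuclideanSpace ℝ (ι))) s =
        Complex.exp (-((∑ j, (s j) ^ 2) / 2 : ℝ)) := by
      change charFun (stdGaussian (EuclideanSpace ℝ (ι))) s = _
      rw [charFun_stdGaussian, ← Complex.ofReal_pow, EuclideanSpace.real_norm_sq_eq]
      push_cast
      rw [neg_div]
    rw [e0]
    refine (h fun j => s j).congr fun n => ?_
    change _ = charFun (P.map (fun ω => (WithLp.toLp 2 (Z n ω) : EuclideanSpace ℝ (ι)))) s
    rw [charFun_apply, integral_map (hm n).aemeasurable (by fun_prop)]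
    refine integral_congr_ae (Filter.Eventually.of_forall fun ω => ?_)
    simp only
    congr 2
  have h1 := ProbabilityMeasure.tendsto_measure_of_null_frontier_of_tendsto' hlim
    (E := {v : EuclideanSpace ℝ (ι) | ∀ j, v j ≤ y j}) (by
      refine measure_mono_null (frontier_orthant y) ?_
      rw [measure_iUnion_null_iff]
      exact fun j => std_hyperplane j (y j))
  have e1 : (μ0 : Measure (EuclideanSpace ℝ (ι))) {v | ∀ j, v j ≤ y j} =
      ∏ j, gaussianReal 0 1 (Set.Iic (y j)) := std_orthant y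
  rw [e1] at h1
  refine h1.congr fun n => ?_
  change (P.map (fun ω => (WithLp.toLp 2 (Z n ω) : EuclideanSpace ℝ (ι)))) {v | ∀ j, v j ≤ y j} = _
  rw [Measure.map_apply (hm n)]
  · rfl
  · have : {v : EuclideanSpace ℝ (ι) | ∀ j, v j ≤ y j} =
        ⋂ j, {v : EuclideanSpace ℝ (ι) | v j ≤ y j} := by ext v; simp
    rw [this]
    refine MeasurableSet.iInter fun j => ?_
    exact measurableSet_Iic.preimage (by fun_prop : Measurable fun v : EuclideanSpace ℝ (ι) => v j)

end Pool.Agent.H32x.AB
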