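import Mathlib
import Pool.Agent.H39x.LP.Joint2
import Pool.Agent.H32x.AB.TwoGen

set_option autoImplicit false

/-!
# Two sequences of integers: the windows
-/

namespace Pool.Agent.H32x.AB

open Finset Filter Topology MeasureTheory
open Pool.Agent.H305R2 (roughPart)
open Pool.Agent.H39x.LP

variable {b : ℕ} {κ a : ℝ}

lemma Fam_mono {c₁ c₂ : ℝ} {A : ℕ → ℕ} (h : Fam b κ a c₁ A) (hc : c₁ ≤ c₂) : Fam b κ a c₂ A :=
  ⟨h.hb, h.ha, h.hκ, h.hκ1, h.hA.mono fun _ hq => hq.trans hc⟩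

/-- the hypotheses on the two sequences of integers -/
structure TwoZ (b : ℕ) (κ a : ℝ) (A : ℕ → ℕ → ℤ) : Prop where
  hb : 2 ≤ b
  ha : 0 < a
  hκ : 0.5834 * a < κ * Real.log b
  hκ1 : κ * Real.log b < a
  hA : ∀ j < 2, ∃ c C : ℝ, 0 < c ∧ ∀ᶠ p : ℕ in atTop, p.Prime →
    c * Real.exp (a * p) ≤ A j p ∧ (A j p : ℝ) ≤ C * Real.exp (a * p)
  ne : ∀ᶠ p : ℕ in atTop, p.Prime → A 0 p ≠ A 1 p

theorem TwoZ.window {A : ℕ → ℕ → ℤ} (h : TwoZ b κ a A) (k : ℤ) : ∃ (c₁ : ℝ) (AA : ℕ → ℕ → ℕ),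
    Two b κ a c₁ AA ∧ ∃ P : ℕ, ∀ j < 2, ∀ p, P ≤ p → p.Prime → ∀ t ∈ Set.Ico (0 : ℝ) 1,
      (fq b κ (AA j) p t = 1 ↔ (roughPart p (Pool.Agent.H39x.LP.sq b κ (A j) ((k : ℝ) + t) p)).Prime) := by
  classical
  have key : ∀ j < 2, ∃ c₁ : ℝ, Fam b κ a c₁ (wi b κ a (A j) k j) ∧ ∃ P : ℕ, ∀ p, P ≤ p → p.Prime →
      0 ≤ A j p + k * ((b ^ ex κ p : ℕ) : ℤ) := by
    intro j hj
    obtain ⟨c, C, hc, hA⟩ := h.hA j hj
    obtain ⟨c₁, h1, h2, _⟩ := fam_window h.hb h.ha h.hκ h.hκ1 hc hA k j (by omega)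
    obtain ⟨P, hP⟩ := eventually_atTop.1 h2
    exact ⟨c₁, h1, P, hP⟩
  obtain ⟨c0, hF0, P0, hP0⟩ := key 0 (by norm_num)
  obtain ⟨c1, hF1, P1, hP1⟩ := key 1 (by norm_num)
  have hnn : ∀ j < 2, ∀ p, P0 + P1 ≤ p → p.Prime → 0 ≤ A j p + k * ((b ^ ex κ p : ℕ) : ℤ) := by
    intro j hj p hp hpp
    have : j = 0 ∨ j = 1 := by omega
    rcases this with rfl | rfl
    · exact hP0 p (by omega) hpp
    · exact hP1 p (by omega) hpp
  refine ⟨max c0 c1, fun j => wi b κ a (A j) k j, ⟨fun j hj => ?_, ?_⟩, P0 + P1, ?_⟩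
  · have : j = 0 ∨ j = 1 := by omega
    rcases this with rfl | rfl
    · exact Fam_mono hF0 (le_max_left _ _)
    · exact Fam_mono hF1 (le_max_right _ _)
  · filter_upwards [h.ne, eventually_ge_atTop (P0 + P1)] with p h3 hp
    show wi b κ a (A 0) k 0 p ≠ wi b κ a (A 1) k 1 p
    unfold wi
    by_cases hpp : p.Prime
    · rw [if_pos hpp, if_pos hpp]
      intro h4
      have e1 := Int.toNat_of_nonneg (hnn 0 (by norm_num) p hp hpp)
      have e2 := Int.toNat_of_nonneg (hnn 1 (by norm_num) p hp hpp)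
      apply h3 hpp
      have h5 : A 0 p + k * ((b ^ ex κ p : ℕ) : ℤ) = A 1 p + k * ((b ^ ex κ p : ℕ) : ℤ) := by
        rw [← e1, ← e2, h4]
      linarith
    · rw [if_neg hpp, if_neg hpp]
      omega
  · intro j hj p hp hpp t ht
    have h1 := hnn j hj p hp hpp
    have h2 : wi b κ a (A j) k j p + ⌊t * ((b ^ ex κ p : ℕ) : ℝ)⌋₊ = Pool.Agent.H39x.LP.sq b κ (A j) ((k : ℝ) + t) p := by
      unfold Pool.Agent.H39x.LP.sq
      have e0 : ((k : ℝ) + t) * (b : ℝ) ^ ⌊κ * (p : ℝ)⌋₊ =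
          ((k * ((b ^ ex κ p : ℕ) : ℤ) : ℤ) : ℝ) + t * ((b ^ ex κ p : ℕ) : ℝ) := by
        unfold ex
        push_cast; ring
      have ht0 : 0 ≤ t * ((b ^ ex κ p : ℕ) : ℝ) := mul_nonneg ht.1 (Nat.cast_nonneg _)
      rw [e0, Int.floor_intCast_add, ← add_assoc]
      have e2 : ⌊t * ((b ^ ex κ p : ℕ) : ℝ)⌋ = ((⌊t * ((b ^ ex κ p : ℕ) : ℝ)⌋₊ : ℕ) : ℤ) :=
        (Int.natCast_floor_eq_floor ht0).symm
      rw [e2, Int.toNat_add h1 (Int.natCast_nonneg _), Int.toNat_natCast]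
      have : wi b κ a (A j) k j p = (A j p + k * ((b ^ ex κ p : ℕ) : ℤ)).toNat := by
        unfold wi; rw [if_pos hpp]
      rw [this]
    unfold fq ph
    rw [h2]
    split_ifs with h3
    · simp [h3]
    · simp [h3]

open Classical in
/-- the number of the good exponents in `T` -/
noncomputable def cnt (b : ℕ) (κ : ℝ) (A : ℕ → ℤ) (T : Finset ℕ) (θ : ℝ) : ℕ :=
  (T.filter (fun q => (roughPart q (Pool.Agent.H39x.LP.sq b κ A θ q)).Prime)).card

lemma measurable_cnt (b : ℕ) (κ : ℝ) (A : ℕ → ℤ) (T : Finset ℕ) : Measurable (cnt b κ A T) := by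
  classical
  unfold cnt
  simp only [Finset.card_filter]
  refine Finset.measurable_fun_sum _ fun p _ => ?_
  have h1 : Measurable fun θ : ℝ => ⌊θ * (b : ℝ) ^ ⌊κ * (p : ℝ)⌋₊⌋ :=
    Int.measurable_floor.comp (measurable_id.mul_const _)
  exact (measurable_from_top (f := fun n : ℤ => if (roughPart p (A p + n).toNat).Prime then 1 else 0)).comp h1

lemma cnt_le {A : ℕ → ℤ} {F : ℕ → ℕ} {P : ℕ} {T : Finset ℕ} (hT : ∀ p ∈ T, p.Prime) {t θ : ℝ}
    (h : ∀ p, P ≤ p → p.Prime → (fq b κ F p t = 1 ↔ (roughPart p (Pool.Agent.H39x.LP.sq b κ A θ p)).Prime)) :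
    |(cnt b κ A T θ : ℝ) - hq b κ F T t| ≤ P := by
  classical
  have e1 : cnt b κ A T θ = (T.filter (fun q => P ≤ q ∧ (roughPart q (Pool.Agent.H39x.LP.sq b κ A θ q)).Prime)).card +
      (T.filter (fun q => q < P ∧ (roughPart q (Pool.Agent.H39x.LP.sq b κ A θ q)).Prime)).card := by
    unfold cnt
    rw [← Finset.card_union_of_disjoint]
    · congr 1
      ext q
      simp only [mem_filter, mem_union]
      constructor
      · rintro ⟨h1, h2⟩
        rcases le_or_gt P q with h3 | h3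
        · exact Or.inl ⟨h1, h3, h2⟩
        · exact Or.inr ⟨h1, h3, h2⟩
      · rintro (⟨h1, _, h2⟩ | ⟨h1, _, h2⟩) <;> exact ⟨h1, h2⟩
    · rw [Finset.disjoint_left]
      intro q h1 h2
      rw [mem_filter] at h1 h2
      omega
  have e2 : hq b κ F T t = (T.filter (fun q => P ≤ q ∧ (roughPart q (Pool.Agent.H39x.LP.sq b κ A θ q)).Prime)).card +
      (T.filter (fun q => q < P ∧ fq b κ F q t = 1)).card := by
    unfold hq
    rw [← Finset.card_union_of_disjoint]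
    · congr 1
      ext q
      simp only [mem_filter, mem_union]
      constructor
      · rintro ⟨h1, h2⟩
        rcases le_or_gt P q with h3 | h3
        · exact Or.inl ⟨h1, h3, (h q h3 (hT q h1)).1 h2⟩
        · exact Or.inr ⟨h1, h3, h2⟩
      · rintro (⟨h1, h3, h2⟩ | ⟨h1, _, h2⟩)
        · exact ⟨h1, (h q h3 (hT q h1)).2 h2⟩
        · exact ⟨h1, h2⟩
    · rw [Finset.disjoint_left]
      intro q h1 h2
      rw [mem_filter] at h1 h2
      omega
  have h3 : (T.filter (fun q => q < P ∧ (roughPart q (Pool.Agent.H39x.LP.sq b κ A θ q)).Prime)).card ≤ P := by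
    refine (Finset.card_le_card (t := range P) fun q hq => ?_).trans (le_of_eq (card_range P))
    rw [mem_filter] at hq
    exact mem_range.2 hq.2.1
  have h4 : (T.filter (fun q => q < P ∧ fq b κ F q t = 1)).card ≤ P := by
    refine (Finset.card_le_card (t := range P) fun q hq => ?_).trans (le_of_eq (card_range P))
    rw [mem_filter] at hq
    exact mem_range.2 hq.2.1
  rw [e1, e2]
  push_cast
  have h3' : ((T.filter (fun q => q < P ∧ (roughPart q (Pool.Agent.H39x.LP.sq b κ A θ q)).Prime)).card : ℝ) ≤ P := by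
    exact_mod_cast h3
  have h4' : ((T.filter (fun q => q < P ∧ fq b κ F q t = 1)).card : ℝ) ≤ P := by exact_mod_cast h4
  rw [abs_le]
  have h5 : (0 : ℝ) ≤ (T.filter (fun q => q < P ∧ (roughPart q (Pool.Agent.H39x.LP.sq b κ A θ q)).Prime)).card := Nat.cast_nonneg _
  have h6 : (0 : ℝ) ≤ (T.filter (fun q => q < P ∧ fq b κ F q t = 1)).card := Nat.cast_nonneg _
  constructor <;> linarith

end Pool.Agent.H32x.AB
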