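import Mathlib
import Pool.Agent.H32x.AB.Wd
import Pool.Agent.H32x.AB.Char
import Pool.Agent.H32x.AB.Orth
import Pool.Agent.H32x.AB.Mix

set_option autoImplicit false

/-!
# Two sequences of integers with the same random digits: the central limit theorem
-/

namespace Pool.Agent.H32x.AB

open Finset Filter Topology MeasureTheory ProbabilityTheory
open Pool.Agent.H305R2 (roughPart)
open Pool.Agent.N176.OW (VT VT_nonneg VS VS_mono VS_nonneg kap TB)
open Pool.Agent.H32x.PL (vv vv_tendsto NN SW Sh kap_pos mem_SW QQ)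
open Pool.Agent.H39x.LP

variable {b : ℕ} {κ a : ℝ} {A : ℕ → ℕ → ℤ}

lemma cm_ae {b z i : ℕ} : ∀ᵐ t ∂(cm b z i), t ∈ cell b z i := by
  unfold cm
  exact Measure.ae_smul_measure (ae_restrict_mem (measurableSet_cell b z i)) _

/-- the normalised counts -/
noncomputable def ZZ (b : ℕ) (κ a : ℝ) (A : ℕ → ℕ → ℤ) (S : Set ℕ) {r : ℕ} (t : ℕ → ℝ) (k : ℤ) (x : ℝ) (s : ℝ)
    (w : Fin r × Fin 2) : ℝ :=
  ((cnt b κ (A w.2) (SW 2 S (t w.1 * x) (t (w.1 + 1) * x)) ((k : ℝ) + s) : ℝ) -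
    (t (w.1 + 1) - t w.1) * (kp a / kap 2 * x)) / √((t (w.1 + 1) - t w.1) * (kp a / kap 2 * x))

lemma norm_exp_sub (u v : ℝ) : ‖Complex.exp ((u : ℂ) * Complex.I) - Complex.exp ((v : ℂ) * Complex.I)‖ ≤ |u - v| := by
  have e : Complex.exp ((u : ℂ) * Complex.I) - Complex.exp ((v : ℂ) * Complex.I) =
      Complex.exp ((v : ℂ) * Complex.I) * (Complex.exp (Complex.I * ((u - v : ℝ) : ℂ)) - 1) := by
    rw [mul_sub, ← Complex.exp_add, mul_one]
    congr 2
    push_cast
    ring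
  rw [e, norm_mul, Complex.norm_exp_ofReal_mul_I, one_mul]
  have := Real.norm_exp_I_mul_ofReal_sub_one_le (x := u - v)
  simpa using this

theorem TwoZ.char (h : TwoZ b κ a A) {S : Set ℕ} (hS : Tendsto (fun n => VS S n) atTop atTop)
    (hD : Tendsto (fun n : ℕ => VS S (2 * n) - VS S n) atTop (𝓝 0))
    (hP : ∀ h ≥ 1, Tendsto (fun n => VS (Sh S h) n / VS S n) atTop (𝓝 0)) (k : ℤ)
    {z i : ℕ} (hi : i < b ^ z) {r : ℕ} (hr : 0 < r) {t : ℕ → ℝ} (ht0 : 0 ≤ t 0)
    (ht : ∀ i < r, t i < t (i + 1)) (τ : Fin r × Fin 2 → ℝ) :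
    Tendsto (fun x : ℝ => ∫ s, Complex.exp (((∑ w : Fin r × Fin 2, τ w * ZZ b κ a A S t k x s w : ℝ) : ℂ) *
      Complex.I) ∂(cm b z i)) atTop (𝓝 (Complex.exp (-((∑ w, τ w ^ 2) / 2 : ℝ)))) := by
  classical
  have hb0 : 0 < b := by have := h.hb; omega
  have hv := vv_tendsto (b := 2) le_rfl hS
  have hk2 := kap_pos (b := 2) le_rfl
  obtain ⟨c₁, AA, h2, P, hPw⟩ := h.window k
  have hkp := h2.kp0
  have hprob := cm_prob hb0 z i
  have hlim := h2.char hS hD hP hi hr ht0 ht τ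
  have hΔ : ∀ w : Fin r × Fin 2, 0 < t (w.1 + 1) - t w.1 := fun w => by have := ht w.1 w.1.2; linarith
  have hm0 : 0 < kp a / kap 2 := by positivity
  have hsmall : Tendsto (fun x : ℝ => ∑ w : Fin r × Fin 2, |τ w| * (P / √((t (w.1 + 1) - t w.1) *
      (kp a / kap 2 * x)))) atTop (𝓝 0) := by
    have h0 : (0 : ℝ) = ∑ w : Fin r × Fin 2, |τ w| * 0 := by simp
    rw [h0]
    refine tendsto_finsetSum _ fun w _ => Tendsto.const_mul _ ?_
    refine tendsto_const_nhds.div_atTop (Real.tendsto_sqrt_atTop.comp ?_)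
    exact (tendsto_id.const_mul_atTop hm0).const_mul_atTop (hΔ w)
  have hdiff : Tendsto (fun x : ℝ => (∫ s, Complex.exp (((∑ w : Fin r × Fin 2, τ w * ZZ b κ a A S t k x s w : ℝ) : ℂ) *
      Complex.I) ∂(cm b z i)) - ∫ θ, Complex.exp (((∑ y : Fin r × Fin 2, τ y *
      (((hq b κ (AA y.2) (SW 2 S (t y.1 * x) (t (y.1 + 1) * x)) θ : ℝ) -
        (t (y.1 + 1) - t y.1) * (kp a / kap 2 * x)) /
        √((t (y.1 + 1) - t y.1) * (kp a / kap 2 * x))) : ℝ) : ℂ) * Complex.I) ∂(cm b z i)) atTop (𝓝 0) := by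
    refine squeeze_zero_norm' ?_ hsmall
    filter_upwards [eventually_gt_atTop 0] with x hx0
    have hn : ∀ u : ℝ, ‖Complex.exp ((u : ℂ) * Complex.I)‖ ≤ 1 := fun u => by
      rw [Complex.norm_exp_ofReal_mul_I]
    have hm1 : Measurable fun s : ℝ => Complex.exp (((∑ w : Fin r × Fin 2, τ w * ZZ b κ a A S t k x s w : ℝ) : ℂ) *
        Complex.I) := by
      refine Complex.measurable_exp.comp ((Complex.measurable_ofReal.comp ?_).mul_const _)
      refine Finset.measurable_fun_sum _ fun w _ => Measurable.const_mul ?_ _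
      unfold ZZ
      refine (Measurable.sub ?_ measurable_const).div_const _
      exact (measurable_from_top (f := fun n : ℕ => (n : ℝ))).comp
        ((measurable_cnt b κ _ _).comp (measurable_const_add _))
    have hm2 : Measurable fun θ : ℝ => Complex.exp (((∑ y : Fin r × Fin 2, τ y *
      (((hq b κ (AA y.2) (SW 2 S (t y.1 * x) (t (y.1 + 1) * x)) θ : ℝ) -
        (t (y.1 + 1) - t y.1) * (kp a / kap 2 * x)) /
        √((t (y.1 + 1) - t y.1) * (kp a / kap 2 * x))) : ℝ) : ℂ) * Complex.I) := by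
      refine Complex.measurable_exp.comp ((Complex.measurable_ofReal.comp ?_).mul_const _)
      refine Finset.measurable_fun_sum _ fun w _ => Measurable.const_mul ?_ _
      refine (Measurable.sub ?_ measurable_const).div_const _
      exact (measurable_from_top (f := fun n : ℕ => (n : ℝ))).comp (measurable_hq b κ _ _)
    rw [← integral_sub (integrable_c hm1 fun s => hn _) (integrable_c hm2 fun s => hn _)]
    have hb' : ∀ᵐ s ∂(cm b z i), ‖Complex.exp (((∑ w : Fin r × Fin 2, τ w * ZZ b κ a A S t k x s w : ℝ) : ℂ) *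
      Complex.I) - Complex.exp (((∑ y : Fin r × Fin 2, τ y *
      (((hq b κ (AA y.2) (SW 2 S (t y.1 * x) (t (y.1 + 1) * x)) s : ℝ) -
        (t (y.1 + 1) - t y.1) * (kp a / kap 2 * x)) /
        √((t (y.1 + 1) - t y.1) * (kp a / kap 2 * x))) : ℝ) : ℂ) * Complex.I)‖ ≤
        ∑ w : Fin r × Fin 2, |τ w| * (P / √((t (w.1 + 1) - t w.1) * (kp a / kap 2 * x))) := by
      filter_upwards [cm_ae (b := b) (z := z) (i := i)] with s hs
      have hs1 := cell_sub hb0 hi hs
      refine (norm_exp_sub _ _).trans ?_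
      rw [← Finset.sum_sub_distrib]
      refine (Finset.abs_sum_le_sum_abs _ _).trans (Finset.sum_le_sum fun w _ => ?_)
      rw [← mul_sub, abs_mul]
      refine mul_le_mul_of_nonneg_left ?_ (abs_nonneg _)
      unfold ZZ
      rw [← sub_div, abs_div, abs_of_nonneg (Real.sqrt_nonneg _)]
      refine div_le_div_of_nonneg_right ?_ (Real.sqrt_nonneg _)
      have h3 := cnt_le (b := b) (κ := κ) (A := A w.2) (F := AA w.2) (P := P)
        (T := SW 2 S (t w.1 * x) (t (w.1 + 1) * x)) (fun p hp => ((mem_SW hv).1 hp).1.1)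
        (t := s) (θ := (k : ℝ) + s) (fun p hp hpp => hPw w.2 w.2.2 p hp hpp s hs1)
      refine (le_of_eq ?_).trans h3
      congr 1
      ring
    refine (norm_integral_le_of_norm_le_const (μ := cm b z i) hb').trans ?_
    simp
  have := hdiff.add hlim
  rw [zero_add] at this
  refine this.congr fun x => ?_
  rw [sub_add_cancel]

/-- the event -/
def EvR (b : ℕ) (κ a : ℝ) (A : ℕ → ℕ → ℤ) (S : Set ℕ) {r : ℕ} (t : ℕ → ℝ) (y : Fin r × Fin 2 → ℝ) (x : ℝ) : Set ℝ :=
  {θ | ∀ w : Fin r × Fin 2, (cnt b κ (A w.2) (SW 2 S (t w.1 * x) (t (w.1 + 1) * x)) θ : ℝ) ≤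
    (t (w.1 + 1) - t w.1) * (kp a / kap 2 * x) + y w * √((t (w.1 + 1) - t w.1) * (kp a / kap 2 * x))}

lemma measurableSet_EvR (b : ℕ) (κ a : ℝ) (A : ℕ → ℕ → ℤ) (S : Set ℕ) {r : ℕ} (t : ℕ → ℝ)
    (y : Fin r × Fin 2 → ℝ) (x : ℝ) : MeasurableSet (EvR b κ a A S t y x) := by
  have : EvR b κ a A S t y x = ⋂ w : Fin r × Fin 2,
      {θ | (cnt b κ (A w.2) (SW 2 S (t w.1 * x) (t (w.1 + 1) * x)) θ : ℝ) ≤
    (t (w.1 + 1) - t w.1) * (kp a / kap 2 * x) + y w * √((t (w.1 + 1) - t w.1) * (kp a / kap 2 * x))} := by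
    ext β; simp [EvR]
  rw [this]
  refine MeasurableSet.iInter fun j => measurableSet_le ?_ measurable_const
  exact (measurable_from_top (f := fun n : ℕ => (n : ℝ))).comp (measurable_cnt b κ _ _)

theorem TwoZ.cellLim (h : TwoZ b κ a A) {S : Set ℕ} (hS : Tendsto (fun n => VS S n) atTop atTop)
    (hD : Tendsto (fun n : ℕ => VS S (2 * n) - VS S n) atTop (𝓝 0))
    (hP : ∀ h ≥ 1, Tendsto (fun n => VS (Sh S h) n / VS S n) atTop (𝓝 0))
    {r : ℕ} (hr : 0 < r) {t : ℕ → ℝ} (ht0 : 0 ≤ t 0)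
    (ht : ∀ i < r, t i < t (i + 1)) (y : Fin r × Fin 2 → ℝ) {x : ℕ → ℝ} (hx : Tendsto x atTop atTop) :
    CellLimR b (fun n => EvR b κ a A S t y (x n)) (∏ w, gaussianReal 0 1 (Set.Iic (y w))).toReal := by
  intro z k'
  have hb := h.hb
  have hb0 : 0 < b := by omega
  have hbr : (0 : ℝ) < b := by exact_mod_cast hb0
  have hk2 := kap_pos (b := 2) le_rfl
  have ha := h.ha
  have hkp : 0 < kp a := by unfold kp; positivity
  have hm0 : 0 < kp a / kap 2 := by positivity
  have hbz : (0 : ℤ) < (b : ℤ) ^ z := by positivity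
  have hbzr : (0 : ℝ) < (b : ℝ) ^ z := by positivity
  have hΔ : ∀ w : Fin r × Fin 2, 0 < t (w.1 + 1) - t w.1 := fun w => by have := ht w.1 w.1.2; linarith
  set k : ℤ := k' / (b : ℤ) ^ z with hk
  obtain ⟨i, hi⟩ := Int.eq_ofNat_of_zero_le (Int.emod_nonneg k' hbz.ne')
  have hilt : i < b ^ z := by
    have h1 := Int.emod_lt_of_pos k' hbz
    rw [hi] at h1
    exact_mod_cast h1
  have hk' : k' = (b : ℤ) ^ z * k + i := by
    have := Int.mul_ediv_add_emod k' ((b : ℤ) ^ z)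
    rw [hi] at this
    exact this.symm
  have hk'r : (k' : ℝ) = (b : ℝ) ^ z * k + i := by
    rw [hk']; push_cast; ring
  have hprob := cm_prob hb0 z i
  -- the limit of the probabilities
  have hZm : ∀ n, Measurable (ZZ (r := r) b κ a A S t k (x n)) := by
    intro n
    rw [measurable_pi_iff]
    intro w
    unfold ZZ
    refine (Measurable.sub ?_ measurable_const).div_const _
    exact (measurable_from_top (f := fun n : ℕ => (n : ℝ))).comp
      ((measurable_cnt b κ _ _).comp (measurable_const_add _))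
  have hlim := orthant_lim (cm b z i) (fun n => ZZ (r := r) b κ a A S t k (x n)) hZm
    (fun τ => (h.char hS hD hP k hilt hr ht0 ht τ).comp hx) y
  have h1 := (ENNReal.tendsto_toReal (ENNReal.prod_ne_top fun j _ => measure_ne_top _ _)).comp hlim
  unfold QQ
  have hvol : ∀ E : Set ℝ, MeasurableSet E →
      volume.real (Set.Ico ((k' : ℝ) / (b : ℝ) ^ z) (((k' : ℝ) + 1) / (b : ℝ) ^ z) ∩ E) =
      ((cm b z i) {s | (k : ℝ) + s ∈ E}).toReal * volume.real
        (Set.Ico ((k' : ℝ) / (b : ℝ) ^ z) (((k' : ℝ) + 1) / (b : ℝ) ^ z)) := by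
    intro E hE
    have e1 : volume (Set.Ico ((k' : ℝ) / (b : ℝ) ^ z) (((k' : ℝ) + 1) / (b : ℝ) ^ z) ∩ E) =
        volume (cell b z i ∩ {s | (k : ℝ) + s ∈ E}) := by
      rw [← measure_preimage_add volume (k : ℝ)]
      congr 1
      ext s
      unfold cell
      simp only [Set.mem_preimage, Set.mem_inter_iff, Set.mem_Ico, Set.mem_ofPred_eq]
      rw [hk'r, div_le_iff₀ hbzr, lt_div_iff₀ hbzr, div_le_iff₀ hbzr, lt_div_iff₀ hbzr]
      constructor
      · rintro ⟨⟨h3, h4⟩, h5⟩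
        exact ⟨⟨by nlinarith, by nlinarith⟩, h5⟩
      · rintro ⟨⟨h3, h4⟩, h5⟩
        exact ⟨⟨by nlinarith, by nlinarith⟩, h5⟩
    have hEm : MeasurableSet {s | (k : ℝ) + s ∈ E} := hE.preimage (measurable_const_add (k : ℝ))
    have e2 : (cm b z i) {s | (k : ℝ) + s ∈ E} =
        ENNReal.ofReal ((b : ℝ) ^ z) * volume (cell b z i ∩ {s | (k : ℝ) + s ∈ E}) := by
      unfold cm
      rw [Measure.smul_apply, Measure.restrict_apply hEm, smul_eq_mul, Set.inter_comm]
    unfold Measure.real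
    rw [e1, e2, ENNReal.toReal_mul, ENNReal.toReal_ofReal hbzr.le, Real.volume_Ico, ← sub_div,
      add_sub_cancel_left, ENNReal.toReal_ofReal (by positivity)]
    field_simp
  have h2 := h1.mul_const (volume.real (Set.Ico ((k' : ℝ) / (b : ℝ) ^ z) (((k' : ℝ) + 1) / (b : ℝ) ^ z)))
  refine h2.congr' ?_
  filter_upwards [hx.eventually_gt_atTop 0] with n hn
  rw [hvol _ (measurableSet_EvR b κ a A S t y (x n))]
  congr 1
  simp only [Function.comp]
  congr 2
  ext s
  unfold EvR ZZ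
  simp only [Set.mem_ofPred_eq]
  refine forall_congr' fun w => ?_
  have hΔw := hΔ w
  have hpos : 0 < √((t (w.1 + 1) - t w.1) * (kp a / kap 2 * x n)) := Real.sqrt_pos.2 (by positivity)
  rw [div_le_iff₀ hpos, sub_le_iff_le_add, add_comm ((t (↑w.1 + 1) - t ↑w.1) * (kp a / kap 2 * x n))]

theorem TwoZ.seq (h : TwoZ b κ a A) {S : Set ℕ} (hS : Tendsto (fun n => VS S n) atTop atTop)
    (hD : Tendsto (fun n : ℕ => VS S (2 * n) - VS S n) atTop (𝓝 0))
    (hP : ∀ h ≥ 1, Tendsto (fun n => VS (Sh S h) n / VS S n) atTop (𝓝 0))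
    {r : ℕ} {t : ℕ → ℝ} (ht0 : 0 ≤ t 0)
    (ht : ∀ i < r, t i < t (i + 1)) (y : Fin r × Fin 2 → ℝ) {x : ℕ → ℝ} (hx : Tendsto x atTop atTop)
    (G : Set ℝ) (hG : MeasurableSet G) (hfin : volume G ≠ ⊤) :
    Tendsto (fun n => volume.real (G ∩ EvR b κ a A S t y (x n))) atTop
      (𝓝 ((∏ w, gaussianReal 0 1 (Set.Iic (y w))).toReal * volume.real G)) := by
  rcases Nat.eq_zero_or_pos r with hr | hr
  · subst hr
    have : ∀ n, EvR b κ a A S t y (x n) = Set.univ := by
      intro n; ext β; simp [EvR]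
    simp only [this, Set.inter_univ, Finset.univ_eq_empty, Finset.prod_empty, ENNReal.toReal_one, one_mul]
    exact tendsto_const_nhds
  · exact QQR_all h.hb (F := fun n => EvR b κ a A S t y (x n)) (fun n => measurableSet_EvR b κ a A S t y (x n))
      (h.cellLim hS hD hP hr ht0 ht y hx) G hG hfin

lemma cnt_ncard {S : Set ℕ} (hS : Tendsto (fun n => VS S n) atTop atTop) (ha : 0 < a) (F : ℕ → ℤ) (θ u w x : ℝ) :
    ({q | (q.Prime ∧ (roughPart q (Pool.Agent.H39x.LP.sq b κ F θ q)).Prime) ∧ q ∈ S ∧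
      u * x < kp a * VS S q ∧ kp a * VS S q ≤ w * x}).ncard =
      cnt b κ F (SW 2 S (u * (x / (kp a / kap 2))) (w * (x / (kp a / kap 2)))) θ := by
  have hv := vv_tendsto (b := 2) le_rfl hS
  have hk2 := kap_pos (b := 2) le_rfl
  have hkp : 0 < kp a := by unfold kp; positivity
  unfold cnt
  rw [← Set.ncard_coe_finset]
  congr 1
  ext q
  rw [Finset.mem_coe, mem_filter, mem_SW hv]
  simp only [Set.mem_ofPred_eq]
  have e1 : u * (x / (kp a / kap 2)) = u * x * kap 2 / kp a := by field_simp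
  have e2 : w * (x / (kp a / kap 2)) = w * x * kap 2 / kp a := by field_simp
  unfold vv
  rw [e1, e2, div_lt_iff₀ hkp, le_div_iff₀ hkp]
  have h1 : u * x * kap 2 < kap 2 * VS S q * kp a ↔ u * x < kp a * VS S q := by
    constructor
    · intro h
      have : u * x * kap 2 < (kp a * VS S q) * kap 2 := by linarith
      exact lt_of_mul_lt_mul_right this hk2.le
    · intro h
      have := mul_lt_mul_of_pos_right h hk2
      linarith
  have h2 : kap 2 * VS S q * kp a ≤ w * x * kap 2 ↔ kp a * VS S q ≤ w * x := by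
    constructor
    · intro h
      have : (kp a * VS S q) * kap 2 ≤ w * x * kap 2 := by linarith
      exact le_of_mul_le_mul_right this hk2
    · intro h
      have := mul_le_mul_of_nonneg_right h hk2.le
      linarith
  rw [h1, h2]
  tauto

/-- **The central limit theorem for two sequences**, jointly in disjoint windows, on every measurable set. -/
theorem TwoZ.clt (h : TwoZ b κ a A) {S : Set ℕ} (hS : Tendsto (fun n => VS S n) atTop atTop)
    (hD : Tendsto (fun n : ℕ => VS S (2 * n) - VS S n) atTop (𝓝 0))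
    (hP : ∀ h ≥ 1, Tendsto (fun n => VS (Sh S h) n / VS S n) atTop (𝓝 0))
    {r : ℕ} {t : ℕ → ℝ} (ht0 : 0 ≤ t 0)
    (ht : ∀ i < r, t i < t (i + 1)) (y : Fin r × Fin 2 → ℝ)
    (G : Set ℝ) (hG : MeasurableSet G) (hfin : volume G ≠ ⊤) :
    Tendsto (fun x : ℝ => volume {θ ∈ G | ∀ w : Fin r × Fin 2,
      (({q | (q.Prime ∧ (roughPart q (Pool.Agent.H39x.LP.sq b κ (A w.2) θ q)).Prime) ∧ q ∈ S ∧
        t w.1 * x < kp a * VS S q ∧ kp a * VS S q ≤ t (w.1 + 1) * x}).ncard : ℝ) ≤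
        (t (w.1 + 1) - t w.1) * x + y w * √((t (w.1 + 1) - t w.1) * x)}) atTop
      (𝓝 (volume G * ∏ w, gaussianReal 0 1 (Set.Iic (y w)))) := by
  have hk2 := kap_pos (b := 2) le_rfl
  have ha := h.ha
  have hkp : 0 < kp a := by unfold kp; positivity
  have hm0 : 0 < kp a / kap 2 := by positivity
  refine tendsto_of_seq_tendsto fun x hx => ?_
  have hx' : Tendsto (fun n => x n / (kp a / kap 2)) atTop atTop := hx.atTop_div_const hm0
  have h1 := h.seq hS hD hP ht0 ht y hx' G hG hfin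
  have hset : ∀ n, {θ ∈ G | ∀ w : Fin r × Fin 2,
      (({q | (q.Prime ∧ (roughPart q (Pool.Agent.H39x.LP.sq b κ (A w.2) θ q)).Prime) ∧ q ∈ S ∧
        t w.1 * x n < kp a * VS S q ∧ kp a * VS S q ≤ t (w.1 + 1) * x n}).ncard : ℝ) ≤
        (t (w.1 + 1) - t w.1) * x n + y w * √((t (w.1 + 1) - t w.1) * x n)} =
        G ∩ EvR b κ a A S t y (x n / (kp a / kap 2)) := by
    intro n
    ext θ
    simp only [cnt_ncard hS ha]
    unfold EvR
    have e : kp a / kap 2 * (x n / (kp a / kap 2)) = x n := by field_simp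
    simp only [e]
    rfl
  refine Tendsto.congr (f₁ := fun n => volume (G ∩ EvR b κ a A S t y (x n / (kp a / kap 2))))
    (fun n => by rw [← hset n]; rfl) ?_
  have hne : ∀ n, volume (G ∩ EvR b κ a A S t y (x n / (kp a / kap 2))) ≠ ⊤ := fun n =>
    measure_ne_top_of_subset Set.inter_subset_left hfin
  have hne2 : volume G * ∏ w, gaussianReal 0 1 (Set.Iic (y w)) ≠ ⊤ :=
    ENNReal.mul_ne_top hfin (ENNReal.prod_ne_top fun j _ => measure_ne_top _ _)
  rw [← ENNReal.tendsto_toReal_iff hne hne2, ENNReal.toReal_mul, mul_comm]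
  exact h1

end Pool.Agent.H32x.AB
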