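import Mathlib
import Pool.Agent.H32x.AB.Lim
import Pool.Agent.H32x.PL.Geo

set_option autoImplicit false

/-!
# Two sequences of integers with the same random digits: the race
-/

namespace Pool.Agent.H32x.AB

open Finset Filter Topology MeasureTheory ProbabilityTheory
open Pool.Agent.H305R2 (roughPart)
open Pool.Agent.N176.OW (VT VT_nonneg VS VS_mono VS_nonneg kap TB)
open Pool.Agent.H32x.PL (vv vv_tendsto vv_lt vv_mono NN SW Sh kap_pos mem_SW QQ VS_zero)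
open Pool.Agent.H39x.LP

variable {b : ℕ} {κ a : ℝ} {A : ℕ → ℕ → ℤ}

/-- if the events have positive measure in every set, infinitely often, then almost every point is in
infinitely many of them -/
lemma ae_freq {F : ℕ → Set ℝ} (hF : ∀ n, MeasurableSet (F n))
    (h : ∀ G : Set ℝ, MeasurableSet G → volume G ≠ ⊤ → volume G ≠ 0 → ∃ᶠ n in atTop, volume (G ∩ F n) ≠ 0) :
    ∀ᵐ θ : ℝ, ∃ᶠ n in atTop, θ ∈ F n := by
  rw [ae_iff]
  have e : {θ : ℝ | ¬ ∃ᶠ n in atTop, θ ∈ F n} ⊆ ⋃ N : ℕ, ⋃ m : ℕ, ({θ | ∀ n ≥ N, θ ∉ F n} ∩ WR m) := by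
    intro θ hθ
    simp only [Set.mem_ofPred_eq, Filter.not_frequently] at hθ
    obtain ⟨N, hN⟩ := eventually_atTop.1 hθ
    obtain ⟨m, hm⟩ := exists_nat_gt |θ|
    rw [abs_lt] at hm
    exact Set.mem_iUnion.2 ⟨N, Set.mem_iUnion.2 ⟨m, ⟨fun n hn => hN n hn, hm.1.le, hm.2⟩⟩⟩
  refine measure_mono_null e ?_
  refine measure_iUnion_null fun N => measure_iUnion_null fun m => ?_
  by_contra hne
  have hm : MeasurableSet ({θ : ℝ | ∀ n ≥ N, θ ∉ F n} ∩ WR m) := by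
    refine MeasurableSet.inter ?_ measurableSet_Ico
    have : {θ : ℝ | ∀ n ≥ N, θ ∉ F n} = ⋂ n, ⋂ (_ : n ≥ N), (F n)ᶜ := by ext θ; simp
    rw [this]
    exact MeasurableSet.iInter fun n => MeasurableSet.iInter fun _ => (hF n).compl
  have hfin : volume ({θ : ℝ | ∀ n ≥ N, θ ∉ F n} ∩ WR m) ≠ ⊤ :=
    measure_ne_top_of_subset Set.inter_subset_right (by unfold WR; rw [Real.volume_Ico]; exact ENNReal.ofReal_ne_top)
  obtain ⟨n, hn, h1⟩ := ((h _ hm hfin hne).and_eventually (eventually_ge_atTop N)).exists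
  apply hn
  have : ({θ : ℝ | ∀ n ≥ N, θ ∉ F n} ∩ WR m) ∩ F n = ∅ := by
    rw [Set.eq_empty_iff_forall_notMem]
    rintro θ ⟨⟨h2, _⟩, h3⟩
    exact h2 n h1 h3
  rw [this, measure_empty]

open Classical in
/-- the number of the good exponents up to `n` in `S` -/
noncomputable def Mn (b : ℕ) (κ : ℝ) (A : ℕ → ℤ) (S : Set ℕ) (θ : ℝ) (n : ℕ) : ℕ :=
  ((range (n + 1)).filter (fun q => (q.Prime ∧ (roughPart q (Pool.Agent.H39x.LP.sq b κ A θ q)).Prime) ∧ q ∈ S)).card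

lemma Mn_ncard {S : Set ℕ} (ha : 0 < a) (F : ℕ → ℤ) (θ : ℝ) (n : ℕ) :
    ({q | (q.Prime ∧ (roughPart q (Pool.Agent.H39x.LP.sq b κ F θ q)).Prime) ∧ q ∈ S ∧
      0 * (kp a * VS S n) < kp a * VS S q ∧ kp a * VS S q ≤ 1 * (kp a * VS S n)}).ncard = Mn b κ F S θ n := by
  classical
  have hk2 := kap_pos (b := 2) le_rfl
  have hkp : 0 < kp a := by unfold kp; positivity
  unfold Mn
  rw [← Set.ncard_coe_finset]
  congr 1
  ext q
  rw [Finset.mem_coe, mem_filter, mem_range]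
  simp only [Set.mem_ofPred_eq, zero_mul, one_mul]
  constructor
  · rintro ⟨h1, h2, h3, h4⟩
    refine ⟨?_, h1, h2⟩
    by_contra hcon
    have h5 := vv_lt (b := 2) le_rfl h1.1 h2 (n := n) (by omega)
    unfold vv at h5
    have h6 := lt_of_mul_lt_mul_left h5 hk2.le
    have h7 := le_of_mul_le_mul_left h4 hkp
    linarith
  · rintro ⟨h1, h2, h3⟩
    have h5 := vv_lt (b := 2) le_rfl h2.1 h3 (n := 0) h2.1.pos
    unfold vv at h5
    have h6 := lt_of_mul_lt_mul_left h5 hk2.le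
    rw [VS_zero] at h6
    refine ⟨h2, h3, mul_pos hkp h6, mul_le_mul_of_nonneg_left (VS_mono S (by omega)) hkp.le⟩

/-- the central limit theorem for the two counting functions -/
theorem TwoZ.cltM (h : TwoZ b κ a A) {S : Set ℕ} (hS : Tendsto (fun n => VS S n) atTop atTop)
    (hD : Tendsto (fun n : ℕ => VS S (2 * n) - VS S n) atTop (𝓝 0))
    (hP : ∀ h ≥ 1, Tendsto (fun n => VS (Sh S h) n / VS S n) atTop (𝓝 0)) (y z : ℝ)
    (G : Set ℝ) (hG : MeasurableSet G) (hfin : volume G ≠ ⊤) :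
    Tendsto (fun n : ℕ => volume {θ ∈ G | (Mn b κ (A 0) S θ n : ℝ) ≤ kp a * VS S n + y * √(kp a * VS S n) ∧
      (Mn b κ (A 1) S θ n : ℝ) ≤ kp a * VS S n + z * √(kp a * VS S n)}) atTop
      (𝓝 (volume G * (gaussianReal 0 1 (Set.Iic y) * gaussianReal 0 1 (Set.Iic z)))) := by
  have hkp : 0 < kp a := by have := h.ha; unfold kp; positivity
  have h1 := (h.clt hS hD hP (r := 1) (t := fun i => (i : ℝ)) (by simp) (by simp)
    (fun w => if w.2 = 0 then y else z) G hG hfin).comp (hS.const_mul_atTop hkp)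
  have e1 : ∏ w : Fin 1 × Fin 2, gaussianReal 0 1 (Set.Iic (if w.2 = 0 then y else z)) =
      gaussianReal 0 1 (Set.Iic y) * gaussianReal 0 1 (Set.Iic z) := by
    rw [Fintype.prod_prod_type]
    simp
  rw [e1] at h1
  refine h1.congr fun n => ?_
  simp only [Function.comp]
  congr 1
  ext θ
  simp only [Set.mem_ofPred_eq]
  refine and_congr_right fun _ => ?_
  rw [Prod.forall]
  constructor
  · intro h2
    have h3 := h2 0 0
    have h4 := h2 0 1
    simp only [Fin.val_zero, Nat.cast_zero, zero_add, Nat.cast_one, sub_zero, Fin.isValue, if_true,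
      Fin.val_one, one_ne_zero, if_false, Mn_ncard h.ha] at h3 h4
    rw [one_mul] at h3 h4
    exact ⟨h3, h4⟩
  · rintro ⟨h2, h3⟩ i j
    have hi : i = 0 := Subsingleton.elim _ _
    subst hi
    have hj : j = 0 ∨ j = 1 := by omega
    rcases hj with rfl | rfl
    · simp only [Fin.val_zero, Nat.cast_zero, zero_add, Nat.cast_one, sub_zero, if_true, Mn_ncard h.ha]
      rw [one_mul]
      exact h2
    · simp only [Fin.val_zero, Nat.cast_zero, zero_add, Nat.cast_one, sub_zero, Fin.isValue,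
        Fin.val_one, one_ne_zero, if_false, Mn_ncard h.ha]
      rw [one_mul]
      exact h3

lemma measurable_Mn (b : ℕ) (κ : ℝ) (F : ℕ → ℤ) (S : Set ℕ) (n : ℕ) : Measurable fun θ => Mn b κ F S θ n := by
  classical
  have e : (fun θ => Mn b κ F S θ n) = cnt b κ F ((range (n + 1)).filter (fun q => q.Prime ∧ q ∈ S)) := by
    funext θ
    unfold Mn cnt
    rw [Finset.filter_filter]
    congr 1
    refine Finset.filter_congr fun q _ => ?_
    tauto
  rw [e]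
  exact measurable_cnt b κ F _

/-- the event that the first sequence leads -/
def Ld (b : ℕ) (κ a : ℝ) (F F' : ℕ → ℤ) (S : Set ℕ) (c : ℝ) (n : ℕ) : Set ℝ :=
  {θ | kp a * VS S n + c * √(kp a * VS S n) < (Mn b κ F S θ n : ℝ) ∧ (Mn b κ F' S θ n : ℝ) ≤ kp a * VS S n}

lemma measurableSet_Ld (b : ℕ) (κ a : ℝ) (F F' : ℕ → ℤ) (S : Set ℕ) (c : ℝ) (n : ℕ) :
    MeasurableSet (Ld b κ a F F' S c n) := by
  have h : ∀ F : ℕ → ℤ, Measurable fun θ => (Mn b κ F S θ n : ℝ) := fun F =>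
    (measurable_from_top (f := fun n : ℕ => (n : ℝ))).comp (measurable_Mn b κ F S n)
  exact (measurableSet_lt measurable_const (h F)).inter (measurableSet_le (h F') measurable_const)

lemma gauss_pos (c : ℝ) : gaussianReal 0 1 (Set.Iic c) < gaussianReal 0 1 (Set.Iic (c + 1)) := by
  have h1 : gaussianReal 0 1 (Set.Ioc c (c + 1)) ≠ 0 := by
    intro h0
    have h2 := gaussianReal_absolutelyContinuous' (0 : ℝ) (v := 1) one_ne_zero h0
    rw [Real.volume_Ioc] at h2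
    simp at h2
  have h2 : Set.Iic (c + 1) = Set.Iic c ∪ Set.Ioc c (c + 1) := (Set.Iic_union_Ioc_eq_Iic (by linarith)).symm
  rw [h2, measure_union _ measurableSet_Ioc]
  · exact ENNReal.lt_add_right (measure_ne_top _ _) h1
  · rw [Set.disjoint_left]
    intro x hx hx2
    exact absurd hx (not_le.2 hx2.1)

lemma gauss_pos0 (c : ℝ) : gaussianReal 0 1 (Set.Iic c) ≠ 0 := by
  have := gauss_pos (c - 1)
  rw [sub_add_cancel] at this
  exact (pos_of_gt this).ne'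

theorem TwoZ.lead0 (h : TwoZ b κ a A) {S : Set ℕ} (hS : Tendsto (fun n => VS S n) atTop atTop)
    (hD : Tendsto (fun n : ℕ => VS S (2 * n) - VS S n) atTop (𝓝 0))
    (hP : ∀ h ≥ 1, Tendsto (fun n => VS (Sh S h) n / VS S n) atTop (𝓝 0)) (c : ℝ)
    (G : Set ℝ) (hG : MeasurableSet G) (hfin : volume G ≠ ⊤) (hG0 : volume G ≠ 0) :
    ∀ᶠ n in atTop, volume (G ∩ Ld b κ a (A 0) (A 1) S c n) ≠ 0 := by
  have h1 := h.cltM hS hD hP (c + 1) 0 G hG hfin
  have h2 := h.cltM hS hD hP c 0 G hG hfin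
  have hlt : volume G * (gaussianReal 0 1 (Set.Iic c) * gaussianReal 0 1 (Set.Iic 0)) <
      volume G * (gaussianReal 0 1 (Set.Iic (c + 1)) * gaussianReal 0 1 (Set.Iic 0)) := by
    have h3 : gaussianReal 0 1 (Set.Iic c) * gaussianReal 0 1 (Set.Iic 0) <
        gaussianReal 0 1 (Set.Iic (c + 1)) * gaussianReal 0 1 (Set.Iic 0) :=
      (ENNReal.mul_lt_mul_iff_left (gauss_pos0 0) (measure_ne_top _ _)).2 (gauss_pos c)
    exact (ENNReal.mul_lt_mul_iff_right hG0 hfin).2 h3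
  obtain ⟨m, hm1, hm2⟩ := exists_between hlt
  filter_upwards [h1.eventually_const_lt hm2, h2.eventually_lt_const hm1] with n hn1 hn2 h0
  have h3 := hn2.trans hn1
  refine absurd ?_ (not_le.2 h3)
  refine (measure_mono (t := (G ∩ Ld b κ a (A 0) (A 1) S c n) ∪
    {θ ∈ G | (Mn b κ (A 0) S θ n : ℝ) ≤ kp a * VS S n + c * √(kp a * VS S n) ∧
      (Mn b κ (A 1) S θ n : ℝ) ≤ kp a * VS S n + 0 * √(kp a * VS S n)}) ?_).trans
    ((measure_union_le _ _).trans (by rw [h0, zero_add]))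
  rintro θ ⟨hθ, h4, h5⟩
  rcases le_or_gt (Mn b κ (A 0) S θ n : ℝ) (kp a * VS S n + c * √(kp a * VS S n)) with h6 | h6
  · exact Or.inr ⟨hθ, h6, h5⟩
  · rw [zero_mul, add_zero] at h5
    exact Or.inl ⟨hθ, h6, h5⟩

theorem TwoZ.lead1 (h : TwoZ b κ a A) {S : Set ℕ} (hS : Tendsto (fun n => VS S n) atTop atTop)
    (hD : Tendsto (fun n : ℕ => VS S (2 * n) - VS S n) atTop (𝓝 0))
    (hP : ∀ h ≥ 1, Tendsto (fun n => VS (Sh S h) n / VS S n) atTop (𝓝 0)) (c : ℝ)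
    (G : Set ℝ) (hG : MeasurableSet G) (hfin : volume G ≠ ⊤) (hG0 : volume G ≠ 0) :
    ∀ᶠ n in atTop, volume (G ∩ Ld b κ a (A 1) (A 0) S c n) ≠ 0 := by
  have h1 := h.cltM hS hD hP 0 (c + 1) G hG hfin
  have h2 := h.cltM hS hD hP 0 c G hG hfin
  have hlt : volume G * (gaussianReal 0 1 (Set.Iic 0) * gaussianReal 0 1 (Set.Iic c)) <
      volume G * (gaussianReal 0 1 (Set.Iic 0) * gaussianReal 0 1 (Set.Iic (c + 1))) := by
    have h3 : gaussianReal 0 1 (Set.Iic 0) * gaussianReal 0 1 (Set.Iic c) <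
        gaussianReal 0 1 (Set.Iic 0) * gaussianReal 0 1 (Set.Iic (c + 1)) :=
      (ENNReal.mul_lt_mul_iff_right (gauss_pos0 0) (measure_ne_top _ _)).2 (gauss_pos c)
    exact (ENNReal.mul_lt_mul_iff_right hG0 hfin).2 h3
  obtain ⟨m, hm1, hm2⟩ := exists_between hlt
  filter_upwards [h1.eventually_const_lt hm2, h2.eventually_lt_const hm1] with n hn1 hn2 h0
  have h3 := hn2.trans hn1
  refine absurd ?_ (not_le.2 h3)
  refine (measure_mono (t := (G ∩ Ld b κ a (A 1) (A 0) S c n) ∪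
    {θ ∈ G | (Mn b κ (A 0) S θ n : ℝ) ≤ kp a * VS S n + 0 * √(kp a * VS S n) ∧
      (Mn b κ (A 1) S θ n : ℝ) ≤ kp a * VS S n + c * √(kp a * VS S n)}) ?_).trans
    ((measure_union_le _ _).trans (by rw [h0, zero_add]))
  rintro θ ⟨hθ, h4, h5⟩
  rcases le_or_gt (Mn b κ (A 1) S θ n : ℝ) (kp a * VS S n + c * √(kp a * VS S n)) with h6 | h6
  · exact Or.inr ⟨hθ, h4, h6⟩
  · rw [zero_mul, add_zero] at h4
    exact Or.inl ⟨hθ, h6, h4⟩

/-- **The race**: each sequence leads by any multiple of the standard deviation infinitely often. -/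
theorem TwoZ.race (h : TwoZ b κ a A) {S : Set ℕ} (hS : Tendsto (fun n => VS S n) atTop atTop)
    (hD : Tendsto (fun n : ℕ => VS S (2 * n) - VS S n) atTop (𝓝 0))
    (hP : ∀ h ≥ 1, Tendsto (fun n => VS (Sh S h) n / VS S n) atTop (𝓝 0)) :
    ∀ᵐ θ : ℝ, ∀ c : ℝ,
      (∃ᶠ n : ℕ in atTop, kp a * VS S n + c * √(kp a * VS S n) < (Mn b κ (A 0) S θ n : ℝ) ∧
        (Mn b κ (A 1) S θ n : ℝ) ≤ kp a * VS S n) ∧
      (∃ᶠ n : ℕ in atTop, kp a * VS S n + c * √(kp a * VS S n) < (Mn b κ (A 1) S θ n : ℝ) ∧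
        (Mn b κ (A 0) S θ n : ℝ) ≤ kp a * VS S n) := by
  have h0 : ∀ m : ℕ, ∀ᵐ θ : ℝ, (∃ᶠ n in atTop, θ ∈ Ld b κ a (A 0) (A 1) S m n) ∧
      ∃ᶠ n in atTop, θ ∈ Ld b κ a (A 1) (A 0) S m n := by
    intro m
    have h1 := ae_freq (fun n => measurableSet_Ld b κ a (A 0) (A 1) S m n) fun G hG hfin hG0 =>
      (h.lead0 hS hD hP m G hG hfin hG0).frequently
    have h2 := ae_freq (fun n => measurableSet_Ld b κ a (A 1) (A 0) S m n) fun G hG hfin hG0 =>
      (h.lead1 hS hD hP m G hG hfin hG0).frequently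
    filter_upwards [h1, h2] with θ h3 h4
    exact ⟨h3, h4⟩
  filter_upwards [ae_all_iff.2 h0] with θ hθ c
  obtain ⟨m, hm⟩ := exists_nat_ge c
  obtain ⟨h1, h2⟩ := hθ m
  refine ⟨h1.mono ?_, h2.mono ?_⟩
  · rintro n ⟨h3, h4⟩
    refine ⟨lt_of_le_of_lt ?_ h3, h4⟩
    gcongr
  · rintro n ⟨h3, h4⟩
    refine ⟨lt_of_le_of_lt ?_ h3, h4⟩
    gcongr

end Pool.Agent.H32x.AB
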