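import Mathlib
import Pool.Agent.H32x.AB.Arr2

set_option autoImplicit false

/-!
# A strong law for nonnegative variables
-/

namespace Pool.Agent.H32x.AB

open Finset Filter Topology MeasureTheory
open Pool.Agent.H32x.PL (ae_tendsto_zero)

/-- sums of variables with bounded second moments, orthogonal at distance `R`, along the squares -/
theorem slln_sq {Ω : Type*} [MeasurableSpace Ω] (μ : Measure Ω) [IsFiniteMeasure μ] (D : ℕ → Ω → ℝ)
    (hD : ∀ l, Measurable (D l)) (hB : ∀ l, ∃ B : ℝ, ∀ ω, |D l ω| ≤ B) {M : ℝ} (hM0 : 0 ≤ M)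
    (hM : ∀ l, ∫ ω, D l ω * D l ω ∂μ ≤ M) (R : ℕ)
    (horth : ∀ l l', l + R ≤ l' → ∫ ω, D l ω * D l' ω ∂μ = 0) :
    ∀ᵐ ω ∂μ, Tendsto (fun k : ℕ => (∑ l ∈ range (k ^ 2), D l ω) / (k : ℝ) ^ 2) atTop (𝓝 0) := by
  have hint : ∀ l l', Integrable (fun ω => D l ω * D l' ω) μ := by
    intro l l'
    obtain ⟨B, hB1⟩ := hB l
    obtain ⟨B', hB2⟩ := hB l'
    refine Integrable.of_bound (C := B * B') ((hD l).mul (hD l')).aestronglyMeasurable
      (Filter.Eventually.of_forall fun ω => ?_)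
    rw [norm_mul, Real.norm_eq_abs, Real.norm_eq_abs]
    exact mul_le_mul (hB1 ω) (hB2 ω) (abs_nonneg _) ((abs_nonneg _).trans (hB1 ω))
  have hprod : ∀ l l', ∫ ω, D l ω * D l' ω ∂μ ≤ M := by
    intro l l'
    have h1 : ∫ ω, D l ω * D l' ω ∂μ ≤ ∫ ω, (D l ω * D l ω + D l' ω * D l' ω) / 2 ∂μ := by
      refine integral_mono (hint l l') (((hint l l).add (hint l' l')).div_const 2) fun ω => ?_
      simp only
      nlinarith [sq_nonneg (D l ω - D l' ω)]
    rw [integral_div, integral_add (hint l l) (hint l' l')] at h1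
    linarith [hM l, hM l']
  have hsq : ∀ L : ℕ, ∫ ω, (∑ l ∈ range L, D l ω) ^ 2 ∂μ ≤ L * (2 * R * M) := by
    intro L
    have e : ∀ ω, (∑ l ∈ range L, D l ω) ^ 2 = ∑ l ∈ range L, ∑ l' ∈ range L, D l ω * D l' ω := by
      intro ω
      rw [sq, Finset.sum_mul_sum]
    simp only [e]
    rw [integral_finsetSum _ fun l _ => integrable_finsetSum _ fun l' _ => hint l l']
    have h1 : ∀ l ∈ range L, ∫ ω, ∑ l' ∈ range L, D l ω * D l' ω ∂μ ≤ 2 * R * M := by
      intro l _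
      rw [integral_finsetSum _ fun l' _ => hint l l']
      calc ∑ l' ∈ range L, ∫ ω, D l ω * D l' ω ∂μ ≤
            ∑ l' ∈ range L, if l' ∈ Ico (l + 1 - R) (l + R) then M else 0 := by
            refine Finset.sum_le_sum fun l' _ => ?_
            split_ifs with h
            · exact hprod l l'
            · rw [mem_Ico] at h
              rcases Nat.lt_or_ge l' (l + R) with h2 | h2
              · have h3 : l' + R ≤ l := by omega
                have h4 := horth l' l h3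
                have h5 : ∀ ω, D l ω * D l' ω = D l' ω * D l ω := fun ω => mul_comm _ _
                simp only [h5]
                exact h4.le
              · exact (horth l l' h2).le
        _ ≤ ∑ l' ∈ Ico (l + 1 - R) (l + R), M := by
            rw [← Finset.sum_filter]
            refine Finset.sum_le_sum_of_subset_of_nonneg ?_ fun _ _ _ => hM0
            intro x hx
            rw [mem_filter] at hx
            exact hx.2
        _ ≤ 2 * R * M := by
            rw [Finset.sum_const, nsmul_eq_mul]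
            refine mul_le_mul_of_nonneg_right ?_ hM0
            rw [Nat.card_Ico]
            have : l + R - (l + 1 - R) ≤ 2 * R := by omega
            exact_mod_cast this
    refine (Finset.sum_le_sum h1).trans (le_of_eq ?_)
    rw [Finset.sum_const, card_range, nsmul_eq_mul]
  have hSB : ∀ L : ℕ, ∃ B : ℝ, ∀ ω, |∑ l ∈ range L, D l ω| ≤ B := by
    intro L
    choose B hB' using hB
    exact ⟨∑ l ∈ range L, B l, fun ω => (Finset.abs_sum_le_sum_abs _ _).trans
      (Finset.sum_le_sum fun l _ => hB' l ω)⟩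
  have hae := ae_tendsto_zero μ (fun k ω => ((∑ l ∈ range (k ^ 2), D l ω) / (k : ℝ) ^ 2) ^ 2)
    (fun k ω => sq_nonneg _) (fun k => by
      have hm : Measurable fun ω => ((∑ l ∈ range (k ^ 2), D l ω) / (k : ℝ) ^ 2) ^ 2 :=
        ((Finset.measurable_sum _ fun l _ => hD l).div_const _).pow_const _
      obtain ⟨B, hB'⟩ := hSB (k ^ 2)
      refine Integrable.of_bound (C := (B / (k : ℝ) ^ 2) ^ 2) hm.aestronglyMeasurable
        (Filter.Eventually.of_forall fun ω => ?_)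
      rw [norm_pow, norm_div, Real.norm_eq_abs, Real.norm_of_nonneg (by positivity : (0 : ℝ) ≤ (k : ℝ) ^ 2)]
      have := hB' ω
      gcongr) (fun k => (2 * R * M) * (1 / (k : ℝ) ^ 2))
    ((Real.summable_one_div_nat_pow.2 (by norm_num)).mul_left _) (fun k => by
      simp only [div_pow]
      rw [integral_div]
      have h1 := hsq (k ^ 2)
      rcases Nat.eq_zero_or_pos k with h0 | h0
      · subst h0; simp
      · have hk : (0 : ℝ) < k := by exact_mod_cast h0
        rw [div_le_iff₀ (by positivity)]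
        push_cast at h1
        refine h1.trans (le_of_eq ?_)
        field_simp)
  filter_upwards [hae] with ω hω
  have h1 := hω.sqrt
  simp only [Real.sqrt_sq_eq_abs, Real.sqrt_zero] at h1
  exact (tendsto_zero_iff_abs_tendsto_zero _).2 h1

/-- from the squares to all integers, for monotone sequences -/
lemma lln_mono {s : ℕ → ℝ} (hs : Monotone s) (hs0 : 0 ≤ s 0) {c : ℝ}
    (h : Tendsto (fun k : ℕ => s (k ^ 2) / (k : ℝ) ^ 2) atTop (𝓝 c)) :
    Tendsto (fun n : ℕ => s n / n) atTop (𝓝 c) := by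
  have hsq : Tendsto Nat.sqrt atTop atTop := by
    refine tendsto_atTop.2 fun m => ?_
    filter_upwards [eventually_ge_atTop (m ^ 2)] with n hn
    exact Nat.le_sqrt'.2 hn
  have hr : Tendsto (fun k : ℕ => (k : ℝ) / ((k : ℝ) + 1)) atTop (𝓝 1) := by
    have h1 : Tendsto (fun k : ℕ => 1 - 1 / ((k : ℝ) + 1)) atTop (𝓝 (1 - 0)) :=
      tendsto_const_nhds.sub tendsto_one_div_add_atTop_nhds_zero_nat
    rw [sub_zero] at h1
    refine h1.congr fun k => ?_
    have : (0 : ℝ) < (k : ℝ) + 1 := by positivity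
    field_simp
    ring
  have hr2 := hr.pow 2
  rw [one_pow] at hr2
  have hlo : Tendsto (fun k : ℕ => s (k ^ 2) / (k : ℝ) ^ 2 * ((k : ℝ) / ((k : ℝ) + 1)) ^ 2) atTop (𝓝 c) := by
    have := h.mul hr2
    rwa [mul_one] at this
  have hup : Tendsto (fun k : ℕ => s ((k + 1) ^ 2) / ((k + 1 : ℕ) : ℝ) ^ 2 *
      (((k : ℝ) / ((k : ℝ) + 1)) ^ 2)⁻¹) atTop (𝓝 c) := by
    have h1 := (h.comp (tendsto_add_atTop_nat 1)).mul (hr2.inv₀ one_ne_zero)
    rw [inv_one, mul_one] at h1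
    exact h1
  refine tendsto_of_tendsto_of_tendsto_of_le_of_le' (hlo.comp hsq) (hup.comp hsq) ?_ ?_
  · filter_upwards [eventually_ge_atTop 1] with n hn
    have hk1 : 1 ≤ Nat.sqrt n := Nat.le_sqrt'.2 (by simpa using hn)
    set k := Nat.sqrt n with hk
    have hk0 : (0 : ℝ) < k := by exact_mod_cast hk1
    have hn0 : (0 : ℝ) < n := by exact_mod_cast hn
    have ha : k ^ 2 ≤ n := Nat.sqrt_le' n
    have hb : n ≤ (k + 1) ^ 2 := (Nat.lt_succ_sqrt' n).le
    have h0 : 0 ≤ s (k ^ 2) := hs0.trans (hs (Nat.zero_le _))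
    simp only [Function.comp]
    rw [← hk]
    have hb' : (n : ℝ) ≤ ((k : ℝ) + 1) ^ 2 := by exact_mod_cast hb
    calc s (k ^ 2) / (k : ℝ) ^ 2 * ((k : ℝ) / ((k : ℝ) + 1)) ^ 2 = s (k ^ 2) / ((k : ℝ) + 1) ^ 2 := by
          field_simp
      _ ≤ s (k ^ 2) / n := div_le_div_of_nonneg_left h0 hn0 hb'
      _ ≤ s n / n := div_le_div_of_nonneg_right (hs ha) hn0.le
  · filter_upwards [eventually_ge_atTop 1] with n hn
    have hk1 : 1 ≤ Nat.sqrt n := Nat.le_sqrt'.2 (by simpa using hn)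
    set k := Nat.sqrt n with hk
    have hk0 : (0 : ℝ) < k := by exact_mod_cast hk1
    have hn0 : (0 : ℝ) < n := by exact_mod_cast hn
    have ha : k ^ 2 ≤ n := Nat.sqrt_le' n
    have hb : n ≤ (k + 1) ^ 2 := (Nat.lt_succ_sqrt' n).le
    have h0 : 0 ≤ s ((k + 1) ^ 2) := hs0.trans (hs (Nat.zero_le _))
    simp only [Function.comp]
    rw [← hk]
    have ha' : (k : ℝ) ^ 2 ≤ n := by exact_mod_cast ha
    calc s n / n ≤ s ((k + 1) ^ 2) / n := div_le_div_of_nonneg_right (hs hb) hn0.le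
      _ ≤ s ((k + 1) ^ 2) / (k : ℝ) ^ 2 := div_le_div_of_nonneg_left h0 (by positivity) ha'
      _ = s ((k + 1) ^ 2) / ((k + 1 : ℕ) : ℝ) ^ 2 * (((k : ℝ) / ((k : ℝ) + 1)) ^ 2)⁻¹ := by
          push_cast
          field_simp

/-- cell averages -/
noncomputable def avg (b z E : ℕ) (f : ℕ → ℝ) (c : ℕ) : ℝ :=
  (∑ i ∈ range (b ^ (E - z)), f (b ^ (E - z) * c + i)) / ((b ^ (E - z) : ℕ) : ℝ)

lemma dig_le {b : ℕ} (hb : 0 < b) {e E : ℕ} (heE : e ≤ E) (t : ℝ) :
    ⌊t * ((b ^ e : ℕ) : ℝ)⌋₊ = ⌊t * ((b ^ E : ℕ) : ℝ)⌋₊ / b ^ (E - e) := by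
  have h2 : b ^ E = b ^ e * b ^ (E - e) := by rw [← pow_add]; congr 1; omega
  rw [floor_nest (b ^ e) (n := b ^ (E - e)) (by positivity) t, ← h2]

/-- orthogonality -/
lemma orth_avg {b : ℕ} (hb : 0 < b) {e z E : ℕ} (h1 : e ≤ z) (h2 : z ≤ E) (g f : ℕ → ℝ) :
    ∫ t in Set.Ico (0 : ℝ) 1, g ⌊t * ((b ^ e : ℕ) : ℝ)⌋₊ *
      (f ⌊t * ((b ^ E : ℕ) : ℝ)⌋₊ - avg b z E f ⌊t * ((b ^ z : ℕ) : ℝ)⌋₊) = 0 := by
  set n := b ^ (E - z) with hn
  have hn0 : 0 < n := by rw [hn]; positivity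
  have hbE : b ^ E = b ^ z * n := by rw [hn, ← pow_add]; congr 1; omega
  have hcongr : ∀ t : ℝ, g ⌊t * ((b ^ e : ℕ) : ℝ)⌋₊ *
      (f ⌊t * ((b ^ E : ℕ) : ℝ)⌋₊ - avg b z E f ⌊t * ((b ^ z : ℕ) : ℝ)⌋₊) =
      (fun m => g (m / b ^ (z - e))) ⌊t * ((b ^ z : ℕ) : ℝ)⌋₊ *
        (fun m => f m - avg b z E f (m / n)) ⌊t * ((b ^ z * n : ℕ) : ℝ)⌋₊ := by
    intro t
    simp only
    rw [← hbE, dig_le hb h1 t]
    congr 3
    rw [hn, dig_le hb h2 t]
  simp only [hcongr]
  rw [int_twoR (fun m => g (m / b ^ (z - e))) (fun m => f m - avg b z E f (m / n)) (m := b ^ z) (n := n)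
    (by positivity) hn0, Finset.sum_eq_zero, zero_div]
  intro c _
  have h6 : ∑ i ∈ range n, (f (n * c + i) - avg b z E f ((n * c + i) / n)) = 0 := by
    have h7 : ∀ i ∈ range n, f (n * c + i) - avg b z E f ((n * c + i) / n) =
        f (n * c + i) - avg b z E f c := by
      intro i hi
      rw [mem_range] at hi
      rw [Nat.mul_add_div hn0, Nat.div_eq_of_lt hi, add_zero]
    rw [Finset.sum_congr rfl h7, Finset.sum_sub_distrib, Finset.sum_const, card_range, nsmul_eq_mul]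
    unfold avg
    rw [← hn]
    have : (n : ℝ) ≠ 0 := by exact_mod_cast hn0.ne'
    field_simp
    ring
  rw [h6, mul_zero]

end Pool.Agent.H32x.AB
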