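import Mathlib
import Pool.Agent.H32x.AB.Arr2
import Pool.Agent.H32x.AB.CRb
import Pool.Agent.H32x.AB.Lim

set_option autoImplicit false

/-!
# Two sequences with the same random digits: Poisson statistics for the windows of a set of exponents
-/

namespace Pool.Agent.H32x.AB

open Finset Filter Topology MeasureTheory
open Pool.Agent.H305R2 (roughPart)
open Pool.Agent.N176.OW (kap VT VS VS_mono VS_nonneg VT_nonneg)
open Pool.Agent.H32x.PL
open Pool.Agent.H39x.LP

variable {b : ℕ} {κ a c₁ : ℝ} {AA : ℕ → ℕ → ℕ}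

/-- undo a shift -/
lemma cesaro_shift (f : ℕ → ℝ) (l1 : ℕ) {c : ℝ}
    (h : Tendsto (fun L : ℕ => (∑ l ∈ range L, f (l + l1)) / L) atTop (𝓝 c)) :
    Tendsto (fun L : ℕ => (∑ l ∈ range L, f l) / L) atTop (𝓝 c) := by
  rw [← tendsto_add_atTop_iff_nat l1]
  have h2 : ∀ L : ℕ, ∑ l ∈ range (L + l1), f l = ∑ l ∈ range l1, f l + ∑ l ∈ range L, f (l + l1) := by
    intro L
    rw [add_comm L l1, Finset.sum_range_add]
    congr 1
    refine Finset.sum_congr rfl fun l _ => ?_
    rw [add_comm l1 l]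
  have h3 : Tendsto (fun L : ℕ => (L : ℝ) / (L + l1 : ℕ)) atTop (𝓝 1) := by
    have h4 : Tendsto (fun L : ℕ => 1 - (l1 : ℝ) / ((L + l1 : ℕ) : ℝ)) atTop (𝓝 (1 - 0)) := by
      refine tendsto_const_nhds.sub ?_
      exact (tendsto_const_div_atTop_nhds_zero_nat (l1 : ℝ)).comp (tendsto_add_atTop_nat l1)
    rw [sub_zero] at h4
    refine h4.congr' ?_
    filter_upwards [eventually_ge_atTop 1] with L hL
    have : (0 : ℝ) < ((L + l1 : ℕ) : ℝ) := by
      have : 0 < L + l1 := by omega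
      exact_mod_cast this
    push_cast at this ⊢
    field_simp
    ring
  have h5 : Tendsto (fun L : ℕ => (∑ l ∈ range l1, f l) / ((L + l1 : ℕ) : ℝ)) atTop (𝓝 0) :=
    (tendsto_const_div_atTop_nhds_zero_nat _).comp (tendsto_add_atTop_nat l1)
  have h6 := h5.add (h.mul h3)
  rw [zero_add, mul_one] at h6
  refine h6.congr' ?_
  filter_upwards [eventually_ge_atTop 1] with L hL
  rw [h2]
  have hL0 : (L : ℝ) ≠ 0 := by
    have : (0 : ℝ) < L := by exact_mod_cast hL
    exact this.ne'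
  rw [add_div, div_mul_div_comm, mul_comm _ (L : ℝ), mul_div_mul_left _ _ hL0]

/-- from the unit intervals to the real line -/
lemma ae_real {P : ℝ → Prop}
    (h : ∀ k : ℤ, ∀ᵐ t ∂(volume.restrict (Set.Ico (0 : ℝ) 1)), P ((k : ℝ) + t)) : ∀ᵐ θ : ℝ, P θ := by
  have h1 : ∀ j : ℤ, ∀ᵐ θ : ℝ, θ ∈ Set.Ico (j : ℝ) (j + 1) → P θ := by
    intro j
    have h2 := (ae_restrict_iff' measurableSet_Ico).1 (h j)
    have h3 := (measurePreserving_add_right volume (-(j : ℝ))).quasiMeasurePreserving.ae h2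
    filter_upwards [h3] with θ h4 h5
    have h6 := h4 ⟨by linarith [h5.1], by linarith [h5.2]⟩
    have e : (j : ℝ) + (θ + -(j : ℝ)) = θ := by ring
    rw [e] at h6
    exact h6
  filter_upwards [ae_all_iff.2 h1] with θ hθ
  exact hθ ⌊θ⌋ ⟨Int.floor_le θ, Int.lt_floor_add_one θ⟩

theorem Two.windows (h : Two b κ a c₁ AA) {S : Set ℕ}
    (hS : Tendsto (fun n => VS S n) atTop atTop)
    (hD : Tendsto (fun n : ℕ => VS S (2 * n) - VS S n) atTop (𝓝 0))
    (hP : ∀ h ≥ 1, Tendsto (fun n => VS (Sh S h) n / VS S n) atTop (𝓝 0))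
    (ι : Type) [Fintype ι] [DecidableEq ι] (lo hi : ι → ℕ) (hlh : ∀ j, lo j ≤ hi j)
    (hdis : ∀ i j, i ≠ j → hi i ≤ lo j ∨ hi j ≤ lo i) {η : ℝ} (hη : 0 < η) (k : ι × Fin 2 → ℕ) :
    ∀ᵐ t ∂(volume.restrict (Set.Ico (0 : ℝ) 1)), Tendsto (fun L : ℕ => (∑ l ∈ range L,
      pt b κ AA (fun j => SW 2 S (((l : ℝ) + lo j) * η) (((l : ℝ) + hi j) * η)) k t) / L) atTop
      (𝓝 (∏ x : ι × Fin 2, Poi (((hi x.1 : ℝ) - lo x.1) * (kp a / kap 2 * η)) (k x))) := by
  classical
  have hv := vv_tendsto (b := 2) le_rfl hS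
  have hκ0 := kap_pos (b := 2) le_rfl
  obtain ⟨k1, hk1, harr⟩ := h.arr
  have hkp := h.kp0
  set Y : ℕ := ∑ j, hi j with hY
  have hYj : ∀ j, hi j ≤ Y := fun j => Finset.single_le_sum (fun _ _ => Nat.zero_le _) (mem_univ j)
  set R : ℕ := ⌈((Y : ℝ) * η + 1) / η⌉₊ with hR
  have hRη : (Y : ℝ) * η + 1 ≤ R * η := by
    have := Nat.le_ceil (((Y : ℝ) * η + 1) / η)
    rwa [div_le_iff₀ hη] at this
  set T : ℕ → ι → Finset ℕ := fun l j => SW 2 S (((l : ℝ) + lo j) * η) (((l : ℝ) + hi j) * η) with hT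
  set I : ℕ → ℕ := fun l => Nat.log 2 (NN 2 S ((l : ℝ) * η) - 1) with hI
  set J : ℕ → ℕ := fun l => Nat.log 2 (NN 2 S (((l : ℝ) + Y) * η)) + 1 with hJ
  have hl0 : ∀ l : ℕ, (0 : ℝ) ≤ (l : ℝ) * η := fun l => by positivity
  have hl1 : ∀ l : ℕ, (l : ℝ) * η ≤ ((l : ℝ) + Y) * η := fun l => by
    have : (0 : ℝ) ≤ Y := Nat.cast_nonneg _
    nlinarith
  have hlt : Tendsto (fun l : ℕ => (l : ℝ) * η) atTop atTop :=
    tendsto_natCast_atTop_atTop.atTop_mul_const hη
  have hlc : ∀ c : ℕ, Tendsto (fun l : ℕ => ((l : ℝ) + c) * η) atTop atTop := fun c =>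
    (tendsto_atTop_add_const_right _ _ tendsto_natCast_atTop_atTop).atTop_mul_const hη
  -- elements
  have hmem : ∀ l, ∀ p ∈ univ.biUnion (T l), (p.Prime ∧ p ∈ S) ∧ (l : ℝ) * η < vv 2 S p ∧
      vv 2 S p ≤ ((l : ℝ) + Y) * η := by
    intro l p hp
    rw [mem_biUnion] at hp
    obtain ⟨j, _, hj⟩ := hp
    rw [hT] at hj
    simp only at hj
    rw [mem_SW hv] at hj
    obtain ⟨h1, h2, h3⟩ := hj
    have h4 : (0 : ℝ) ≤ lo j := Nat.cast_nonneg _
    have h5 : (hi j : ℝ) ≤ Y := by exact_mod_cast hYj j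
    refine ⟨h1, ?_, ?_⟩
    · refine lt_of_le_of_lt ?_ h2
      nlinarith
    · refine h3.trans ?_
      nlinarith
  have hTdis : ∀ l i j, i ≠ j → Disjoint (T l i) (T l j) := by
    intro l i j hij
    rw [Finset.disjoint_left]
    intro p h1 h2
    rw [hT] at h1 h2
    simp only at h1 h2
    rw [mem_SW hv] at h1 h2
    rcases hdis i j hij with h | h
    · have h3 : (hi i : ℝ) ≤ lo j := by exact_mod_cast h
      have h4 : ((l : ℝ) + hi i) * η ≤ ((l : ℝ) + lo j) * η := by nlinarith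
      linarith [h1.2.2, h2.2.1]
    · have h3 : (hi j : ℝ) ≤ lo i := by exact_mod_cast h
      have h4 : ((l : ℝ) + hi j) * η ≤ ((l : ℝ) + lo i) * η := by nlinarith
      linarith [h2.2.2, h1.2.1]
  have hIJp : ∀ l, ∀ p ∈ univ.biUnion (T l), 2 ^ I l < p ∧ p ≤ 2 ^ J l := by
    intro l p hp
    obtain ⟨_, h2, h3⟩ := hmem l p hp
    have h4 : NN 2 S ((l : ℝ) * η) ≤ p := (NN_le hv).2 h2
    have h5 : p < NN 2 S (((l : ℝ) + Y) * η) := (lt_NN hv).2 h3
    have h6 := NN_pos hv (hl0 l)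
    constructor
    · have := Nat.pow_log_le_self 2 (show NN 2 S ((l : ℝ) * η) - 1 ≠ 0 by omega)
      simp only [hI]
      omega
    · have := Nat.lt_pow_succ_log_self (b := 2) (by norm_num) (NN 2 S (((l : ℝ) + Y) * η))
      simp only [hJ]
      rw [Nat.succ_eq_add_one] at this
      omega
  have hIJ : ∀ l, I l ≤ J l := by
    intro l
    have h1 := NN_mono hv (hl1 l)
    have h2 : Nat.log 2 (NN 2 S ((l : ℝ) * η) - 1) ≤ Nat.log 2 (NN 2 S (((l : ℝ) + Y) * η)) :=
      Nat.log_mono_right (by omega)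
    simp only [hI, hJ]
    omega
  have hIt : Tendsto I atTop atTop := by
    rw [tendsto_atTop]
    intro m
    filter_upwards [((NN_tendsto hv).comp hlt).eventually_ge_atTop (2 ^ m + 1)] with l hl
    simp only [Function.comp] at hl
    simp only [hI]
    refine Nat.le_log_of_pow_le (by norm_num) ?_
    omega
  -- gap
  obtain ⟨n1, hn1⟩ : ∃ n1, ∀ n ≥ n1, vv 2 S (2 ^ (k1 + 3) * n) ≤ vv 2 S n + 1 := by
    have h1 := (dyadic hD (k1 + 3)).const_mul (kap 2)
    rw [mul_zero] at h1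
    obtain ⟨n1, hn1⟩ := eventually_atTop.1 (h1.eventually_le_const (show (0 : ℝ) < 1 by norm_num))
    refine ⟨n1, fun n hn => ?_⟩
    have := hn1 n hn
    unfold vv
    linarith
  obtain ⟨l1, hl1'⟩ := eventually_atTop.1 (((NN_tendsto hv).comp (hlc Y)).eventually_ge_atTop (n1 + 1))
  have hgap : ∀ l ≥ l1, ∀ l', l + R ≤ l' → J l + k1 ≤ I l' + 1 := by
    intro l hl l' hll
    have h1 := hl1' l hl
    simp only [Function.comp] at h1
    set X := NN 2 S (((l : ℝ) + Y) * η) with hX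
    have hX2 : 1 < X := NN_pos hv ((hl0 l).trans (hl1 l))
    have h2 : vv 2 S (X - 1) ≤ ((l : ℝ) + Y) * η := by
      rw [← lt_NN hv]; omega
    have h3 : vv 2 S (2 ^ (k1 + 2) * X) ≤ (l' : ℝ) * η := by
      calc vv 2 S (2 ^ (k1 + 2) * X) ≤ vv 2 S (2 ^ (k1 + 3) * (X - 1)) := by
            refine vv_mono 2 S ?_
            have : 2 ^ (k1 + 3) * (X - 1) = 2 ^ (k1 + 2) * (2 * (X - 1)) := by ring
            rw [this]
            exact Nat.mul_le_mul_left _ (by omega)
        _ ≤ vv 2 S (X - 1) + 1 := hn1 _ (by omega)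
        _ ≤ ((l : ℝ) + Y) * η + 1 := by linarith
        _ ≤ ((l : ℝ) + R) * η := by linarith
        _ ≤ (l' : ℝ) * η := by
            have : (l : ℝ) + R ≤ l' := by exact_mod_cast hll
            nlinarith
    rw [← lt_NN hv] at h3
    simp only [hI, hJ]
    have h4 : k1 + 2 + Nat.log 2 X ≤ Nat.log 2 (NN 2 S ((l' : ℝ) * η) - 1) := by
      refine Nat.le_log_of_pow_le (by norm_num) ?_
      have h5 := Nat.pow_log_le_self 2 (show X ≠ 0 by omega)
      calc 2 ^ (k1 + 2 + Nat.log 2 X) = 2 ^ (k1 + 2) * 2 ^ Nat.log 2 X := pow_add _ _ _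
        _ ≤ 2 ^ (k1 + 2) * X := Nat.mul_le_mul_left _ h5
        _ ≤ _ := by omega
    have h6 : Nat.log 2 (NN 2 S (((l : ℝ) + Y) * η)) = Nat.log 2 X := rfl
    omega
  -- dyadic weights
  set g : ℕ → ℝ := fun i => VS S (2 ^ (i + 1)) - VS S (2 ^ (i + 1 - k1)) with hg
  have hg0 : ∀ i, 0 ≤ g i := fun i => by
    have := VS_mono S (Nat.pow_le_pow_right (show 0 < 2 by norm_num) (show i + 1 - k1 ≤ i + 1 by omega))
    simp only [hg]
    linarith
  have hgt : Tendsto g atTop (𝓝 0) := by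
    have h1 : Tendsto (fun i : ℕ => 2 ^ (i + 1 - k1)) atTop atTop := by
      refine (tendsto_pow_atTop_atTop_of_one_lt (show 1 < 2 by norm_num)).comp ?_
      exact tendsto_atTop.2 fun m => by
        filter_upwards [eventually_ge_atTop (m + k1)] with i hi
        omega
    refine ((dyadic hD k1).comp h1).congr' ?_
    filter_upwards [eventually_ge_atTop k1] with i hi
    simp only [Function.comp, hg]
    have e : k1 + (i + 1 - k1) = i + 1 := by omega
    rw [← pow_add, e]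
  have hgb : BddAbove (Set.range g) := hgt.bddAbove_range
  set δ : ℕ → ℝ := fun l => sSup (Set.range fun i => g (I l + i)) with hδ
  have hbdd : ∀ l, BddAbove (Set.range fun i => g (I l + i)) := by
    intro l
    obtain ⟨c, hc⟩ := hgb
    refine ⟨c, ?_⟩
    rintro _ ⟨i, rfl⟩
    exact hc ⟨I l + i, rfl⟩
  have hδg : ∀ l i, I l ≤ i → g i ≤ δ l := by
    intro l i hi
    have h1 := le_csSup (hbdd l) (Set.mem_range_self (i - I l))
    have e : I l + (i - I l) = i := by omega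
    rw [e] at h1
    exact h1
  have hδ0 : ∀ l, 0 ≤ δ l := fun l => (hg0 _).trans (hδg l (I l) le_rfl)
  have hδt : Tendsto δ atTop (𝓝 0) := by
    refine tendsto_zero_of_forall hδ0 fun ε hε => ?_
    obtain ⟨i1, hi1⟩ := eventually_atTop.1 (hgt.eventually_le_const hε)
    filter_upwards [hIt.eventually_ge_atTop i1] with l hl
    refine csSup_le (Set.range_nonempty _) ?_
    rintro _ ⟨i, rfl⟩
    exact hi1 _ (by omega)
  have hblock : ∀ l i, I l ≤ i → i < J l →
      VT ((univ.biUnion (T l)).filter (fun p => 2 ^ (i + 1 - k1) < p ∧ p ≤ 2 ^ (i + 1))) ≤ δ l := by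
    intro l i hi _
    refine le_trans ?_ (hδg l i hi)
    refine VT_le (Nat.pow_le_pow_right (by norm_num) (by omega)) fun p hp => ?_
    rw [mem_filter] at hp
    obtain ⟨⟨h1, h2⟩, _⟩ := hmem l p hp.1
    exact ⟨h1, h2, hp.2.1, hp.2.2⟩
  -- weights of the windows
  have hlam : ∀ j, Tendsto (fun l => kp a * VT (T l j)) atTop (𝓝 (((hi j : ℝ) - lo j) * (kp a / kap 2 * η))) := by
    intro j
    have h1 := ((vv_NN_tendsto hv).comp (hlc (hi j))).sub ((vv_NN_tendsto hv).comp (hlc (lo j)))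
    have h2 := (h1.add_const (((hi j : ℝ) - lo j) * η)).const_mul (kp a / kap 2)
    rw [sub_zero, zero_add] at h2
    have e3 : kp a / kap 2 * (((hi j : ℝ) - lo j) * η) = ((hi j : ℝ) - lo j) * (kp a / kap 2 * η) := by ring
    rw [e3] at h2
    refine h2.congr fun l => ?_
    simp only [Function.comp, hT]
    have hlh' : (lo j : ℝ) ≤ hi j := by exact_mod_cast hlh j
    have h4 := VT_SW hv (a := ((l : ℝ) + lo j) * η) (c := ((l : ℝ) + hi j) * η) (by positivity) (by nlinarith)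
    have h5 : kp a * VT (SW 2 S (((l : ℝ) + lo j) * η) (((l : ℝ) + hi j) * η)) =
        kp a / kap 2 * (kap 2 * VT (SW 2 S (((l : ℝ) + lo j) * η) (((l : ℝ) + hi j) * η))) := by
      field_simp
    rw [h5, h4]
    ring
  -- close pairs
  have hρ0 := rh_pos b κ
  have hCP0 : ∀ T : Finset ℕ, 0 ≤ CR (rh b κ) T := fun T => CR_nonneg hρ0.le T
  have hCP : Tendsto (fun L : ℕ => (∑ l ∈ range L, CR (rh b κ) (univ.biUnion (T (l + l1)))) / L) atTop (𝓝 0) := by
    refine tendsto_zero_of_forall (fun L => div_nonneg (Finset.sum_nonneg fun l _ => hCP0 _)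
      (Nat.cast_nonneg _)) fun ε hε => ?_
    set c : ℝ := (R : ℝ) * ((1 + l1 + Y) * η / kap 2) + 1 with hc
    have hc0 : 0 < c := by positivity
    have h1 := CR_small (rh_pos b κ) h.rh_lt hS hP (show 0 < ε / c by positivity)
    obtain ⟨n2, hn2⟩ := eventually_atTop.1 h1
    have h2 := ((NN_tendsto hv).comp hlt).eventually_ge_atTop (n2 + 1)
    filter_upwards [h2, eventually_ge_atTop 1] with L hL hL1
    simp only [Function.comp] at hL
    have hLr : (1 : ℝ) ≤ L := by exact_mod_cast hL1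
    set X := NN 2 S (((L + l1 : ℕ) + (Y : ℝ)) * η) with hX
    have hLX : NN 2 S ((L : ℝ) * η) ≤ X := by
      refine NN_mono hv ?_
      push_cast
      have h3 : (0 : ℝ) ≤ l1 := Nat.cast_nonneg _
      have h4 : (0 : ℝ) ≤ Y := Nat.cast_nonneg _
      nlinarith
    set V : Finset ℕ := (range X).filter (fun p => p.Prime ∧ p ∈ S) with hV
    have hVm : ∀ p ∈ V, p.Prime ∧ p ∈ S ∧ p ≤ X - 1 := by
      intro p hp
      rw [hV, mem_filter, mem_range] at hp
      exact ⟨hp.2.1, hp.2.2, by omega⟩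
    have hUV : ∀ l < L, univ.biUnion (T (l + l1)) ⊆ V := by
      intro l hl p hp
      obtain ⟨⟨h3, h4⟩, _, h5⟩ := hmem _ p hp
      rw [hV, mem_filter, mem_range]
      refine ⟨?_, h3, h4⟩
      rw [hX, lt_NN hv]
      refine h5.trans ?_
      push_cast
      have : (l : ℝ) ≤ L := by exact_mod_cast hl.le
      nlinarith
    have hdisU : ∀ l l', l + R ≤ l' → Disjoint (univ.biUnion (T (l + l1))) (univ.biUnion (T (l' + l1))) := by
      intro l l' h
      rw [Finset.disjoint_left]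
      intro p h1 h2
      have h3 := (hIJp _ p h1).2
      have h4 := (hIJp _ p h2).1
      have h5 := hgap (l + l1) (by omega) (l' + l1) (by omega)
      have h6 : 2 ^ J (l + l1) ≤ 2 ^ I (l' + l1) := Nat.pow_le_pow_right (by norm_num) (by omega)
      omega
    have h3 : ∑ l ∈ range L, CR (rh b κ) (univ.biUnion (T (l + l1))) ≤ R * CR (rh b κ) V := by
      have h4 : ∀ l ∈ range L, CR (rh b κ) (univ.biUnion (T (l + l1))) ≤
          ∑ q ∈ univ.biUnion (T (l + l1)), ∑ p ∈ V.filter (fun p => p < q),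
            Real.log p / p * rh b κ ^ (q - p) := by
        intro l hl
        unfold CR
        refine Finset.sum_le_sum fun q _ => ?_
        refine Finset.sum_le_sum_of_subset_of_nonneg ?_ fun p _ _ => mul_nonneg (w_nonneg p) (by positivity)
        exact Finset.filter_subset_filter _ (hUV l (mem_range.1 hl))
      refine (Finset.sum_le_sum h4).trans ?_
      exact sum_mult (fun l => univ.biUnion (T (l + l1))) R hdisU
        (fun q => ∑ p ∈ V.filter (fun p => p < q), Real.log p / p * rh b κ ^ (q - p))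
        (fun q => Finset.sum_nonneg fun p _ => mul_nonneg (w_nonneg p) (by positivity)) L V hUV
    have h5 : CR (rh b κ) V ≤ ε / c * VS S (X - 1) := hn2 (X - 1) (by omega) V hVm
    have h6 : VS S (X - 1) ≤ ((1 + l1 + Y) * η / kap 2) * L := by
      have h7 : vv 2 S (X - 1) ≤ (((L + l1 : ℕ) : ℝ) + Y) * η := by
        rw [← lt_NN hv]
        have := NN_pos hv (hl0 L)
        omega
      unfold vv at h7
      rw [div_mul_eq_mul_div, le_div_iff₀ hκ0]
      push_cast at h7
      have h8 : ((L : ℝ) + l1 + Y) * η ≤ (1 + l1 + Y) * η * L := by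
        have h9 : (0 : ℝ) ≤ l1 := Nat.cast_nonneg _
        have h10 : (0 : ℝ) ≤ Y := Nat.cast_nonneg _
        have h11 : (L : ℝ) + l1 + Y ≤ (1 + l1 + Y) * L := by nlinarith
        calc ((L : ℝ) + l1 + Y) * η ≤ ((1 + l1 + Y) * L) * η := mul_le_mul_of_nonneg_right h11 hη.le
          _ = _ := by ring
      linarith
    rw [div_le_iff₀ (by linarith)]
    have h12 : 0 ≤ ε / c := by positivity
    calc _ ≤ R * CR (rh b κ) V := h3
      _ ≤ R * (ε / c * (((1 + l1 + Y) * η / kap 2) * L)) := by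
          refine mul_le_mul_of_nonneg_left ?_ (Nat.cast_nonneg _)
          exact h5.trans (mul_le_mul_of_nonneg_left h6 h12)
      _ = ε / c * L * (R * ((1 + l1 + Y) * η / kap 2)) := by ring
      _ ≤ ε / c * L * c := by
          refine mul_le_mul_of_nonneg_left ?_ (by positivity)
          rw [hc]; linarith
      _ = ε * L := by field_simp
  -- application
  have hadd : Tendsto (fun l : ℕ => l + l1) atTop atTop := tendsto_add_atTop_nat l1
  have hfin := harr ι (fun l => T (l + l1)) (fun l => I (l + l1)) (fun l => J (l + l1)) R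
      (fun l => δ (l + l1)) (fun j => ((hi j : ℝ) - lo j) * (kp a / kap 2 * η)) (fun l => hTdis _) (fun l => hIJp _)
      (fun l => hIJ _) (hIt.comp hadd) (fun l l' h => hgap _ (by omega) _ (by omega))
      (fun l => hδ0 _) (hδt.comp hadd) (fun l => hblock _) (fun j => (hlam j).comp hadd) hCP k
  filter_upwards [hfin] with t ht
  exact cesaro_shift (fun l => pt b κ AA (T l) k t) l1 ht

end Pool.Agent.H32x.AB
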