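import Mathlib
import Pool.Agent.H32x.AB.Sq
import Pool.Agent.H32x.AB.Win2

set_option autoImplicit false

/-!
# Two sequences with the same random digits: second moments of the counts
-/

namespace Pool.Agent.H32x.AB

open Finset Filter Topology MeasureTheory
open Pool.Agent.H305R2 (roughPart)
open Pool.Agent.N176.OW (kap VT VS VS_mono VS_nonneg VT_nonneg)
open Pool.Agent.H32x.PL
open Pool.Agent.H39x.LP

variable {b : ℕ} {κ a c₁ : ℝ} {AA : ℕ → ℕ → ℕ}

lemma cm00 (b : ℕ) : cm b 0 0 = volume.restrict (Set.Ico (0 : ℝ) 1) := by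
  unfold cm cell
  simp

lemma CR_le {ρ : ℝ} (hρ : 0 < ρ) (hρ1 : ρ < 1) (V : Finset ℕ) : CR ρ V ≤ (1 - ρ)⁻¹ * VT V := by
  classical
  have h1 : CR ρ V = ∑ p ∈ V, Real.log p / p * ∑ q ∈ V.filter (fun q => p < q), ρ ^ (q - p) := by
    unfold CR
    have e1 : ∀ q ∈ V, ∑ p ∈ V.filter (fun p => p < q), Real.log p / p * ρ ^ (q - p) =
        ∑ p ∈ V, if p < q then Real.log p / p * ρ ^ (q - p) else 0 := fun q _ => by
      rw [Finset.sum_filter]
    rw [Finset.sum_congr rfl e1, Finset.sum_comm]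
    refine Finset.sum_congr rfl fun p _ => ?_
    rw [Finset.sum_filter, Finset.mul_sum]
    refine Finset.sum_congr rfl fun q _ => ?_
    split_ifs
    · ring
    · ring
  rw [h1]
  unfold VT
  rw [Finset.mul_sum]
  refine Finset.sum_le_sum fun p _ => ?_
  rw [mul_comm]
  refine mul_le_mul_of_nonneg_right ?_ (w_nonneg p)
  have hinj : Set.InjOn (fun q => q - p) (V.filter (fun q => p < q) : Set ℕ) := by
    intro x hx y hy hxy
    rw [Finset.mem_coe, mem_filter] at hx hy
    have : x - p = y - p := hxy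
    omega
  calc ∑ q ∈ V.filter (fun q => p < q), ρ ^ (q - p) =
        ∑ u ∈ (V.filter (fun q => p < q)).image (fun q => q - p), ρ ^ u := by
        rw [Finset.sum_image hinj]
    _ ≤ ∑' u : ℕ, ρ ^ u := (summable_geometric_of_lt_one hρ.le hρ1).sum_le_tsum _ (fun _ _ => by positivity)
    _ = (1 - ρ)⁻¹ := tsum_geometric_of_lt_one hρ.le hρ1

lemma hq_sum (b : ℕ) (κ : ℝ) (A : ℕ → ℕ) (T : Finset ℕ) (t : ℝ) :
    (hq b κ A T t : ℝ) = ∑ q ∈ T, fq b κ A q t := by
  classical
  unfold hq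
  rw [Finset.card_filter]
  push_cast
  refine Finset.sum_congr rfl fun q _ => ?_
  have := ph_or A q ⌊t * ((b ^ ex κ q : ℕ) : ℝ)⌋₊
  unfold fq
  rcases this with h | h
  · rw [h, if_neg (by norm_num)]
  · rw [h, if_pos rfl]

lemma ff_two (b : ℕ) (κ : ℝ) (AA : ℕ → ℕ → ℕ) {j : ℕ} (hj : j < 2) (q : ℕ) (t : ℝ) :
    ff b κ AA (2 * q + j) t = fq b κ (AA j) q t := by
  unfold ff
  have e1 : (2 * q + j) % 2 = j := by omega
  have e2 : (2 * q + j) / 2 = q := by omega
  rw [e1, e2]

lemma ws_two {j : ℕ} (hj : j < 2) (q : ℕ) : ws sz (2 * q + j) = Real.log q / q := by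
  unfold ws
  rw [sz_two hj]

lemma fq_integrable (b : ℕ) (κ : ℝ) (A : ℕ → ℕ) (q : ℕ) {μ : Measure ℝ} [IsFiniteMeasure μ] :
    Integrable (fq b κ A q) μ := by
  refine Integrable.of_bound (C := 1) (measurable_fq b κ A q).aestronglyMeasurable
    (Filter.Eventually.of_forall fun t => ?_)
  unfold fq
  rcases ph_or A q ⌊t * ((b ^ ex κ q : ℕ) : ℝ)⌋₊ with h | h <;> rw [h] <;> simp

lemma fq_nonneg' (b : ℕ) (κ : ℝ) (A : ℕ → ℕ) (q : ℕ) (t : ℝ) : 0 ≤ fq b κ A q t := by
  unfold fq; exact ph_nonneg _ _ _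

lemma fq_le_one' (b : ℕ) (κ : ℝ) (A : ℕ → ℕ) (q : ℕ) (t : ℝ) : fq b κ A q t ≤ 1 := by
  unfold fq; exact ph_le_one _ _ _

lemma fqfq_integrable (b : ℕ) (κ : ℝ) (A : ℕ → ℕ) (p q : ℕ) {μ : Measure ℝ} [IsFiniteMeasure μ] :
    Integrable (fun t => fq b κ A p t * fq b κ A q t) μ := by
  refine Integrable.of_bound (C := 1) ((measurable_fq b κ A p).mul (measurable_fq b κ A q)).aestronglyMeasurable
    (Filter.Eventually.of_forall fun t => ?_)
  rw [Real.norm_eq_abs, abs_of_nonneg (mul_nonneg (fq_nonneg' _ _ _ _ _) (fq_nonneg' _ _ _ _ _))]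
  exact mul_le_one₀ (fq_le_one' _ _ _ _ _) (fq_nonneg' _ _ _ _ _) (fq_le_one' _ _ _ _ _)

/-- all pairs -/
theorem Two.pairAll (h : Two b κ a c₁ AA) : ∃ C : ℝ, 0 < C ∧ ∃ P : ℕ, ∀ j < 2, ∀ p, P ≤ p →
    (∫ t in Set.Ico (0 : ℝ) 1, fq b κ (AA j) p t ≤ C * (Real.log p / p)) ∧ ∀ q, p < q →
    ∫ t in Set.Ico (0 : ℝ) 1, fq b κ (AA j) p t * fq b κ (AA j) q t ≤
      C * (Real.log p / p * (Real.log q / q) + Real.log p / p * rh b κ ^ (q - p)) := by
  have hb := h.hb
  have hb0 : 0 < b := by omega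
  have hκ0 := h.κ0
  have hρ := rh_pos b κ
  obtain ⟨K, C, hK, hC, k1, hk1, P, hall⟩ := h.unif
  have hone : ∀ j < 2, ∀ z i : ℕ, i < b ^ z → ∀ q, P ≤ q → (z : ℝ) * 2 ^ (k1 - 1) ≤ κ * q →
      ∫ t, fq b κ (AA j) q t ∂(cm b z i) ≤ C * (Real.log q / q) := by
    intro j hj z i hi q hq hz
    have h1 := (hall z i hi).1 (2 * q + j) (by rw [sz_two hj]; exact hq) (by rw [sz_two hj]; exact hz)
    simp only [ff_two b κ AA hj, ws_two hj] at h1
    exact h1
  refine ⟨C + C * C, by positivity, P, fun j hj p hp => ⟨?_, fun q hpq => ?_⟩⟩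
  · have h1 := hone j hj 0 0 (by simp) p hp (by simp; positivity)
    rw [cm00] at h1
    refine h1.trans ?_
    have := w_nonneg p
    nlinarith [mul_nonneg (mul_nonneg hC.le hC.le) this]
  have hwp := w_nonneg p
  have hwq := w_nonneg q
  have hρn : 0 ≤ rh b κ ^ (q - p) := by positivity
  have hf1 := hone j hj 0 0 (by simp) p hp (by simp; positivity)
  rw [cm00] at hf1
  rcases Nat.lt_or_ge (2 ^ k1 * p) q with hfar | hnear
  · -- distant
    set z := ex κ p with hz
    set E := ex κ q with hE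
    have hzE : z ≤ E := ex_mono hκ0 hpq.le
    have hzκ : (z : ℝ) * 2 ^ (k1 - 1) ≤ κ * q := by
      have h1 := (ex_bounds hκ0 p).2
      have h2 : ((2 ^ (k1 - 1) * p : ℕ) : ℝ) ≤ q := by
        have h3 : 2 ^ (k1 - 1) * p ≤ 2 ^ k1 * p := Nat.mul_le_mul_right _ (Nat.pow_le_pow_right (by norm_num) (by omega))
        exact_mod_cast (by omega : 2 ^ (k1 - 1) * p ≤ q)
      push_cast at h2
      calc (z : ℝ) * 2 ^ (k1 - 1) ≤ κ * p * 2 ^ (k1 - 1) := mul_le_mul_of_nonneg_right h1 (by positivity)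
        _ = κ * (2 ^ (k1 - 1) * p) := by ring
        _ ≤ κ * q := mul_le_mul_of_nonneg_left h2 hκ0.le
    set n := b ^ (E - z) with hn
    have hn0' : 0 < n := by rw [hn]; positivity
    have hn0 : (0 : ℝ) < n := by exact_mod_cast hn0'
    have hbE : b ^ E = b ^ z * n := by rw [hn, ← pow_add]; congr 1; omega
    have hcell : ∀ c < b ^ z, ∑ i ∈ range n, ph (AA j) q (n * c + i) ≤ C * (Real.log q / q) * n := by
      intro c hc
      have h1 := hone j hj z c hc q (by omega) hzκ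
      have h2 := int_cm_one hb0 hc hzE (ph (AA j) q)
      have h3 : ∫ t, fq b κ (AA j) q t ∂(cm b z c) = ∫ t, ph (AA j) q ⌊t * ((b ^ E : ℕ) : ℝ)⌋₊ ∂(cm b z c) := rfl
      rw [h3, h2, ← hn, div_le_iff₀ hn0] at h1
      exact h1
    have e1 : ∫ t in Set.Ico (0 : ℝ) 1, fq b κ (AA j) p t * fq b κ (AA j) q t =
        (∑ k ∈ range (b ^ z), ph (AA j) p k * ∑ i ∈ range n, ph (AA j) q (n * k + i)) /
          ((b ^ z * n : ℕ) : ℝ) := by
      rw [← int_twoR (ph (AA j) p) (ph (AA j) q) (m := b ^ z) (n := n) (by positivity) hn0']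
      unfold fq
      rw [← hbE]
    have e2 : ∫ t in Set.Ico (0 : ℝ) 1, fq b κ (AA j) p t = (∑ k ∈ range (b ^ z), ph (AA j) p k) / ((b ^ z : ℕ) : ℝ) := by
      have h1 := int_cm_one (z := 0) (i := 0) (E := z) hb0 (by simp) (Nat.zero_le _) (ph (AA j) p)
      rw [cm00, Nat.sub_zero] at h1
      simp only [mul_zero, zero_add] at h1
      exact h1
    have hbz : (0 : ℝ) < ((b ^ z : ℕ) : ℝ) := by positivity
    have h4 : ∫ t in Set.Ico (0 : ℝ) 1, fq b κ (AA j) p t * fq b κ (AA j) q t ≤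
        C * (Real.log q / q) * ∫ t in Set.Ico (0 : ℝ) 1, fq b κ (AA j) p t := by
      rw [e1, e2, div_le_iff₀ (by push_cast at hbz ⊢; positivity)]
      calc ∑ k ∈ range (b ^ z), ph (AA j) p k * ∑ i ∈ range n, ph (AA j) q (n * k + i) ≤
            ∑ k ∈ range (b ^ z), ph (AA j) p k * (C * (Real.log q / q) * n) :=
            Finset.sum_le_sum fun k hk => mul_le_mul_of_nonneg_left (hcell k (mem_range.1 hk)) (ph_nonneg _ _ _)
        _ = _ := by
            rw [← Finset.sum_mul]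
            push_cast
            push_cast at hbz
            field_simp
    calc _ ≤ C * (Real.log q / q) * ∫ t in Set.Ico (0 : ℝ) 1, fq b κ (AA j) p t := h4
      _ ≤ C * (Real.log q / q) * (C * (Real.log p / p)) := mul_le_mul_of_nonneg_left hf1 (by positivity)
      _ = C * C * (Real.log p / p * (Real.log q / q)) := by ring
      _ ≤ (C + C * C) * (Real.log p / p * (Real.log q / q)) :=
          mul_le_mul_of_nonneg_right (by linarith) (by positivity)
      _ ≤ _ := mul_le_mul_of_nonneg_left (by have := mul_nonneg hwp hρn; linarith) (by positivity)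
  · -- near
    have h1 := (hall 0 0 (by simp)).2.1 (2 * p + j) (2 * q + j) (by rw [sz_two hj]; exact hp)
      (by simp; positivity) (by omega) (by rw [sz_two hj, sz_two hj]; exact hnear)
    rw [cm00] at h1
    simp only [ff_two b κ AA hj, ws_two hj] at h1
    have e3 : cpr (rh b κ) (2 * p + j) (2 * q + j) = Real.log p / p * rh b κ ^ (q - p) := by
      unfold cpr
      rw [sz_two hj, sz_two hj, if_pos hpq, ws_two hj]
    rw [e3] at h1
    refine h1.trans (mul_le_mul_of_nonneg_right ?_ ?_)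
    · nlinarith [mul_nonneg hC.le hC.le]
    · have := mul_nonneg hwp hρn
      have := mul_nonneg hwp hwq
      linarith

/-- the second moment of the counts -/
theorem Two.second (h : Two b κ a c₁ AA) : ∃ C : ℝ, 0 < C ∧ ∃ P : ℕ, ∀ j < 2, ∀ T : Finset ℕ,
    (∀ p ∈ T, P ≤ p) → ∫ t in Set.Ico (0 : ℝ) 1, (hq b κ (AA j) T t : ℝ) * hq b κ (AA j) T t ≤
      C * (VT T + VT T * VT T) := by
  obtain ⟨C, hC, P, hall⟩ := h.pairAll
  have hρ := rh_pos b κ
  have hρ1 := h.rh_lt
  have h1ρ : 0 < (1 - rh b κ)⁻¹ := inv_pos.2 (by linarith)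
  haveI : IsFiniteMeasure (volume.restrict (Set.Ico (0 : ℝ) 1)) := ⟨by simp⟩
  refine ⟨C + 2 * C * (1 - rh b κ)⁻¹, by positivity, P, fun j hj T hT => ?_⟩
  have hV := VT_nonneg T
  set B : ℕ → ℕ → ℝ := fun p q => C * (if p = q then Real.log p / p else 0) +
    C * (Real.log p / p * (Real.log q / q)) + C * (if p < q then Real.log p / p * rh b κ ^ (q - p) else 0) +
    C * (if q < p then Real.log q / q * rh b κ ^ (p - q) else 0) with hB
  have hpq : ∀ p ∈ T, ∀ q ∈ T, ∫ t in Set.Ico (0 : ℝ) 1, fq b κ (AA j) p t * fq b κ (AA j) q t ≤ B p q := by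
    intro p hp q hq
    have hwp := w_nonneg p
    have hwq := w_nonneg q
    have hww := mul_nonneg hC.le (mul_nonneg hwp hwq)
    simp only [hB]
    rcases Nat.lt_trichotomy p q with h1 | h1 | h1
    · rw [if_neg (by omega), if_pos h1, if_neg (by omega)]
      refine ((hall j hj p (hT p hp)).2 q h1).trans (le_of_eq ?_)
      ring
    · subst h1
      rw [if_pos rfl, if_neg (by omega)]
      have e : ∀ t, fq b κ (AA j) p t * fq b κ (AA j) p t = fq b κ (AA j) p t := by
        intro t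
        unfold fq
        rcases ph_or (AA j) p ⌊t * ((b ^ ex κ p : ℕ) : ℝ)⌋₊ with h | h <;> rw [h] <;> norm_num
      simp only [e]
      have := (hall j hj p (hT p hp)).1
      linarith
    · rw [if_neg (by omega), if_neg (by omega), if_pos h1]
      have e : ∀ t, fq b κ (AA j) p t * fq b κ (AA j) q t = fq b κ (AA j) q t * fq b κ (AA j) p t :=
        fun t => mul_comm _ _
      simp only [e]
      refine ((hall j hj q (hT q hq)).2 p h1).trans (le_of_eq ?_)
      ring
  have e1 : ∫ t in Set.Ico (0 : ℝ) 1, (hq b κ (AA j) T t : ℝ) * hq b κ (AA j) T t =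
      ∑ p ∈ T, ∑ q ∈ T, ∫ t in Set.Ico (0 : ℝ) 1, fq b κ (AA j) p t * fq b κ (AA j) q t := by
    simp only [hq_sum, Finset.sum_mul_sum]
    rw [integral_finsetSum _ fun p _ => integrable_finsetSum _ fun q _ => fqfq_integrable b κ _ p q]
    refine Finset.sum_congr rfl fun p _ => ?_
    rw [integral_finsetSum _ fun q _ => fqfq_integrable b κ _ p q]
  rw [e1]
  refine (Finset.sum_le_sum fun p hp => Finset.sum_le_sum fun q hq => hpq p hp q hq).trans ?_
  have e2 : ∑ p ∈ T, ∑ q ∈ T, B p q = C * VT T + C * (VT T * VT T) + C * CR (rh b κ) T + C * CR (rh b κ) T := by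
    simp only [hB, Finset.sum_add_distrib, ← Finset.mul_sum]
    congr 1
    · congr 1
      · congr 1
        · congr 1
          unfold VT
          refine Finset.sum_congr rfl fun p hp => ?_
          rw [Finset.sum_ite_eq]
          simp [hp]
        · congr 1
          unfold VT
          rw [Finset.sum_mul]
      · congr 1
        rw [Finset.sum_comm]
        unfold CR
        refine Finset.sum_congr rfl fun q _ => ?_
        rw [Finset.sum_filter]
    · congr 1
      unfold CR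
      refine Finset.sum_congr rfl fun q _ => ?_
      rw [Finset.sum_filter]
  rw [e2]
  have h5 := mul_le_mul_of_nonneg_left (CR_le hρ hρ1 T) hC.le
  have h6 : 0 ≤ 2 * C * (1 - rh b κ)⁻¹ * (VT T * VT T) := by positivity
  nlinarith

end Pool.Agent.H32x.AB
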