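import Mathlib
import Pool.Agent.H32x.AB.Sec
import Pool.Agent.H32x.AB.Race

set_option autoImplicit false

/-!
# Two sequences with the same random digits: the law of large numbers along a set of exponents
-/

namespace Pool.Agent.H32x.AB

open Finset Filter Topology MeasureTheory
open Pool.Agent.H305R2 (roughPart)
open Pool.Agent.N176.OW (kap VT VS VS_mono VS_nonneg VT_nonneg)
open Pool.Agent.H32x.PL
open Pool.Agent.H39x.LP

variable {b : ℕ} {κ a c₁ : ℝ} {AA : ℕ → ℕ → ℕ}

theorem Two.lln (h : Two b κ a c₁ AA) {S : Set ℕ}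
    (hS : Tendsto (fun n => VS S n) atTop atTop)
    (hD : Tendsto (fun n : ℕ => VS S (2 * n) - VS S n) atTop (𝓝 0)) {j : ℕ} (hj : j < 2) :
    ∀ᵐ t ∂(volume.restrict (Set.Ico (0 : ℝ) 1)), Tendsto (fun L : ℕ => (∑ l ∈ range L,
      (hq b κ (AA j) (SW 2 S (l : ℝ) ((l : ℝ) + 1)) t : ℝ)) / L) atTop (𝓝 (kp a / kap 2)) := by
  classical
  have hb := h.hb
  have hb0 : 0 < b := by omega
  have hκ0 := h.κ0
  have hkp := h.kp0
  have hv := vv_tendsto (b := 2) le_rfl hS
  have hk2 := kap_pos (b := 2) le_rfl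
  haveI : IsFiniteMeasure (volume.restrict (Set.Ico (0 : ℝ) 1)) := ⟨by simp⟩
  obtain ⟨K, C, hK, hC, k1, hk1, P, hall⟩ := h.unif
  obtain ⟨C2, hC2, P2, hsec⟩ := h.second
  set T : ℕ → Finset ℕ := fun l => SW 2 S (l : ℝ) ((l : ℝ) + 1) with hT
  set I : ℕ → ℕ := fun l => Nat.log 2 (NN 2 S (l : ℝ) - 1) with hI
  set J : ℕ → ℕ := fun l => Nat.log 2 (NN 2 S ((l : ℝ) + 1)) + 1 with hJ
  have hl0' : ∀ l : ℕ, (0 : ℝ) ≤ (l : ℝ) := fun l => Nat.cast_nonneg l
  have hlt : Tendsto (fun l : ℕ => (l : ℝ)) atTop atTop := tendsto_natCast_atTop_atTop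
  have hlt1 : Tendsto (fun l : ℕ => (l : ℝ) + 1) atTop atTop := tendsto_atTop_add_const_right _ _ hlt
  have hmem : ∀ l, ∀ p ∈ T l, (p.Prime ∧ p ∈ S) ∧ (l : ℝ) < vv 2 S p ∧ vv 2 S p ≤ (l : ℝ) + 1 := by
    intro l p hp
    exact (mem_SW hv).1 hp
  have hIJp : ∀ l, ∀ p ∈ T l, 2 ^ I l < p ∧ p ≤ 2 ^ J l := by
    intro l p hp
    obtain ⟨_, h2, h3⟩ := hmem l p hp
    have h4 : NN 2 S (l : ℝ) ≤ p := (NN_le hv).2 h2
    have h5 : p < NN 2 S ((l : ℝ) + 1) := (lt_NN hv).2 h3
    have h6 := NN_pos hv (hl0' l)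
    constructor
    · have := Nat.pow_log_le_self 2 (show NN 2 S (l : ℝ) - 1 ≠ 0 by omega)
      simp only [hI]
      omega
    · have := Nat.lt_pow_succ_log_self (b := 2) (by norm_num) (NN 2 S ((l : ℝ) + 1))
      simp only [hJ]
      rw [Nat.succ_eq_add_one] at this
      omega
  have hIJ : ∀ l, I l ≤ J l := by
    intro l
    have h1 := NN_mono hv (show (l : ℝ) ≤ (l : ℝ) + 1 by linarith)
    have h2 : Nat.log 2 (NN 2 S (l : ℝ) - 1) ≤ Nat.log 2 (NN 2 S ((l : ℝ) + 1)) :=
      Nat.log_mono_right (by omega)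
    simp only [hI, hJ]
    omega
  have hIt : Tendsto I atTop atTop := by
    rw [tendsto_atTop]
    intro m
    filter_upwards [((NN_tendsto hv).comp hlt).eventually_ge_atTop (2 ^ m + 1)] with l hl
    simp only [Function.comp] at hl
    simp only [hI]
    refine Nat.le_log_of_pow_le (by norm_num) ?_
    omega
  -- gap
  obtain ⟨n1, hn1⟩ : ∃ n1, ∀ n ≥ n1, vv 2 S (2 ^ (k1 + 3) * n) ≤ vv 2 S n + 1 := by
    have h1 := (dyadic hD (k1 + 3)).const_mul (kap 2)
    rw [mul_zero] at h1
    obtain ⟨n1, hn1⟩ := eventually_atTop.1 (h1.eventually_le_const (show (0 : ℝ) < 1 by norm_num))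
    refine ⟨n1, fun n hn => ?_⟩
    have := hn1 n hn
    unfold vv
    linarith
  obtain ⟨l1, hl1'⟩ := eventually_atTop.1 (((NN_tendsto hv).comp hlt1).eventually_ge_atTop (n1 + 1))
  have hgap : ∀ l ≥ l1, ∀ l', l + 2 ≤ l' → J l + k1 ≤ I l' + 1 := by
    intro l hl l' hll
    have h1 := hl1' l hl
    simp only [Function.comp] at h1
    set X := NN 2 S ((l : ℝ) + 1) with hX
    have hX2 : 1 < X := NN_pos hv (by linarith [hl0' l])
    have h2 : vv 2 S (X - 1) ≤ (l : ℝ) + 1 := by
      rw [← lt_NN hv]; omega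
    have h3 : vv 2 S (2 ^ (k1 + 2) * X) ≤ (l' : ℝ) := by
      calc vv 2 S (2 ^ (k1 + 2) * X) ≤ vv 2 S (2 ^ (k1 + 3) * (X - 1)) := by
            refine vv_mono 2 S ?_
            have : 2 ^ (k1 + 3) * (X - 1) = 2 ^ (k1 + 2) * (2 * (X - 1)) := by ring
            rw [this]
            exact Nat.mul_le_mul_left _ (by omega)
        _ ≤ vv 2 S (X - 1) + 1 := hn1 _ (by omega)
        _ ≤ (l : ℝ) + 1 + 1 := by linarith
        _ ≤ (l' : ℝ) := by
            have : (l : ℝ) + 2 ≤ l' := by exact_mod_cast hll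
            linarith
    rw [← lt_NN hv] at h3
    simp only [hI, hJ]
    have h4 : k1 + 2 + Nat.log 2 X ≤ Nat.log 2 (NN 2 S (l' : ℝ) - 1) := by
      refine Nat.le_log_of_pow_le (by norm_num) ?_
      have h5 := Nat.pow_log_le_self 2 (show X ≠ 0 by omega)
      calc 2 ^ (k1 + 2 + Nat.log 2 X) = 2 ^ (k1 + 2) * 2 ^ Nat.log 2 X := pow_add _ _ _
        _ ≤ 2 ^ (k1 + 2) * X := Nat.mul_le_mul_left _ h5
        _ ≤ _ := by omega
    have h6 : Nat.log 2 (NN 2 S ((l : ℝ) + 1)) = Nat.log 2 X := rfl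
    omega
  -- weights
  have hlam : Tendsto (fun l => VT (T l)) atTop (𝓝 (1 / kap 2)) := by
    have h1 := ((vv_NN_tendsto hv).comp hlt1).sub ((vv_NN_tendsto hv).comp hlt)
    have h2 := (h1.add_const (1 : ℝ)).div_const (kap 2)
    rw [sub_zero, zero_add] at h2
    refine h2.congr fun l => ?_
    simp only [Function.comp, hT]
    have h4 := VT_SW hv (a := (l : ℝ)) (c := (l : ℝ) + 1) (hl0' l) (by linarith)
    rw [div_eq_iff hk2.ne', mul_comm (VT _), h4]
    ring
  have hInv : Tendsto (fun l => ∑ q ∈ T l, (q : ℝ)⁻¹) atTop (𝓝 0) := by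
    have hlim : Tendsto (fun l => VT (T l) * ((I l : ℝ) * Real.log 2)⁻¹) atTop (𝓝 0) := by
      have hl2 : 0 < Real.log 2 := Real.log_pos (by norm_num)
      have h1 : Tendsto (fun l => ((I l : ℝ) * Real.log 2)⁻¹) atTop (𝓝 0) :=
        tendsto_inv_atTop_zero.comp ((tendsto_natCast_atTop_atTop.comp hIt).atTop_mul_const hl2)
      have := hlam.mul h1
      simpa using this
    refine squeeze_zero' (Filter.Eventually.of_forall fun l => ?_) ?_ hlim
    · exact Finset.sum_nonneg fun q _ => by positivity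
    · filter_upwards [hIt.eventually_ge_atTop 1] with l hI1
      unfold VT
      rw [Finset.sum_mul]
      refine Finset.sum_le_sum fun q hq => ?_
      have h1 : (2 : ℝ) ^ I l ≤ q := by exact_mod_cast (hIJp l q hq).1.le
      have hx0 : (0 : ℝ) < (2 : ℝ) ^ I l := by positivity
      have hq0 : (0 : ℝ) < q := lt_of_lt_of_le hx0 h1
      have h2 : (I l : ℝ) * Real.log 2 ≤ Real.log q := by
        rw [← Real.log_pow]
        exact Real.log_le_log hx0 h1
      have hI0 : (0 : ℝ) < (I l : ℝ) * Real.log 2 := by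
        have : (0 : ℝ) < I l := by exact_mod_cast hI1
        have : 0 < Real.log 2 := Real.log_pos (by norm_num)
        positivity
      rw [div_mul_eq_mul_div, inv_eq_one_div]
      gcongr
      rw [← div_eq_mul_inv, le_div_iff₀ hI0, one_mul]
      exact h2
  obtain ⟨l0, hl0⟩ : ∃ l0, ∀ l ≥ l0, P + P2 ≤ 2 ^ I l ∧ k1 ≤ I l + 1 ∧ l1 ≤ l ∧
      VT (T l) ≤ 1 / kap 2 + 1 ∧ ∑ q ∈ T l, (q : ℝ)⁻¹ ≤ 1 := by
    have h1 := hIt.eventually_ge_atTop (P + P2 + k1)
    have h2 := hlam.eventually_le_const (show 1 / kap 2 < 1 / kap 2 + 1 by linarith)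
    have h3 := hInv.eventually_le_const (show (0 : ℝ) < 1 by norm_num)
    obtain ⟨l0, hl0⟩ := eventually_atTop.1 (h1.and (h2.and (h3.and (eventually_ge_atTop l1))))
    refine ⟨l0, fun l hl => ?_⟩
    obtain ⟨h4, h5, h6, h7⟩ := hl0 l hl
    have h8 : I l < 2 ^ I l := Nat.lt_two_pow_self
    exact ⟨by omega, by omega, h7, h5, h6⟩
  set z : ℕ → ℕ := fun l => ex κ (2 ^ (I l + 1 - k1)) with hz
  set tt : ℕ → ℕ := fun l => ex κ (2 ^ J l) with htt
  have hzt : ∀ l, z l ≤ tt l := fun l => by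
    have := hIJ l
    exact ex_mono hκ0 (Nat.pow_le_pow_right (by norm_num) (by omega))
  have htz : ∀ l ≥ l1, ∀ l', l + 2 ≤ l' → tt l ≤ z l' := fun l hl l' h => by
    have := hgap l hl l' h
    exact ex_mono hκ0 (Nat.pow_le_pow_right (by norm_num) (by omega))
  have hzκ : ∀ l, l0 ≤ l → (z l : ℝ) * 2 ^ (k1 - 1) ≤ κ * 2 ^ I l := by
    intro l hl
    obtain ⟨_, h2, _, _⟩ := hl0 l hl
    have h3 := (ex_bounds hκ0 (2 ^ (I l + 1 - k1))).2
    have h4 : ((2 ^ (I l + 1 - k1) : ℕ) : ℝ) * 2 ^ (k1 - 1) = 2 ^ I l := by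
      push_cast
      rw [← pow_add]
      congr 1
      omega
    calc (z l : ℝ) * 2 ^ (k1 - 1) ≤ (κ * ((2 ^ (I l + 1 - k1) : ℕ) : ℝ)) * 2 ^ (k1 - 1) :=
          mul_le_mul_of_nonneg_right h3 (by positivity)
      _ = κ * 2 ^ I l := by rw [mul_assoc, h4]
  set F : ℕ → ℕ → ℝ := fun l n => (hqd b κ (AA j) (T l) (tt l) n : ℝ) with hF
  have hN : ∀ l t, (hq b κ (AA j) (T l) t : ℝ) = F l ⌊t * ((b ^ tt l : ℕ) : ℝ)⌋₊ := by
    intro l t
    simp only [hF]
    rw [hq_digits hb0 (AA j) (e := tt l) (fun q hq => ex_mono hκ0 (hIJp l q hq).2) t]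
  have hF0 : ∀ l n, 0 ≤ F l n := fun l n => Nat.cast_nonneg _
  have hFc : ∀ l n, F l n ≤ (T l).card := fun l n => by
    simp only [hF]
    exact_mod_cast Finset.card_filter_le _ _
  have hpos : ∀ l, (0 : ℝ) < ((b ^ (tt l - z l) : ℕ) : ℝ) := fun l => by positivity
  have hav0 : ∀ l c, 0 ≤ avg b (z l) (tt l) (F l) c := fun l c =>
    div_nonneg (Finset.sum_nonneg fun n _ => hF0 l _) (hpos l).le
  have havc : ∀ l c, avg b (z l) (tt l) (F l) c ≤ (T l).card := fun l c => by
    unfold avg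
    rw [div_le_iff₀ (hpos l)]
    refine (Finset.sum_le_sum fun i _ => hFc l _).trans (le_of_eq ?_)
    rw [Finset.sum_const, card_range, nsmul_eq_mul, mul_comm]
  -- the conditional means
  have hav : ∀ l, l0 ≤ l → ∀ c < b ^ z l, |avg b (z l) (tt l) (F l) c - kp a * VT (T l)| ≤
      K * ∑ q ∈ T l, (q : ℝ)⁻¹ := by
    intro l hl c hc
    obtain ⟨h1, h2, _, _⟩ := hl0 l hl
    have hprob := cm_prob hb0 (z l) c
    have e1 : avg b (z l) (tt l) (F l) c = ∫ t, (hq b κ (AA j) (T l) t : ℝ) ∂(cm b (z l) c) := by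
      simp only [hN]
      rw [int_cm_one hb0 hc (hzt l) (F l)]
      rfl
    have e2 : avg b (z l) (tt l) (F l) c - kp a * VT (T l) =
        ∑ q ∈ T l, ∫ t, (fq b κ (AA j) q t - kp a * (Real.log q / q)) ∂(cm b (z l) c) := by
      rw [e1]
      simp only [hq_sum]
      rw [integral_finsetSum _ fun q _ => fq_integrable b κ _ q]
      unfold VT
      rw [Finset.mul_sum, ← Finset.sum_sub_distrib]
      refine Finset.sum_congr rfl fun q _ => ?_
      rw [integral_sub (fq_integrable b κ _ q) (integrable_const _), integral_const, probReal_univ, one_smul]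
    rw [e2, Finset.mul_sum]
    refine (Finset.abs_sum_le_sum_abs _ _).trans (Finset.sum_le_sum fun q hq => ?_)
    have hq1 := (hIJp l q hq).1
    have h3 := (hall (z l) c hc).2.2 (2 * q + j) (by rw [sz_two hj]; omega)
      (by
        rw [sz_two hj]
        refine (hzκ l hl).trans (mul_le_mul_of_nonneg_left ?_ hκ0.le)
        exact_mod_cast hq1.le) ∅ (by simp) (fun _ => 0) (by simp)
    have hPF : ∀ t, PF (ff b κ AA) (fun _ => 0) ∅ t = 1 := fun t => by unfold PF; simp
    simp only [hPF, one_mul, ff_two b κ AA hj, ws_two hj, sz_two hj] at h3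
    rw [integral_complex_ofReal, Complex.norm_real, Real.norm_eq_abs] at h3
    exact h3
  set V0 : ℝ := 1 / kap 2 + 1 with hV0
  have hV00 : 0 < V0 := by positivity
  set D : ℕ → ℝ → ℝ := fun l t => if l0 ≤ l then F l ⌊t * ((b ^ tt l : ℕ) : ℝ)⌋₊ -
    avg b (z l) (tt l) (F l) ⌊t * ((b ^ z l : ℕ) : ℝ)⌋₊ else 0 with hDd
  have hDm : ∀ l, Measurable (D l) := by
    intro l
    by_cases h : l0 ≤ l
    · have : D l = fun t => F l ⌊t * ((b ^ tt l : ℕ) : ℝ)⌋₊ -
          avg b (z l) (tt l) (F l) ⌊t * ((b ^ z l : ℕ) : ℝ)⌋₊ := by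
        funext t; simp only [hDd, if_pos h]
      rw [this]
      exact ((measurable_from_top (f := F l)).comp (Nat.measurable_floor.comp (measurable_id.mul_const _))).sub
        ((measurable_from_top (f := avg b (z l) (tt l) (F l))).comp
          (Nat.measurable_floor.comp (measurable_id.mul_const _)))
    · have : D l = fun _ => 0 := by
        funext β; simp only [hDd, if_neg h]
      rw [this]
      exact measurable_const
  have hDB : ∀ l, ∃ B : ℝ, ∀ t, |D l t| ≤ B := by
    intro l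
    refine ⟨(T l).card, fun t => ?_⟩
    simp only [hDd]
    split_ifs
    · rw [abs_le]
      have h1 := hF0 l ⌊t * ((b ^ tt l : ℕ) : ℝ)⌋₊
      have h2 := hFc l ⌊t * ((b ^ tt l : ℕ) : ℝ)⌋₊
      have h3 := hav0 l ⌊t * ((b ^ z l : ℕ) : ℝ)⌋₊
      have h4 := havc l ⌊t * ((b ^ z l : ℕ) : ℝ)⌋₊
      constructor <;> linarith
    · simp
  have hclt : ∀ l, ∀ t ∈ Set.Ico (0 : ℝ) 1, ⌊t * ((b ^ z l : ℕ) : ℝ)⌋₊ < b ^ z l := by
    intro l t ht
    have hbz : (0 : ℝ) < ((b ^ z l : ℕ) : ℝ) := by positivity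
    rw [Nat.floor_lt (mul_nonneg ht.1 hbz.le)]
    have := ht.2
    nlinarith
  set A0 : ℝ := kp a * V0 + K with hA0
  have hA00 : 0 < A0 := by positivity
  set M : ℝ := 2 * (C2 * (V0 + V0 * V0)) + 2 * (A0 * A0) with hM
  have hM0 : 0 ≤ M := by positivity
  have hDM : ∀ l, ∫ t, D l t * D l t ∂(volume.restrict (Set.Ico (0 : ℝ) 1)) ≤ M := by
    intro l
    by_cases h : l0 ≤ l
    · obtain ⟨h1, h2, _, h4, h5⟩ := hl0 l h
      have hVl := VT_nonneg (T l)
      have h6 := hsec j hj (T l) (fun p hp => by have := (hIJp l p hp).1; omega)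
      have hNi : Integrable (fun t => (hq b κ (AA j) (T l) t : ℝ) * hq b κ (AA j) (T l) t)
          (volume.restrict (Set.Ico (0 : ℝ) 1)) := by
        refine Integrable.of_bound (C := ((T l).card : ℝ) * (T l).card) ?_ (Filter.Eventually.of_forall fun t => ?_)
        · have hm := (measurable_from_top (f := fun n : ℕ => (n : ℝ))).comp (measurable_hq b κ (AA j) (T l))
          exact (hm.mul hm).aestronglyMeasurable
        · rw [hN, Real.norm_eq_abs, abs_of_nonneg (mul_nonneg (hF0 l _) (hF0 l _))]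
          exact mul_le_mul (hFc l _) (hFc l _) (hF0 l _) (Nat.cast_nonneg _)
      have hDi : Integrable (fun t => D l t * D l t) (volume.restrict (Set.Ico (0 : ℝ) 1)) := by
        obtain ⟨B, hB⟩ := hDB l
        refine Integrable.of_bound (C := B * B) ((hDm l).mul (hDm l)).aestronglyMeasurable
          (Filter.Eventually.of_forall fun ω => ?_)
        rw [norm_mul, Real.norm_eq_abs]
        exact mul_le_mul (hB ω) (hB ω) (abs_nonneg _) ((abs_nonneg _).trans (hB ω))
      calc ∫ t, D l t * D l t ∂(volume.restrict (Set.Ico (0 : ℝ) 1)) ≤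
            ∫ t, (2 * ((hq b κ (AA j) (T l) t : ℝ) * hq b κ (AA j) (T l) t) + 2 * (A0 * A0))
              ∂(volume.restrict (Set.Ico (0 : ℝ) 1)) := by
            refine integral_mono_ae hDi ((hNi.const_mul 2).add (integrable_const _)) ?_
            filter_upwards [ae_restrict_mem measurableSet_Ico] with t ht
            have h7 := hav l h _ (hclt l t ht)
            have h8 := hav0 l ⌊t * ((b ^ z l : ℕ) : ℝ)⌋₊
            have h9 : avg b (z l) (tt l) (F l) ⌊t * ((b ^ z l : ℕ) : ℝ)⌋₊ ≤ A0 := by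
              have h10 := (abs_le.1 h7).2
              have h11 := mul_le_mul_of_nonneg_left h4 hkp.le
              have h12 := mul_le_mul_of_nonneg_left h5 hK.le
              rw [hA0]
              linarith
            simp only [hDd, if_pos h]
            rw [← hN]
            set u := (hq b κ (AA j) (T l) t : ℝ)
            set w := avg b (z l) (tt l) (F l) ⌊t * ((b ^ z l : ℕ) : ℝ)⌋₊
            have h13 : w * w ≤ A0 * A0 := mul_le_mul h9 h9 h8 hA00.le
            nlinarith [sq_nonneg (u + w)]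
        _ = 2 * (∫ t in Set.Ico (0 : ℝ) 1, (hq b κ (AA j) (T l) t : ℝ) * hq b κ (AA j) (T l) t) + 2 * (A0 * A0) := by
            rw [integral_add (hNi.const_mul 2) (integrable_const _), integral_const_mul, integral_const]
            simp
        _ ≤ M := by
            rw [hM]
            have h7 : C2 * (VT (T l) + VT (T l) * VT (T l)) ≤ C2 * (V0 + V0 * V0) := by
              refine mul_le_mul_of_nonneg_left ?_ hC2.le
              have := mul_le_mul h4 h4 hVl hV00.le
              linarith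
            linarith
    · have : ∀ t, D l t = 0 := fun t => by simp only [hDd, if_neg h]
      simp only [this, zero_mul, integral_zero]
      exact hM0
  have horth : ∀ l l', l + 2 ≤ l' → ∫ t, D l t * D l' t ∂(volume.restrict (Set.Ico (0 : ℝ) 1)) = 0 := by
    intro l l' hll
    by_cases h : l0 ≤ l
    · have h' : l0 ≤ l' := by omega
      have h1 := htz l (hl0 l h).2.2.1 l' hll
      have h2 := hzt l'
      have hc : ∀ t, D l t * D l' t =
          (fun n => F l n - avg b (z l) (tt l) (F l) (n / b ^ (tt l - z l))) ⌊t * ((b ^ tt l : ℕ) : ℝ)⌋₊ *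
          (F l' ⌊t * ((b ^ tt l' : ℕ) : ℝ)⌋₊ - avg b (z l') (tt l') (F l') ⌊t * ((b ^ z l' : ℕ) : ℝ)⌋₊) := by
        intro t
        simp only [hDd, if_pos h, if_pos h']
        rw [dig_le hb0 (hzt l) t]
      simp only [hc]
      exact orth_avg hb0 h1 h2 (fun n => F l n - avg b (z l) (tt l) (F l) (n / b ^ (tt l - z l))) (F l')
    · have : ∀ t, D l t = 0 := fun t => by simp only [hDd, if_neg h]
      simp only [this, zero_mul, integral_zero]
  have hA := slln_sq (volume.restrict (Set.Ico (0 : ℝ) 1)) D hDm hDB hM0 hDM 2 horth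
  filter_upwards [hA, ae_restrict_mem measurableSet_Ico] with t htA ht
  -- the conditional means converge
  have hmean : Tendsto (fun l => (hq b κ (AA j) (T l) t : ℝ) - D l t) atTop (𝓝 (kp a / kap 2)) := by
    have h1 : Tendsto (fun l => kp a * VT (T l)) atTop (𝓝 (kp a / kap 2)) := by
      have := hlam.const_mul (kp a)
      rwa [mul_one_div] at this
    have h2 : Tendsto (fun l => ((hq b κ (AA j) (T l) t : ℝ) - D l t) - kp a * VT (T l)) atTop (𝓝 0) := by
      have h3 := hInv.const_mul K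
      rw [mul_zero] at h3
      refine squeeze_zero_norm' ?_ h3
      filter_upwards [eventually_ge_atTop l0] with l hl
      rw [Real.norm_eq_abs]
      refine le_trans (le_of_eq ?_) (hav l hl _ (hclt l t ht))
      simp only [hDd, if_pos hl]
      rw [hN]
      congr 1
      ring
    have := h2.add h1
    rw [zero_add] at this
    refine this.congr fun l => ?_
    ring
  have hces := hmean.cesaro
  have hsq2 : Tendsto (fun k : ℕ => k ^ 2) atTop atTop := tendsto_pow_atTop (by norm_num)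
  have h1 := hces.comp hsq2
  have h2 := htA.add h1
  rw [zero_add] at h2
  have h3 := lln_mono (s := fun L => ∑ l ∈ range L, (hq b κ (AA j) (T l) t : ℝ))
    (monotone_nat_of_le_succ fun n => by
      rw [Finset.sum_range_succ]
      have : (0 : ℝ) ≤ hq b κ (AA j) (T n) t := Nat.cast_nonneg _
      linarith) (by simp) (c := kp a / kap 2) (by
      refine h2.congr fun k => ?_
      simp only [Function.comp]
      push_cast
      rw [inv_mul_eq_div, ← add_div, ← Finset.sum_add_distrib]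
      congr 1
      refine Finset.sum_congr rfl fun l _ => ?_
      ring)
  exact h3

end Pool.Agent.H32x.AB
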