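import Mathlib
import Pool.Agent.H32x.AB.Lln2

set_option autoImplicit false

/-!
# Two sequences of integers with the same random digits: statistics for almost every tail
-/

namespace Pool.Agent.H32x.AB

open Finset Filter Topology MeasureTheory
open Pool.Agent.H305R2 (roughPart)
open Pool.Agent.N176.OW (kap VT VS VS_mono VS_nonneg VT_nonneg)
open Pool.Agent.H32x.PL
open Pool.Agent.H39x.LP

variable {b : ℕ} {κ a : ℝ} {A : ℕ → ℕ → ℤ}

open Classical in
/-- the indicator of the pattern `k` for the sets `T` -/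
noncomputable def ptZ (b : ℕ) (κ : ℝ) (A : ℕ → ℕ → ℤ) {ι : Type} (T : ι → Finset ℕ) (k : ι × Fin 2 → ℕ)
    (θ : ℝ) : ℝ := if ∀ x : ι × Fin 2, cnt b κ (A x.2) (T x.1) θ = k x then 1 else 0

theorem TwoZ.windows (h : TwoZ b κ a A) {S : Set ℕ}
    (hS : Tendsto (fun n => VS S n) atTop atTop)
    (hD : Tendsto (fun n : ℕ => VS S (2 * n) - VS S n) atTop (𝓝 0))
    (hP : ∀ h ≥ 1, Tendsto (fun n => VS (Sh S h) n / VS S n) atTop (𝓝 0))
    (ι : Type) [Fintype ι] [DecidableEq ι] (lo hi : ι → ℕ) (hlh : ∀ j, lo j ≤ hi j)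
    (hdis : ∀ i j, i ≠ j → hi i ≤ lo j ∨ hi j ≤ lo i) {η : ℝ} (hη : 0 < η) (k : ι × Fin 2 → ℕ) :
    ∀ᵐ θ : ℝ, Tendsto (fun L : ℕ => (∑ l ∈ range L,
      ptZ b κ A (fun j => SW 2 S (((l : ℝ) + lo j) * η) (((l : ℝ) + hi j) * η)) k θ) / L) atTop
      (𝓝 (∏ x : ι × Fin 2, Poi (((hi x.1 : ℝ) - lo x.1) * (kp a / kap 2 * η)) (k x))) := by
  classical
  have hv := vv_tendsto (b := 2) le_rfl hS
  refine ae_real fun m => ?_
  obtain ⟨c₁, AA, h2, P, hPw⟩ := h.window m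
  have hlt : Tendsto (fun l : ℕ => (l : ℝ) * η) atTop atTop :=
    tendsto_natCast_atTop_atTop.atTop_mul_const hη
  obtain ⟨l2, hl2⟩ := eventually_atTop.1 (((NN_tendsto hv).comp hlt).eventually_ge_atTop P)
  filter_upwards [h2.windows hS hD hP ι lo hi hlh hdis hη k, ae_restrict_mem measurableSet_Ico] with t ht ht1
  refine cesaro_shift _ l2 ?_
  have h3 := ht
  -- undo: shift the known limit
  have h4 : Tendsto (fun L : ℕ => (∑ l ∈ range L,
      pt b κ AA (fun j => SW 2 S ((((l + l2 : ℕ) : ℝ) + lo j) * η) ((((l + l2 : ℕ) : ℝ) + hi j) * η)) k t) / L) atTop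
      (𝓝 (∏ x : ι × Fin 2, Poi (((hi x.1 : ℝ) - lo x.1) * (kp a / kap 2 * η)) (k x))) := by
    set f : ℕ → ℝ := fun l =>
      pt b κ AA (fun j => SW 2 S (((l : ℝ) + lo j) * η) (((l : ℝ) + hi j) * η)) k t with hf
    have h5 := h3.comp (tendsto_add_atTop_nat l2)
    have h6 : Tendsto (fun L : ℕ => ((L + l2 : ℕ) : ℝ) / L) atTop (𝓝 1) := by
      have h7 : Tendsto (fun L : ℕ => 1 + (l2 : ℝ) / (L : ℝ)) atTop (𝓝 (1 + 0)) :=
        tendsto_const_nhds.add (tendsto_const_div_atTop_nhds_zero_nat (l2 : ℝ))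
      rw [add_zero] at h7
      refine h7.congr' ?_
      filter_upwards [eventually_ge_atTop 1] with L hL
      have : (0 : ℝ) < L := by exact_mod_cast hL
      push_cast
      field_simp
    have h7 : Tendsto (fun L : ℕ => (∑ l ∈ range l2, f l) / (L : ℝ)) atTop (𝓝 0) :=
      tendsto_const_div_atTop_nhds_zero_nat _
    have h8 := (h5.mul h6).sub h7
    rw [mul_one, sub_zero] at h8
    refine h8.congr' ?_
    filter_upwards [eventually_ge_atTop 1] with L hL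
    have hL0 : (0 : ℝ) < L := by exact_mod_cast hL
    have hL2 : (0 : ℝ) < ((L + l2 : ℕ) : ℝ) := by
      have : 0 < L + l2 := by omega
      exact_mod_cast this
    simp only [Function.comp]
    rw [div_mul_div_cancel₀ hL2.ne', ← sub_div]
    congr 1
    rw [add_comm L l2, Finset.sum_range_add, add_sub_cancel_left]
    refine Finset.sum_congr rfl fun l _ => ?_
    rw [add_comm l2 l]
  refine h4.congr fun L => ?_
  congr 1
  refine Finset.sum_congr rfl fun l _ => ?_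
  unfold pt ptZ
  have h9 : ∀ x : ι × Fin 2, hq b κ (AA x.2) (SW 2 S ((((l + l2 : ℕ) : ℝ) + lo x.1) * η)
      ((((l + l2 : ℕ) : ℝ) + hi x.1) * η)) t = cnt b κ (A x.2) (SW 2 S ((((l + l2 : ℕ) : ℝ) + lo x.1) * η)
      ((((l + l2 : ℕ) : ℝ) + hi x.1) * η)) ((m : ℝ) + t) := by
    intro x
    unfold hq cnt
    congr 1
    refine Finset.filter_congr fun p hp => ?_
    rw [mem_SW hv] at hp
    have h10 : P ≤ p := by
      refine (hl2 (l + l2) (by omega)).trans ?_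
      simp only [Function.comp]
      rw [NN_le hv]
      refine lt_of_le_of_lt ?_ hp.2.1
      have : (0 : ℝ) ≤ lo x.1 := Nat.cast_nonneg _
      nlinarith
    exact hPw x.2 x.2.2 p h10 hp.1.1 t ht1
  by_cases h10 : ∀ x : ι × Fin 2, cnt b κ (A x.2) (SW 2 S ((((l + l2 : ℕ) : ℝ) + lo x.1) * η)
      ((((l + l2 : ℕ) : ℝ) + hi x.1) * η)) ((m : ℝ) + t) = k x
  · rw [if_pos h10, if_pos]
    intro x
    rw [h9]
    exact h10 x
  · rw [if_neg h10, if_neg]
    intro h11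
    refine h10 fun x => ?_
    rw [← h9]
    exact h11 x

lemma cnt_union (b : ℕ) (κ : ℝ) (A : ℕ → ℤ) {T T' : Finset ℕ} (h : Disjoint T T') (θ : ℝ) :
    cnt b κ A (T ∪ T') θ = cnt b κ A T θ + cnt b κ A T' θ := by
  classical
  unfold cnt
  rw [Finset.filter_union, Finset.card_union_of_disjoint (Finset.disjoint_filter_filter h)]

lemma hq_union (b : ℕ) (κ : ℝ) (A : ℕ → ℕ) {T T' : Finset ℕ} (h : Disjoint T T') (t : ℝ) :
    hq b κ A (T ∪ T') t = hq b κ A T t + hq b κ A T' t := by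
  classical
  unfold hq
  rw [Finset.filter_union, Finset.card_union_of_disjoint (Finset.disjoint_filter_filter h)]

lemma SW_union {S : Set ℕ} (hv : Tendsto (vv 2 S) atTop atTop) {u v w : ℝ} (h1 : u ≤ v) (h2 : v ≤ w) :
    SW 2 S u w = SW 2 S u v ∪ SW 2 S v w ∧ Disjoint (SW 2 S u v) (SW 2 S v w) := by
  classical
  constructor
  · ext p
    rw [mem_union, mem_SW hv, mem_SW hv, mem_SW hv]
    constructor
    · rintro ⟨h3, h4, h5⟩
      rcases le_or_gt (vv 2 S p) v with h6 | h6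
      · exact Or.inl ⟨h3, h4, h6⟩
      · exact Or.inr ⟨h3, h6, h5⟩
    · rintro (⟨h3, h4, h5⟩ | ⟨h3, h4, h5⟩)
      · exact ⟨h3, h4, h5.trans h2⟩
      · exact ⟨h3, lt_of_le_of_lt h1 h4, h5⟩
  · rw [Finset.disjoint_left]
    intro p hp hp'
    rw [mem_SW hv] at hp hp'
    linarith [hp.2.2, hp'.2.1]

lemma sum_hq {S : Set ℕ} (hv : Tendsto (vv 2 S) atTop atTop) (b : ℕ) (κ : ℝ) (A : ℕ → ℕ) (t : ℝ) (L : ℕ) :
    ∑ l ∈ range L, hq b κ A (SW 2 S (l : ℝ) ((l : ℝ) + 1)) t = hq b κ A (SW 2 S 0 L) t := by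
  classical
  induction L with
  | zero =>
    have : SW 2 S 0 ((0 : ℕ) : ℝ) = ∅ := by
      rw [Finset.eq_empty_iff_forall_notMem]
      intro p hp
      rw [mem_SW hv] at hp
      push_cast at hp
      linarith [hp.2.1, hp.2.2]
    rw [this]
    simp [hq]
  | succ L ih =>
    rw [Finset.sum_range_succ, ih]
    push_cast
    obtain ⟨h1, h2⟩ := SW_union hv (u := 0) (v := (L : ℝ)) (w := (L : ℝ) + 1) (Nat.cast_nonneg _) (by linarith)
    rw [h1, hq_union b κ A h2]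

lemma Mn_cnt (b : ℕ) (κ : ℝ) (F : ℕ → ℤ) {S : Set ℕ} (hv : Tendsto (vv 2 S) atTop atTop) (θ : ℝ) (n : ℕ) :
    Mn b κ F S θ n = cnt b κ F (SW 2 S 0 (vv 2 S n)) θ := by
  classical
  unfold Mn cnt
  congr 1
  ext q
  rw [mem_filter, mem_filter, mem_SW hv, mem_range]
  constructor
  · rintro ⟨h1, ⟨h2, h3⟩, h4⟩
    refine ⟨⟨⟨h2, h4⟩, ?_, vv_mono 2 S (by omega)⟩, h3⟩
    have := vv_lt (b := 2) le_rfl h2 h4 (n := 0) h2.pos
    rwa [vv_zero] at this
  · rintro ⟨⟨⟨h1, h2⟩, h3, h4⟩, h5⟩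
    refine ⟨?_, ⟨h1, h5⟩, h2⟩
    by_contra hcon
    have := vv_lt (b := 2) le_rfl h1 h2 (n := n) (by omega)
    linarith

theorem TwoZ.lln (h : TwoZ b κ a A) {S : Set ℕ}
    (hS : Tendsto (fun n => VS S n) atTop atTop)
    (hD : Tendsto (fun n : ℕ => VS S (2 * n) - VS S n) atTop (𝓝 0)) :
    ∀ᵐ θ : ℝ, ∀ j : Fin 2, Tendsto (fun n => (Mn b κ (A j) S θ n : ℝ) / vv 2 S n) atTop (𝓝 (kp a / kap 2)) := by
  classical
  have hv := vv_tendsto (b := 2) le_rfl hS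
  rw [ae_all_iff]
  intro j
  refine ae_real fun m => ?_
  obtain ⟨c₁, AA, h2, P, hPw⟩ := h.window m
  filter_upwards [h2.lln hS hD j.2, ae_restrict_mem measurableSet_Ico] with t ht ht1
  set θ : ℝ := (m : ℝ) + t with hθ
  -- along the levels
  set s : ℕ → ℝ := fun L => (cnt b κ (A j) (SW 2 S 0 (L : ℝ)) θ : ℝ) with hs
  have h1 : Tendsto (fun L : ℕ => s L / L) atTop (𝓝 (kp a / kap 2)) := by
    have h3 : Tendsto (fun L : ℕ => s L / L - (∑ l ∈ range L, (hq b κ (AA j) (SW 2 S (l : ℝ) ((l : ℝ) + 1)) t : ℝ)) / L)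
        atTop (𝓝 0) := by
      refine squeeze_zero_norm (fun L => ?_) (tendsto_const_div_atTop_nhds_zero_nat (P : ℝ))
      rw [← sub_div, norm_div, Real.norm_eq_abs, Real.norm_of_nonneg (Nat.cast_nonneg L)]
      refine div_le_div_of_nonneg_right ?_ (Nat.cast_nonneg L)
      have e := sum_hq hv b κ (AA j) t L
      have e' : (∑ l ∈ range L, (hq b κ (AA j) (SW 2 S (l : ℝ) ((l : ℝ) + 1)) t : ℝ)) =
          (hq b κ (AA j) (SW 2 S 0 L) t : ℝ) := by
        rw [← e]; push_cast; rfl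
      rw [e']
      exact cnt_le (T := SW 2 S 0 L) (fun p hp => ((mem_SW hv).1 hp).1.1) (t := t) (θ := θ)
        (fun p hp hpp => hPw j j.2 p hp hpp t ht1)
    have := h3.add ht
    rw [zero_add] at this
    refine this.congr fun L => ?_
    ring
  have hsm : Monotone s := by
    intro L L' hLL
    simp only [hs]
    have h3 : (L : ℝ) ≤ L' := by exact_mod_cast hLL
    obtain ⟨h4, h5⟩ := SW_union hv (u := 0) (v := (L : ℝ)) (w := (L' : ℝ)) (Nat.cast_nonneg _) h3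
    rw [h4, cnt_union b κ _ h5]
    push_cast
    have : (0 : ℝ) ≤ (cnt b κ (A j) (SW 2 S (L : ℝ) (L' : ℝ)) θ : ℝ) := Nat.cast_nonneg _
    linarith
  -- all levels
  have hfl : Tendsto (fun n => ⌊vv 2 S n⌋₊) atTop atTop := tendsto_nat_floor_atTop.comp hv
  have hfl1 : Tendsto (fun n => ⌊vv 2 S n⌋₊ + 1) atTop atTop := (tendsto_add_atTop_nat 1).comp hfl
  have hr : Tendsto (fun n => (⌊vv 2 S n⌋₊ : ℝ) / vv 2 S n) atTop (𝓝 1) :=
    (tendsto_nat_floor_div_atTop (R := ℝ)).comp hv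
  have hr1 : Tendsto (fun n => ((⌊vv 2 S n⌋₊ + 1 : ℕ) : ℝ) / vv 2 S n) atTop (𝓝 1) := by
    have h3 : Tendsto (fun n => 1 / vv 2 S n) atTop (𝓝 0) := by
      simp only [one_div]
      exact tendsto_inv_atTop_zero.comp hv
    have := hr.add h3
    rw [add_zero] at this
    refine this.congr fun n => ?_
    push_cast
    ring
  have hlo := (h1.comp hfl).mul hr
  have hup := (h1.comp hfl1).mul hr1
  rw [mul_one] at hlo hup
  refine tendsto_of_tendsto_of_tendsto_of_le_of_le' hlo hup ?_ ?_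
  · filter_upwards [hv.eventually_ge_atTop 1] with n hn
    have hv0 : 0 < vv 2 S n := by linarith
    have hf1 : (1 : ℝ) ≤ ⌊vv 2 S n⌋₊ := by
      have : 1 ≤ ⌊vv 2 S n⌋₊ := Nat.le_floor (by simpa using hn)
      exact_mod_cast this
    simp only [Function.comp]
    rw [div_mul_div_cancel₀ (by linarith : (⌊vv 2 S n⌋₊ : ℝ) ≠ 0)]
    refine div_le_div_of_nonneg_right ?_ hv0.le
    rw [Mn_cnt b κ _ hv]
    obtain ⟨h4, h5⟩ := SW_union hv (u := 0) (v := (⌊vv 2 S n⌋₊ : ℝ)) (w := vv 2 S n) (Nat.cast_nonneg _)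
      (Nat.floor_le hv0.le)
    rw [h4, cnt_union b κ _ h5]
    simp only [hs]
    push_cast
    have : (0 : ℝ) ≤ (cnt b κ (A j) (SW 2 S (⌊vv 2 S n⌋₊ : ℝ) (vv 2 S n)) θ : ℝ) := Nat.cast_nonneg _
    linarith
  · filter_upwards [hv.eventually_ge_atTop 1] with n hn
    have hv0 : 0 < vv 2 S n := by linarith
    simp only [Function.comp]
    have hf1 : (0 : ℝ) < ((⌊vv 2 S n⌋₊ + 1 : ℕ) : ℝ) := by positivity
    rw [div_mul_div_cancel₀ hf1.ne']
    refine div_le_div_of_nonneg_right ?_ hv0.le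
    rw [Mn_cnt b κ _ hv]
    obtain ⟨h4, h5⟩ := SW_union hv (u := 0) (v := vv 2 S n) (w := ((⌊vv 2 S n⌋₊ + 1 : ℕ) : ℝ)) hv0.le
      (by push_cast; exact (Nat.lt_floor_add_one _).le)
    simp only [hs]
    rw [h4, cnt_union b κ _ h5]
    push_cast
    have : (0 : ℝ) ≤ (cnt b κ (A j) (SW 2 S (vv 2 S n) ((⌊vv 2 S n⌋₊ : ℝ) + 1)) θ : ℝ) := Nat.cast_nonneg _
    linarith

end Pool.Agent.H32x.AB
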