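import Mathlib
import Pool.Agent.H32x.AB.Tr
import Pool.Agent.H32x.PL.Palm

set_option autoImplicit false

/-!
# Two sequences of integers: from patterns on the grid to windows after an exponent
-/

namespace Pool.Agent.H32x.AB

open Finset Filter Topology MeasureTheory
open Pool.Agent.H305R2 (roughPart)
open Pool.Agent.N176.OW (kap VT VS VS_mono VS_nonneg VT_nonneg)
open Pool.Agent.H32x.PL
open Pool.Agent.H39x.LP

variable {b : ℕ} {κ a : ℝ} {A : ℕ → ℕ → ℤ}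

/-- the exponents of the sequence `F` in `S` -/
def EZ (b : ℕ) (κ : ℝ) (F : ℕ → ℤ) (S : Set ℕ) (θ : ℝ) : Set ℕ :=
  {p | p.Prime ∧ p ∈ S ∧ (roughPart p (Pool.Agent.H39x.LP.sq b κ F θ p)).Prime}

/-- the windows `(x i, x (i+1)]` after `p` contain `k (i, j)` exponents of type `j` -/
def Q2 (b : ℕ) (κ : ℝ) (A : ℕ → ℕ → ℤ) (S : Set ℕ) (θ : ℝ) (r : ℕ) (x : ℕ → ℝ) (k : Fin r × Fin 2 → ℕ)
    (p : ℕ) : Prop :=
  ∀ i : Fin r × Fin 2, Set.encard {q | q ∈ EZ b κ (A i.2) S θ ∧ x i.1 < vv 2 S q - vv 2 S p ∧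
    vv 2 S q - vv 2 S p ≤ x (i.1 + 1)} = k i

/-- the pattern -/
def kX2 {r : ℕ} (w : Fin 2) (k : Fin r × Fin 2 → ℕ) : IX r × Fin 2 → ℕ
  | (.inl _, j) => if j = w then 1 else 0
  | (.inr (.inl i), j) => k (i, j)
  | (.inr (.inr _), _) => 0

lemma geom2 {S : Set ℕ} (hv : Tendsto (vv 2 S) atTop atTop) (θ : ℝ) {η : ℝ} (hη : 0 < η)
    (r : ℕ) (x : ℕ → ℝ) (k : Fin r × Fin 2 → ℕ) (w : Fin 2) (hx0 : x 0 = 0) (hx : ∀ i < r, x i < x (i + 1))
    (l : ℕ)
    (hpat : ∀ y : IX r × Fin 2, cnt b κ (A y.2) (SW 2 S (((l : ℝ) + loX (fun i => ⌊x i / η⌋₊) r y.1) * η)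
      (((l : ℝ) + hiX (fun i => ⌊x i / η⌋₊) r y.1) * η)) θ = kX2 w k y) :
    ∃ p ∈ EZ b κ (A w) S θ, (l : ℝ) * η < vv 2 S p ∧ vv 2 S p ≤ ((l : ℝ) + 1) * η ∧
      Q2 b κ A S θ r x k p := by
  classical
  set X : ℕ → ℕ := fun i => ⌊x i / η⌋₊ with hX
  have hxnn : ∀ i ≤ r, 0 ≤ x i := by
    intro i hi
    induction i with
    | zero => rw [hx0]
    | succ i ih => exact (ih (by omega)).trans (hx i (by omega)).le
  have hXle : ∀ i ≤ r, (X i : ℝ) * η ≤ x i := by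
    intro i hi
    rw [← le_div_iff₀ hη]
    exact Nat.floor_le (div_nonneg (hxnn i hi) hη.le)
  have hXlt : ∀ i, x i < ((X i : ℝ) + 1) * η := by
    intro i
    rw [← div_lt_iff₀ hη]
    exact Nat.lt_floor_add_one _
  -- the cell
  have h0 := hpat (.inl (), w)
  have e0 : loX X r (.inl ()) = 0 := rfl
  have e0' : hiX X r (.inl ()) = 1 := rfl
  have e0'' : kX2 w k (.inl (), w) = 1 := by
    show (if w = w then 1 else 0) = 1
    rw [if_pos rfl]
  unfold cnt at h0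
  rw [e0'', Finset.card_eq_one] at h0
  obtain ⟨p, hp⟩ := h0
  have hpm : p ∈ ({p} : Finset ℕ) := mem_singleton_self p
  rw [← hp, mem_filter, mem_SW hv] at hpm
  obtain ⟨⟨⟨hp1, hp2⟩, hp3, hp4⟩, hp5⟩ := hpm
  simp only [e0, e0'] at hp3 hp4
  push_cast at hp3 hp4
  rw [add_zero] at hp3
  refine ⟨p, ⟨hp1, hp2, hp5⟩, hp3, hp4, ?_⟩
  -- other exponents in the cell
  have hcell : ∀ j : Fin 2, ∀ q ∈ EZ b κ (A j) S θ, (l : ℝ) * η < vv 2 S q → vv 2 S q ≤ ((l : ℝ) + 1) * η → q = p := by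
    intro j q hq hq1 hq2
    by_cases hj : j = w
    · subst hj
      have hqm : q ∈ ({p} : Finset ℕ) := by
        rw [← hp, mem_filter, mem_SW hv]
        simp only [e0, e0']
        push_cast
        rw [add_zero]
        exact ⟨⟨⟨hq.1, hq.2.1⟩, hq1, hq2⟩, hq.2.2⟩
      exact mem_singleton.1 hqm
    · have h1 := hpat (.inl (), j)
      have e1 : kX2 w k (.inl (), j) = 0 := by
        show (if j = w then 1 else 0) = 0
        rw [if_neg hj]
      unfold cnt at h1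
      rw [e1, Finset.card_eq_zero, Finset.filter_eq_empty_iff] at h1
      refine absurd hq.2.2 (h1 ((mem_SW hv).2 ⟨⟨hq.1, hq.2.1⟩, ?_, ?_⟩))
      · simp only [e0]
        push_cast
        rw [add_zero]
        exact hq1
      · simp only [e0']
        push_cast
        exact hq2
  -- no exponents in the boundary cells
  have hB : ∀ i : Fin r, ∀ j : Fin 2, ∀ q ∈ EZ b κ (A j) S θ, ¬ (((l : ℝ) + X (i + 1)) * η < vv 2 S q ∧
      vv 2 S q ≤ ((l : ℝ) + (X (i + 1) + 2 : ℕ)) * η) := by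
    intro i j q hq hcon
    have h1 := hpat (.inr (.inr i), j)
    have e1 : loX X r (.inr (.inr i)) = X (i + 1) := rfl
    have e1' : hiX X r (.inr (.inr i)) = X (i + 1) + 2 := rfl
    have e1'' : kX2 w k (.inr (.inr i), j) = 0 := rfl
    unfold cnt at h1
    rw [e1'', Finset.card_eq_zero, Finset.filter_eq_empty_iff] at h1
    exact h1 ((mem_SW hv).2 ⟨⟨hq.1, hq.2.1⟩, hcon.1, hcon.2⟩) hq.2.2
  rintro ⟨i, j⟩
  have h1 := hpat (.inr (.inl i), j)
  have e1 : loX X r (.inr (.inl i)) = if (i : ℕ) = 0 then 1 else X i + 2 := rfl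
  have e1' : hiX X r (.inr (.inl i)) = X (i + 1) := rfl
  have e1'' : kX2 w k (.inr (.inl i), j) = k (i, j) := rfl
  unfold cnt at h1
  rw [e1''] at h1
  rw [← h1, ← Set.encard_coe_eq_coe_finsetCard]
  congr 1
  ext q
  rw [Finset.mem_coe, mem_filter, mem_SW hv]
  simp only [Set.mem_ofPred_eq, e1, e1']
  have hi1 : (i : ℕ) + 1 ≤ r := i.2
  have hXu := hXle (i + 1) hi1
  have hXv := hXlt (i + 1)
  constructor
  · rintro ⟨hq, hq1, hq2⟩
    refine ⟨⟨⟨hq.1, hq.2.1⟩, ?_, ?_⟩, hq.2.2⟩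
    · by_cases h : (i : ℕ) = 0
      · rw [if_pos h]
        rw [h, hx0] at hq1
        by_contra hcon
        push_cast at hcon
        have := hcell j q hq (by linarith) (not_lt.1 hcon)
        rw [this] at hq1
        linarith
      · rw [if_neg h]
        obtain ⟨i', hi'⟩ : ∃ i' : Fin r, (i' : ℕ) + 1 = i := ⟨⟨i - 1, by have := i.2; omega⟩, by
          show (i : ℕ) - 1 + 1 = i
          omega⟩
        have h2 := hB i' j q hq
        rw [hi'] at h2
        have h3 := hXle i (by omega)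
        by_contra hcon
        refine h2 ⟨?_, not_lt.1 hcon⟩
        nlinarith
    · have h2 := hB i j q hq
      by_contra hcon
      refine h2 ⟨not_le.1 hcon, ?_⟩
      push_cast
      nlinarith
  · rintro ⟨⟨⟨hq1, hq2⟩, hq3, hq4⟩, hq5⟩
    refine ⟨⟨hq1, hq2, hq5⟩, ?_, ?_⟩
    · by_cases h : (i : ℕ) = 0
      · rw [if_pos h] at hq3
        push_cast at hq3
        rw [h, hx0]
        linarith
      · rw [if_neg h] at hq3
        push_cast at hq3
        have h3 := hXlt i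
        nlinarith
    · nlinarith

open Classical in
/-- the number of exponents up to `n` of type `w` with the pattern -/
noncomputable def B2 (b : ℕ) (κ : ℝ) (A : ℕ → ℕ → ℤ) (S : Set ℕ) (θ : ℝ) (w : Fin 2) (r : ℕ) (x : ℕ → ℝ)
    (k : Fin r × Fin 2 → ℕ) (n : ℕ) : ℕ :=
  ((range (n + 1)).filter (fun p => p ∈ EZ b κ (A w) S θ ∧ Q2 b κ A S θ r x k p)).card

lemma count2 {S : Set ℕ} (hv : Tendsto (vv 2 S) atTop atTop) (θ : ℝ) {η : ℝ}
    (hη : 0 < η) (w : Fin 2) (r : ℕ) (x : ℕ → ℝ) (k : Fin r × Fin 2 → ℕ) (hx0 : x 0 = 0)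
    (hx : ∀ i < r, x i < x (i + 1)) (L n : ℕ) (hLn : (L : ℝ) * η ≤ vv 2 S n) :
    ∑ l ∈ range L, ptZ b κ A (fun j => SW 2 S (((l : ℝ) + loX (fun i => ⌊x i / η⌋₊) r j) * η)
      (((l : ℝ) + hiX (fun i => ⌊x i / η⌋₊) r j) * η)) (kX2 w k) θ ≤ B2 b κ A S θ w r x k n := by
  classical
  set f : ℕ → Prop := fun l => ∀ y : IX r × Fin 2,
    cnt b κ (A y.2) (SW 2 S (((l : ℝ) + loX (fun i => ⌊x i / η⌋₊) r y.1) * η)
      (((l : ℝ) + hiX (fun i => ⌊x i / η⌋₊) r y.1) * η)) θ = kX2 w k y with hf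
  have e : ∑ l ∈ range L, ptZ b κ A (fun j => SW 2 S (((l : ℝ) + loX (fun i => ⌊x i / η⌋₊) r j) * η)
      (((l : ℝ) + hiX (fun i => ⌊x i / η⌋₊) r j) * η)) (kX2 w k) θ =
      ∑ l ∈ range L, if f l then (1 : ℝ) else 0 := by
    refine Finset.sum_congr rfl fun l _ => ?_
    unfold ptZ
    by_cases h : f l
    · rw [if_pos h, if_pos]
      intro j
      exact h j
    · rw [if_neg h, if_neg]
      intro h'
      exact h fun j => h' j
  rw [e, Finset.sum_boole]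
  unfold B2
  have : ((range L).filter f).card ≤
      ((range (n + 1)).filter (fun p => p ∈ EZ b κ (A w) S θ ∧ Q2 b κ A S θ r x k p)).card := by
    refine Finset.card_le_card_of_surjOn (fun p => ⌈vv 2 S p / η⌉₊ - 1) ?_
    intro l hl
    rw [Finset.mem_coe, mem_filter, mem_range] at hl
    obtain ⟨p, hpE, hp1, hp2, hpQ⟩ := geom2 hv θ hη r x k w hx0 hx l hl.2
    refine ⟨p, ?_, ?_⟩
    · rw [Finset.mem_coe, mem_filter, mem_range]
      refine ⟨?_, hpE, hpQ⟩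
      by_contra hcon
      have h1 : n < p := by omega
      have h2 := vv_lt (b := 2) le_rfl hpE.1 hpE.2.1 h1
      have h3 : ((l : ℝ) + 1) * η ≤ L * η := by
        have : (l : ℝ) + 1 ≤ L := by exact_mod_cast hl.1
        nlinarith
      linarith
    · have h1 : (l : ℝ) < vv 2 S p / η := by rwa [lt_div_iff₀ hη]
      have h2 : vv 2 S p / η ≤ ((l + 1 : ℕ) : ℝ) := by
        rw [div_le_iff₀ hη]; push_cast; exact hp2
      have h3 : ⌈vv 2 S p / η⌉₊ ≤ l + 1 := Nat.ceil_le.2 h2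
      have h4 : l < ⌈vv 2 S p / η⌉₊ := Nat.lt_ceil.2 h1
      show ⌈vv 2 S p / η⌉₊ - 1 = l
      omega
  exact_mod_cast this

/-- the limit of the products -/
lemma lim_prod2 {m0 : ℝ} (hm0 : 0 < m0) (w : Fin 2) (r : ℕ) (x : ℕ → ℝ) (k : Fin r × Fin 2 → ℕ) (hx0 : x 0 = 0)
    (hx : ∀ i < r, x i < x (i + 1)) {η : ℕ → ℝ} (hη0 : ∀ s, 0 < η s) (hη : Tendsto η atTop (𝓝 0)) :
    Tendsto (fun s => (∏ y : IX r × Fin 2, Poi (((hiX (fun i => ⌊x i / η s⌋₊) r y.1 : ℝ) -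
      loX (fun i => ⌊x i / η s⌋₊) r y.1) * (m0 * η s)) (kX2 w k y)) / η s) atTop
      (𝓝 (m0 * ∏ i : Fin r × Fin 2, Poi ((x (i.1 + 1) - x i.1) * m0) (k i))) := by
  have hxnn : ∀ i ≤ r, 0 ≤ x i := by
    intro i hi
    induction i with
    | zero => rw [hx0]
    | succ i ih => exact (ih (by omega)).trans (hx i (by omega)).le
  have hmη : Tendsto (fun s => m0 * η s) atTop (𝓝 0) := by
    have := hη.const_mul m0
    rwa [mul_zero] at this
  have h1 : Tendsto (fun s => Real.exp (-(m0 * η s))) atTop (𝓝 1) := by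
    have := (Real.continuous_exp.tendsto _).comp hmη.neg
    rw [neg_zero, Real.exp_zero] at this
    exact this
  have h2 : ∀ i : Fin r × Fin 2, Tendsto (fun s => Poi (((⌊x (i.1 + 1) / η s⌋₊ : ℝ) -
      ((if (i.1 : ℕ) = 0 then 1 else ⌊x i.1 / η s⌋₊ + 2 : ℕ) : ℝ)) * (m0 * η s)) (k i)) atTop
      (𝓝 (Poi ((x (i.1 + 1) - x i.1) * m0) (k i))) := by
    intro i
    refine ((continuous_Poi (k i)).tendsto _).comp ?_
    have h3 := floor_lim (hxnn (i.1 + 1) i.1.2) hη0 hη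
    have h4 : Tendsto (fun s => ((if (i.1 : ℕ) = 0 then 1 else ⌊x i.1 / η s⌋₊ + 2 : ℕ) : ℝ) * η s) atTop
        (𝓝 (x i.1)) := by
      by_cases h : (i.1 : ℕ) = 0
      · simp only [if_pos h]
        rw [h, hx0]
        simpa using hη
      · simp only [if_neg h]
        have h5 := (floor_lim (hxnn i.1 i.1.2.le) hη0 hη).add (hη.const_mul 2)
        rw [mul_zero, add_zero] at h5
        refine h5.congr fun s => ?_
        push_cast
        ring
    refine ((h3.sub h4).mul_const m0).congr fun s => ?_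
    ring
  have h3 : Tendsto (fun s => Poi (2 * (m0 * η s)) 0) atTop (𝓝 1) := by
    have := ((continuous_Poi 0).tendsto _).comp (hmη.const_mul 2)
    have h4 : Poi (2 * 0) 0 = 1 := by unfold Poi; simp
    rw [h4] at this
    exact this
  have h4 := (tendsto_finsetProd (Finset.univ : Finset (Fin r × Fin 2)) fun i _ => h2 i)
  have h5 := (tendsto_finsetProd (Finset.univ : Finset (Fin r × Fin 2)) fun _ _ => h3)
  have h6 := ((h1.mul h1).mul_const m0).mul (h4.mul h5)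
  rw [Finset.prod_const_one, mul_one, one_mul, mul_one] at h6
  refine h6.congr fun s => ?_
  have e1 : ∀ j : Fin 2, Poi (((hiX (fun i => ⌊x i / η s⌋₊) r (.inl default) : ℝ) -
      loX (fun i => ⌊x i / η s⌋₊) r (.inl default)) * (m0 * η s)) (kX2 w k (.inl default, j)) =
      if j = w then Real.exp (-(m0 * η s)) * (m0 * η s) else Real.exp (-(m0 * η s)) := by
    intro j
    show Poi ((((1 : ℕ) : ℝ) - ((0 : ℕ) : ℝ)) * (m0 * η s)) (if j = w then 1 else 0) = _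
    split_ifs
    · unfold Poi
      simp
    · unfold Poi
      simp
  have e2 : ∀ (i : Fin r) (j : Fin 2), Poi (((hiX (fun i => ⌊x i / η s⌋₊) r (.inr (.inr i)) : ℝ) -
      loX (fun i => ⌊x i / η s⌋₊) r (.inr (.inr i))) * (m0 * η s)) (kX2 w k (.inr (.inr i), j)) =
      Poi (2 * (m0 * η s)) 0 := by
    intro i j
    show Poi (((((⌊x (i + 1) / η s⌋₊ + 2 : ℕ)) : ℝ) - ((⌊x (i + 1) / η s⌋₊ : ℕ) : ℝ)) * (m0 * η s)) 0 = _
    congr 1
    push_cast
    ring
  have e3 : ∀ (i : Fin r) (j : Fin 2), Poi (((hiX (fun i => ⌊x i / η s⌋₊) r (.inr (.inl i)) : ℝ) -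
      loX (fun i => ⌊x i / η s⌋₊) r (.inr (.inl i))) * (m0 * η s)) (kX2 w k (.inr (.inl i), j)) =
      Poi (((⌊x (i + 1) / η s⌋₊ : ℝ) -
      ((if (i : ℕ) = 0 then 1 else ⌊x i / η s⌋₊ + 2 : ℕ) : ℝ)) * (m0 * η s)) (k (i, j)) := fun i j => rfl
  have hw : (∏ j : Fin 2, (if j = w then Real.exp (-(m0 * η s)) * (m0 * η s) else Real.exp (-(m0 * η s)))) =
      Real.exp (-(m0 * η s)) * Real.exp (-(m0 * η s)) * (m0 * η s) := by
    fin_cases w
    · simp; ring
    · simp; ring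
  have hsplit : (∏ y : IX r × Fin 2, Poi (((hiX (fun i => ⌊x i / η s⌋₊) r y.1 : ℝ) -
      loX (fun i => ⌊x i / η s⌋₊) r y.1) * (m0 * η s)) (kX2 w k y)) =
      (Real.exp (-(m0 * η s)) * Real.exp (-(m0 * η s)) * (m0 * η s)) *
      ((∏ i : Fin r × Fin 2, Poi (((⌊x (i.1 + 1) / η s⌋₊ : ℝ) -
      ((if (i.1 : ℕ) = 0 then 1 else ⌊x i.1 / η s⌋₊ + 2 : ℕ) : ℝ)) * (m0 * η s)) (k i)) *
      ∏ _i : Fin r × Fin 2, Poi (2 * (m0 * η s)) 0) := by
    rw [Fintype.prod_prod_type, Fintype.prod_sum_type, Fintype.prod_sum_type]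
    simp only [Finset.univ_unique, Finset.prod_singleton]
    simp only [e1, e2, e3]
    rw [hw, Fintype.prod_prod_type, Fintype.prod_prod_type]
  rw [hsplit]
  have := hη0 s
  field_simp

end Pool.Agent.H32x.AB
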