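import Mathlib
import Pool.Agent.H32x.AB.Geo2

set_option autoImplicit false

/-!
# Two sequences of integers: Poisson statistics after a typical exponent
-/

namespace Pool.Agent.H32x.AB

open Finset Filter Topology MeasureTheory
open Pool.Agent.H305R2 (roughPart)
open Pool.Agent.N176.OW (kap VT VS VS_mono VS_nonneg VT_nonneg)
open Pool.Agent.H32x.PL
open Pool.Agent.H39x.LP

variable {b : ℕ} {κ a : ℝ} {A : ℕ → ℕ → ℤ}

lemma Mn_eq (b : ℕ) (κ : ℝ) (F : ℕ → ℤ) (S : Set ℕ) (θ : ℝ) (n : ℕ) [DecidablePred fun p => p ∈ EZ b κ F S θ] :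
    Mn b κ F S θ n = ((range (n + 1)).filter (fun p => p ∈ EZ b κ F S θ)).card := by
  classical
  unfold Mn
  congr 1
  ext p
  simp only [mem_filter]
  unfold EZ
  simp only [Set.mem_ofPred_eq]
  tauto

lemma sum_B2 (b : ℕ) (κ : ℝ) (A : ℕ → ℕ → ℤ) (S : Set ℕ) (θ : ℝ) (w : Fin 2) (r : ℕ) (x : ℕ → ℝ)
    (F : Finset (Fin r × Fin 2 → ℕ)) (n : ℕ) :
    ∑ k ∈ F, (B2 b κ A S θ w r x k n : ℝ) ≤ Mn b κ (A w) S θ n := by
  classical
  rw [Mn_eq]
  unfold B2
  have h : ∑ k ∈ F, ((range (n + 1)).filter (fun p => p ∈ EZ b κ (A w) S θ ∧ Q2 b κ A S θ r x k p)).card ≤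
      ((range (n + 1)).filter (fun p => p ∈ EZ b κ (A w) S θ)).card := by
    rw [← Finset.card_biUnion]
    · refine Finset.card_le_card ?_
      intro p hp
      rw [mem_biUnion] at hp
      obtain ⟨k, _, hk⟩ := hp
      rw [mem_filter] at hk ⊢
      exact ⟨hk.1, hk.2.1⟩
    · intro k _ k' _ hkk
      rw [Function.onFun, Finset.disjoint_left]
      intro p h1 h2
      rw [mem_filter] at h1 h2
      refine hkk (funext fun i => ?_)
      have h3 := (h1.2.2 i).symm.trans (h2.2.2 i)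
      exact_mod_cast h3
  exact_mod_cast h

/-- total mass of the product of Poisson laws -/
lemma poi_total' {ι : Type} [Fintype ι] [DecidableEq ι] (l : ι → ℝ) {ε : ℝ} (hε : 0 < ε) :
    ∃ F : Finset (ι → ℕ), 1 - ε ≤ ∑ k ∈ F, ∏ i, Poi (l i) (k i) := by
  classical
  have h1 : Tendsto (fun K : ℕ => ∏ i, ∑ m ∈ range K, Poi (l i) m) atTop (𝓝 (∏ _i : ι, (1 : ℝ))) :=
    tendsto_finsetProd _ fun i _ => (hasSum_Poi (l i)).tendsto_sum_nat
  rw [Finset.prod_const_one] at h1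
  obtain ⟨K, hK⟩ := (h1.eventually_const_le (show 1 - ε < 1 by linarith)).exists
  refine ⟨Fintype.piFinset fun _ => range K, ?_⟩
  rw [Finset.prod_univ_sum] at hK
  exact hK

theorem TwoZ.palm (h : TwoZ b κ a A) {S : Set ℕ}
    (hS : Tendsto (fun n => VS S n) atTop atTop)
    (hD : Tendsto (fun n : ℕ => VS S (2 * n) - VS S n) atTop (𝓝 0))
    (hP : ∀ h ≥ 1, Tendsto (fun n => VS (Sh S h) n / VS S n) atTop (𝓝 0)) :
    ∀ᵐ θ : ℝ, ∀ (w : Fin 2) (r : ℕ) (x : ℕ → ℝ) (k : Fin r × Fin 2 → ℕ), x 0 = 0 → (∀ i < r, x i < x (i + 1)) →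
      Tendsto (fun n => (B2 b κ A S θ w r x k n : ℝ) / Mn b κ (A w) S θ n) atTop
        (𝓝 (∏ i : Fin r × Fin 2, Poi ((x (i.1 + 1) - x i.1) * (kp a / kap 2)) (k i))) := by
  classical
  have hv := vv_tendsto (b := 2) le_rfl hS
  have hk2 := kap_pos (b := 2) le_rfl
  have hkp : 0 < kp a := by have := h.ha; unfold kp; positivity
  set m0 := kp a / kap 2 with hm0d
  have hm0 : 0 < m0 := by positivity
  have hae : ∀ᵐ θ : ℝ, ∀ (s r : ℕ) (lo hi : IX r → ℕ) (kk : IX r × Fin 2 → ℕ), (∀ j, lo j ≤ hi j) →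
      (∀ i j, i ≠ j → hi i ≤ lo j ∨ hi j ≤ lo i) →
      Tendsto (fun L : ℕ => (∑ l ∈ range L, ptZ b κ A (fun j => SW 2 S (((l : ℝ) + lo j) * (1 / 2) ^ s)
        (((l : ℝ) + hi j) * (1 / 2) ^ s)) kk θ) / L) atTop
        (𝓝 (∏ y : IX r × Fin 2, Poi (((hi y.1 : ℝ) - lo y.1) * (m0 * (1 / 2) ^ s)) (kk y))) := by
    rw [ae_all_iff]; intro s
    rw [ae_all_iff]; intro r
    rw [ae_all_iff]; intro lo
    rw [ae_all_iff]; intro hi
    rw [ae_all_iff]; intro kk
    by_cases h1 : ∀ j, lo j ≤ hi j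
    · by_cases h2 : ∀ i j, i ≠ j → hi i ≤ lo j ∨ hi j ≤ lo i
      · filter_upwards [h.windows hS hD hP (IX r) lo hi h1 h2 (η := (1 / 2) ^ s) (by positivity) kk]
          with θ hθ _ _
        exact hθ
      · exact Filter.Eventually.of_forall fun θ _ h => absurd h h2
    · exact Filter.Eventually.of_forall fun θ h => absurd h h1
  filter_upwards [hae, h.lln hS hD] with θ hθ1 hθ2 w r x k hx0 hx
  have hMB := hθ2 w
  refine mass (fun (k : Fin r × Fin 2 → ℕ) n => (B2 b κ A S θ w r x k n : ℝ) / Mn b κ (A w) S θ n)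
    (fun k => ∏ i : Fin r × Fin 2, Poi ((x (i.1 + 1) - x i.1) * m0) (k i)) (fun k => ?_) (fun F n => ?_)
    (fun k ε hε => ?_) (fun ε hε => ?_) k
  · exact Finset.prod_nonneg fun i _ => Poi_nonneg (mul_nonneg (by linarith [hx i.1 i.1.2]) hm0.le) _
  · rw [← Finset.sum_div]
    exact div_le_one_of_le₀ (sum_B2 b κ A S θ w r x F n) (Nat.cast_nonneg _)
  · -- lower bound
    have hη0 : ∀ s : ℕ, (0 : ℝ) < (1 / 2) ^ s := fun s => by positivity
    have hηt : Tendsto (fun s : ℕ => ((1 : ℝ) / 2) ^ s) atTop (𝓝 0) :=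
      tendsto_pow_atTop_nhds_zero_of_lt_one (by norm_num) (by norm_num)
    set Q := ∏ i : Fin r × Fin 2, Poi ((x (i.1 + 1) - x i.1) * m0) (k i) with hQ
    have h1 := (lim_prod2 hm0 w r x k hx0 hx hη0 hηt).eventually_const_le
      (show m0 * Q - ε / 2 * m0 < m0 * Q by have := mul_pos (half_pos hε) hm0; linarith)
    have h2 : ∀ᶠ s : ℕ in atTop, ∀ i ∈ range r, 3 * ((1 : ℝ) / 2) ^ s ≤ x (i + 1) - x i := by
      rw [Filter.eventually_all_finset]
      intro i hi
      have h3 := hηt.const_mul 3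
      rw [mul_zero] at h3
      exact h3.eventually_le_const (by linarith [hx i (mem_range.1 hi)])
    obtain ⟨s, hs1, hs2⟩ := (h1.and h2).exists
    set η : ℝ := (1 / 2) ^ s with hη
    have hη0' : 0 < η := hη0 s
    set X : ℕ → ℕ := fun i => ⌊x i / η⌋₊ with hX
    have hxnn : ∀ i ≤ r, 0 ≤ x i := by
      intro i hi
      induction i with
      | zero => rw [hx0]
      | succ i ih => exact (ih (by omega)).trans (hx i (by omega)).le
    have hXs : ∀ i < r, X i + 2 < X (i + 1) := by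
      intro i hi
      have h3 := hs2 i (mem_range.2 hi)
      have h4 : (X i : ℝ) ≤ x i / η := Nat.floor_le (div_nonneg (hxnn i hi.le) hη0'.le)
      have h5 : x (i + 1) / η < X (i + 1) + 1 := Nat.lt_floor_add_one _
      have h6 : x i / η + 3 ≤ x (i + 1) / η := by
        rw [div_add' _ _ _ hη0'.ne']
        gcongr
        linarith
      have h7 : (X i : ℝ) + 3 < X (i + 1) + 1 := by linarith
      have h8 : X i + 3 < X (i + 1) + 1 := by exact_mod_cast h7
      omega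
    have hW := hθ1 s r (loX X r) (hiX X r) (kX2 w k)
      (lo_le_hi (fun h => by have := hXs 0 h; simp only [zero_add] at this; omega)
      (fun i _ hi => (hXs i hi).le)) (dis_lo_hi (fun h => by have := hXs 0 h; simp only [zero_add] at this; omega)
      (fun i _ hi => (hXs i hi).le))
    set g := ∏ y : IX r × Fin 2, Poi (((hiX X r y.1 : ℝ) - loX X r y.1) * (m0 * (1 / 2) ^ s)) (kX2 w k y) with hg
    set Ln : ℕ → ℕ := fun n => ⌊vv 2 S n / η⌋₊ with hLn
    have hvη : Tendsto (fun n => vv 2 S n / η) atTop atTop := hv.atTop_div_const hη0'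
    have hLt : Tendsto Ln atTop atTop := tendsto_nat_floor_atTop.comp hvη
    have h3 := hW.comp hLt
    have h4 : Tendsto (fun n => (Ln n : ℝ) / vv 2 S n) atTop (𝓝 (1 / η)) := by
      have h5 := ((tendsto_nat_floor_div_atTop (R := ℝ)).comp hvη).div_const η
      refine h5.congr fun n => ?_
      simp only [Function.comp, hLn]
      field_simp
    have h5 : Tendsto (fun n => vv 2 S n / (Mn b κ (A w) S θ n : ℝ)) atTop (𝓝 (m0⁻¹)) := by
      have := hMB.inv₀ hm0.ne'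
      refine this.congr fun n => ?_
      rw [inv_div]
    have h6 := (h3.mul h4).mul h5
    have hlt : g / η * m0⁻¹ - ε / 2 < g * (1 / η) * m0⁻¹ := by
      have : g * (1 / η) * m0⁻¹ = g / η * m0⁻¹ := by ring
      rw [this]; linarith
    have h7 := h6.eventually_const_le hlt
    have hs1' : Q - ε / 2 ≤ g / η * m0⁻¹ := by
      rw [← div_eq_mul_inv, le_div_iff₀ hm0]
      calc (Q - ε / 2) * m0 = m0 * Q - ε / 2 * m0 := by ring
        _ ≤ g / η := hs1
    filter_upwards [h7, hv.eventually_gt_atTop 0, hLt.eventually_ge_atTop 1] with n hn hv0 hL1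
    have hL0 : (0 : ℝ) < Ln n := by exact_mod_cast hL1
    have hLη : (Ln n : ℝ) * η ≤ vv 2 S n := by
      have := Nat.floor_le (div_nonneg hv0.le hη0'.le)
      rwa [le_div_iff₀ hη0'] at this
    have hcount := count2 (b := b) (κ := κ) (A := A) hv θ hη0' w r x k hx0 hx (Ln n) n hLη
    simp only [Function.comp] at hn
    have e : (∑ l ∈ range (Ln n), ptZ b κ A (fun j => SW 2 S (((l : ℝ) + loX X r j) * (1 / 2) ^ s)
        (((l : ℝ) + hiX X r j) * (1 / 2) ^ s)) (kX2 w k) θ) / (Ln n : ℝ) * ((Ln n : ℝ) / vv 2 S n) *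
        (vv 2 S n / (Mn b κ (A w) S θ n : ℝ)) =
        (∑ l ∈ range (Ln n), ptZ b κ A (fun j => SW 2 S (((l : ℝ) + loX X r j) * (1 / 2) ^ s)
        (((l : ℝ) + hiX X r j) * (1 / 2) ^ s)) (kX2 w k) θ) / (Mn b κ (A w) S θ n : ℝ) := by
      rw [div_mul_div_cancel₀ hL0.ne', div_mul_div_cancel₀ hv0.ne']
    rw [e] at hn
    have h8 : (∑ l ∈ range (Ln n), ptZ b κ A (fun j => SW 2 S (((l : ℝ) + loX X r j) * (1 / 2) ^ s)
        (((l : ℝ) + hiX X r j) * (1 / 2) ^ s)) (kX2 w k) θ) / (Mn b κ (A w) S θ n : ℝ) ≤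
        (B2 b κ A S θ w r x k n : ℝ) / Mn b κ (A w) S θ n :=
      div_le_div_of_nonneg_right hcount (Nat.cast_nonneg _)
    linarith
  · exact poi_total' (fun i : Fin r × Fin 2 => (x (i.1 + 1) - x i.1) * m0) hε

end Pool.Agent.H32x.AB
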