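import Mathlib
import Pool.Agent.H39x.LP.Joint2
import Pool.Agent.H32x.AB.Palm2
import Pool.Agent.H32x.AB.Nth

set_option autoImplicit false

/-!
# Two sequences of integers with the same random digits: the Poisson data
-/

namespace Pool.Agent.H32x.AB

open Finset Filter Topology MeasureTheory
open Pool.Agent.H305R2 (roughPart)
open Pool.Agent.N176.OW (kap VT VS VS_mono VS_nonneg VT_nonneg)
open Pool.Agent.H32x.PL
open Pool.Agent.H39x.LP

variable {b : ℕ} {κ a : ℝ} {A : ℕ → ℕ → ℤ}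

lemma TwoZ.joint (h : TwoZ b κ a A) : ∀ᵐ θ : ℝ, {p : ℕ | p.Prime ∧
    (roughPart p (Pool.Agent.H39x.LP.sq b κ (A 0) θ p)).Prime ∧
    (roughPart p (Pool.Agent.H39x.LP.sq b κ (A 1) θ p)).Prime}.Finite := by
  obtain ⟨c0, C0, hc0, h0⟩ := h.hA 0 (by norm_num)
  obtain ⟨c1, C1, hc1, h1⟩ := h.hA 1 (by norm_num)
  refine joint_digits h.hb h.ha h.hκ h.hκ1 (c := min c0 c1) (C := max C0 C1) (lt_min hc0 hc1) ?_ ?_ h.ne
  · filter_upwards [h0] with p hp hpp
    obtain ⟨h2, h3⟩ := hp hpp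
    have hE := Real.exp_pos (a * p)
    exact ⟨(mul_le_mul_of_nonneg_right (min_le_left _ _) hE.le).trans h2,
      h3.trans (mul_le_mul_of_nonneg_right (le_max_left _ _) hE.le)⟩
  · filter_upwards [h1] with p hp hpp
    obtain ⟨h2, h3⟩ := hp hpp
    have hE := Real.exp_pos (a * p)
    exact ⟨(mul_le_mul_of_nonneg_right (min_le_right _ _) hE.le).trans h2,
      h3.trans (mul_le_mul_of_nonneg_right (le_max_right _ _) hE.le)⟩

theorem TwoZ.pd (h : TwoZ b κ a A) {S : Set ℕ}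
    (hS : Tendsto (fun n => VS S n) atTop atTop)
    (hD : Tendsto (fun n : ℕ => VS S (2 * n) - VS S n) atTop (𝓝 0))
    (hP : ∀ h ≥ 1, Tendsto (fun n => VS (Sh S h) n / VS S n) atTop (𝓝 0)) :
    ∀ᵐ θ : ℝ, PD (fun j => EZ b κ (A j) S θ) (vv 2 S) (kp a / kap 2) := by
  classical
  have hv := vv_tendsto (b := 2) le_rfl hS
  have hk2 := kap_pos (b := 2) le_rfl
  have hkp : 0 < kp a := by have := h.ha; unfold kp; positivity
  filter_upwards [h.palm hS hD hP, h.lln hS hD, h.joint] with θ h1 h2 h3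
  have e1 : ∀ (w : Fin 2) (n : ℕ), {p ∈ EZ b κ (A w) S θ | p ≤ n}.ncard = Mn b κ (A w) S θ n := by
    intro w n
    rw [Mn_eq, ← Set.ncard_coe_finset]
    congr 1
    ext p
    simp only [Set.mem_ofPred_eq, Finset.coe_filter, mem_range]
    constructor
    · rintro ⟨h4, h5⟩
      exact ⟨by omega, h4⟩
    · rintro ⟨h4, h5⟩
      exact ⟨h5, by omega⟩
  have hSp : ∀ p ∈ UU (fun j : Fin 2 => EZ b κ (A j) S θ), p.Prime ∧ p ∈ S := by
    rintro p ⟨t, ht⟩
    exact ⟨ht.1, ht.2.1⟩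
  refine ⟨by positivity, ?_, hv, ?_, ?_, ?_⟩
  · intro p hp q hq
    constructor
    · intro h4
      by_contra h5
      have := vv_mono 2 S (not_lt.1 h5)
      linarith
    · intro h4
      exact vv_lt (b := 2) le_rfl (hSp q hq).1 (hSp q hq).2 h4
  · intro w
    simp only [e1]
    exact h2 w
  · refine h3.subset ?_
    rintro p ⟨h4, h5⟩
    exact ⟨h4.1, h4.2.2, h5.2.2⟩
  · intro w r x k hx0 hx
    have h4 := h1 w r x k hx0 hx
    simp only [e1]
    refine h4.congr fun n => ?_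
    congr 2
    unfold B2
    rw [← Set.ncard_coe_finset]
    congr 1
    ext p
    simp only [Set.mem_ofPred_eq, Finset.coe_filter, mem_range]
    constructor
    · rintro ⟨h4, h5, h6⟩
      exact ⟨h5, by omega, h6⟩
    · rintro ⟨h4, h5, h6⟩
      exact ⟨by omega, h4, h6⟩

end Pool.Agent.H32x.AB
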